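import Pool.Agent.Hul.Sz

/-!
# MP_67b84b_gt: the moments of the Bernstein-Szegő measure
-/

set_option autoImplicit false

namespace Pool.Agent.Hul

open ComplexConjugate Real

/-- moment number `k` of the measure with the first `m` coefficients of `a` -/
noncomputable def mu (a : ℕ → ℂ) (m k : ℕ) : ℂ :=
  circleAverage (fun z : ℂ => (dd a z m : ℂ) * z ^ k) 0 1

-- MODULE zd
private theorem zd_aux (u : ℂ) (hu : u ≠ 1) :
    (1 - ‖u‖ ^ 2) / ‖1 - u‖ ^ 2 - 1 = (2 * u / (1 - u)).re := by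
  have h1 : (1 - u) ≠ 0 := sub_ne_zero.mpr (Ne.symm hu)
  have hN : Complex.normSq (1 - u) ≠ 0 := by
    rw [Ne, Complex.normSq_eq_zero]; exact h1
  rw [← Complex.normSq_eq_norm_sq, ← Complex.normSq_eq_norm_sq, Complex.div_re, div_sub_one hN,
    ← add_div]
  congr 1
  simp only [Complex.normSq_apply, Complex.sub_re, Complex.sub_im, Complex.one_re, Complex.one_im,
    Complex.mul_re, Complex.mul_im, Complex.re_ofNat, Complex.im_ofNat]
  ring

/-- Both sides are `rr a m / |Φ*_m|²` times `Re (2 a b / (1 - a b))`, where `b = z Φ_m / Φ*_m` has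
`|b| = 1`, and `b / |Φ*_m|² = z ^ (m + 1) / (Φ*_m)²` by `ph_circle`. -/
theorem dd_diff (a : ℕ → ℂ) (ha : ∀ j, ‖a j‖ < 1) (z : ℂ) (hz : ‖z‖ = 1) (m : ℕ) :
    dd a z (m + 1) - dd a z m =
      (2 * a m * rr a m * z ^ (m + 1) / ((ph a z (m + 1)).2 * (ph a z m).2)).re := by
  obtain ⟨hs, -⟩ := ph_ne a ha z hz.le m
  have hp := ph_circle a z hz m
  have hs1 : (ph a z (m + 1)).2 = (ph a z m).2 - a m * (z * (ph a z m).1) := rfl
  obtain ⟨hs1', -⟩ := ph_ne a ha z hz.le (m + 1)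
  set s := (ph a z m).2 with hsdef
  set p := (ph a z m).1 with hpdef
  set s1 := (ph a z (m + 1)).2 with hs1def
  have hrr : rr a (m + 1) = rr a m * (1 - ‖a m‖ ^ 2) := by
    unfold rr; rw [Finset.prod_range_succ]
  set u : ℂ := a m * (z * p) / s with hu
  have hs1u : s1 = s * (1 - u) := by
    rw [hs1, hu]; field_simp
  have hu1 : u ≠ 1 := by
    intro h
    apply hs1'
    rw [hs1u, h]; simp
  have hpn : ‖p‖ = ‖s‖ := by
    rw [hp, norm_mul, norm_pow, hz, one_pow, one_mul, Complex.norm_conj]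
  have hun : ‖u‖ = ‖a m‖ := by
    rw [hu, norm_div, norm_mul, norm_mul, hz, hpn, one_mul]
    have : ‖s‖ ≠ 0 := by simpa using hs
    field_simp
  have hkey := zd_aux u hu1
  have hsn : ‖s‖ ≠ 0 := by simpa using hs
  have h1u : (1 : ℂ) - u ≠ 0 := sub_ne_zero.mpr (Ne.symm hu1)
  have h1un : ‖1 - u‖ ≠ 0 := by simpa using h1u
  have hL : dd a z (m + 1) - dd a z m = rr a m / ‖s‖ ^ 2 * ((1 - ‖u‖ ^ 2) / ‖1 - u‖ ^ 2 - 1) := by
    unfold dd
    rw [← hs1def, ← hsdef, hs1u, hrr, hun, norm_mul]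
    field_simp
  rw [hL, hkey]
  have hss : ((‖s‖ ^ 2 : ℝ) : ℂ) = s * conj s := by
    rw [Complex.mul_conj, Complex.normSq_eq_norm_sq]
  have hcs : conj s ≠ 0 := by simpa using hs
  have hR : 2 * a m * rr a m * z ^ (m + 1) / (s1 * s)
      = ((rr a m / ‖s‖ ^ 2 : ℝ) : ℂ) * (2 * u / (1 - u)) := by
    rw [Complex.ofReal_div, hss, hs1u, hu, hp]
    have h1u' : (1 : ℂ) - a m * (z * (z ^ m * conj s)) / s ≠ 0 := by
      rw [← hp]; exact h1u
    have h2 : s - a m * (z * (z ^ m * conj s)) ≠ 0 := by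
      intro h
      apply h1u'
      have h3 : (1 : ℂ) - a m * (z * (z ^ m * conj s)) / s = (s - a m * (z * (z ^ m * conj s))) / s := by
        field_simp
      rw [h3, h, zero_div]
    rw [pow_succ' z m]
    field_simp
  rw [hR, Complex.re_ofReal_mul]

-- MODULE ze
private noncomputable def ze_H (a : ℕ → ℂ) (m : ℕ) (z : ℂ) : ℂ :=
  2 * a m * rr a m / ((ph a z (m + 1)).2 * (ph a z m).2)

private theorem ze_diffcont (a : ℕ → ℂ) (ha : ∀ j, ‖a j‖ < 1) (m j : ℕ) :
    DiffContOnCl ℂ (fun z : ℂ => z ^ j * ze_H a m z) (Metric.ball 0 |(1 : ℝ)|) := by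
  apply DifferentiableOn.diffContOnCl
  rw [abs_one, closure_ball _ one_ne_zero]
  intro z hz
  have hz' : ‖z‖ ≤ 1 := by simpa using hz
  apply DifferentiableAt.differentiableWithinAt
  unfold ze_H
  have h1 := (ph_ne a ha z hz' (m + 1)).1
  have h2 := (ph_ne a ha z hz' m).1
  have e1 := (ph_differentiable a (m + 1)) z
  have e2 := (ph_differentiable a m) z
  exact (differentiableAt_id.pow j).mul ((differentiableAt_const _).div (e1.mul e2)
    (mul_ne_zero h1 h2))

private theorem ze_avg (a : ℕ → ℂ) (ha : ∀ j, ‖a j‖ < 1) (m j : ℕ) :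
    circleAverage (fun z : ℂ => z ^ j * ze_H a m z) 0 1 = (0 : ℂ) ^ j * (2 * a m * rr a m) := by
  rw [(ze_diffcont a ha m j).circleAverage]
  unfold ze_H
  rw [ph_zero, ph_zero]
  simp

private theorem ze_ci (a : ℕ → ℂ) (ha : ∀ j, ‖a j‖ < 1) (m j : ℕ) :
    CircleIntegrable (fun z : ℂ => z ^ j * ze_H a m z) 0 1 := by
  apply ContinuousOn.circleIntegrable zero_le_one
  have h := (ze_diffcont a ha m j).continuousOn
  rw [abs_one, closure_ball _ one_ne_zero] at h
  exact h.mono Metric.sphere_subset_closedBall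

private theorem ze_dd_cont (a : ℕ → ℂ) (ha : ∀ j, ‖a j‖ < 1) (m : ℕ) :
    ContinuousOn (fun z : ℂ => dd a z m) (Metric.closedBall 0 1) := by
  intro z hz
  have hz' : ‖z‖ ≤ 1 := by simpa using hz
  apply ContinuousAt.continuousWithinAt
  unfold dd
  have h2 := (ph_ne a ha z hz' m).1
  have e2 : Continuous (fun z : ℂ => (ph a z m).2) := (ph_differentiable a m).continuous
  exact continuousAt_const.div (e2.continuousAt.norm.pow 2) (pow_ne_zero _ (norm_ne_zero_iff.mpr h2))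

private theorem ze_dd_ci (a : ℕ → ℂ) (ha : ∀ j, ‖a j‖ < 1) (m k : ℕ) :
    CircleIntegrable (fun z : ℂ => (dd a z m : ℂ) * z ^ k) 0 1 := by
  apply ContinuousOn.circleIntegrable zero_le_one
  have h := (ze_dd_cont a ha m).mono Metric.sphere_subset_closedBall
  exact (Complex.continuous_ofReal.comp_continuousOn h).mul (continuousOn_id.pow k)

/-- With `H z = 2 * a m * rr a m / (Φ*_{m+1} Φ*_m)`, holomorphic in a neighbourhood of the closed
disc, `H 0 = 2 * a m * rr a m`: on the circle `dd_{m+1} - dd_m = (z^(m+1) H + conj (z^(m+1) H)) / 2`;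
multiply by `z ^ k`, `k ≤ m + 1`, and use the mean value property for `z^(m+1+k) H` and
`z^(m+1-k) H` (`DiffContOnCl.circleAverage`). -/
theorem mu_diff (a : ℕ → ℂ) (ha : ∀ j, ‖a j‖ < 1) (m k : ℕ) (hk : k ≤ m + 1) :
    mu a (m + 1) k - mu a m k = if k = m + 1 then rr a m * conj (a m) else 0 := by
  unfold mu
  rw [← circleAverage_fun_sub (ze_dd_ci a ha (m + 1) k) (ze_dd_ci a ha m k)]
  have h1 : circleAverage (fun z : ℂ => (dd a z (m + 1) : ℂ) * z ^ k - (dd a z m : ℂ) * z ^ k) 0 1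
      = circleAverage (fun z : ℂ => (1 / 2 : ℂ) • (z ^ (m + 1 + k) * ze_H a m z)
        + (1 / 2 : ℂ) • ((Complex.conjCLE : ℂ →L[ℝ] ℂ) ∘ (fun z : ℂ => z ^ (m + 1 - k) * ze_H a m z)) z)
        0 1 := by
    apply circleAverage_congr_sphere
    intro z hz
    have hz' : ‖z‖ = 1 := by simpa using hz
    have hd := dd_diff a ha z hz' m
    have hzz : z * conj z = 1 := by
      rw [Complex.mul_conj, Complex.normSq_eq_norm_sq, hz']; simp
    have hH : 2 * a m * rr a m * z ^ (m + 1) / ((ph a z (m + 1)).2 * (ph a z m).2)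
        = z ^ (m + 1) * ze_H a m z := by
      unfold ze_H; ring
    rw [hH] at hd
    have hd' : (dd a z (m + 1) : ℂ) - (dd a z m : ℂ)
        = (1 / 2 : ℂ) * (z ^ (m + 1) * ze_H a m z + conj (z ^ (m + 1) * ze_H a m z)) := by
      rw [← Complex.ofReal_sub, hd, Complex.re_eq_add_conj]; ring
    have hpow : z ^ (m + 1) = z ^ (m + 1 - k) * z ^ k := by
      rw [← pow_add]; congr 1; omega
    have hck : conj (z ^ (m + 1)) * z ^ k = conj (z ^ (m + 1 - k)) := by
      rw [hpow, map_mul, mul_assoc]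
      have : conj (z ^ k) * z ^ k = 1 := by
        rw [map_pow, ← mul_pow, mul_comm (conj z) z, hzz, one_pow]
      rw [this, mul_one]
    show (dd a z (m + 1) : ℂ) * z ^ k - (dd a z m : ℂ) * z ^ k
      = (1 / 2 : ℂ) * (z ^ (m + 1 + k) * ze_H a m z) + (1 / 2 : ℂ) * conj (z ^ (m + 1 - k) * ze_H a m z)
    rw [← sub_mul, hd', map_mul, map_mul, ← hck, pow_add]
    ring
  rw [h1]
  have ci1 : CircleIntegrable (fun z : ℂ => (1 / 2 : ℂ) • (z ^ (m + 1 + k) * ze_H a m z)) 0 1 :=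
    (ze_ci a ha m (m + 1 + k)).const_smul
  have ci2' : CircleIntegrable ((Complex.conjCLE : ℂ →L[ℝ] ℂ) ∘
      (fun z : ℂ => z ^ (m + 1 - k) * ze_H a m z)) 0 1 := by
    apply ContinuousOn.circleIntegrable zero_le_one
    have h := (ze_diffcont a ha m (m + 1 - k)).continuousOn
    rw [abs_one, closure_ball _ one_ne_zero] at h
    exact (ContinuousLinearMap.continuous _).comp_continuousOn
      (h.mono Metric.sphere_subset_closedBall)
  have ci2 : CircleIntegrable (fun z : ℂ => (1 / 2 : ℂ) • ((Complex.conjCLE : ℂ →L[ℝ] ℂ) ∘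
      (fun z : ℂ => z ^ (m + 1 - k) * ze_H a m z)) z) 0 1 := ci2'.const_smul
  rw [circleAverage_fun_add ci1 ci2, circleAverage_fun_smul, circleAverage_fun_smul,
    ContinuousLinearMap.circleAverage_comp_comm _ (ze_ci a ha m (m + 1 - k)), ze_avg a ha, ze_avg a ha]
  show (1 / 2 : ℂ) * _ + (1 / 2 : ℂ) * conj _ = _
  rw [zero_pow (show m + 1 + k ≠ 0 by omega)]
  split_ifs with hkm
  · rw [hkm, Nat.sub_self, pow_zero, one_mul, map_mul, map_mul, Complex.conj_ofReal,
      map_ofNat (starRingEnd ℂ) 2]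
    ring
  · have : m + 1 - k ≠ 0 := by omega
    rw [zero_pow this]
    simp

theorem mu_zero (a : ℕ → ℂ) (ha : ∀ j, ‖a j‖ < 1) (m : ℕ) : mu a m 0 = 1 := by
  induction m with
  | zero =>
    unfold mu
    apply circleAverage_const_on_circle
    intro z _
    simp [dd, rr, ph]
  | succ m ih =>
    have h := mu_diff a ha m 0 (by omega)
    rw [if_neg (by omega), sub_eq_zero] at h
    rw [h, ih]

theorem mu_stab (a : ℕ → ℂ) (ha : ∀ j, ‖a j‖ < 1) (m k : ℕ) (hk : k ≤ m) :
    mu a m k = mu a k k := by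
  induction m, hk using Nat.le_induction with
  | base => rfl
  | succ m hm ih =>
    have h := mu_diff a ha m k (by omega)
    rw [if_neg (by omega), sub_eq_zero] at h
    rw [h, ih]

-- MODULE zf
theorem mu_congr (a b : ℕ → ℂ) (m k : ℕ) (h : ∀ j < m, a j = b j) : mu a m k = mu b m k := by
  unfold mu
  congr 1
  funext z
  unfold dd
  rw [ph_congr a b z m h, rr_congr a b m h]

theorem mu_measurable (m k : ℕ) : Measurable (fun a : ℕ → ℂ => mu a m k) := by
  have hc : Measurable (fun p : (ℕ → ℂ) × ℝ => circleMap 0 1 p.2) :=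
    (continuous_circleMap 0 1).measurable.comp measurable_snd
  have hd : Measurable (fun p : (ℕ → ℂ) × ℝ => dd p.1 (circleMap 0 1 p.2) m) := by
    have h := dd_measurable m
    generalize hF : (fun p : (ℕ → ℂ) × ℂ => dd p.1 p.2 m) = F at h
    have h1 : (fun p : (ℕ → ℂ) × ℝ => dd p.1 (circleMap 0 1 p.2) m)
        = F ∘ (fun p : (ℕ → ℂ) × ℝ => ((p.1, circleMap 0 1 p.2) : (ℕ → ℂ) × ℂ)) := by
      rw [← hF]; rfl
    rw [h1]
    exact h.comp (Measurable.prodMk measurable_fst hc)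
  have hF : Measurable (fun p : (ℕ → ℂ) × ℝ =>
      (dd p.1 (circleMap 0 1 p.2) m : ℂ) * circleMap 0 1 p.2 ^ k) :=
    (Complex.measurable_ofReal.comp hd).mul (hc.pow_const k)
  have hI : MeasureTheory.StronglyMeasurable (fun a : ℕ → ℂ => ∫ θ, (fun p : (ℕ → ℂ) × ℝ =>
      (dd p.1 (circleMap 0 1 p.2) m : ℂ) * circleMap 0 1 p.2 ^ k) (a, θ)
        ∂(MeasureTheory.volume.restrict (Set.Ioc (0 : ℝ) (2 * π)))) :=
    hF.stronglyMeasurable.integral_prod_right'
  have he : (fun a : ℕ → ℂ => mu a m k) = fun a => (2 * π)⁻¹ • ∫ θ, (fun p : (ℕ → ℂ) × ℝ =>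
      (dd p.1 (circleMap 0 1 p.2) m : ℂ) * circleMap 0 1 p.2 ^ k) (a, θ)
        ∂(MeasureTheory.volume.restrict (Set.Ioc (0 : ℝ) (2 * π))) := by
    funext a
    unfold mu
    rw [circleAverage_def, intervalIntegral.integral_of_le two_pi_pos.le]
  rw [he]
  exact (hI.const_smul ((2 * π)⁻¹ : ℝ)).measurable

/-- the measure is a probability measure -/
theorem dd_average (a : ℕ → ℂ) (ha : ∀ j, ‖a j‖ < 1) (m : ℕ) :
    circleAverage (fun z : ℂ => dd a z m) 0 1 = 1 := by
  have h := mu_zero a ha m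
  unfold mu at h
  have hci : CircleIntegrable (fun z : ℂ => dd a z m) 0 1 := by
    apply ContinuousOn.circleIntegrable zero_le_one
    exact (ze_dd_cont a ha m).mono Metric.sphere_subset_closedBall
  have h2 := ContinuousLinearMap.circleAverage_comp_comm Complex.ofRealCLM hci
  have h3 : (fun z : ℂ => (dd a z m : ℂ) * z ^ 0) = (Complex.ofRealCLM ∘ fun z : ℂ => dd a z m) := by
    funext z
    simp
  rw [h3, h2] at h
  have h4 : ((circleAverage (fun z : ℂ => dd a z m) 0 1 : ℝ) : ℂ) = 1 := h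
  exact_mod_cast h4

end Pool.Agent.Hul
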