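import Pool.Agent.Hul.Bod
import Pool.Agent.Hul.Mu

/-!
# MP_67b84b_gt: the moment body, parametrised by Bernstein-Szegő measures

`c k` is the moment number `k + 1`. This repeats `Bod.lean` with the moments `mu` in place of `mom`.
-/

set_option autoImplicit false

namespace Pool.Agent.Hul

open ComplexConjugate MeasureTheory Metric

/-- the first `k` Verblunsky coefficients of the sequence of moments `c` (and 0 afterwards) -/
noncomputable def vr (c : ℕ → ℂ) : ℕ → (ℕ → ℂ)
  | 0 => 0
  | k + 1 => Function.update (vr c k) k (conj ((c k - mu (vr c k) k (k + 1)) / rr (vr c k) k))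

/-- centre of the disc of the possible moments `c k` -/
noncomputable def ce (c : ℕ → ℂ) (k : ℕ) : ℂ := mu (vr c k) k (k + 1)

/-- radius of this disc -/
noncomputable def ra (c : ℕ → ℂ) (k : ℕ) : ℝ := rr (vr c k) k

/-- the open moment body -/
def SS (m : ℕ) : Set (ℕ → ℂ) := {c | ∀ k < m, ‖c k - ce c k‖ < ra c k}

/-- change of the moment number `m` (index `m`) so that the coefficient `m` becomes `α` -/
noncomputable def up (c : ℕ → ℂ) (m : ℕ) (α : ℂ) : ℕ → ℂ :=
  Function.update c m (ce c m + ra c m * conj α)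

-- MODULE zg
private theorem zg_vr (c d : ℕ → ℂ) : ∀ k : ℕ, (∀ j < k, c j = d j) → vr c k = vr d k
  | 0, _ => rfl
  | k + 1, h => by
    have ih := zg_vr c d k fun j hj => h j (Nat.lt_succ_of_lt hj)
    rw [vr, vr, ih, h k (Nat.lt_succ_self k)]

private theorem zg_rr (k : ℕ) : Continuous fun a : ℕ → ℂ => rr a k := by
  unfold rr
  refine continuous_finsetProd _ fun j _ => ?_
  fun_prop

private theorem zg_meas : ∀ k : ℕ, Measurable fun c : ℕ → ℂ => vr c k
  | 0 => measurable_const
  | k + 1 => by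
    have ih := zg_meas k
    rw [measurable_pi_iff] at ih ⊢
    intro j
    by_cases hj : j = k
    · subst hj
      have e : (fun c : ℕ → ℂ => vr c (j + 1) j) =
          fun c => (starRingEnd ℂ) ((c j - mu (vr c j) j (j + 1)) / rr (vr c j) j) := by
        funext c
        rw [vr, Function.update_self]
      rw [e]
      have h1 : Measurable fun c : ℕ → ℂ => mu (vr c j) j (j + 1) :=
        (mu_measurable j (j + 1)).comp (zg_meas j)
      have h2 : Measurable fun c : ℕ → ℂ => ((rr (vr c j) j : ℝ) : ℂ) :=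
        Complex.measurable_ofReal.comp ((zg_rr j).measurable.comp (zg_meas j))
      have h3 : Measurable fun c : ℕ → ℂ => c j := measurable_pi_apply j
      exact Complex.continuous_conj.measurable.comp ((h3.sub h1).div h2)
    · have e : (fun c : ℕ → ℂ => vr c (k + 1) j) = fun c => vr c k j := by
        funext c
        rw [vr, Function.update_of_ne hj]
      rw [e]
      exact ih j

theorem vr_congr (c d : ℕ → ℂ) (k : ℕ) (h : ∀ j < k, c j = d j) : vr c k = vr d k := by
  exact zg_vr c d k h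

theorem ce_congr (c d : ℕ → ℂ) (k : ℕ) (h : ∀ j < k, c j = d j) : ce c k = ce d k := by
  unfold ce
  rw [zg_vr c d k h]

theorem ra_congr (c d : ℕ → ℂ) (k : ℕ) (h : ∀ j < k, c j = d j) : ra c k = ra d k := by
  unfold ra
  rw [zg_vr c d k h]

theorem vr_measurable (k : ℕ) : Measurable (fun c : ℕ → ℂ => vr c k) := by
  exact zg_meas k

theorem ce_measurable (k : ℕ) : Measurable (fun c : ℕ → ℂ => ce c k) := by
  exact (mu_measurable k (k + 1)).comp (zg_meas k)

theorem ra_measurable (k : ℕ) : Measurable (fun c : ℕ → ℂ => ra c k) := by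
  exact (zg_rr k).measurable.comp (zg_meas k)

theorem SS_measurable (m : ℕ) : MeasurableSet (SS m) := by
  have e : SS m = ⋂ k : ℕ, ⋂ _ : k < m, {c | ‖c k - ce c k‖ < ra c k} := by
    ext c
    simp [SS]
  rw [e]
  refine MeasurableSet.iInter fun k => MeasurableSet.iInter fun _ => ?_
  exact measurableSet_lt (((measurable_pi_apply k).sub (ce_measurable k)).norm) (ra_measurable k)

-- MODULE zh
private theorem zh_stab (c : ℕ → ℂ) (j : ℕ) : ∀ k : ℕ, j < k → vr c k j = vr c (j + 1) j
  | 0, h => absurd h (Nat.not_lt_zero j)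
  | k + 1, h => by
    rcases Nat.lt_succ_iff_lt_or_eq.mp h with h | h
    · rw [← zh_stab c j k h]
      rw [vr, Function.update_of_ne (Nat.ne_of_lt h)]
    · rw [h]

private theorem zh_late (c : ℕ → ℂ) (j : ℕ) : ∀ k : ℕ, k ≤ j → vr c k j = 0
  | 0, _ => rfl
  | k + 1, h => by
    rw [vr, Function.update_of_ne (Nat.ne_of_gt h)]
    exact zh_late c j k (Nat.le_of_succ_le h)

private theorem zh_last (c : ℕ → ℂ) (j : ℕ) :
    vr c (j + 1) j = conj ((c j - ce c j) / ra c j) := by
  rw [vr, Function.update_self]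
  rfl

private theorem zh_rk (c : ℕ → ℂ) (k : ℕ) : rr (vr c (k + 1)) k = ra c k := by
  unfold ra rr
  refine Finset.prod_congr rfl fun j hj => ?_
  rw [Finset.mem_range] at hj
  rw [zh_stab c j (k + 1) (Nat.lt_succ_of_lt hj), zh_stab c j k hj]

private theorem zh_rr (c : ℕ → ℂ) (k : ℕ) :
    ra c (k + 1) = ra c k * (1 - ‖vr c (k + 1) k‖ ^ 2) := by
  rw [← zh_rk c k]
  unfold ra rr
  rw [Finset.prod_range_succ]

private theorem zh_norm (c : ℕ → ℂ) (k : ℕ) :
    ‖vr c (k + 1) k‖ ^ 2 = ‖c k - ce c k‖ ^ 2 / ra c k ^ 2 := by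
  rw [zh_last, Complex.norm_conj, norm_div, div_pow, Complex.norm_real, Real.norm_eq_abs, sq_abs]

theorem ra_pos (c : ℕ → ℂ) (m : ℕ) (h : c ∈ SS m) : 0 < ra c m := by
  induction m with
  | zero =>
    unfold ra rr
    simp
  | succ m ih =>
    have h1 : 0 < ra c m := ih fun k hk => h k (Nat.lt_succ_of_lt hk)
    have h2 : ‖c m - ce c m‖ < ra c m := h m (Nat.lt_succ_self m)
    rw [zh_rr, zh_norm]
    refine mul_pos h1 (sub_pos.mpr ?_)
    rw [div_lt_one (pow_pos h1 2)]
    exact pow_lt_pow_left₀ h2 (norm_nonneg _) two_ne_zero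

theorem vr_lt (c : ℕ → ℂ) (m : ℕ) (h : c ∈ SS m) (j : ℕ) : ‖vr c m j‖ < 1 := by
  by_cases hj : j < m
  · have h1 : 0 < ra c j := ra_pos c j fun k hk => h k (lt_trans hk hj)
    rw [zh_stab c j m hj, zh_last, Complex.norm_conj, norm_div, Complex.norm_real,
      Real.norm_eq_abs, abs_of_pos h1, div_lt_one h1]
    exact h j hj
  · rw [zh_late c j m (not_lt.1 hj), norm_zero]
    exact one_pos

/-- `mu_stab`, `mu_congr`, `mu_diff` -/
theorem mu_vr (c : ℕ → ℂ) (m : ℕ) (h : c ∈ SS m) (k : ℕ) (hk : k < m) :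
    mu (vr c m) m (k + 1) = c k := by
  have h1 : 0 < ra c k := ra_pos c k fun j hj => h j (lt_trans hj hk)
  have hk1 : c ∈ SS (k + 1) := fun j hj => h j (lt_of_lt_of_le hj hk)
  rw [mu_stab (vr c m) (vr_lt c m h) m (k + 1) hk]
  have e1 : mu (vr c m) (k + 1) (k + 1) = mu (vr c (k + 1)) (k + 1) (k + 1) := by
    refine mu_congr _ _ _ _ fun j hj => ?_
    rw [zh_stab c j m (lt_of_lt_of_le hj hk), zh_stab c j (k + 1) hj]
  have e2 := mu_diff (vr c (k + 1)) (vr_lt c (k + 1) hk1) k (k + 1) le_rfl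
  rw [if_pos rfl, zh_rk, zh_last, Complex.conj_conj] at e2
  have e3 : mu (vr c (k + 1)) k (k + 1) = ce c k := by
    unfold ce
    refine mu_congr _ _ _ _ fun j hj => ?_
    rw [zh_stab c j (k + 1) (Nat.lt_succ_of_lt hj), zh_stab c j k hj]
  have hne : ((ra c k : ℝ) : ℂ) ≠ 0 := Complex.ofReal_ne_zero.mpr h1.ne'
  rw [mul_div_cancel₀ _ hne, e3] at e2
  rw [e1]
  exact sub_left_injective e2

-- MODULE zi
theorem SS_congr (c d : ℕ → ℂ) (m : ℕ) (h : ∀ j < m, c j = d j) : c ∈ SS m ↔ d ∈ SS m := by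
  have e : ∀ k < m, (‖c k - ce c k‖ < ra c k ↔ ‖d k - ce d k‖ < ra d k) := fun k hk => by
    rw [ce_congr c d k fun j hj => h j (hj.trans hk), ra_congr c d k fun j hj => h j (hj.trans hk),
      h k hk]
  constructor
  · intro hc k hk
    exact (e k hk).1 (hc k hk)
  · intro hc k hk
    exact (e k hk).2 (hc k hk)

private theorem zi_lo (c : ℕ → ℂ) (m : ℕ) (α : ℂ) : ∀ j < m, up c m α j = c j := by
  intro j hj
  unfold up
  rw [Function.update_of_ne (Nat.ne_of_lt hj)]

private theorem zi_at (c : ℕ → ℂ) (m : ℕ) (α : ℂ) : up c m α m = ce c m + ra c m * conj α := by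
  unfold up
  rw [Function.update_self]

theorem up_mem (c : ℕ → ℂ) (m : ℕ) (h : c ∈ SS m) (α : ℂ) : up c m α ∈ SS (m + 1) ↔ ‖α‖ < 1 := by
  have hr := ra_pos c m h
  have hS : up c m α ∈ SS m := (SS_congr _ _ m (zi_lo c m α)).2 h
  have e : ‖up c m α m - ce (up c m α) m‖ < ra (up c m α) m ↔ ‖α‖ < 1 := by
    rw [zi_at, ce_congr _ c m (zi_lo c m α), ra_congr _ c m (zi_lo c m α), add_sub_cancel_left,
      norm_mul, Complex.norm_conj, Complex.norm_real, Real.norm_eq_abs, abs_of_pos hr]
    constructor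
    · intro h1
      by_contra h2
      exact absurd h1 (not_lt.2 (le_mul_of_one_le_right hr.le (not_lt.1 h2)))
    · intro h1
      exact mul_lt_of_lt_one_right hr h1
  constructor
  · intro h1
    exact e.1 (h1 m (Nat.lt_succ_self m))
  · intro h1 k hk
    rcases Nat.lt_succ_iff_lt_or_eq.1 hk with hk | hk
    · exact hS k hk
    · rw [hk]
      exact e.2 h1

theorem vr_up (c : ℕ → ℂ) (m : ℕ) (h : c ∈ SS m) (α : ℂ) :
    vr (up c m α) (m + 1) = Function.update (vr c m) m α := by
  have hr := ra_pos c m h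
  have hne : ((ra c m : ℝ) : ℂ) ≠ 0 := Complex.ofReal_ne_zero.mpr hr.ne'
  rw [vr, zi_at, vr_congr _ c m (zi_lo c m α)]
  congr 1
  have e : ce c m + ra c m * conj α - mu (vr c m) m (m + 1) = ra c m * conj α := by
    unfold ce
    ring
  rw [e]
  show conj ((ra c m * conj α) / ((ra c m : ℝ) : ℂ)) = α
  rw [mul_div_cancel_left₀ _ hne, Complex.conj_conj]

theorem ra_up (c : ℕ → ℂ) (m : ℕ) (h : c ∈ SS m) (α : ℂ) :
    ra (up c m α) (m + 1) = ra c m * (1 - ‖α‖ ^ 2) := by
  unfold ra
  rw [vr_up c m h α]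
  unfold rr
  rw [Finset.prod_range_succ, Function.update_self]
  congr 1
  refine Finset.prod_congr rfl fun j hj => ?_
  rw [Finset.mem_range] at hj
  rw [Function.update_of_ne (Nat.ne_of_lt hj)]

-- MODULE zj
/-- translation and scaling in the plane -/
theorem ball_change (z₀ : ℂ) (r : ℝ) (hr : 0 < r) (G : ℂ → ENNReal) (hG : Measurable G) :
    ∫⁻ ζ in ball z₀ r, G ζ =
      ENNReal.ofReal (r ^ 2) * ∫⁻ α in ball (0 : ℂ) 1, G (z₀ + r * conj α) := by
  set g : ℂ → ENNReal := (ball z₀ r).indicator G with hg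
  have hgm : Measurable g := hG.indicator isOpen_ball.measurableSet
  rw [← lintegral_indicator isOpen_ball.measurableSet, ← lintegral_indicator isOpen_ball.measurableSet]
  have e1 : ∫⁻ ζ, g ζ = ∫⁻ ζ, g (z₀ + ζ) := (lintegral_add_left_eq_self g z₀).symm
  have e2 : ∀ α : ℂ, (ball (0 : ℂ) 1).indicator (fun α => G (z₀ + r * conj α)) α =
      g (z₀ + r • conj α) := by
    intro α
    have e3 : z₀ + r • conj α ∈ ball z₀ r ↔ α ∈ ball (0 : ℂ) 1 := by
      rw [mem_ball, dist_eq_norm, mem_ball_zero_iff, add_sub_cancel_left, norm_smul,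
        Complex.norm_conj, Real.norm_eq_abs, abs_of_pos hr]
      constructor
      · intro h1
        by_contra h2
        exact absurd h1 (not_lt.2 (le_mul_of_one_le_right hr.le (not_lt.1 h2)))
      · intro h1
        exact mul_lt_of_lt_one_right hr h1
    by_cases h : α ∈ ball (0 : ℂ) 1
    · rw [Set.indicator_of_mem h, hg, Set.indicator_of_mem (e3.2 h), Complex.real_smul]
    · rw [Set.indicator_of_notMem h, hg, Set.indicator_of_notMem fun h' => h (e3.1 h')]
  rw [lintegral_congr e2, e1]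
  have hm1 : Measurable fun ζ : ℂ => g (z₀ + ζ) := hgm.comp (measurable_const_add z₀)
  have hm2 : Measurable fun ζ : ℂ => g (z₀ + r • ζ) := hm1.comp (measurable_const_smul r)
  have e4 : ∫⁻ α : ℂ, g (z₀ + r • conj α) = ∫⁻ α : ℂ, g (z₀ + r • α) :=
    (Complex.conjLIE.measurePreserving).lintegral_comp hm2
  have e5 : ∫⁻ α : ℂ, g (z₀ + r • α) = ENNReal.ofReal |(r ^ 2)⁻¹| * ∫⁻ ζ : ℂ, g (z₀ + ζ) := by
    have h1 := lintegral_map (μ := (volume : Measure ℂ)) hm1 (measurable_const_smul r)
    rw [Measure.map_addHaar_smul volume hr.ne', Complex.finrank_real_complex,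
      lintegral_smul_measure] at h1
    exact h1.symm
  rw [e4, e5, ← mul_assoc, ← ENNReal.ofReal_mul (by positivity)]
  have e6 : r ^ 2 * |(r ^ 2)⁻¹| = 1 := by
    rw [abs_of_pos (by positivity)]
    exact mul_inv_cancel₀ (by positivity)
  rw [e6, ENNReal.ofReal_one, one_mul]

-- MODULE zk
theorem cx_measurable (n : ℕ) : Measurable fun x : Fin n → ℝ => cx x := by
  refine measurable_pi_lambda _ fun k => ?_
  have h1 : Measurable fun x : Fin n → ℝ => (if h : 2 * k < n then x ⟨2 * k, h⟩ else 0 : ℝ) := by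
    by_cases h : 2 * k < n
    · simp only [h, dif_pos]
      exact measurable_pi_apply _
    · simp only [h, dif_neg, not_false_eq_true]
      exact measurable_const
  have h2 : Measurable fun x : Fin n → ℝ =>
      (if h : 2 * k + 1 < n then x ⟨2 * k + 1, h⟩ else 0 : ℝ) := by
    by_cases h : 2 * k + 1 < n
    · simp only [h, dif_pos]
      exact measurable_pi_apply _
    · simp only [h, dif_neg, not_false_eq_true]
      exact measurable_const
  have h3 : Measurable fun x : Fin n → ℝ => Complex.measurableEquivRealProd.symm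
      ((if h : 2 * k < n then x ⟨2 * k, h⟩ else 0 : ℝ),
        (if h : 2 * k + 1 < n then x ⟨2 * k + 1, h⟩ else 0 : ℝ)) :=
    (MeasurableEquiv.measurable _).comp (h1.prodMk h2)
  exact h3

private theorem zk_snoc1 {n : ℕ} (y : Fin n → ℝ) (t : ℝ) (k : ℕ) (h : 2 * k + 1 < n) :
    cx (Fin.snoc y t : Fin (n + 1) → ℝ) k = cx y k := by
  have h1 : 2 * k < n + 1 := by omega
  have h2 : 2 * k + 1 < n + 1 := by omega
  have h3 : 2 * k < n := by omega
  apply Complex.ext
  · simp [cx, Fin.snoc, h1, h3, Fin.castLT]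
  · simp [cx, Fin.snoc, h, h3, Fin.castLT]

private theorem zk_snoc2 {m : ℕ} (y : Fin (2 * m) → ℝ) (z : ℂ) :
    cx (Fin.snoc (Fin.snoc y z.re : Fin (2 * m + 1) → ℝ) z.im : Fin (2 * m + 2) → ℝ) m = z := by
  apply Complex.ext
  · simp [cx, Fin.snoc, Fin.castLT]
  · simp [cx, Fin.snoc, Fin.castLT]

private theorem zk_out {n : ℕ} (x : Fin n → ℝ) (k : ℕ) (h : n ≤ 2 * k) : cx x k = 0 := by
  have h1 : ¬ 2 * k < n := by omega
  have h2 : ¬ 2 * k + 1 < n := by omega
  apply Complex.ext
  · simp [cx, h1]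
  · simp [cx, h2]

private theorem zk_snoc {m : ℕ} (y : Fin (2 * m) → ℝ) (z : ℂ) :
    cx (Fin.snoc (Fin.snoc y z.re : Fin (2 * m + 1) → ℝ) z.im : Fin (2 * m + 2) → ℝ) =
      Function.update (cx y) m z := by
  funext k
  rcases lt_trichotomy k m with h | h | h
  · rw [Function.update_of_ne (Nat.ne_of_lt h), zk_snoc1 _ _ _ (by omega),
      zk_snoc1 _ _ _ (by omega)]
  · rw [h, Function.update_self]
    exact zk_snoc2 y z
  · rw [Function.update_of_ne (Nat.ne_of_gt h), zk_out _ _ (by omega), zk_out _ _ (by omega)]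

/-- `fub_two`, `cx (Fin.snoc (Fin.snoc y z.re) z.im) = Function.update (cx y) m z`, `ball_change`.
Compare with the proof of `body` in `Bod.lean`. -/
theorem fub (m : ℕ) (G : (ℕ → ℂ) → ENNReal) (hG : Measurable G) :
    ∫⁻ x in {x : Fin (2 * (m + 1)) → ℝ | cx x ∈ SS (m + 1)}, G (cx x) =
      ∫⁻ y in {y : Fin (2 * m) → ℝ | cx y ∈ SS m}, ENNReal.ofReal (ra (cx y) m ^ 2) *
        ∫⁻ α in ball (0 : ℂ) 1, G (up (cx y) m α) := by
  have hmS : ∀ m : ℕ, MeasurableSet {x : Fin (2 * m) → ℝ | cx x ∈ SS m} := fun m =>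
    cx_measurable _ (SS_measurable m)
  have hGc : ∀ n : ℕ, Measurable fun x : Fin n → ℝ => G (cx x) := fun n =>
    hG.comp (cx_measurable n)
  rw [← lintegral_indicator (hmS (m + 1)), ← lintegral_indicator (hmS m)]
  have h1 := fub_two (2 * m) (({x : Fin (2 * (m + 1)) → ℝ | cx x ∈ SS (m + 1)}).indicator
    fun x => G (cx x)) ((hGc _).indicator (hmS (m + 1)))
  refine (Eq.trans ?_ h1).trans ?_
  · rfl
  refine lintegral_congr fun y => ?_
  by_cases hy : cx y ∈ SS m
  · have hr := ra_pos _ _ hy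
    rw [Set.indicator_of_mem (show y ∈ {y : Fin (2 * m) → ℝ | cx y ∈ SS m} from hy)]
    have hup : Measurable fun ζ : ℂ => Function.update (cx y) m ζ :=
      measurable_update (cx y)
    have h2 := ball_change (ce (cx y) m) (ra (cx y) m) hr
      (fun ζ => G (Function.update (cx y) m ζ)) (hG.comp hup)
    refine Eq.trans ?_ h2
    rw [← lintegral_indicator isOpen_ball.measurableSet]
    refine lintegral_congr fun z => ?_
    have hiff : Function.update (cx y) m z ∈ SS (m + 1) ↔ z ∈ ball (ce (cx y) m) (ra (cx y) m) := by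
      have hlo : ∀ j < m, Function.update (cx y) m z j = cx y j := fun j hj => by
        rw [Function.update_of_ne (Nat.ne_of_lt hj)]
      have hS : Function.update (cx y) m z ∈ SS m := (SS_congr _ _ m hlo).2 hy
      rw [mem_ball, dist_eq_norm]
      constructor
      · intro h
        have := h m (Nat.lt_succ_self m)
        rwa [Function.update_self, ce_congr _ _ m hlo, ra_congr _ _ m hlo] at this
      · intro h k hk
        rcases Nat.lt_succ_iff_lt_or_eq.1 hk with hk | hk
        · exact hS k hk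
        · rw [hk, Function.update_self, ce_congr _ _ m hlo, ra_congr _ _ m hlo]
          exact h
    by_cases hz : z ∈ ball (ce (cx y) m) (ra (cx y) m)
    · rw [Set.indicator_of_mem hz, Set.indicator_of_mem]
      · rw [zk_snoc]
      · show cx _ ∈ SS (m + 1)
        rw [zk_snoc]
        exact hiff.2 hz
    · rw [Set.indicator_of_notMem hz, Set.indicator_of_notMem]
      intro h
      apply hz
      apply hiff.1
      rw [← zk_snoc]
      exact h
  · rw [Set.indicator_of_notMem (show y ∉ {y : Fin (2 * m) → ℝ | cx y ∈ SS m} from hy)]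
    rw [← lintegral_zero (μ := (volume : Measure ℂ))]
    refine lintegral_congr fun z => ?_
    rw [Set.indicator_of_notMem]
    intro h
    apply hy
    have h' : Function.update (cx y) m z ∈ SS (m + 1) := by
      rw [← zk_snoc]
      exact h
    refine (SS_congr (Function.update (cx y) m z) (cx y) m fun j hj => ?_).1 fun k hk =>
      h' k (hk.trans (Nat.lt_succ_self m))
    rw [Function.update_of_ne (Nat.ne_of_lt hj)]

-- MODULE zl
private theorem zl_prod (m : ℕ) (s : ℕ) : ∏ j ∈ Finset.range (m + 1), Real.pi / ((s : ℝ) + 2 * j + 1) =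
    Real.pi / (s + 1) * ∏ j ∈ Finset.range m, Real.pi / (((s + 2 : ℕ) : ℝ) + 2 * j + 1) := by
  rw [Finset.prod_range_succ', mul_comm]
  congr 1
  · simp
  · refine Finset.prod_congr rfl fun j _ => ?_
    push_cast
    ring

/-- Induction on `m`, all `s`, with `fub` and `disc`. Only `s = 0` is needed. -/
theorem SS_integral (m : ℕ) : ∀ s : ℕ,
    ∫⁻ x in {x : Fin (2 * m) → ℝ | cx x ∈ SS m}, ENNReal.ofReal (ra (cx x) m ^ s) =
      ENNReal.ofReal (∏ j ∈ Finset.range m, Real.pi / (s + 2 * j + 1)) := by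
  induction m with
  | zero =>
    intro s
    have e : {x : Fin (2 * 0) → ℝ | cx x ∈ SS 0} = Set.univ := by
      ext x
      simp [SS]
    have e2 : ∀ c : ℕ → ℂ, ra c 0 = 1 := fun c => by
      unfold ra rr
      simp
    rw [e, Measure.restrict_univ]
    simp only [e2, one_pow, ENNReal.ofReal_one, lintegral_const, one_mul,
      Finset.range_zero, Finset.prod_empty]
    simp [volume_pi]
  | succ m ih =>
    intro s
    have hmS : MeasurableSet {x : Fin (2 * m) → ℝ | cx x ∈ SS m} :=
      cx_measurable _ (SS_measurable m)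
    have hmr : ∀ s : ℕ, Measurable fun c : ℕ → ℂ => ENNReal.ofReal (ra c (m + 1) ^ s) :=
      fun s => ((ra_measurable (m + 1)).pow_const s).ennreal_ofReal
    have hmr2 : ∀ s : ℕ, Measurable fun x : Fin (2 * m) → ℝ => ENNReal.ofReal (ra (cx x) m ^ s) :=
      fun s => (((ra_measurable m).comp (cx_measurable (2 * m))).pow_const s).ennreal_ofReal
    rw [fub m (fun c => ENNReal.ofReal (ra c (m + 1) ^ s)) (hmr s)]
    have h2 : ∀ y ∈ {y : Fin (2 * m) → ℝ | cx y ∈ SS m}, (ENNReal.ofReal (ra (cx y) m ^ 2) *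
        ∫⁻ α in ball (0 : ℂ) 1, ENNReal.ofReal (ra (up (cx y) m α) (m + 1) ^ s)) =
        ENNReal.ofReal (Real.pi / (s + 1)) * ENNReal.ofReal (ra (cx y) m ^ (s + 2)) := by
      intro y hy
      have hr := ra_pos _ _ hy
      have h3 := disc 1 one_pos 0 s
      have h4 : ∀ α : ℂ, ENNReal.ofReal (ra (up (cx y) m α) (m + 1) ^ s) =
          ENNReal.ofReal (ra (cx y) m ^ s) *
            ENNReal.ofReal ((1 * (1 - ‖α - 0‖ ^ 2 / 1 ^ 2)) ^ s) := by
        intro α
        rw [ra_up _ _ hy, ← ENNReal.ofReal_mul (by positivity), sub_zero, one_pow, div_one, one_mul,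
          mul_pow]
      have h5 : Measurable fun α : ℂ => ENNReal.ofReal ((1 * (1 - ‖α - 0‖ ^ 2 / 1 ^ 2)) ^ s) := by
        fun_prop
      rw [lintegral_congr h4, lintegral_const_mul _ h5, h3, one_pow, mul_one,
        ← ENNReal.ofReal_mul (by positivity), ← ENNReal.ofReal_mul (by positivity),
        ← ENNReal.ofReal_mul (by positivity)]
      congr 1
      ring
    rw [setLIntegral_congr_fun hmS h2, lintegral_const_mul _ (hmr2 (s + 2)), ih (s + 2),
      ← ENNReal.ofReal_mul (by positivity), zl_prod]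

theorem SS_volume (m : ℕ) : volume {x : Fin (2 * m) → ℝ | cx x ∈ SS m} =
    ENNReal.ofReal (∏ j ∈ Finset.range m, Real.pi / (2 * j + 1)) := by
  have h := SS_integral m 0
  have h1 : ∀ x : Fin (2 * m) → ℝ, ENNReal.ofReal (ra (cx x) m ^ 0) = 1 := fun x => by
    rw [pow_zero, ENNReal.ofReal_one]
  rw [lintegral_congr h1, setLIntegral_one] at h
  rw [h]
  simp

end Pool.Agent.Hul
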