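import Pool.Agent.Hul.Mod

/-!
# MP_67b84b_gt: the moment body and its volume

`c k` is the moment number `k + 1`.
-/

set_option autoImplicit false

namespace Pool.Agent.Hul

open ComplexConjugate MeasureTheory

/-- the first `k` Verblunsky coefficients of the sequence of moments `c` (and 0 afterwards) -/
noncomputable def ver (c : ℕ → ℂ) : ℕ → (ℕ → ℂ)
  | 0 => 0
  | k + 1 => Function.update (ver c k) k (conj ((c k - mom (ver c k) (k + 1)) / rr (ver c k) k))

/-- centre of the disc of the possible moments `c k` -/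
noncomputable def cen (c : ℕ → ℂ) (k : ℕ) : ℂ := mom (ver c k) (k + 1)

/-- radius of this disc -/
noncomputable def rad (c : ℕ → ℂ) (k : ℕ) : ℝ := rr (ver c k) k

/-- the open moment body -/
def S (m : ℕ) : Set (ℕ → ℂ) := {c | ∀ k < m, ‖c k - cen c k‖ < rad c k}

-- MODULE ba
private theorem ba_ver (c d : ℕ → ℂ) : ∀ k : ℕ, (∀ j < k, c j = d j) → ver c k = ver d k
  | 0, _ => rfl
  | k + 1, h => by
    have ih := ba_ver c d k fun j hj => h j (Nat.lt_succ_of_lt hj)
    rw [ver, ver, ih, h k (Nat.lt_succ_self k)]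

private theorem ba_rr (k : ℕ) : Continuous fun a : ℕ → ℂ => rr a k := by
  unfold rr
  refine continuous_finsetProd _ fun j _ => ?_
  fun_prop

private theorem ba_meas : ∀ k : ℕ, Measurable fun c : ℕ → ℂ => ver c k
  | 0 => measurable_const
  | k + 1 => by
    have ih := ba_meas k
    rw [measurable_pi_iff] at ih ⊢
    intro j
    by_cases hj : j = k
    · subst hj
      have e : (fun c : ℕ → ℂ => ver c (j + 1) j) =
          fun c => (starRingEnd ℂ) ((c j - mom (ver c j) (j + 1)) / rr (ver c j) j) := by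
        funext c
        rw [ver, Function.update_self]
      rw [e]
      have h1 : Measurable fun c : ℕ → ℂ => mom (ver c j) (j + 1) :=
        (mom_continuous (j + 1)).measurable.comp (ba_meas j)
      have h2 : Measurable fun c : ℕ → ℂ => ((rr (ver c j) j : ℝ) : ℂ) :=
        Complex.measurable_ofReal.comp ((ba_rr j).measurable.comp (ba_meas j))
      have h3 : Measurable fun c : ℕ → ℂ => c j := measurable_pi_apply j
      exact Complex.continuous_conj.measurable.comp ((h3.sub h1).div h2)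
    · have e : (fun c : ℕ → ℂ => ver c (k + 1) j) = fun c => ver c k j := by
        funext c
        rw [ver, Function.update_of_ne hj]
      rw [e]
      exact ih j

theorem cen_congr (c d : ℕ → ℂ) (k : ℕ) (h : ∀ j < k, c j = d j) : cen c k = cen d k := by
  unfold cen
  rw [ba_ver c d k h]

theorem rad_congr (c d : ℕ → ℂ) (k : ℕ) (h : ∀ j < k, c j = d j) : rad c k = rad d k := by
  unfold rad
  rw [ba_ver c d k h]

theorem cen_measurable (k : ℕ) : Measurable (fun c : ℕ → ℂ => cen c k) := by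
  exact (mom_continuous (k + 1)).measurable.comp (ba_meas k)

theorem rad_measurable (k : ℕ) : Measurable (fun c : ℕ → ℂ => rad c k) := by
  exact (ba_rr k).measurable.comp (ba_meas k)

-- MODULE bb
private theorem bb_stab (c : ℕ → ℂ) (j : ℕ) : ∀ k : ℕ, j < k → ver c k j = ver c (j + 1) j
  | 0, h => absurd h (Nat.not_lt_zero j)
  | k + 1, h => by
    rcases Nat.lt_succ_iff_lt_or_eq.mp h with h | h
    · rw [← bb_stab c j k h]
      rw [ver, Function.update_of_ne (Nat.ne_of_lt h)]
    · rw [h]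

private theorem bb_late (c : ℕ → ℂ) (j : ℕ) : ∀ k : ℕ, k ≤ j → ver c k j = 0
  | 0, _ => rfl
  | k + 1, h => by
    rw [ver, Function.update_of_ne (Nat.ne_of_gt h)]
    exact bb_late c j k (Nat.le_of_succ_le h)

private theorem bb_last (c : ℕ → ℂ) (j : ℕ) :
    ver c (j + 1) j = conj ((c j - cen c j) / rad c j) := by
  rw [ver, Function.update_self]
  rfl

private theorem bb_rr (c : ℕ → ℂ) (k : ℕ) :
    rad c (k + 1) = rad c k * (1 - ‖ver c (k + 1) k‖ ^ 2) := by
  unfold rad rr
  rw [Finset.prod_range_succ]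
  congr 1
  refine Finset.prod_congr rfl fun j hj => ?_
  rw [Finset.mem_range] at hj
  rw [bb_stab c j (k + 1) (Nat.lt_succ_of_lt hj), bb_stab c j k hj]

private theorem bb_norm (c : ℕ → ℂ) (k : ℕ) :
    ‖ver c (k + 1) k‖ ^ 2 = ‖c k - cen c k‖ ^ 2 / rad c k ^ 2 := by
  rw [bb_last, Complex.norm_conj, norm_div, div_pow, Complex.norm_real, Real.norm_eq_abs, sq_abs]

theorem rad_zero (c : ℕ → ℂ) : rad c 0 = 1 := by
  unfold rad rr
  simp

theorem rad_pos (c : ℕ → ℂ) (m : ℕ) (h : c ∈ S m) : 0 < rad c m := by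
  induction m with
  | zero =>
    rw [rad_zero]
    exact one_pos
  | succ m ih =>
    have h1 : 0 < rad c m := ih fun k hk => h k (Nat.lt_succ_of_lt hk)
    have h2 : ‖c m - cen c m‖ < rad c m := h m (Nat.lt_succ_self m)
    rw [bb_rr, bb_norm]
    refine mul_pos h1 (sub_pos.mpr ?_)
    rw [div_lt_one (pow_pos h1 2)]
    exact pow_lt_pow_left₀ h2 (norm_nonneg _) two_ne_zero

theorem rad_succ (c : ℕ → ℂ) (m : ℕ) (h : c ∈ S m) :
    rad c (m + 1) = rad c m * (1 - ‖c m - cen c m‖ ^ 2 / rad c m ^ 2) := by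
  rw [bb_rr, bb_norm]

/-- the points of the body are mixtures of points of the curve. Proof: `mom (ver c m) (k+1) = c k`
for `k < m` (`mom_succ`, `mom_congr`), `‖ver c m j‖ < 1`, then `rep`. -/
theorem S_rep (c : ℕ → ℂ) (m : ℕ) (h : c ∈ S m) :
    ∃ (w : Fin (m + 1) → ℝ) (z : Fin (m + 1) → ℂ), (∀ i, 0 ≤ w i) ∧ (∀ i, ‖z i‖ = 1) ∧
      (∑ i, w i = 1) ∧ ∀ k < m, c k = ∑ i, (w i : ℂ) * z i ^ (k + 1) := by
  have hb : ∀ j < m, ‖ver c m j‖ ≤ 1 := by
    intro j hj
    have h1 : 0 < rad c j := rad_pos c j fun k hk => h k (lt_trans hk hj)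
    rw [bb_stab c j m hj, bb_last, Complex.norm_conj, norm_div, Complex.norm_real,
      Real.norm_eq_abs, abs_of_pos h1, div_le_one h1]
    exact (h j hj).le
  obtain ⟨w, z, hw, hz, hs, hm⟩ := rep (ver c m) m hb
  refine ⟨w, z, hw, hz, hs, fun k hk => ?_⟩
  rw [← hm (k + 1) hk]
  have h1 : 0 < rad c k := rad_pos c k fun j hj => h j (lt_trans hj hk)
  have e1 : mom (ver c m) (k + 1) = mom (ver c (k + 1)) (k + 1) := by
    refine mom_congr _ _ _ fun j hj => ?_
    rw [bb_stab c j m (lt_of_lt_of_le hj hk), bb_stab c j (k + 1) hj]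
  have e2 : mom (Function.update (ver c (k + 1)) k 0) (k + 1) = cen c k := by
    refine mom_congr _ _ _ fun j hj => ?_
    rcases Nat.lt_succ_iff_lt_or_eq.mp hj with hj | hj
    · rw [Function.update_of_ne (Nat.ne_of_lt hj), bb_stab c j (k + 1) (Nat.lt_succ_of_lt hj),
        bb_stab c j k hj]
    · rw [hj, Function.update_self, bb_late c k k le_rfl]
  have e3 : rr (ver c (k + 1)) k = rad c k := by
    unfold rad rr
    refine Finset.prod_congr rfl fun j hj => ?_
    rw [Finset.mem_range] at hj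
    rw [bb_stab c j (k + 1) (Nat.lt_succ_of_lt hj), bb_stab c j k hj]
  rw [e1, mom_succ (ver c (k + 1)) k fun j hj => ?_, e2, e3, bb_last, Complex.conj_conj]
  · have hne : ((rad c k : ℝ) : ℂ) ≠ 0 := Complex.ofReal_ne_zero.mpr h1.ne'
    field_simp
    ring
  · rw [bb_stab c j (k + 1) (Nat.lt_succ_of_lt hj), ← bb_stab c j m (lt_trans hj hk)]
    exact hb j (lt_trans hj hk)

-- MODULE bc
private noncomputable def bc_h (r : ℝ) (s : ℕ) (t : ℝ) : ℝ :=
  if t < r then (r * (1 - t ^ 2 / r ^ 2)) ^ s else 0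

private theorem bc_nonneg {r : ℝ} (hr : 0 < r) (s : ℕ) {t : ℝ} (ht : 0 ≤ t) :
    0 ≤ bc_h r s t := by
  unfold bc_h
  split_ifs with h
  · refine pow_nonneg (mul_nonneg hr.le (sub_nonneg.mpr ?_)) s
    rw [div_le_one (pow_pos hr 2)]
    exact pow_le_pow_left₀ ht h.le 2
  · exact le_rfl

/-- polar coordinates -/
theorem disc (r : ℝ) (hr : 0 < r) (z₀ : ℂ) (s : ℕ) :
    ∫⁻ z in Metric.ball z₀ r, ENNReal.ofReal ((r * (1 - ‖z - z₀‖ ^ 2 / r ^ 2)) ^ s) =
      ENNReal.ofReal (Real.pi * r ^ (s + 2) / (s + 1)) := by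
  have e0 : ∫⁻ z in Metric.ball z₀ r, ENNReal.ofReal ((r * (1 - ‖z - z₀‖ ^ 2 / r ^ 2)) ^ s) =
      ∫⁻ z : ℂ, ENNReal.ofReal (bc_h r s ‖z‖) := by
    rw [← lintegral_indicator Metric.isOpen_ball.measurableSet,
      ← lintegral_sub_right_eq_self (fun z : ℂ => ENNReal.ofReal (bc_h r s ‖z‖)) z₀]
    refine lintegral_congr fun z => ?_
    by_cases hz : z ∈ Metric.ball z₀ r
    · rw [Set.indicator_of_mem hz]
      rw [Metric.mem_ball, dist_eq_norm] at hz
      rw [bc_h, if_pos hz]
    · rw [Set.indicator_of_notMem hz]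
      rw [Metric.mem_ball, dist_eq_norm] at hz
      rw [bc_h, if_neg hz, ENNReal.ofReal_zero]
  have e1 : (fun z : ℂ => bc_h r s ‖z‖) =
      (Metric.ball (0 : ℂ) r).indicator fun z => (r * (1 - ‖z‖ ^ 2 / r ^ 2)) ^ s := by
    funext z
    by_cases hz : z ∈ Metric.ball (0 : ℂ) r
    · rw [Set.indicator_of_mem hz]
      rw [mem_ball_zero_iff] at hz
      rw [bc_h, if_pos hz]
    · rw [Set.indicator_of_notMem hz]
      rw [mem_ball_zero_iff] at hz
      rw [bc_h, if_neg hz]
  have hint : Integrable fun z : ℂ => bc_h r s ‖z‖ := by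
    rw [e1, integrable_indicator_iff Metric.isOpen_ball.measurableSet]
    refine IntegrableOn.mono_set ?_ Metric.ball_subset_closedBall
    refine ContinuousOn.integrableOn_compact (isCompact_closedBall 0 r) ?_
    fun_prop
  rw [e0, ← ofReal_integral_eq_lintegral_ofReal hint
    (Filter.Eventually.of_forall fun z => bc_nonneg hr s (norm_nonneg z))]
  congr 1
  rw [integral_fun_norm_addHaar volume (bc_h r s), Complex.finrank_real_complex]
  have hvol : (volume : Measure ℂ).real (Metric.ball 0 1) = Real.pi := by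
    rw [Measure.real, Complex.volume_ball]
    simp
  rw [hvol]
  have e2 : ∫ y in Set.Ioi (0 : ℝ), y ^ (2 - 1) • bc_h r s y = r ^ (s + 2) / (2 * (s + 1)) := by
    have e3 : (fun y : ℝ => y ^ (2 - 1) • bc_h r s y) =
        (Set.Iio r).indicator fun y => y * (r * (1 - y ^ 2 / r ^ 2)) ^ s := by
      funext y
      by_cases hy : y < r
      · rw [Set.indicator_of_mem (Set.mem_Iio.mpr hy), bc_h, if_pos hy]
        simp
      · rw [Set.indicator_of_notMem (fun h' => hy (Set.mem_Iio.mp h')), bc_h, if_neg hy, smul_zero]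
    rw [e3, setIntegral_indicator measurableSet_Iio, Set.Ioi_inter_Iio,
      ← integral_Ioc_eq_integral_Ioo, ← intervalIntegral.integral_of_le hr.le]
    have hder : ∀ y ∈ Set.uIcc 0 r, HasDerivAt
        (fun y : ℝ => -(r ^ (s + 2) / (2 * (s + 1))) * (1 - y ^ 2 / r ^ 2) ^ (s + 1))
        (y * (r * (1 - y ^ 2 / r ^ 2)) ^ s) y := by
      intro y _
      have h1 : HasDerivAt (fun y : ℝ => 1 - y ^ 2 / r ^ 2) (-(2 * y / r ^ 2)) y := by
        have h2 := ((hasDerivAt_pow 2 y).div_const (r ^ 2)).const_sub 1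
        refine h2.congr_deriv ?_
        norm_num
      have h3 := (h1.pow (s + 1)).const_mul (-(r ^ (s + 2) / (2 * (s + 1))))
      refine h3.congr_deriv ?_
      rw [Nat.add_sub_cancel, mul_pow]
      have hs : (s : ℝ) + 1 ≠ 0 := by positivity
      push_cast
      field_simp
      ring
    rw [intervalIntegral.integral_eq_sub_of_hasDerivAt hder]
    · have : (r : ℝ) ^ 2 / r ^ 2 = 1 := div_self (pow_ne_zero 2 hr.ne')
      rw [this]
      simp
    · refine Continuous.intervalIntegrable ?_ _ _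
      fun_prop
  rw [e2]
  have hs : (s : ℝ) + 1 ≠ 0 := by positivity
  simp only [nsmul_eq_mul, smul_eq_mul]
  push_cast
  field_simp

/-- real coordinates to complex coordinates -/
noncomputable def cx {n : ℕ} (x : Fin n → ℝ) (k : ℕ) : ℂ :=
  ⟨if h : 2 * k < n then x ⟨2 * k, h⟩ else 0, if h : 2 * k + 1 < n then x ⟨2 * k + 1, h⟩ else 0⟩

-- MODULE bd
private theorem bd_snoc (n : ℕ) :
    Measurable fun p : (Fin n → ℝ) × ℝ => (Fin.snoc p.1 p.2 : Fin (n + 1) → ℝ) := by
  refine measurable_pi_lambda _ fun i => ?_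
  by_cases h : (i : ℕ) < n
  · have e : (fun p : (Fin n → ℝ) × ℝ => (Fin.snoc p.1 p.2 : Fin (n + 1) → ℝ) i) =
        fun p => p.1 ⟨i, h⟩ := by
      ext p
      simp [Fin.snoc, h, Fin.castLT]
    rw [e]
    exact (measurable_pi_apply _).comp measurable_fst
  · have e : (fun p : (Fin n → ℝ) × ℝ => (Fin.snoc p.1 p.2 : Fin (n + 1) → ℝ) i) =
        fun p => p.2 := by
      ext p
      simp [Fin.snoc, h]
    rw [e]
    exact measurable_snd

private theorem bd_one (n : ℕ) (f : (Fin (n + 1) → ℝ) → ENNReal) (hf : Measurable f) :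
    ∫⁻ x, f x = ∫⁻ y : Fin n → ℝ, ∫⁻ t : ℝ, f (Fin.snoc y t) := by
  have h0 := (volume_preserving_piFinSuccAbove (fun _ : Fin (n + 1) => ℝ) (Fin.last n)).symm
  have h1 := h0.lintegral_comp hf
  have hm : Measurable fun p : ℝ × (Fin n → ℝ) =>
      f ((MeasurableEquiv.piFinSuccAbove (fun _ : Fin (n + 1) => ℝ) (Fin.last n)).symm p) :=
    hf.comp (MeasurableEquiv.measurable _)
  rw [← h1]
  have h2 := lintegral_prod_symm' (μ := (volume : Measure ℝ))
    (ν := (volume : Measure (Fin n → ℝ))) _ hm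
  refine (Eq.trans ?_ h2).trans ?_
  · rfl
  · refine lintegral_congr fun y => lintegral_congr fun t => ?_
    congr 1
    have : (MeasurableEquiv.piFinSuccAbove (fun _ : Fin (n + 1) => ℝ) (Fin.last n)).symm (t, y) =
        Fin.insertNth (Fin.last n) t y := rfl
    rw [this]
    exact Fin.insertNth_last' t y

/-- Fubini for the last two coordinates (`MeasurableEquiv.piFinSuccAbove` twice) -/
theorem fub_two (n : ℕ) (f : (Fin (n + 2) → ℝ) → ENNReal) (hf : Measurable f) :
    ∫⁻ x, f x = ∫⁻ y : Fin n → ℝ, ∫⁻ z : ℂ, f (Fin.snoc (Fin.snoc y z.re : Fin (n + 1) → ℝ) z.im) := by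
  have h1 := bd_one (n + 1) f hf
  have hm : Measurable fun p : (Fin (n + 1) → ℝ) × ℝ => f (Fin.snoc p.1 p.2) :=
    hf.comp (bd_snoc (n + 1))
  have h2 := bd_one n (fun y => ∫⁻ t : ℝ, f (Fin.snoc y t)) hm.lintegral_prod_right'
  rw [h1, h2]
  refine lintegral_congr fun y => ?_
  have hg : Measurable fun p : ℝ × ℝ => f (Fin.snoc (Fin.snoc y p.1 : Fin (n + 1) → ℝ) p.2) := by
    have h3 : Measurable fun p : ℝ × ℝ => (Fin.snoc y p.1 : Fin (n + 1) → ℝ) :=
      (bd_snoc n).comp (measurable_const.prodMk measurable_fst)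
    exact hm.comp (h3.prodMk measurable_snd)
  have h4 : ∫⁻ z : ℂ, f (Fin.snoc (Fin.snoc y z.re : Fin (n + 1) → ℝ) z.im) =
      ∫⁻ p : ℝ × ℝ, f (Fin.snoc (Fin.snoc y p.1 : Fin (n + 1) → ℝ) p.2) := by
    rw [← Complex.volume_preserving_equiv_real_prod.lintegral_comp hg]
    rfl
  rw [h4]
  exact (lintegral_prod _ hg.aemeasurable).symm

/-- Fubini for the last coordinate -/
theorem fub_one (n : ℕ) (f : (Fin (n + 1) → ℝ) → ENNReal) (hf : Measurable f) :
    ∫⁻ x, f x = ∫⁻ y : Fin n → ℝ, ∫⁻ t : ℝ, f (Fin.snoc y t) := by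
  exact bd_one n f hf

-- MODULE be
private theorem be_cx (n : ℕ) : Measurable fun x : Fin n → ℝ => cx x := by
  refine measurable_pi_lambda _ fun k => ?_
  have h1 : Measurable fun x : Fin n → ℝ => (if h : 2 * k < n then x ⟨2 * k, h⟩ else 0 : ℝ) := by
    by_cases h : 2 * k < n
    · simp only [h, dif_pos]
      exact measurable_pi_apply _
    · simp only [h, dif_neg, not_false_eq_true]
      exact measurable_const
  have h2 : Measurable fun x : Fin n → ℝ =>
      (if h : 2 * k + 1 < n then x ⟨2 * k + 1, h⟩ else 0 : ℝ) := by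
    by_cases h : 2 * k + 1 < n
    · simp only [h, dif_pos]
      exact measurable_pi_apply _
    · simp only [h, dif_neg, not_false_eq_true]
      exact measurable_const
  have h3 : Measurable fun x : Fin n → ℝ => Complex.measurableEquivRealProd.symm
      ((if h : 2 * k < n then x ⟨2 * k, h⟩ else 0 : ℝ),
        (if h : 2 * k + 1 < n then x ⟨2 * k + 1, h⟩ else 0 : ℝ)) :=
    (MeasurableEquiv.measurable _).comp (h1.prodMk h2)
  exact h3

private theorem be_S (m : ℕ) : MeasurableSet (S m) := by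
  have e : S m = ⋂ k : ℕ, ⋂ _ : k < m, {c | ‖c k - cen c k‖ < rad c k} := by
    ext c
    simp [S]
  rw [e]
  refine MeasurableSet.iInter fun k => MeasurableSet.iInter fun _ => ?_
  exact measurableSet_lt (((measurable_pi_apply k).sub (cen_measurable k)).norm) (rad_measurable k)

private theorem be_snoc1 {n : ℕ} (y : Fin n → ℝ) (t : ℝ) (k : ℕ) (h : 2 * k + 1 < n) :
    cx (Fin.snoc y t : Fin (n + 1) → ℝ) k = cx y k := by
  have h1 : 2 * k < n + 1 := by omega
  have h2 : 2 * k + 1 < n + 1 := by omega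
  have h3 : 2 * k < n := by omega
  apply Complex.ext
  · simp [cx, Fin.snoc, h1, h3, Fin.castLT]
  · simp [cx, Fin.snoc, h, h3, Fin.castLT]

private theorem be_snoc2 {m : ℕ} (y : Fin (2 * m) → ℝ) (z : ℂ) :
    cx (Fin.snoc (Fin.snoc y z.re : Fin (2 * m + 1) → ℝ) z.im : Fin (2 * m + 2) → ℝ) m = z := by
  apply Complex.ext
  · simp [cx, Fin.snoc, Fin.castLT]
  · simp [cx, Fin.snoc, Fin.castLT]

private theorem be_mem {m : ℕ} (c d : ℕ → ℂ) (h : ∀ j < m, c j = d j) :
    c ∈ S m ↔ d ∈ S m := by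
  have e : ∀ k < m, (‖c k - cen c k‖ < rad c k ↔ ‖d k - cen d k‖ < rad d k) := fun k hk => by
    rw [cen_congr c d k fun j hj => h j (hj.trans hk), rad_congr c d k fun j hj => h j (hj.trans hk),
      h k hk]
  constructor
  · intro hc k hk
    exact (e k hk).1 (hc k hk)
  · intro hc k hk
    exact (e k hk).2 (hc k hk)

private theorem be_prod (m : ℕ) (s : ℕ) : ∏ j ∈ Finset.range (m + 1), Real.pi / ((s : ℝ) + 2 * j + 1) =
    Real.pi / (s + 1) * ∏ j ∈ Finset.range m, Real.pi / (((s + 2 : ℕ) : ℝ) + 2 * j + 1) := by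
  rw [Finset.prod_range_succ', mul_comm]
  congr 1
  · simp
  · refine Finset.prod_congr rfl fun j _ => ?_
    push_cast
    ring

/-- Induction on `m`, all `s`: the integral over the last moment is `disc`. -/
theorem body (m : ℕ) : ∀ s : ℕ,
    ∫⁻ x in {x : Fin (2 * m) → ℝ | cx x ∈ S m}, ENNReal.ofReal (rad (cx x) m ^ s) =
      ENNReal.ofReal (∏ j ∈ Finset.range m, Real.pi / (s + 2 * j + 1)) := by
  induction m with
  | zero =>
    intro s
    have e : {x : Fin (2 * 0) → ℝ | cx x ∈ S 0} = Set.univ := by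
      ext x
      simp [S]
    rw [e, Measure.restrict_univ]
    simp only [rad_zero, one_pow, ENNReal.ofReal_one, lintegral_const, one_mul,
      Finset.range_zero, Finset.prod_empty]
    simp [volume_pi]
  | succ m ih =>
    intro s
    have hmS : ∀ m : ℕ, MeasurableSet {x : Fin (2 * m) → ℝ | cx x ∈ S m} := fun m =>
      be_cx _ (be_S m)
    have hmr : ∀ m s : ℕ, Measurable fun x : Fin (2 * m) → ℝ => ENNReal.ofReal (rad (cx x) m ^ s) :=
      fun m s => (((rad_measurable m).comp (be_cx (2 * m))).pow_const s).ennreal_ofReal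
    rw [← lintegral_indicator (hmS (m + 1))]
    have h1 := fub_two (2 * m) (({x : Fin (2 * (m + 1)) → ℝ | cx x ∈ S (m + 1)}).indicator
      fun x => ENNReal.ofReal (rad (cx x) (m + 1) ^ s)) ((hmr (m + 1) s).indicator (hmS (m + 1)))
    refine (Eq.trans ?_ h1).trans ?_
    · rfl
    have h2 : ∀ y : Fin (2 * m) → ℝ, (∫⁻ z : ℂ, ({x : Fin (2 * (m + 1)) → ℝ |
        cx x ∈ S (m + 1)}).indicator (fun x => ENNReal.ofReal (rad (cx x) (m + 1) ^ s))
        (Fin.snoc (Fin.snoc y z.re : Fin (2 * m + 1) → ℝ) z.im)) =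
        ({y : Fin (2 * m) → ℝ | cx y ∈ S m}).indicator (fun y => ENNReal.ofReal (Real.pi / (s + 1)) *
          ENNReal.ofReal (rad (cx y) m ^ (s + 2))) y := by
      intro y
      have hlow : ∀ z : ℂ, ∀ j < m, cx (Fin.snoc (Fin.snoc y z.re : Fin (2 * m + 1) → ℝ) z.im :
          Fin (2 * m + 2) → ℝ) j = cx y j := fun z j hj => by
        rw [be_snoc1 _ _ _ (by omega), be_snoc1 _ _ _ (by omega)]
      by_cases hy : cx y ∈ S m
      · have hr := rad_pos _ _ hy
        rw [Set.indicator_of_mem (show y ∈ {y : Fin (2 * m) → ℝ | cx y ∈ S m} from hy)]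
        have h3 := disc (rad (cx y) m) hr (cen (cx y) m) s
        rw [← lintegral_indicator Metric.isOpen_ball.measurableSet] at h3
        have h4 : ENNReal.ofReal (Real.pi * rad (cx y) m ^ (s + 2) / (s + 1)) =
            ENNReal.ofReal (Real.pi / (s + 1)) * ENNReal.ofReal (rad (cx y) m ^ (s + 2)) := by
          rw [← ENNReal.ofReal_mul (by positivity)]
          congr 1
          ring
        rw [← h4, ← h3]
        refine lintegral_congr fun z => ?_
        set c := cx (Fin.snoc (Fin.snoc y z.re : Fin (2 * m + 1) → ℝ) z.im :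
          Fin (2 * m + 2) → ℝ) with hc
        have hcm : c m = z := be_snoc2 y z
        have hcS : c ∈ S m := (be_mem c (cx y) (hlow z)).2 hy
        have hcen : cen c m = cen (cx y) m := cen_congr _ _ _ (hlow z)
        have hrad : rad c m = rad (cx y) m := rad_congr _ _ _ (hlow z)
        have hiff : c ∈ S (m + 1) ↔ z ∈ Metric.ball (cen (cx y) m) (rad (cx y) m) := by
          rw [Metric.mem_ball, dist_eq_norm]
          constructor
          · intro h
            have := h m (Nat.lt_succ_self m)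
            rwa [hcm, hcen, hrad] at this
          · intro h k hk
            rcases Nat.lt_succ_iff_lt_or_eq.1 hk with hk | hk
            · exact hcS k hk
            · rw [hk, hcm, hcen, hrad]
              exact h
        have hrs := rad_succ c m hcS
        rw [hcm, hcen, hrad] at hrs
        by_cases hz : z ∈ Metric.ball (cen (cx y) m) (rad (cx y) m)
        · rw [Set.indicator_of_mem hz, Set.indicator_of_mem (show _ ∈ {x : Fin (2 * (m + 1)) → ℝ |
            cx x ∈ S (m + 1)} from hiff.2 hz)]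
          show ENNReal.ofReal (rad c (m + 1) ^ s) = _
          rw [hrs]
        · rw [Set.indicator_of_notMem hz, Set.indicator_of_notMem]
          exact fun h => hz (hiff.1 h)
      · rw [Set.indicator_of_notMem (show y ∉ {y : Fin (2 * m) → ℝ | cx y ∈ S m} from hy)]
        rw [← lintegral_zero (μ := (volume : Measure ℂ))]
        refine lintegral_congr fun z => ?_
        rw [Set.indicator_of_notMem]
        intro h
        apply hy
        refine (be_mem _ (cx y) (hlow z)).1 fun k hk => ?_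
        exact h k (hk.trans (Nat.lt_succ_self m))
    rw [lintegral_congr h2, lintegral_indicator (hmS m), lintegral_const_mul _ (hmr m (s + 2)),
      ih (s + 2), ← ENNReal.ofReal_mul (by positivity), be_prod]

/-- the body in dimension `2 m + 1` -/
def Bod (m : ℕ) : Set (Fin (2 * m + 1) → ℝ) :=
  {x | cx x ∈ S m ∧ |x (Fin.last (2 * m)) - (cen (cx x) m).re| < rad (cx x) m}

-- MODULE bf
/-- `body` with `s = 1` and `fub_one`. Note that `cx x k`, `k < m`, does not see the last
coordinate. -/
theorem Bod_volume (m : ℕ) :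
    volume (Bod m) = ENNReal.ofReal (2 * Real.pi ^ m / (2 ^ m * m.factorial)) := by
  have hB : MeasurableSet (Bod m) := by
    have h1 : MeasurableSet {x : Fin (2 * m + 1) → ℝ | cx x ∈ S m} := be_cx _ (be_S m)
    have h2 : Measurable fun x : Fin (2 * m + 1) → ℝ => (cen (cx x) m).re :=
      Complex.measurable_re.comp ((cen_measurable m).comp (be_cx _))
    have h3 : Measurable fun x : Fin (2 * m + 1) → ℝ => rad (cx x) m :=
      (rad_measurable m).comp (be_cx _)
    have h4 : Measurable fun x : Fin (2 * m + 1) → ℝ =>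
        |x (Fin.last (2 * m)) - (cen (cx x) m).re| := ((measurable_pi_apply _).sub h2).abs
    exact h1.inter (measurableSet_lt h4 h3)
  have hmS : MeasurableSet {x : Fin (2 * m) → ℝ | cx x ∈ S m} := be_cx _ (be_S m)
  have hmr : Measurable fun x : Fin (2 * m) → ℝ => ENNReal.ofReal (rad (cx x) m ^ 1) :=
    (((rad_measurable m).comp (be_cx (2 * m))).pow_const 1).ennreal_ofReal
  rw [← lintegral_indicator_one hB]
  rw [fub_one (2 * m) _ (measurable_one.indicator hB)]
  have h2 : ∀ y : Fin (2 * m) → ℝ, (∫⁻ t : ℝ, (Bod m).indicator (1 : (Fin (2 * m + 1) → ℝ) → ENNReal)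
      (Fin.snoc y t : Fin (2 * m + 1) → ℝ)) =
      ({y : Fin (2 * m) → ℝ | cx y ∈ S m}).indicator (fun y => ENNReal.ofReal 2 *
        ENNReal.ofReal (rad (cx y) m ^ 1)) y := by
    intro y
    have hlow : ∀ t : ℝ, ∀ j < m, cx (Fin.snoc y t : Fin (2 * m + 1) → ℝ) j = cx y j :=
      fun t j hj => be_snoc1 _ _ _ (by omega)
    by_cases hy : cx y ∈ S m
    · have hr := rad_pos _ _ hy
      rw [Set.indicator_of_mem (show y ∈ {y : Fin (2 * m) → ℝ | cx y ∈ S m} from hy)]
      have e1 : ENNReal.ofReal 2 * ENNReal.ofReal (rad (cx y) m ^ 1) =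
          volume (Metric.ball (cen (cx y) m).re (rad (cx y) m)) := by
        rw [Real.volume_ball, ← ENNReal.ofReal_mul (by norm_num), pow_one]
      rw [e1, ← lintegral_indicator_one Metric.isOpen_ball.measurableSet]
      refine lintegral_congr fun t => ?_
      have hiff : (Fin.snoc y t : Fin (2 * m + 1) → ℝ) ∈ Bod m ↔
          t ∈ Metric.ball (cen (cx y) m).re (rad (cx y) m) := by
        rw [Metric.mem_ball, Real.dist_eq]
        have hl : (Fin.snoc y t : Fin (2 * m + 1) → ℝ) (Fin.last (2 * m)) = t := by simp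
        show (_ ∧ _) ↔ _
        rw [hl, cen_congr _ _ _ (hlow t), rad_congr _ _ _ (hlow t), be_mem _ _ (hlow t)]
        exact and_iff_right hy
      by_cases ht : t ∈ Metric.ball (cen (cx y) m).re (rad (cx y) m)
      · rw [Set.indicator_of_mem ht, Set.indicator_of_mem (hiff.2 ht)]
        rfl
      · rw [Set.indicator_of_notMem ht, Set.indicator_of_notMem fun h => ht (hiff.1 h)]
    · rw [Set.indicator_of_notMem (show y ∉ {y : Fin (2 * m) → ℝ | cx y ∈ S m} from hy)]
      rw [← lintegral_zero (μ := (volume : Measure ℝ))]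
      refine lintegral_congr fun t => ?_
      rw [Set.indicator_of_notMem]
      intro h
      exact hy ((be_mem _ (cx y) (hlow t)).1 h.1)
  rw [lintegral_congr h2, lintegral_indicator hmS, lintegral_const_mul _ hmr, body m 1,
    ← ENNReal.ofReal_mul (by norm_num)]
  congr 1
  have e : ∀ j ∈ Finset.range m, Real.pi / (((1 : ℕ) : ℝ) + 2 * j + 1) =
      Real.pi / 2 * (1 / ((j : ℝ) + 1)) := fun j _ => by
    push_cast
    field_simp
    ring
  rw [Finset.prod_congr rfl e, Finset.prod_mul_distrib, Finset.prod_const, Finset.card_range]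
  have e2 : ∏ j ∈ Finset.range m, (1 / ((j : ℝ) + 1)) = 1 / (m.factorial : ℝ) := by
    rw [Finset.prod_div_distrib, Finset.prod_const_one, ← Finset.prod_range_add_one_eq_factorial]
    push_cast
    rfl
  rw [e2, div_pow]
  field_simp

/-- the curve without scaling -/
noncomputable def tri (m : ℕ) (t : ℝ) : Fin (2 * m + 1) → ℝ := fun i =>
  if (i : ℕ) = 2 * m then Real.cos ((m + 1) * t)
  else if (i : ℕ) % 2 = 0 then Real.cos (((i : ℕ) / 2 + 1 : ℕ) * t)
  else Real.sin (((i : ℕ) / 2 + 1 : ℕ) * t)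

-- MODULE bg
private theorem bg_angle (z : ℂ) (hz : ‖z‖ = 1) : ∃ t ∈ Set.Icc 0 (2 * Real.pi),
    z = (Real.cos t : ℂ) + Real.sin t * Complex.I := by
  have h1 := Complex.norm_mul_exp_arg_mul_I z
  rw [hz, Complex.ofReal_one, one_mul, Complex.exp_mul_I] at h1
  have hp := Complex.arg_le_pi z
  have hn := Complex.neg_pi_lt_arg z
  have hpi := Real.pi_pos
  by_cases h0 : 0 ≤ Complex.arg z
  · refine ⟨Complex.arg z, ⟨h0, by linarith⟩, ?_⟩
    rw [Complex.ofReal_cos, Complex.ofReal_sin]
    exact h1.symm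
  · push Not at h0
    refine ⟨Complex.arg z + 2 * Real.pi, ⟨by linarith, by linarith⟩, ?_⟩
    rw [Real.cos_add_two_pi, Real.sin_add_two_pi, Complex.ofReal_cos, Complex.ofReal_sin]
    exact h1.symm

private theorem bg_pow (t : ℝ) (n : ℕ) : ((Real.cos t : ℂ) + Real.sin t * Complex.I) ^ n =
    (Real.cos (n * t) : ℂ) + Real.sin (n * t) * Complex.I := by
  rw [Complex.ofReal_cos, Complex.ofReal_sin, Complex.cos_add_sin_mul_I_pow, Complex.ofReal_cos,
    Complex.ofReal_sin]
  push_cast
  rfl

/-- Proof. For `x ∈ Bod m` put `c k = cx x k` (`k < m`), `c m = x_{2m} + I * im (cen (cx x) m)`;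
then `c ∈ S (m + 1)` (`cen_congr`, `rad_congr`), use `S_rep` and `z i = exp (I t_i)`,
`t_i ∈ [0, 2π)`. -/
theorem Bod_sub (m : ℕ) : Bod m ⊆ convexHull ℝ (tri m '' Set.Icc 0 (2 * Real.pi)) := by
  intro x hx
  obtain ⟨hxS, hxl⟩ := hx
  set c : ℕ → ℂ := fun k => if k < m then cx x k else ⟨x (Fin.last (2 * m)), (cen (cx x) m).im⟩
    with hc
  have hcx : ∀ k < m, c k = cx x k := by
    intro k hk
    rw [hc]
    simp only
    rw [if_pos hk]
  have hcm : c m = ⟨x (Fin.last (2 * m)), (cen (cx x) m).im⟩ := by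
    rw [hc]
    simp only
    rw [if_neg (lt_irrefl m)]
  have hcS : c ∈ S (m + 1) := by
    intro k hk
    rw [cen_congr c (cx x) k (fun j hj => hcx j (by omega)),
      rad_congr c (cx x) k (fun j hj => hcx j (by omega))]
    rcases Nat.lt_succ_iff_lt_or_eq.1 hk with h | h
    · rw [hcx k h]
      exact hxS k h
    · subst h
      rw [hcm]
      have e : (⟨x (Fin.last (2 * k)), (cen (cx x) k).im⟩ : ℂ) - cen (cx x) k =
          ((x (Fin.last (2 * k)) - (cen (cx x) k).re : ℝ) : ℂ) := by
        apply Complex.ext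
        · simp
        · simp
      rw [e, Complex.norm_real]
      exact hxl
  obtain ⟨w, z, hw, hz, hsum, hrep⟩ := S_rep c (m + 1) hcS
  choose t ht htz using fun i => bg_angle (z i) (hz i)
  have hpow : ∀ k < m + 1, c k = ∑ i, (w i : ℂ) *
      ((Real.cos ((k + 1 : ℕ) * t i) : ℂ) + Real.sin ((k + 1 : ℕ) * t i) * Complex.I) := by
    intro k hk
    rw [hrep k hk]
    apply Finset.sum_congr rfl
    intro i _
    rw [← bg_pow, ← htz i]
  have hre : ∀ k < m + 1, (c k).re = ∑ i, w i * Real.cos ((k + 1 : ℕ) * t i) := by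
    intro k hk
    rw [hpow k hk, Complex.re_sum]
    apply Finset.sum_congr rfl
    intro i _
    rw [Complex.re_ofReal_mul, Complex.add_re, Complex.ofReal_re, Complex.re_ofReal_mul,
      Complex.I_re, mul_zero, add_zero]
  have him : ∀ k < m + 1, (c k).im = ∑ i, w i * Real.sin ((k + 1 : ℕ) * t i) := by
    intro k hk
    rw [hpow k hk, Complex.im_sum]
    apply Finset.sum_congr rfl
    intro i _
    rw [Complex.im_ofReal_mul, Complex.add_im, Complex.ofReal_im, Complex.im_ofReal_mul,
      Complex.I_im, mul_one, zero_add]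
  have hx2 : x = ∑ i, w i • tri m (t i) := by
    funext j
    rw [Finset.sum_apply]
    simp only [Pi.smul_apply, smul_eq_mul]
    have hj := j.2
    by_cases h1 : (j : ℕ) = 2 * m
    · have e : x j = (c m).re := by
        rw [hcm]
        show x j = x (Fin.last (2 * m))
        congr 1
        exact Fin.ext h1
      rw [e, hre m (by omega)]
      apply Finset.sum_congr rfl
      intro i _
      unfold tri
      rw [if_pos h1]
      push_cast
      rfl
    · have hk : (j : ℕ) / 2 < m := by omega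
      by_cases h2 : (j : ℕ) % 2 = 0
      · have e : x j = (c ((j : ℕ) / 2)).re := by
          rw [hcx _ hk]
          unfold cx
          simp only
          rw [dif_pos (by omega)]
          congr 1
          apply Fin.ext
          show (j : ℕ) = 2 * ((j : ℕ) / 2)
          omega
        rw [e, hre _ (by omega)]
        apply Finset.sum_congr rfl
        intro i _
        unfold tri
        rw [if_neg h1, if_pos h2]
      · have e : x j = (c ((j : ℕ) / 2)).im := by
          rw [hcx _ hk]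
          unfold cx
          simp only
          rw [dif_pos (by omega)]
          congr 1
          apply Fin.ext
          show (j : ℕ) = 2 * ((j : ℕ) / 2) + 1
          omega
        rw [e, him _ (by omega)]
        apply Finset.sum_congr rfl
        intro i _
        unfold tri
        rw [if_neg h1, if_neg h2]
  rw [hx2]
  apply (convex_convexHull ℝ _).sum_mem (fun i _ => hw i) hsum
  intro i _
  exact subset_convexHull ℝ _ ⟨t i, ht i, rfl⟩

end Pool.Agent.Hul
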