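import Mathlib

/-!
# MP_67b84b_gt: convex hulls of closed curves, definitions
-/

set_option autoImplicit false

namespace Pool.Agent.Hul

open MeasureTheory Set

/-- Euclidean `n`-space -/
abbrev E (n : ℕ) : Type := EuclideanSpace ℝ (Fin n)

/-- `f` restricted to `[0, 1]` parametrises a simple closed rectifiable curve -/
structure Curve {n : ℕ} (f : ℝ → E n) : Prop where
  cont : ContinuousOn f (Icc 0 1)
  closed : f 0 = f 1
  simple : InjOn f (Ico 0 1)
  rect : eVariationOn f (Icc 0 1) ≠ ⊤

/-- length of the curve -/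
noncomputable def len {n : ℕ} (f : ℝ → E n) : ℝ := (eVariationOn f (Icc 0 1)).toReal

/-- volume of the convex hull of the curve -/
noncomputable def vol {n : ℕ} (f : ℝ → E n) : ℝ := (volume (convexHull ℝ (f '' Icc 0 1))).toReal

/-- the quotients volume of the hull : (length)^n of all simple closed curves -/
def ratios (n : ℕ) : Set ℝ := {q | ∃ f : ℝ → E n, Curve f ∧ q = vol f / len f ^ n}

/-- the best constant -/
noncomputable def gam (n : ℕ) : ℝ := sSup (ratios n)

/-- explicit upper bound -/
noncomputable def upp (n : ℕ) : ℝ :=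
  1 / (n.factorial * √((n + 1).factorial : ℝ) * (n : ℝ) ^ ((n : ℝ) / 2))

/-- explicit lower bound for `n = 2 m + 1` -/
noncomputable def low (m : ℕ) : ℝ :=
  √2 / (4 ^ m * ((2 * m + 1 : ℕ) : ℝ) ^ ((2 * m + 1 : ℝ) / 2) * Real.pi ^ (m + 1) * (m + 1) *
    (m.factorial : ℝ) ^ 3)

end Pool.Agent.Hul
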