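import Pool.Agent.Hul.Path
import Pool.Agent.Hul.Defs

/-!
# MP_67b84b_gt, part A: closed polygons
-/

set_option autoImplicit false

namespace Pool.Agent.Hul

open MeasureTheory Set Matrix

/- MODULE c1 : lift of a closed polygon.
IDEA: `H = convexHull (range fun i => (s i, v i))` in `ℝ × (Fin n → ℝ)` contains `(0, v 0)` and
`(1, v 0)` and projects onto the hull of `v`: `vol_lift`; transport to `Fin (n+1) → ℝ` by
`MeasurableEquiv.piFinSuccAbove (fun _ => ℝ) 0` and use `path_bound`. -/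
private theorem c1_hull {D N : ℕ} (v : Fin N → Fin (D + 1) → ℝ) :
    volume (convexHull ℝ (range v)) =
      volume (convexHull ℝ (range fun i => (v i 0, Fin.tail (v i)))) := by
  have h1 : (range fun i => (v i 0, Fin.tail (v i))) =
      MeasurableEquiv.piFinSuccAbove (fun _ : Fin (D + 1) => ℝ) 0 '' range v := by
    rw [← range_comp]
    rfl
  have hl : IsLinearMap ℝ (MeasurableEquiv.piFinSuccAbove (fun _ : Fin (D + 1) => ℝ) 0) :=
    ⟨fun _ _ => rfl, fun _ _ => rfl⟩
  rw [h1, ← hl.image_convexHull, MeasurableEquiv.image_eq_preimage_symm]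
  exact ((volume_preserving_piFinSuccAbove (fun _ : Fin (D + 1) => ℝ) 0).symm
    _).measure_preimage_equiv _ |>.symm

theorem closed_bound {n N : ℕ} (v : Fin (N + 1) → Fin n → ℝ) (h : v 0 = v (Fin.last N))
    (s : Fin (N + 1) → ℝ) (s0 : s 0 = 0) (s1 : s (Fin.last N) = 1) :
    volume (convexHull ℝ (range v)) / (n + 1) ≤
      ENNReal.ofReal (1 / (((n + 1).factorial : ℝ) ^ 2) *
        detsum (edges (fun i => (Fin.cons (s i) (v i) : Fin (n + 1) → ℝ)))) := by
  have hP := path_bound (fun i => (Fin.cons (s i) (v i) : Fin (n + 1) → ℝ))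
  rw [c1_hull] at hP
  simp only [Fin.cons_zero, Fin.tail_cons] at hP
  refine le_trans ?_ hP
  set H := convexHull ℝ (range fun i => (s i, v i)) with hH
  have hHc : IsCompact H := (Set.finite_range _).isCompact_convexHull ℝ
  have hHx : Convex ℝ H := convex_convexHull ℝ _
  have m0 : ((0 : ℝ), v 0) ∈ H := by
    refine subset_convexHull ℝ _ ⟨0, ?_⟩
    show (s 0, v 0) = _
    rw [s0]
  have m1 : ((1 : ℝ), v 0) ∈ H := by
    refine subset_convexHull ℝ _ ⟨Fin.last N, ?_⟩
    show (s (Fin.last N), v (Fin.last N)) = _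
    rw [s1, h]
  have hl := vol_lift hHc hHx m0 m1
  have hsnd : Prod.snd '' H = convexHull ℝ (range v) := by
    rw [hH, (IsLinearMap.mk (fun _ _ => rfl) (fun _ _ => rfl) :
      IsLinearMap ℝ (Prod.snd : ℝ × (Fin n → ℝ) → (Fin n → ℝ))).image_convexHull, ← range_comp]
    rfl
  rwa [hsnd] at hl
/- END c1 -/

/- MODULE c2 : Cauchy-Binet over all functions.
IDEA: `D! det M = ∑_{σ, τ} sgn σ sgn τ ∏_j M (σ j) (τ j)`; expand `∏_j ∑_i` by
`Finset.prod_univ_sum` (or `Fintype.prod_sum`/`Finset.prod_sum`). -/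
theorem cauchy_binet {D N : ℕ} (l : Fin N → ℝ) (u : Fin N → Fin D → ℝ) :
    ∑ φ : Fin D → Fin N, (∏ j, l (φ j)) * (Matrix.of fun j => u (φ j)).det ^ 2 =
      (D.factorial : ℝ) * (∑ i, l i • Matrix.vecMulVec (u i) (u i)).det := by
  classical
  have e1 : (∑ i, l i • Matrix.vecMulVec (u i) (u i)).det =
      ∑ φ : Fin D → Fin N, (∏ j, l (φ j)) * (∏ j, u (φ j) j) *
        (Matrix.of fun j => u (φ j)).det := by
    rw [Matrix.det_apply']
    have e2 : ∀ σ : Equiv.Perm (Fin D),
        ∏ j, (∑ i, l i • Matrix.vecMulVec (u i) (u i)) (σ j) j =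
          ∑ φ : Fin D → Fin N, ∏ j, (l (φ j) * (u (φ j) (σ j) * u (φ j) j)) := by
      intro σ
      have e3 : ∀ j, (∑ i, l i • Matrix.vecMulVec (u i) (u i)) (σ j) j =
          ∑ i, l i * (u i (σ j) * u i j) := by
        intro j
        rw [Matrix.sum_apply]
        rfl
      rw [Finset.prod_congr rfl fun j _ => e3 j, Finset.prod_univ_sum, Fintype.piFinset_univ]
    rw [Finset.sum_congr rfl fun σ _ => by rw [e2 σ]]
    simp only [Finset.mul_sum]
    rw [Finset.sum_comm]
    refine Finset.sum_congr rfl fun φ _ => ?_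
    rw [← Matrix.det_transpose, Matrix.det_apply', Finset.mul_sum]
    refine Finset.sum_congr rfl fun σ _ => ?_
    rw [Finset.prod_mul_distrib, Finset.prod_mul_distrib]
    have e4 : ∏ i, (Matrix.of fun j => u (φ j))ᵀ (σ i) i = ∏ j, u (φ j) (σ j) := rfl
    rw [e4]
    ring
  have e5 : ∀ τ : Equiv.Perm (Fin D), (∑ i, l i • Matrix.vecMulVec (u i) (u i)).det =
      ∑ φ : Fin D → Fin N, (∏ j, l (φ j)) * (∏ j, u (φ (τ j)) j) *
        (((Equiv.Perm.sign τ : ℤ) : ℝ) * (Matrix.of fun j => u (φ j)).det) := by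
    intro τ
    rw [e1, ← (Equiv.arrowCongr τ.symm (Equiv.refl (Fin N))).sum_comp]
    refine Finset.sum_congr rfl fun φ _ => ?_
    have e6 : (Equiv.arrowCongr τ.symm (Equiv.refl (Fin N))) φ = fun j => φ (τ j) := rfl
    rw [e6]
    have e7 : ∏ j, l (φ (τ j)) = ∏ j, l (φ j) := Equiv.prod_comp τ fun j => l (φ j)
    have e8 := Matrix.det_permute τ (Matrix.of fun j => u (φ j))
    have e9 : (Matrix.of fun j => u (φ j)).submatrix τ id = Matrix.of fun j => u (φ (τ j)) := rfl
    rw [e9] at e8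
    rw [e7, e8]
  have e10 : (D.factorial : ℝ) * (∑ i, l i • Matrix.vecMulVec (u i) (u i)).det =
      ∑ τ : Equiv.Perm (Fin D), (∑ i, l i • Matrix.vecMulVec (u i) (u i)).det := by
    rw [Finset.sum_const, Finset.card_univ, Fintype.card_perm, Fintype.card_fin, nsmul_eq_mul]
  rw [e10, Finset.sum_congr rfl fun τ _ => e5 τ, Finset.sum_comm]
  refine Finset.sum_congr rfl fun φ _ => ?_
  rw [sq]
  nth_rewrite 1 [Matrix.det_apply']
  rw [Finset.sum_mul, Finset.mul_sum]
  refine Finset.sum_congr rfl fun τ _ => ?_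
  have e11 : ∏ i, (Matrix.of fun j => u (φ j)) (τ i) i = ∏ j, u (φ (τ j)) j := rfl
  rw [e11]
  ring
/- END c2 -/

/- MODULE c3 : Cauchy-Schwarz.
IDEA: `|det (l (φ j) • u (φ j))_j| = ∏ l (φ j) * |det (u (φ j))_j|` (`Matrix.det_mul_column`/
`det_mul_row`), `∑_φ ∏_j l (φ j) = (∑ l)^D`, `Finset.sum_mul_sq_le_sq_mul_sq` or
`Real.sum_sqrt_mul_sqrt_le`, and `cauchy_binet`. -/
theorem detsum_le {D N : ℕ} (l : Fin N → ℝ) (hl : ∀ i, 0 ≤ l i) (u : Fin N → Fin D → ℝ) :
    detsum (fun i => l i • u i) ≤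
      √((∑ i, l i) ^ D) *
        √((D.factorial : ℝ) * (∑ i, l i • Matrix.vecMulVec (u i) (u i)).det) := by
  have hL : ∀ φ : Fin D → Fin N, 0 ≤ ∏ j, l (φ j) := fun φ =>
    Finset.prod_nonneg fun j _ => hl (φ j)
  have e1 : ∀ φ : Fin D → Fin N, |(Matrix.of fun j => (l (φ j) • u (φ j))).det| =
      √(∏ j, l (φ j)) * (√(∏ j, l (φ j)) * |(Matrix.of fun j => u (φ j)).det|) := by
    intro φ
    have e2 := Matrix.det_mul_column (fun j => l (φ j)) (Matrix.of fun j => u (φ j))
    have e3 : (Matrix.of fun j => (l (φ j) • u (φ j))) =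
        Matrix.of fun i j => l (φ i) * (Matrix.of fun j => u (φ j)) i j := rfl
    rw [e3, e2, abs_mul, abs_of_nonneg (hL φ), ← mul_assoc, Real.mul_self_sqrt (hL φ)]
  unfold detsum
  rw [Finset.sum_congr rfl fun φ _ => e1 φ]
  refine (Real.sum_mul_le_sqrt_mul_sqrt _ _ _).trans (le_of_eq ?_)
  rw [Fintype.sum_pow, ← cauchy_binet l u]
  congr 2
  · refine Finset.sum_congr rfl fun φ _ => ?_
    rw [Real.sq_sqrt (hL φ)]
  · refine Finset.sum_congr rfl fun φ _ => ?_
    rw [mul_pow, Real.sq_sqrt (hL φ), sq_abs]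
/- END c3 -/

/- MODULE c4 : determinant and trace of a positive semidefinite matrix (arithmetic and geometric
mean of the eigenvalues: `Matrix.PosSemidef.isHermitian`, `IsHermitian.det_eq_prod_eigenvalues`,
`IsHermitian.trace_eq_sum_eigenvalues`, `Real.inner_le_nnorm_mul_nnorm`/
`Real.geom_mean_le_arith_mean_weighted`). -/
theorem det_le_trace {n : ℕ} (hn : 1 ≤ n) {A : Matrix (Fin n) (Fin n) ℝ} (hA : A.PosSemidef) :
    A.det ≤ (A.trace / n) ^ n := by
  have hn' : (0 : ℝ) < n := by exact_mod_cast hn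
  have hH := hA.isHermitian
  have hd : A.det = ∏ i, hH.eigenvalues i := by
    rw [hH.det_eq_prod_eigenvalues]
    rfl
  have ht : A.trace = ∑ i, hH.eigenvalues i := by
    rw [hH.trace_eq_sum_eigenvalues]
    rfl
  have h0 : ∀ i, 0 ≤ hH.eigenvalues i := hA.eigenvalues_nonneg
  have h1 := Real.geom_mean_le_arith_mean_weighted (Finset.univ : Finset (Fin n))
    (fun _ => (1 : ℝ) / n) hH.eigenvalues (fun _ _ => by positivity)
    (by rw [Finset.sum_const, Finset.card_univ, Fintype.card_fin, nsmul_eq_mul]; field_simp)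
    (fun i _ => h0 i)
  have h2 : (∏ i, hH.eigenvalues i ^ ((1 : ℝ) / n)) ^ n = A.det := by
    rw [hd, ← Finset.prod_pow]
    refine Finset.prod_congr rfl fun i _ => ?_
    rw [← Real.rpow_natCast, ← Real.rpow_mul (h0 i), one_div_mul_cancel hn'.ne', Real.rpow_one]
  have h3 : ∑ i, (1 : ℝ) / n * hH.eigenvalues i = A.trace / n := by
    rw [ht, ← Finset.mul_sum]
    ring
  rw [h3] at h1
  rw [← h2]
  exact pow_le_pow_left₀ (Finset.prod_nonneg fun i _ => Real.rpow_nonneg (h0 i) _) h1 n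
/- END c4 -/

/-- Euclidean norm of a vector of `Fin n → ℝ` -/
noncomputable def nrm {n : ℕ} (x : Fin n → ℝ) : ℝ := √(∑ k, x k ^ 2)

/- MODULE c5 : the Gram matrix of the lifted polygon.  `x` = edges, `P = ∑ nrm (x i) > 0`,
`∑ x i = 0`.
IDEA: the matrix is block diagonal (`1 / P` and `A = ∑ (nrm (x i))⁻¹ x_i x_iᵀ`, trace `P`,
positive semidefinite): `Matrix.det_succ_row_zero` (only the first term survives), `det_le_trace`.
-/
private theorem c5_nrm_nonneg {n : ℕ} (x : Fin n → ℝ) : 0 ≤ nrm x := Real.sqrt_nonneg _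

private theorem c5_nrm_sq {n : ℕ} (x : Fin n → ℝ) : nrm x ^ 2 = ∑ k, x k ^ 2 :=
  Real.sq_sqrt (Finset.sum_nonneg fun _ _ => sq_nonneg _)

private theorem c5_nrm_zero {n : ℕ} (x : Fin n → ℝ) (h : nrm x = 0) : x = 0 := by
  have h1 := c5_nrm_sq x
  rw [h] at h1
  have h2 : ∑ k, x k ^ 2 = 0 := by rw [← h1]; norm_num
  rw [Finset.sum_eq_zero_iff_of_nonneg (fun _ _ => sq_nonneg _)] at h2
  funext k
  exact pow_eq_zero_iff (two_ne_zero) |>.mp (h2 k (Finset.mem_univ k))

private theorem c5_mul_inv {n : ℕ} (x : Fin n → ℝ) : nrm x • ((nrm x)⁻¹ • x) = x := by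
  by_cases h : nrm x = 0
  · rw [c5_nrm_zero x h]; simp
  · rw [smul_smul, mul_inv_cancel₀ h, one_smul]

private theorem c5_trace {n : ℕ} (x : Fin n → ℝ) :
    nrm x * ∑ k, (((nrm x)⁻¹ • x) k * ((nrm x)⁻¹ • x) k) = nrm x := by
  by_cases h : nrm x = 0
  · rw [h, zero_mul]
  · have h1 : ∑ k, (((nrm x)⁻¹ • x) k * ((nrm x)⁻¹ • x) k) = 1 := by
      have h2 : ∀ k, ((nrm x)⁻¹ • x) k * ((nrm x)⁻¹ • x) k = (nrm x ^ 2)⁻¹ * x k ^ 2 := by
        intro k
        simp only [Pi.smul_apply, smul_eq_mul]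
        rw [← inv_pow]
        ring
      simp only [h2]
      rw [← Finset.mul_sum, ← c5_nrm_sq, inv_mul_cancel₀ (pow_ne_zero 2 h)]
    rw [h1, mul_one]

theorem gram_det {n N : ℕ} (hn : 1 ≤ n) (x : Fin N → Fin n → ℝ) (hx : ∑ i, x i = 0)
    (hP : 0 < ∑ i, nrm (x i)) :
    (∑ i, nrm (x i) • Matrix.vecMulVec
        (Fin.cons (∑ i, nrm (x i))⁻¹ ((nrm (x i))⁻¹ • x i) : Fin (n + 1) → ℝ)
        (Fin.cons (∑ i, nrm (x i))⁻¹ ((nrm (x i))⁻¹ • x i) : Fin (n + 1) → ℝ)).det ≤
      (∑ i, nrm (x i))⁻¹ * ((∑ i, nrm (x i)) / n) ^ n := by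
  set P : ℝ := ∑ i, nrm (x i) with hPdef
  set A : Matrix (Fin n) (Fin n) ℝ := ∑ i, nrm (x i) • Matrix.vecMulVec ((nrm (x i))⁻¹ • x i)
    ((nrm (x i))⁻¹ • x i) with hA
  set M : Matrix (Fin (n + 1)) (Fin (n + 1)) ℝ := ∑ i, nrm (x i) • Matrix.vecMulVec
        (Fin.cons P⁻¹ ((nrm (x i))⁻¹ • x i) : Fin (n + 1) → ℝ)
        (Fin.cons P⁻¹ ((nrm (x i))⁻¹ • x i) : Fin (n + 1) → ℝ) with hM
  have h00 : M 0 0 = P⁻¹ := by
    rw [hM, Matrix.sum_apply]
    simp only [Matrix.smul_apply, Matrix.vecMulVec_apply, Fin.cons_zero, smul_eq_mul]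
    rw [← Finset.sum_mul, ← hPdef, ← mul_assoc, mul_inv_cancel₀ hP.ne', one_mul]
  have h0s : ∀ j : Fin n, M 0 j.succ = 0 := by
    intro j
    rw [hM, Matrix.sum_apply]
    simp only [Matrix.smul_apply, Matrix.vecMulVec_apply, Fin.cons_zero, Fin.cons_succ,
      smul_eq_mul]
    have h1 : ∀ i : Fin N, nrm (x i) * (P⁻¹ * ((nrm (x i))⁻¹ • x i) j) = P⁻¹ * x i j := by
      intro i
      have h2 := congrFun (c5_mul_inv (x i)) j
      simp only [Pi.smul_apply, smul_eq_mul] at h2 ⊢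
      linear_combination P⁻¹ * h2
    simp only [h1]
    rw [← Finset.mul_sum]
    have h3 := congrFun hx j
    rw [Finset.sum_apply] at h3
    rw [h3]
    simp
  have hss : M.submatrix Fin.succ (Fin.succAbove 0) = A := by
    ext i j
    rw [hM, hA, Matrix.submatrix_apply, Fin.zero_succAbove, Matrix.sum_apply, Matrix.sum_apply]
    simp only [Matrix.smul_apply, Matrix.vecMulVec_apply, Fin.cons_succ]
  have hdet : M.det = P⁻¹ * A.det := by
    rw [Matrix.det_succ_row_zero, Fin.sum_univ_succ]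
    simp only [h0s, mul_zero, zero_mul, Finset.sum_const_zero, add_zero]
    rw [hss, h00]
    simp
  have hpsd : A.PosSemidef := by
    rw [hA]
    refine Matrix.posSemidef_sum _ fun i _ => ?_
    refine Matrix.PosSemidef.smul ?_ (c5_nrm_nonneg (x i))
    have h4 := Matrix.posSemidef_vecMulVec_self_star (((nrm (x i))⁻¹ • x i : Fin n → ℝ))
    rwa [star_trivial] at h4
  have htr : A.trace = P := by
    rw [hA, Matrix.trace_sum, hPdef]
    refine Finset.sum_congr rfl fun i _ => ?_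
    rw [Matrix.trace_smul, Matrix.trace_vecMulVec, smul_eq_mul]
    exact c5_trace (x i)
  have hle := det_le_trace hn hpsd
  rw [htr] at hle
  rw [hdet]
  exact mul_le_mul_of_nonneg_left hle (inv_nonneg.mpr hP.le)
/- END c5 -/

/- MODULE c6 : the closed polygon in `Fin n → ℝ`.
IDEA: `P = ∑ nrm (edges v i)`.  `P = 0`: all vertices are equal and the hull is a point
(volume `0` as `n ≥ 1`).  `P > 0`: `closed_bound` with `s i = (∑_{j < i} nrm (edges v j)) / P`, the
edge of the lift is `nrm (x i) • Fin.cons P⁻¹ ((nrm (x i))⁻¹ • x i)` (also if `nrm (x i) = 0`),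
then `detsum_le` and `gram_det`. -/
private theorem c6_const {n N : ℕ} (v : Fin (N + 1) → Fin n → ℝ)
    (h : ∑ i, nrm (edges v i) = 0) : ∀ i, v i = v 0 := by
  have h1 : ∀ i : Fin N, edges v i = 0 := by
    intro i
    refine c5_nrm_zero _ ?_
    rw [Finset.sum_eq_zero_iff_of_nonneg (fun i _ => c5_nrm_nonneg _)] at h
    exact h i (Finset.mem_univ i)
  intro i
  induction i using Fin.induction with
  | zero => rfl
  | succ i ih =>
    have h2 := h1 i
    unfold edges at h2
    rw [sub_eq_zero] at h2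
    rw [h2, ih]

private theorem c6_sum_edges {n : ℕ} : ∀ {N : ℕ} (v : Fin (N + 1) → Fin n → ℝ),
    ∑ i, edges v i = v (Fin.last N) - v 0 := by
  intro N
  induction N with
  | zero => intro v; simp
  | succ N ih =>
    intro v
    rw [Fin.sum_univ_castSucc]
    have h1 : ∑ i : Fin N, edges v i.castSucc = v (Fin.last N).castSucc - v 0 := by
      have := ih (fun i => v i.castSucc)
      simp only [edges, Fin.castSucc_zero] at this ⊢
      rw [← this]
      rfl
    rw [h1]
    unfold edges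
    rw [Fin.succ_last]
    abel

private theorem c6_const_eq (n : ℕ) (P : ℝ) (hP : 0 < P) (hn : 1 ≤ n) :
    ((n : ℝ) + 1) * (1 / (((n + 1).factorial : ℝ) ^ 2) *
      (√(P ^ (n + 1)) * √(((n + 1).factorial : ℝ) * (P⁻¹ * (P / n) ^ n)))) = upp n * P ^ n := by
  have hF : (0 : ℝ) < ((n + 1).factorial : ℝ) := by exact_mod_cast Nat.factorial_pos (n + 1)
  have hf : (0 : ℝ) < (n.factorial : ℝ) := by exact_mod_cast Nat.factorial_pos n
  have hn0 : (0 : ℝ) < (n : ℝ) := by exact_mod_cast hn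
  have hFf : ((n + 1).factorial : ℝ) = (n + 1) * (n.factorial : ℝ) := by
    rw [Nat.factorial_succ]; push_cast; ring
  have h1 : √(P ^ (n + 1)) * √(((n + 1).factorial : ℝ) * (P⁻¹ * (P / n) ^ n)) =
      √((n + 1).factorial : ℝ) * P ^ n / (n : ℝ) ^ ((n : ℝ) / 2) := by
    rw [← Real.sqrt_mul (by positivity)]
    have h2 : P ^ (n + 1) * (((n + 1).factorial : ℝ) * (P⁻¹ * (P / n) ^ n)) =
        ((n + 1).factorial : ℝ) * (P ^ n) ^ 2 / (n : ℝ) ^ n := by
      rw [div_pow, pow_succ]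
      field_simp
    rw [h2, Real.sqrt_div (by positivity), Real.sqrt_mul (by positivity),
      Real.sqrt_sq (by positivity)]
    congr 1
    rw [Real.sqrt_eq_rpow, ← Real.rpow_natCast, ← Real.rpow_mul hn0.le]
    congr 1
    ring
  rw [h1]
  unfold upp
  have h3 : √((n + 1).factorial : ℝ) * √((n + 1).factorial : ℝ) = ((n + 1).factorial : ℝ) :=
    Real.mul_self_sqrt hF.le
  have h4 : (0 : ℝ) < √((n + 1).factorial : ℝ) := Real.sqrt_pos.mpr hF
  have h5 : (0 : ℝ) < (n : ℝ) ^ ((n : ℝ) / 2) := Real.rpow_pos_of_pos hn0 _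
  set S := √((n + 1).factorial : ℝ) with hS
  set R := (n : ℝ) ^ ((n : ℝ) / 2) with hR
  rw [hFf] at h3 ⊢
  rw [← h3]
  field_simp
  nlinarith [h3]

theorem polygon_pi {n N : ℕ} (hn : 1 ≤ n) (v : Fin (N + 1) → Fin n → ℝ)
    (h : v 0 = v (Fin.last N)) :
    volume (convexHull ℝ (range v)) ≤
      ENNReal.ofReal (upp n * (∑ i, nrm (edges v i)) ^ n) := by
  by_cases hP0 : ∑ i, nrm (edges v i) = 0
  · have h1 := c6_const v hP0
    have h2 : range v = {v 0} := by
      ext y
      simp only [mem_range, mem_singleton_iff]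
      constructor
      · rintro ⟨i, rfl⟩; exact h1 i
      · intro hy; exact ⟨0, hy.symm⟩
    rw [h2, convexHull_singleton]
    have : Nonempty (Fin n) := ⟨⟨0, by omega⟩⟩
    have : Nontrivial (Fin n → ℝ) := inferInstance
    rw [measure_singleton]
    exact zero_le
  · have hP : 0 < ∑ i, nrm (edges v i) :=
      lt_of_le_of_ne (Finset.sum_nonneg fun i _ => c5_nrm_nonneg _) (Ne.symm hP0)
    set P : ℝ := ∑ i, nrm (edges v i) with hPdef
    set s : Fin (N + 1) → ℝ := fun i =>
      (∑ j : Fin N, if (j : ℕ) < (i : ℕ) then nrm (edges v j) else 0) / P with hs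
    have s0 : s 0 = 0 := by simp [hs]
    have s1 : s (Fin.last N) = 1 := by
      rw [hs]
      simp only [Fin.val_last]
      rw [div_eq_one_iff_eq hP.ne']
      refine Finset.sum_congr rfl fun j _ => ?_
      rw [if_pos j.2]
    have hstep : ∀ i : Fin N, s i.succ - s i.castSucc = nrm (edges v i) * P⁻¹ := by
      intro i
      rw [hs]
      simp only
      rw [← sub_div, ← Finset.sum_sub_distrib, Finset.sum_eq_single i]
      · rw [if_pos (by simp), if_neg (by simp), sub_zero, div_eq_mul_inv]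
      · intro j _ hj
        have hj' : (j : ℕ) ≠ i := fun h => hj (Fin.ext h)
        simp only [Fin.val_succ, Fin.val_castSucc]
        by_cases h1 : (j : ℕ) < i
        · rw [if_pos (by omega), if_pos h1, sub_self]
        · rw [if_neg (by omega), if_neg h1, sub_self]
      · intro h; exact absurd (Finset.mem_univ i) h
    have hedge : edges (fun i => (Fin.cons (s i) (v i) : Fin (n + 1) → ℝ)) =
        fun i => nrm (edges v i) •
          (Fin.cons P⁻¹ ((nrm (edges v i))⁻¹ • edges v i) : Fin (n + 1) → ℝ) := by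
      funext i k
      refine Fin.cases ?_ ?_ k
      · show s i.succ - s i.castSucc = nrm (edges v i) * P⁻¹
        exact hstep i
      · intro k
        have h2 := congrFun (c5_mul_inv (edges v i)) k
        show v i.succ k - v i.castSucc k = nrm (edges v i) * ((nrm (edges v i))⁻¹ • edges v i) k
        exact h2.symm
    have hcb := closed_bound v h s s0 s1
    rw [hedge] at hcb
    have hds := detsum_le (fun i => nrm (edges v i)) (fun i => c5_nrm_nonneg _)
      (fun i => (Fin.cons P⁻¹ ((nrm (edges v i))⁻¹ • edges v i) : Fin (n + 1) → ℝ))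
    have hgd := gram_det hn (edges v) (by rw [c6_sum_edges, h, sub_self]) hP
    rw [← hPdef] at hgd hds
    have hds2 : detsum (fun i => nrm (edges v i) •
        (Fin.cons P⁻¹ ((nrm (edges v i))⁻¹ • edges v i) : Fin (n + 1) → ℝ)) ≤
        √(P ^ (n + 1)) * √(((n + 1).factorial : ℝ) * (P⁻¹ * (P / n) ^ n)) := by
      refine hds.trans ?_
      refine mul_le_mul_of_nonneg_left ?_ (Real.sqrt_nonneg _)
      refine Real.sqrt_le_sqrt ?_
      exact mul_le_mul_of_nonneg_left hgd (by positivity)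
    have hfin : volume (convexHull ℝ (range v)) / (n + 1) ≤
        ENNReal.ofReal (1 / (((n + 1).factorial : ℝ) ^ 2) *
          (√(P ^ (n + 1)) * √(((n + 1).factorial : ℝ) * (P⁻¹ * (P / n) ^ n)))) := by
      refine hcb.trans (ENNReal.ofReal_le_ofReal ?_)
      exact mul_le_mul_of_nonneg_left hds2 (by positivity)
    rw [ENNReal.div_le_iff (by positivity) (by simp [ENNReal.add_eq_top])] at hfin
    refine hfin.trans (le_of_eq ?_)
    rw [← c6_const_eq n P hP hn]
    have h6 : ((n : ENNReal) + 1) = ENNReal.ofReal ((n : ℝ) + 1) := by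
      rw [ENNReal.ofReal_add (by positivity) zero_le_one, ENNReal.ofReal_natCast,
        ENNReal.ofReal_one]
    rw [h6, ← ENNReal.ofReal_mul (by positivity)]
    congr 1
    ring
/- END c6 -/

/- MODULE c7 : the closed polygon in `EuclideanSpace` (`EuclideanSpace.volume_preserving_...`,
`EuclideanSpace.norm_eq`). -/
theorem polygon {n N : ℕ} (hn : 1 ≤ n) (v : Fin (N + 1) → E n) (h : v 0 = v (Fin.last N)) :
    volume (convexHull ℝ (range v)) ≤
      ENNReal.ofReal (upp n * (∑ i : Fin N, ‖v i.succ - v i.castSucc‖) ^ n) := by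
  have h1 := polygon_pi hn (fun i => WithLp.ofLp (v i)) (by rw [h])
  have h2 : ∀ i : Fin N, nrm (edges (fun i => WithLp.ofLp (v i)) i) =
      ‖v i.succ - v i.castSucc‖ := by
    intro i
    rw [nrm, EuclideanSpace.norm_eq]
    simp [edges]
  simp only [h2] at h1
  have h3 : convexHull ℝ (range fun i => WithLp.ofLp (v i)) =
      (WithLp.linearEquiv 2 ℝ (Fin n → ℝ)) '' convexHull ℝ (range v) := by
    rw [← LinearEquiv.coe_coe, LinearMap.image_convexHull]
    congr 1
    ext x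
    simp
  have h4 : convexHull ℝ (range v) = (@WithLp.ofLp 2 (Fin n → ℝ)) ⁻¹'
      convexHull ℝ (range fun i => WithLp.ofLp (v i)) := by
    rw [h3]
    exact (Set.preimage_image_eq _ (WithLp.linearEquiv 2 ℝ (Fin n → ℝ)).injective).symm
  have h5 : IsCompact (convexHull ℝ (range fun i => WithLp.ofLp (v i))) :=
    (Set.finite_range _).isCompact_convexHull (𝕜 := ℝ)
  rw [h4, (PiLp.volume_preserving_ofLp (Fin n)).measure_preimage h5.measurableSet.nullMeasurableSet]
  exact h1
/- END c7 -/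

end Pool.Agent.Hul
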