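import Pool.Agent.Hul.Defs
import Pool.Agent.Hul.Bod

/-!
# MP_67b84b_gt: the lower bound in odd dimension
-/

set_option autoImplicit false

namespace Pool.Agent.Hul

open MeasureTheory Set

/-- scaling factors -/
noncomputable def kap (m : ℕ) (i : Fin (2 * m + 1)) : ℝ :=
  √(2 / (2 * m + 1)) / ((i : ℕ) / 2 + 1 : ℕ)

/-- the curve -/
noncomputable def cur (m : ℕ) (t : ℝ) : E (2 * m + 1) :=
  WithLp.toLp 2 (fun i => kap m i * tri m (2 * Real.pi * t) i)

-- MODULE la
/-- length of a `C¹` curve by Cauchy-Schwarz -/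
theorem var_le {n : ℕ} (f f' : ℝ → E n) (hf : ∀ t, HasDerivAt f (f' t) t) (hc : Continuous f')
    (L : ℝ) (hL : 0 ≤ L) (h : ∫ t in (0 : ℝ)..1, ‖f' t‖ ^ 2 ≤ L ^ 2) :
    eVariationOn f (Icc 0 1) ≤ ENNReal.ofReal L := by
  obtain ⟨F, hF⟩ : ∃ F : ℝ → ℝ, F = fun t => ∫ s in (0 : ℝ)..t, ‖f' s‖ := ⟨_, rfl⟩
  have hcn : Continuous fun s => ‖f' s‖ := hc.norm
  have hFI : ∀ a b : ℝ, F b - F a = ∫ s in a..b, ‖f' s‖ := by
    intro a b
    rw [hF]
    exact intervalIntegral.integral_interval_sub_left (hcn.intervalIntegrable _ _)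
      (hcn.intervalIntegrable _ _)
  have hfd : ∀ a b : ℝ, a ≤ b → ‖f b - f a‖ ≤ F b - F a := by
    intro a b hab
    rw [hFI, ← intervalIntegral.integral_eq_sub_of_hasDerivAt (fun x _ => hf x)
      (hc.intervalIntegrable a b)]
    exact intervalIntegral.norm_integral_le_integral_norm hab
  have hmono : MonotoneOn F (Icc 0 1) := by
    intro a _ b _ hab
    have h1 := hfd a b hab
    have h2 := norm_nonneg (f b - f a)
    linarith
  have h01 : F 1 - F 0 ≤ L := by
    have h2 : (F 1 - F 0) ^ 2 ≤ L ^ 2 := by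
      refine le_trans ?_ h
      obtain ⟨c, hcc⟩ : ∃ c, c = F 1 - F 0 := ⟨_, rfl⟩
      have h3 : 0 ≤ ∫ t in (0 : ℝ)..1, (‖f' t‖ - c) ^ 2 :=
        intervalIntegral.integral_nonneg (by norm_num) (fun t _ => sq_nonneg _)
      have h4 : ∫ t in (0 : ℝ)..1, (‖f' t‖ - c) ^ 2 =
          (∫ t in (0 : ℝ)..1, ‖f' t‖ ^ 2) - 2 * c * c + c ^ 2 := by
        have e1 : ∀ t, (‖f' t‖ - c) ^ 2 = ‖f' t‖ ^ 2 - 2 * c * ‖f' t‖ + c ^ 2 := fun t => by ring
        simp_rw [e1]
        rw [intervalIntegral.integral_add, intervalIntegral.integral_sub,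
          intervalIntegral.integral_const_mul, ← hFI, ← hcc, intervalIntegral.integral_const]
        · simp
        · exact (hcn.pow 2).intervalIntegrable _ _
        · exact (hcn.const_mul _).intervalIntegrable _ _
        · exact ((hcn.pow 2).sub (hcn.const_mul _)).intervalIntegrable _ _
        · exact intervalIntegrable_const
      rw [← hcc]
      nlinarith
    exact abs_le_of_sq_le_sq' h2 hL |>.2
  have hv : eVariationOn f (Icc 0 1) ≤ eVariationOn F (Icc 0 1) := by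
    unfold eVariationOn
    refine iSup_mono fun p => Finset.sum_le_sum fun i _ => ?_
    have hm : p.2.1 i ≤ p.2.1 (i + 1) := p.2.2.1 (Nat.le_succ i)
    have h1 := hfd _ _ hm
    rw [edist_dist, edist_dist, dist_eq_norm, Real.dist_eq]
    exact ENNReal.ofReal_le_ofReal (h1.trans (le_abs_self _))
  have hv2 := hmono.eVariationOn_le (left_mem_Icc.2 (zero_le_one (α := ℝ)))
    (right_mem_Icc.2 (zero_le_one (α := ℝ)))
  rw [inter_self] at hv2
  exact hv.trans (hv2.trans (ENNReal.ofReal_le_ofReal h01))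

-- MODULE lb
private theorem lb_sum (m : ℕ) (x : ℝ) :
    ∑ i ∈ Finset.range (2 * m + 1), (if i = 2 * m then Real.sin (((m : ℝ) + 1) * x) ^ 2
      else if i % 2 = 0 then Real.sin ((i / 2 + 1 : ℕ) * x) ^ 2
      else Real.cos ((i / 2 + 1 : ℕ) * x) ^ 2) = m + Real.sin (((m : ℝ) + 1) * x) ^ 2 := by
  rw [Finset.sum_range_succ, if_pos rfl]
  congr 1
  have h1 : ∀ j : ℕ, ∑ i ∈ Finset.range (2 * j), (if i % 2 = 0
      then Real.sin ((i / 2 + 1 : ℕ) * x) ^ 2
      else Real.cos ((i / 2 + 1 : ℕ) * x) ^ 2) = j := by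
    intro j
    induction j with
    | zero => simp
    | succ j ih =>
      rw [show 2 * (j + 1) = 2 * j + 1 + 1 by ring, Finset.sum_range_succ, Finset.sum_range_succ,
        ih, if_pos (by omega), if_neg (by omega), show (2 * j + 1) / 2 = j by omega,
        show 2 * j / 2 = j by omega, add_assoc, Real.sin_sq_add_cos_sq]
      push_cast
      ring
  rw [← h1 m]
  refine Finset.sum_congr rfl fun i hi => ?_
  rw [if_neg (Finset.mem_range.1 hi).ne]

/-- the derivative of the curve -/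
private noncomputable def lb_d (m : ℕ) (t : ℝ) : E (2 * m + 1) :=
  WithLp.toLp 2 (fun i => √(2 / (2 * m + 1)) * (2 * Real.pi) *
    (if (i : ℕ) = 2 * m then -Real.sin (((m : ℝ) + 1) * (2 * Real.pi * t))
      else if (i : ℕ) % 2 = 0 then -Real.sin (((i : ℕ) / 2 + 1 : ℕ) * (2 * Real.pi * t))
      else Real.cos (((i : ℕ) / 2 + 1 : ℕ) * (2 * Real.pi * t))))

private theorem lb_norm (m : ℕ) (t : ℝ) : ‖lb_d m t‖ ^ 2 =
    (2 * Real.pi) ^ 2 * (2 / (2 * m + 1)) *
      (m + Real.sin (((m : ℝ) + 1) * (2 * Real.pi * t)) ^ 2) := by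
  have hn : (0 : ℝ) ≤ 2 / (2 * m + 1) := by positivity
  rw [EuclideanSpace.norm_sq_eq, ← lb_sum, Finset.mul_sum,
    ← Fin.sum_univ_eq_sum_range (fun i => (2 * Real.pi) ^ 2 * (2 / (2 * (m : ℝ) + 1)) *
      (if i = 2 * m then Real.sin (((m : ℝ) + 1) * (2 * Real.pi * t)) ^ 2
      else if i % 2 = 0 then Real.sin ((i / 2 + 1 : ℕ) * (2 * Real.pi * t)) ^ 2
      else Real.cos ((i / 2 + 1 : ℕ) * (2 * Real.pi * t)) ^ 2))]
  refine Finset.sum_congr rfl fun i _ => ?_
  rw [Real.norm_eq_abs, sq_abs]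
  show (√(2 / (2 * m + 1)) * (2 * Real.pi) * _) ^ 2 = _
  rw [mul_pow, mul_pow, Real.sq_sqrt hn]
  split_ifs <;> ring

private theorem lb_deriv (m : ℕ) (t : ℝ) : HasDerivAt (cur m) (lb_d m t) t := by
  have h : HasDerivAt (fun t => fun i : Fin (2 * m + 1) => kap m i * tri m (2 * Real.pi * t) i)
      (fun i => √(2 / (2 * m + 1)) * (2 * Real.pi) *
    (if (i : ℕ) = 2 * m then -Real.sin (((m : ℝ) + 1) * (2 * Real.pi * t))
      else if (i : ℕ) % 2 = 0 then -Real.sin (((i : ℕ) / 2 + 1 : ℕ) * (2 * Real.pi * t))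
      else Real.cos (((i : ℕ) / 2 + 1 : ℕ) * (2 * Real.pi * t)))) t := by
    rw [hasDerivAt_pi]
    intro i
    have hk : (((i : ℕ) / 2 + 1 : ℕ) : ℝ) ≠ 0 := by positivity
    have hlin : ∀ c : ℝ, HasDerivAt (fun t : ℝ => c * (2 * Real.pi * t)) (c * (2 * Real.pi)) t := by
      intro c
      have := ((hasDerivAt_id t).const_mul (2 * Real.pi)).const_mul c
      simpa using this
    unfold tri kap
    by_cases h1 : (i : ℕ) = 2 * m
    · simp only [h1, if_true]
      have h2 := ((hlin ((m : ℝ) + 1)).cos).const_mul (√(2 / (2 * (m : ℝ) + 1)) /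
        ((2 * m / 2 + 1 : ℕ) : ℝ))
      refine h2.congr_deriv ?_
      have h3 : 2 * m / 2 = m := by omega
      rw [h3]
      push_cast
      field_simp
    · by_cases h2 : (i : ℕ) % 2 = 0
      · simp only [h1, h2, if_false, if_true]
        have h3 := ((hlin (((i : ℕ) / 2 + 1 : ℕ) : ℝ)).cos).const_mul (√(2 / (2 * (m : ℝ) + 1)) /
          (((i : ℕ) / 2 + 1 : ℕ) : ℝ))
        refine h3.congr_deriv ?_
        field_simp
      · simp only [h1, h2, if_false]
        have h3 := ((hlin (((i : ℕ) / 2 + 1 : ℕ) : ℝ)).sin).const_mul (√(2 / (2 * (m : ℝ) + 1)) /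
          (((i : ℕ) / 2 + 1 : ℕ) : ℝ))
        refine h3.congr_deriv ?_
        field_simp
  exact (PiLp.continuousLinearEquiv 2 ℝ (fun _ : Fin (2 * m + 1) =>
    ℝ)).symm.toContinuousLinearMap.hasFDerivAt.comp_hasDerivAt t h

private theorem lb_cont (m : ℕ) : Continuous (lb_d m) := by
  unfold lb_d
  apply (PiLp.continuous_toLp 2 _).comp
  rw [continuous_pi_iff]
  intro i
  split_ifs <;> fun_prop

/-- `‖f'‖² = (2π)² (2/n) (m + sin² (2π (m+1) t))` -/
theorem cur_len (m : ℕ) : eVariationOn (cur m) (Icc 0 1) ≤ ENNReal.ofReal (2 * Real.pi) := by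
  have hn : (0 : ℝ) < 2 * m + 1 := by positivity
  apply var_le (cur m) (lb_d m) (lb_deriv m) (lb_cont m) (2 * Real.pi) (by positivity)
  have hI : ∫ t in (0 : ℝ)..1, Real.sin (((m : ℝ) + 1) * (2 * Real.pi * t)) ^ 2 = 1 / 2 := by
    have e1 : ∀ t : ℝ, Real.sin (((m : ℝ) + 1) * (2 * Real.pi * t)) ^ 2 =
        (fun y => Real.sin y ^ 2) ((((m : ℝ) + 1) * (2 * Real.pi)) * t) := by
      intro t
      have : ((m : ℝ) + 1) * (2 * Real.pi * t) = (((m : ℝ) + 1) * (2 * Real.pi)) * t := by ring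
      simp only [this]
    simp_rw [e1]
    have hc : ((m : ℝ) + 1) * (2 * Real.pi) ≠ 0 := by positivity
    rw [intervalIntegral.integral_comp_mul_left (fun y => Real.sin y ^ 2) hc, integral_sin_sq]
    have hs : Real.sin (((m : ℝ) + 1) * (2 * Real.pi) * 1) = 0 := by
      have h1 := Real.sin_nat_mul_pi (2 * (m + 1))
      push_cast at h1
      rw [← h1]; congr 1; ring
    rw [hs]
    simp only [mul_zero, Real.sin_zero, zero_mul, smul_eq_mul, mul_one, sub_zero, zero_add]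
    field_simp
  have e2 : ∀ t : ℝ, ‖lb_d m t‖ ^ 2 = (2 * Real.pi) ^ 2 * (2 / (2 * m + 1)) * m +
      (2 * Real.pi) ^ 2 * (2 / (2 * m + 1)) *
        Real.sin (((m : ℝ) + 1) * (2 * Real.pi * t)) ^ 2 := by
    intro t
    rw [lb_norm]; ring
  simp_rw [e2]
  rw [intervalIntegral.integral_add, intervalIntegral.integral_const_mul,
    intervalIntegral.integral_const_mul, hI, intervalIntegral.integral_const]
  · apply le_of_eq
    simp only [sub_zero, smul_eq_mul, one_mul]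
    field_simp
  · exact intervalIntegrable_const
  · apply Continuous.intervalIntegrable
    fun_prop

-- MODULE lc
/-- `m ≥ 1` is needed for `simple` -/
theorem cur_curve (m : ℕ) (hm : 1 ≤ m) : Curve (cur m) := by
  have hpi := Real.pi_pos
  have hcont : Continuous (cur m) := continuous_iff_continuousAt.2 fun t =>
    (lb_deriv m t).continuousAt
  refine ⟨hcont.continuousOn, ?_, ?_, ?_⟩
  · have h1 : tri m (2 * Real.pi * 0) = tri m (2 * Real.pi * 1) := by
      funext i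
      unfold tri
      split_ifs
      · have h2 := Real.cos_nat_mul_two_pi (m + 1)
        push_cast at h2
        rw [mul_zero, mul_one, mul_zero, Real.cos_zero, h2]
      · have h2 := Real.cos_nat_mul_two_pi ((i : ℕ) / 2 + 1)
        rw [mul_zero, mul_one, mul_zero, Real.cos_zero, h2]
      · have h2 := Real.sin_nat_mul_pi (((i : ℕ) / 2 + 1) * 2)
        rw [Nat.cast_mul, mul_assoc, Nat.cast_ofNat] at h2
        rw [mul_zero, mul_one, mul_zero, Real.sin_zero, h2]
    unfold cur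
    rw [h1]
  · intro s hs t ht hst
    have hk : ∀ i : Fin (2 * m + 1), kap m i ≠ 0 := by
      intro i
      unfold kap
      positivity
    have hco : ∀ i : Fin (2 * m + 1), tri m (2 * Real.pi * s) i = tri m (2 * Real.pi * t) i := by
      intro i
      have h1 : kap m i * tri m (2 * Real.pi * s) i = kap m i * tri m (2 * Real.pi * t) i :=
        congrArg (fun x : E (2 * m + 1) => x i) hst
      exact mul_left_cancel₀ (hk i) h1
    have hc := hco ⟨0, by omega⟩
    have hs' := hco ⟨1, by omega⟩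
    unfold tri at hc hs'
    simp only [show ¬ (0 = 2 * m) by omega, show ¬ (1 = 2 * m) by omega, if_false, if_true,
      Nat.zero_mod, Nat.zero_div, zero_add, Nat.cast_one, one_mul,
      show (1 : ℕ) % 2 = 1 by norm_num, show (1 : ℕ) / 2 = 0 by norm_num,
      one_ne_zero] at hc hs'
    have h2 : Real.cos (2 * Real.pi * s - 2 * Real.pi * t) = 1 := by
      rw [Real.cos_sub, hc, hs', ← sq, ← sq, Real.cos_sq_add_sin_sq]
    have h3 := (Real.cos_eq_one_iff_of_lt_of_lt (x := 2 * Real.pi * s - 2 * Real.pi * t)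
      (by nlinarith [hs.1, hs.2, ht.1, ht.2]) (by nlinarith [hs.1, hs.2, ht.1, ht.2])).1 h2
    have h4 : 2 * Real.pi * (s - t) = 0 := by linarith
    have h5 := (mul_eq_zero.1 h4).resolve_left (by positivity)
    linarith
  · exact ne_top_of_le_ne_top ENNReal.ofReal_ne_top (cur_len m)

-- MODULE ld
private theorem ld_fac (m : ℕ) : ∏ i ∈ Finset.range (2 * m + 1), ((i / 2 + 1 : ℕ) : ℝ) =
    (m.factorial : ℝ) ^ 2 * (m + 1) := by
  rw [Finset.prod_range_succ]
  have h1 : ∀ j : ℕ, ∏ i ∈ Finset.range (2 * j), ((i / 2 + 1 : ℕ) : ℝ) =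
      (j.factorial : ℝ) ^ 2 := by
    intro j
    induction j with
    | zero => simp
    | succ j ih =>
      rw [show 2 * (j + 1) = 2 * j + 1 + 1 by ring, Finset.prod_range_succ, Finset.prod_range_succ,
        ih, show (2 * j + 1) / 2 = j by omega, show 2 * j / 2 = j by omega, Nat.factorial_succ]
      push_cast
      ring
  rw [h1, show 2 * m / 2 = m by omega]
  push_cast
  ring

private theorem ld_prod (m : ℕ) : ∏ i : Fin (2 * m + 1), kap m i =
    (2 / (2 * m + 1 : ℝ)) ^ ((2 * m + 1 : ℝ) / 2) / ((m.factorial : ℝ) ^ 2 * (m + 1)) := by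
  have h0 : (0 : ℝ) ≤ 2 / (2 * m + 1) := by positivity
  unfold kap
  rw [Finset.prod_div_distrib, Finset.prod_const, Finset.card_univ, Fintype.card_fin,
    Fin.prod_univ_eq_prod_range (fun i => ((i / 2 + 1 : ℕ) : ℝ)) (2 * m + 1), ld_fac]
  congr 1
  rw [Real.sqrt_eq_rpow, ← Real.rpow_natCast, ← Real.rpow_mul h0]
  congr 1
  push_cast
  ring

/-- `Bod_volume`, `Bod_sub`, the diagonal linear map with the entries `kap m i`, and
`∏ i, kap m i = (2 / n)^(n/2) / ((m!)^2 (m+1))` -/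
theorem cur_vol (m : ℕ) :
    ENNReal.ofReal ((2 * Real.pi ^ m / (2 ^ m * m.factorial)) *
      ((2 / (2 * m + 1 : ℝ)) ^ ((2 * m + 1 : ℝ) / 2) / ((m.factorial : ℝ) ^ 2 * (m + 1)))) ≤
      volume (convexHull ℝ (cur m '' Icc 0 1)) := by
  obtain ⟨P, hP⟩ : ∃ P : ℝ, P = ∏ i : Fin (2 * m + 1), kap m i := ⟨_, rfl⟩
  have hP0 : 0 ≤ P := by
    rw [hP]
    refine Finset.prod_nonneg fun i _ => ?_
    unfold kap; positivity
  have hPe : P = (2 / (2 * m + 1 : ℝ)) ^ ((2 * m + 1 : ℝ) / 2) / ((m.factorial : ℝ) ^ 2 *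
      (m + 1)) := by
    rw [hP, ld_prod]
  rw [← hPe]
  obtain ⟨D, hD⟩ : ∃ D : (Fin (2 * m + 1) → ℝ) →ₗ[ℝ] (Fin (2 * m + 1) → ℝ),
    D = Matrix.toLin' (Matrix.diagonal (kap m)) := ⟨_, rfl⟩
  have hDa : ∀ x i, D x i = kap m i * x i := by
    intro x i
    rw [hD, Matrix.toLin'_apply, Matrix.mulVec_diagonal]
  have hdet : LinearMap.det D = P := by
    rw [hD, LinearMap.det_toLin', Matrix.det_diagonal, hP]
  have hsub : D '' Bod m ⊆ WithLp.toLp 2 ⁻¹' (convexHull ℝ (cur m '' Icc 0 1)) := by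
    rintro - ⟨x, hx, rfl⟩
    have h1 := Bod_sub m hx
    obtain ⟨L, hL⟩ : ∃ L : (Fin (2 * m + 1) → ℝ) →ₗ[ℝ] E (2 * m + 1),
        ∀ x, L x = WithLp.toLp 2 (D x) :=
      ⟨(WithLp.linearEquiv 2 ℝ (Fin (2 * m + 1) → ℝ)).symm.toLinearMap.comp D, fun x => rfl⟩
    show WithLp.toLp 2 (D x) ∈ convexHull ℝ (cur m '' Icc 0 1)
    rw [← hL]
    have h2 : L x ∈ L '' (convexHull ℝ (tri m '' Set.Icc 0 (2 * Real.pi))) := ⟨x, h1, rfl⟩
    rw [L.image_convexHull] at h2
    refine convexHull_mono ?_ h2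
    rintro - ⟨-, ⟨t, ht, rfl⟩, rfl⟩
    refine ⟨t / (2 * Real.pi), ⟨by have := ht.1; positivity, ?_⟩, ?_⟩
    · rw [div_le_one (by positivity)]; exact ht.2
    · rw [hL]
      unfold cur
      congr 1
      funext i
      rw [hDa]
      congr 2
      field_simp
  have h3 : volume (D '' Bod m) = ENNReal.ofReal P *
      ENNReal.ofReal (2 * Real.pi ^ m / (2 ^ m * m.factorial)) := by
    rw [Measure.addHaar_image_linearMap, hdet, abs_of_nonneg hP0, Bod_volume]
  have h4 : volume (WithLp.toLp 2 ⁻¹' (convexHull ℝ (cur m '' Icc 0 1)) :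
      Set (Fin (2 * m + 1) → ℝ)) = volume (convexHull ℝ (cur m '' Icc 0 1)) := by
    have hm := (EuclideanSpace.volume_preserving_symm_measurableEquiv_toLp (Fin (2 * m + 1))).symm
    exact hm.measure_preimage_equiv _
  rw [← h4]
  refine le_trans (le_of_eq ?_) (measure_mono hsub)
  rw [h3, ← ENNReal.ofReal_mul hP0]
  congr 1
  ring

-- MODULE le
/-- `len ≤ 2π`, and `(2π)^n * low m` is the volume of `cur_vol` -/
theorem low_le (m : ℕ) (hm : 1 ≤ m) : low m ≤ vol (cur m) / len (cur m) ^ (2 * m + 1) := by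
  have hpi := Real.pi_pos
  have hC := cur_curve m hm
  have hlen : len (cur m) ≤ 2 * Real.pi := by
    unfold len
    exact ENNReal.toReal_le_of_le_ofReal (by positivity) (cur_len m)
  have hlen0 : 0 < len (cur m) := by
    unfold len
    rw [ENNReal.toReal_pos_iff]
    refine ⟨?_, lt_top_iff_ne_top.2 hC.rect⟩
    have h1 := eVariationOn.edist_le (cur m) (s := Icc (0 : ℝ) 1) (x := 0) (y := 1 / 2)
      (by simp) (by constructor <;> norm_num)
    refine lt_of_lt_of_le ?_ h1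
    rw [edist_pos]
    intro h
    have h2 := hC.simple (by simp : (0 : ℝ) ∈ Ico (0 : ℝ) 1)
      (by constructor <;> norm_num : (1 / 2 : ℝ) ∈ Ico (0 : ℝ) 1) h
    norm_num at h2
  obtain ⟨A, hA⟩ : ∃ A : ℝ, A = (2 * Real.pi ^ m / (2 ^ m * m.factorial)) *
      ((2 / (2 * m + 1 : ℝ)) ^ ((2 * m + 1 : ℝ) / 2) / ((m.factorial : ℝ) ^ 2 * (m + 1))) :=
    ⟨_, rfl⟩
  have hA0 : 0 ≤ A := by rw [hA]; positivity
  have hvol : A ≤ vol (cur m) := by
    unfold vol
    have h1 := cur_vol m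
    rw [← hA] at h1
    have hfin : volume (convexHull ℝ (cur m '' Icc 0 1)) ≠ ⊤ := by
      have hc : IsCompact (cur m '' Icc (0 : ℝ) 1) := isCompact_Icc.image_of_continuousOn hC.cont
      exact ((isBounded_convexHull.2 hc.isBounded).measure_lt_top).ne
    exact (ENNReal.ofReal_le_iff_le_toReal hfin).1 h1
  have h2 : A / (2 * Real.pi) ^ (2 * m + 1) ≤ vol (cur m) / len (cur m) ^ (2 * m + 1) := by
    apply div_le_div₀ (hA0.trans hvol) hvol (by positivity)
    exact pow_le_pow_left₀ hlen0.le hlen _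
  refine le_trans (le_of_eq ?_) h2
  rw [hA]
  unfold low
  have hn : (0 : ℝ) < 2 * m + 1 := by positivity
  have e1 : (2 / (2 * m + 1 : ℝ)) ^ ((2 * m + 1 : ℝ) / 2) =
      2 ^ m * √2 / (2 * m + 1 : ℝ) ^ ((2 * m + 1 : ℝ) / 2) := by
    rw [Real.div_rpow (by norm_num) hn.le]
    congr 1
    rw [show ((2 * m + 1 : ℝ) / 2) = (m : ℝ) + 1 / 2 by ring, Real.rpow_add (by norm_num),
      Real.rpow_natCast, Real.sqrt_eq_rpow]
  rw [e1]
  push_cast
  have h4 : (4 : ℝ) ^ m = 2 ^ m * 2 ^ m := by rw [← mul_pow]; norm_num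
  have hX : (0 : ℝ) < (2 * m + 1 : ℝ) ^ ((2 * m + 1 : ℝ) / 2) := Real.rpow_pos_of_pos hn _
  obtain ⟨X, hXe⟩ : ∃ X : ℝ, X = (2 * m + 1 : ℝ) ^ ((2 * m + 1 : ℝ) / 2) := ⟨_, rfl⟩
  rw [← hXe] at hX ⊢
  have hf : (0 : ℝ) < m.factorial := by positivity
  rw [h4, mul_pow (2 : ℝ) Real.pi, pow_succ (2 : ℝ) (2 * m), pow_succ Real.pi (2 * m),
    pow_succ Real.pi m, show 2 * m = m + m by ring, pow_add, pow_add]
  field_simp

end Pool.Agent.Hul
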