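import Pool.Agent.Hul.Mu

/-!
# MP_67b84b_gt: `L¹` means of holomorphic functions
-/

set_option autoImplicit false

namespace Pool.Agent.Hul

open ComplexConjugate MeasureTheory Metric Real

-- MODULE zm
/-- Poisson formula in absolute value -/
theorem norm_le_average {f : ℂ → ℂ} (hf : DiffContOnCl ℂ f (ball 0 1)) {w : ℂ} (hw : w ∈ ball (0 : ℂ) 1) :
    ‖f w‖ ≤ circleAverage (fun z : ℂ => (1 - ‖w‖ ^ 2) / ‖z - w‖ ^ 2 * ‖f z‖) 0 1 := by
  have h1 := hf.circleAverage_re_herglotzRieszKernel_smul hw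
  have hw1 : ‖w‖ < 1 := by simpa using hw
  rw [← h1]
  have h2 : circleAverage ((Complex.re ∘ herglotzRieszKernel 0 w) • f) 0 1 =
      (2 * π)⁻¹ • ∫ θ in 0..2 * π, ((Complex.re ∘ herglotzRieszKernel 0 w) • f) (circleMap 0 1 θ) := rfl
  have h3 : circleAverage (fun z : ℂ => (1 - ‖w‖ ^ 2) / ‖z - w‖ ^ 2 * ‖f z‖) 0 1 =
      (2 * π)⁻¹ • ∫ θ in 0..2 * π, (1 - ‖w‖ ^ 2) / ‖circleMap 0 1 θ - w‖ ^ 2 *
        ‖f (circleMap 0 1 θ)‖ := rfl
  have hpi := Real.pi_pos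
  rw [h2, h3, norm_smul, Real.norm_of_nonneg (by positivity)]
  apply mul_le_mul_of_nonneg_left _ (by positivity)
  refine (intervalIntegral.norm_integral_le_integral_norm (by positivity)).trans (le_of_eq ?_)
  apply intervalIntegral.integral_congr
  intro θ _
  show ‖((Complex.re ∘ herglotzRieszKernel 0 w) • f) (circleMap 0 1 θ)‖ = _
  have hz : ‖circleMap 0 1 θ‖ = 1 := by simp
  rw [← poissonKernel_eq_re_herglotzRieszKernel]
  show ‖(poissonKernel 0 w (circleMap 0 1 θ)) • f (circleMap 0 1 θ)‖ = _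
  rw [norm_smul, poissonKernel_def, Real.norm_eq_abs, sub_zero, sub_zero, hz, one_pow,
    abs_of_nonneg]
  apply div_nonneg _ (by positivity)
  have := norm_nonneg w
  nlinarith

/-- the mean of `1 / |z - w|²` over the circle `|w| = ρ`, `|z| = 1` -/
theorem kernel_average {z : ℂ} (hz : ‖z‖ = 1) {ρ : ℝ} (h0 : 0 ≤ ρ) (h1 : ρ < 1) :
    circleAverage (fun w : ℂ => 1 / ‖z - w‖ ^ 2) 0 ρ = 1 / (1 - ρ ^ 2) := by
  -- on the circle: `2 Re (z / (z - w)) = 1 + (1 - ρ²) / |z - w|²`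
  have hz0 : z ≠ 0 := by
    intro h; rw [h, norm_zero] at hz; exact zero_ne_one hz
  have hne : ∀ w ∈ closedBall (0 : ℂ) ρ, z - w ≠ 0 := by
    intro w hw h
    rw [mem_closedBall_zero_iff] at hw
    have : z = w := sub_eq_zero.1 h
    rw [← this, hz] at hw
    linarith
  have hf : DiffContOnCl ℂ (fun w => z / (z - w)) (ball 0 |ρ|) := by
    apply DifferentiableOn.diffContOnCl
    have hsub : closure (ball (0 : ℂ) |ρ|) ⊆ closedBall 0 ρ := by
      rw [abs_of_nonneg h0]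
      exact closure_ball_subset_closedBall
    intro w hw
    exact ((differentiableAt_const z).div ((differentiableAt_const z).sub differentiableAt_id)
      (hne w (hsub hw))).differentiableWithinAt
  have h2 := hf.circleAverage
  have h3 : circleAverage (fun w : ℂ => z / (z - w)) 0 ρ = 1 := by
    rw [h2]
    simp [hz0]
  have hcont : ContinuousOn (fun w : ℂ => z / (z - w)) (sphere 0 |ρ|) := by
    apply ContinuousOn.div continuousOn_const (by fun_prop)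
    intro w hw
    apply hne
    rw [abs_of_nonneg h0] at hw
    exact sphere_subset_closedBall hw
  have h4 := Complex.reCLM.circleAverage_comp_comm (c := 0) (R := ρ)
    (f := fun w : ℂ => z / (z - w)) hcont.circleIntegrable'
  rw [h3] at h4
  have h5 : circleAverage (fun w : ℂ => 1 / 2 + (1 - ρ ^ 2) / 2 * (1 / ‖z - w‖ ^ 2)) 0 ρ = 1 := by
    refine Eq.trans ?_ h4
    apply circleAverage_congr_sphere
    intro w hw
    rw [abs_of_nonneg h0, mem_sphere_zero_iff_norm] at hw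
    have hw' := hne w (by rw [mem_closedBall_zero_iff]; exact hw.le)
    show 1 / 2 + (1 - ρ ^ 2) / 2 * (1 / ‖z - w‖ ^ 2) = (z / (z - w)).re
    have e1 : (z / (z - w)).re = (z * conj (z - w)).re / ‖z - w‖ ^ 2 := by
      rw [div_eq_mul_inv, Complex.inv_def, ← mul_assoc, Complex.re_mul_ofReal,
        Complex.normSq_eq_norm_sq, div_eq_mul_inv]
    have e2 : ‖z - w‖ ^ 2 = 1 + ρ ^ 2 - 2 * (z * conj w).re := by
      rw [← Complex.normSq_eq_norm_sq, Complex.normSq_sub, Complex.normSq_eq_norm_sq,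
        Complex.normSq_eq_norm_sq, hz, hw]
      ring
    have e3 : (z * conj (z - w)).re = 1 - (z * conj w).re := by
      rw [map_sub, mul_sub, Complex.sub_re, Complex.mul_conj, Complex.normSq_eq_norm_sq, hz]
      simp
    have hp : ‖z - w‖ ^ 2 ≠ 0 := pow_ne_zero 2 (norm_ne_zero_iff.2 hw')
    rw [e1, e3]
    rw [e2] at hp ⊢
    field_simp
    ring
  have hci : CircleIntegrable (fun w : ℂ => 1 / ‖z - w‖ ^ 2) 0 ρ := by
    apply ContinuousOn.circleIntegrable'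
    apply ContinuousOn.div continuousOn_const (by fun_prop)
    intro w hw
    rw [abs_of_nonneg h0] at hw
    exact pow_ne_zero 2 (norm_ne_zero_iff.2 (hne w (sphere_subset_closedBall hw)))
  have h6 : circleAverage (fun w : ℂ => 1 / 2 + (1 - ρ ^ 2) / 2 * (1 / ‖z - w‖ ^ 2)) 0 ρ =
      1 / 2 + (1 - ρ ^ 2) / 2 * circleAverage (fun w : ℂ => 1 / ‖z - w‖ ^ 2) 0 ρ := by
    have hc1 : CircleIntegrable (fun w : ℂ => (1 / 2 : ℝ)) 0 ρ :=
      continuousOn_const.circleIntegrable'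
    have hc2 : CircleIntegrable (fun w : ℂ => (1 - ρ ^ 2) / 2 * (1 / ‖z - w‖ ^ 2)) 0 ρ := by
      have := hci.const_smul (a := (1 - ρ ^ 2) / 2)
      exact this
    rw [circleAverage_fun_add hc1 hc2, circleAverage_const]
    congr 1
    exact circleAverage_fun_smul (a := (1 - ρ ^ 2) / 2) (f := fun w : ℂ => 1 / ‖z - w‖ ^ 2)
  rw [h6] at h5
  have h7 : 0 < 1 - ρ ^ 2 := by nlinarith
  rw [eq_div_iff h7.ne']
  linarith

-- MODULE zn
private theorem zn_ca (g : ℂ → ℝ) (R : ℝ) : circleAverage g 0 R =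
    (2 * π)⁻¹ * ∫ θ in 0..2 * π, g (circleMap 0 R θ) := rfl

private theorem zn_swap (k : ℝ → ℝ → ℝ) (hk : Continuous (Function.uncurry k)) :
    ∫ φ in 0..2 * π, ∫ θ in 0..2 * π, k φ θ = ∫ θ in 0..2 * π, ∫ φ in 0..2 * π, k φ θ := by
  apply intervalIntegral_intervalIntegral_swap
  refine IntegrableOn.mono_set (t := Set.uIcc 0 (2 * π) ×ˢ Set.uIcc 0 (2 * π)) ?_
    (Set.prod_mono Set.uIoc_subset_uIcc Set.uIoc_subset_uIcc)
  exact hk.continuousOn.integrableOn_compact (isCompact_uIcc.prod isCompact_uIcc)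

private theorem zn_ne {ρ : ℝ} (h0 : 0 ≤ ρ) (h1 : ρ < 1) (θ φ : ℝ) :
    ‖circleMap 0 1 θ - circleMap 0 ρ φ‖ ^ 2 ≠ 0 := by
  apply pow_ne_zero
  rw [norm_ne_zero_iff]
  intro h
  have h2 : ‖circleMap 0 1 θ‖ = ‖circleMap 0 ρ φ‖ := by rw [sub_eq_zero.1 h]
  simp [abs_of_nonneg h0] at h2
  linarith

private theorem zn_K {ρ : ℝ} (h0 : 0 ≤ ρ) (h1 : ρ < 1) (g : ℝ → ℝ) (hg : Continuous g) :
    Continuous (Function.uncurry fun φ θ : ℝ =>
      (1 - ρ ^ 2) / ‖circleMap 0 1 θ - circleMap 0 ρ φ‖ ^ 2 * g θ) := by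
  have c1 : Continuous (fun p : ℝ × ℝ => circleMap 0 1 p.2) :=
    (continuous_circleMap 0 1).comp continuous_snd
  have c2 : Continuous (fun p : ℝ × ℝ => circleMap 0 ρ p.1) :=
    (continuous_circleMap 0 ρ).comp continuous_fst
  have c3 : Continuous (fun p : ℝ × ℝ => ‖circleMap 0 1 p.2 - circleMap 0 ρ p.1‖ ^ 2) :=
    (c1.sub c2).norm.pow 2
  have c4 : Continuous (fun p : ℝ × ℝ => g p.2) := hg.comp continuous_snd
  exact (Continuous.div continuous_const c3 (fun p => zn_ne h0 h1 p.2 p.1)).mul c4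

/-- `norm_le_average` at `w = ρ e^{iφ}`, average over `φ`, Fubini, `kernel_average` -/
theorem mean_mono {f : ℂ → ℂ} (hf : DiffContOnCl ℂ f (ball 0 1)) {ρ : ℝ} (h0 : 0 ≤ ρ) (h1 : ρ < 1) :
    circleAverage (fun z : ℂ => ‖f z‖) 0 ρ ≤ circleAverage (fun z : ℂ => ‖f z‖) 0 1 := by
  have hpi := Real.pi_pos
  have hfc : ContinuousOn f (closedBall 0 1) := by
    have := hf.continuousOn
    rwa [closure_ball 0 one_ne_zero] at this
  have hm : ∀ r : ℝ, 0 ≤ r → r ≤ 1 → Continuous (fun θ : ℝ => ‖f (circleMap 0 r θ)‖) := by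
    intro r hr0 hr
    refine (hfc.comp_continuous (continuous_circleMap 0 r) ?_).norm
    intro θ
    simp [abs_of_nonneg hr0, hr]
  obtain ⟨g, hg⟩ : ∃ g : ℝ → ℝ, g = fun θ => ‖f (circleMap 0 1 θ)‖ := ⟨_, rfl⟩
  have hgc : Continuous g := by rw [hg]; exact hm 1 zero_le_one le_rfl
  have hK := zn_K h0 h1 g hgc
  have hstep : ∀ φ : ℝ, ‖f (circleMap 0 ρ φ)‖ ≤ (2 * π)⁻¹ * ∫ θ in 0..2 * π,
      (1 - ρ ^ 2) / ‖circleMap 0 1 θ - circleMap 0 ρ φ‖ ^ 2 * g θ := by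
    intro φ
    have h2 := norm_le_average hf (w := circleMap 0 ρ φ) (by simp [abs_of_nonneg h0, h1])
    rw [zn_ca] at h2
    have h3 : ‖circleMap 0 ρ φ‖ = ρ := by simp [abs_of_nonneg h0]
    rw [h3] at h2
    rw [hg]
    exact h2
  rw [zn_ca, zn_ca]
  apply mul_le_mul_of_nonneg_left _ (by positivity)
  have hI : Continuous (fun φ : ℝ => ∫ θ in 0..2 * π,
      (1 - ρ ^ 2) / ‖circleMap 0 1 θ - circleMap 0 ρ φ‖ ^ 2 * g θ) :=
    intervalIntegral.continuous_parametric_intervalIntegral_of_continuous' hK 0 (2 * π)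
  calc ∫ φ in 0..2 * π, ‖f (circleMap 0 ρ φ)‖
      ≤ ∫ φ in 0..2 * π, (2 * π)⁻¹ * ∫ θ in 0..2 * π,
          (1 - ρ ^ 2) / ‖circleMap 0 1 θ - circleMap 0 ρ φ‖ ^ 2 * g θ := by
        apply intervalIntegral.integral_mono_on (by positivity)
        · exact (hm ρ h0 h1.le).intervalIntegrable _ _
        · exact (continuous_const.mul hI).intervalIntegrable _ _
        · intro φ _
          exact hstep φ
    _ = (2 * π)⁻¹ * ∫ φ in 0..2 * π, ∫ θ in 0..2 * π,
          (1 - ρ ^ 2) / ‖circleMap 0 1 θ - circleMap 0 ρ φ‖ ^ 2 * g θ := by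
        rw [intervalIntegral.integral_const_mul]
    _ = (2 * π)⁻¹ * ∫ θ in 0..2 * π, ∫ φ in 0..2 * π,
          (1 - ρ ^ 2) / ‖circleMap 0 1 θ - circleMap 0 ρ φ‖ ^ 2 * g θ := by
        rw [zn_swap _ hK]
    _ = (2 * π)⁻¹ * ∫ θ in 0..2 * π, (2 * π) * g θ := by
        congr 1
        apply intervalIntegral.integral_congr
        intro θ _
        show ∫ φ in 0..2 * π, (1 - ρ ^ 2) / ‖circleMap 0 1 θ - circleMap 0 ρ φ‖ ^ 2 * g θ =
          2 * π * g θ
        rw [intervalIntegral.integral_mul_const]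
        congr 1
        have h4 := kernel_average (z := circleMap 0 1 θ) (by simp) h0 h1
        rw [zn_ca] at h4
        have h5 : ∫ φ in 0..2 * π, (1 - ρ ^ 2) / ‖circleMap 0 1 θ - circleMap 0 ρ φ‖ ^ 2 =
            (1 - ρ ^ 2) * ∫ φ in 0..2 * π, 1 / ‖circleMap 0 1 θ - circleMap 0 ρ φ‖ ^ 2 := by
          rw [← intervalIntegral.integral_const_mul]
          apply intervalIntegral.integral_congr
          intro φ _
          show (1 - ρ ^ 2) / ‖circleMap 0 1 θ - circleMap 0 ρ φ‖ ^ 2 =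
            (1 - ρ ^ 2) * (1 / ‖circleMap 0 1 θ - circleMap 0 ρ φ‖ ^ 2)
          ring
        rw [h5]
        have h6 : 0 < 1 - ρ ^ 2 := by nlinarith
        have h7 : ∫ φ in 0..2 * π, 1 / ‖circleMap 0 1 θ - circleMap 0 ρ φ‖ ^ 2 =
            2 * π * (1 / (1 - ρ ^ 2)) := by
          rw [← h4]
          field_simp
        rw [h7]
        field_simp
    _ = ∫ θ in 0..2 * π, ‖f (circleMap 0 1 θ)‖ := by
        rw [intervalIntegral.integral_const_mul, hg]
        field_simp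

-- MODULE zo
private theorem zo_int {f : ℂ → ℂ} (hf : DiffContOnCl ℂ f (ball 0 1)) {r : ℝ} (h0 : 0 ≤ r)
    (h1 : r ≤ 1) : CircleIntegrable (fun z => ‖f z‖) 0 r :=
  ContinuousOn.circleIntegrable h0 ((hf.continuousOn_ball.mono
    (sphere_subset_closedBall.trans (closedBall_subset_closedBall h1))).norm)

private theorem zo_tri {f g h : ℂ → ℂ} (hf : DiffContOnCl ℂ f (ball 0 1))
    (hg : DiffContOnCl ℂ g (ball 0 1)) (hh : DiffContOnCl ℂ h (ball 0 1)) (c : ℝ) {r : ℝ}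
    (h0 : 0 ≤ r) (h1 : r ≤ 1) (hle : ∀ z : ℂ, ‖z‖ = r → ‖f z‖ ≤ ‖g z‖ + c * ‖h z‖) :
    circleAverage (fun z : ℂ => ‖f z‖) 0 r ≤ circleAverage (fun z : ℂ => ‖g z‖) 0 r +
      c * circleAverage (fun z : ℂ => ‖h z‖) 0 r := by
  have i1 := zo_int hf h0 h1
  have i2 := zo_int hg h0 h1
  have i3 := zo_int hh h0 h1
  have i4 : CircleIntegrable (fun z => c • ‖h z‖) 0 r := by
    have := ((hh.continuousOn_ball.mono (sphere_subset_closedBall.trans
      (closedBall_subset_closedBall h1))).norm).const_smul c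
    exact ContinuousOn.circleIntegrable h0 this
  have e1 : c * circleAverage (fun z : ℂ => ‖h z‖) 0 r =
      circleAverage (fun z : ℂ => c • ‖h z‖) 0 r := by
    rw [circleAverage_fun_smul, smul_eq_mul]
  rw [e1, ← circleAverage_fun_add i2 i4]
  apply circleAverage_mono i1 (i2.add i4)
  intro z hz
  rw [abs_of_nonneg h0] at hz
  have hz' : ‖z‖ = r := by simpa using hz
  simpa using hle z hz'

/-- Write `M r f` for the mean of `‖f‖` over the circle of radius `r`, `h = x D + z^q E`.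
`M 1 (z^q E) = M 1 E ≤ M 1 h + ‖x‖`, `M ρ (z^q E) = ρ^q M ρ E ≤ ρ^q M 1 E ≤ ρ^q (M 1 h + ‖x‖)`,
`M 1 h ≥ M ρ h ≥ ‖x‖ M ρ D - M ρ (z^q E)`. -/
theorem mean_ge {D F : ℂ → ℂ} (hD : DiffContOnCl ℂ D (ball 0 1)) (hF : DiffContOnCl ℂ F (ball 0 1))
    (hD1 : circleAverage (fun z : ℂ => ‖D z‖) 0 1 = 1) (x : ℂ) (q : ℕ) {ρ : ℝ} (h0 : 0 ≤ ρ)
    (h1 : ρ < 1) :
    ‖x‖ * (circleAverage (fun z : ℂ => ‖D z‖) 0 ρ - ρ ^ q) ≤
      (1 + ρ ^ q) * circleAverage (fun z : ℂ => ‖x * D z + z ^ q * F z‖) 0 1 := by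
  have hz : DiffContOnCl ℂ (fun z : ℂ => z ^ q) (ball 0 1) :=
    Differentiable.diffContOnCl (by fun_prop)
  have hG : DiffContOnCl ℂ (fun z => z ^ q * F z) (ball 0 1) := by
    simpa only [smul_eq_mul] using hz.smul hF
  have hxD : DiffContOnCl ℂ (fun z => x * D z) (ball 0 1) := hD.const_smul x
  have hh : DiffContOnCl ℂ (fun z => x * D z + z ^ q * F z) (ball 0 1) := hxD.add hG
  -- (1)
  have s1 : circleAverage (fun z : ℂ => ‖F z‖) 0 1 ≤
      circleAverage (fun z : ℂ => ‖x * D z + z ^ q * F z‖) 0 1 + ‖x‖ * 1 := by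
    have hgoal : ∀ z : ℂ, ‖z‖ = 1 → ‖F z‖ ≤ ‖x * D z + z ^ q * F z‖ + ‖x‖ * ‖D z‖ := ?_
    · have h2 := zo_tri hF hh hD ‖x‖ zero_le_one le_rfl hgoal
      rwa [hD1] at h2
    intro z hz
    have e1 : ‖F z‖ = ‖z ^ q * F z‖ := by rw [norm_mul, norm_pow, hz, one_pow, one_mul]
    have e2 : z ^ q * F z = (x * D z + z ^ q * F z) - x * D z := by ring
    rw [e1]
    nth_rewrite 1 [e2]
    rw [← norm_mul]
    exact norm_sub_le _ _
  -- (2)
  have s2 : circleAverage (fun z : ℂ => ‖z ^ q * F z‖) 0 ρ =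
      ρ ^ q * circleAverage (fun z : ℂ => ‖F z‖) 0 ρ := by
    rw [← smul_eq_mul, ← circleAverage_fun_smul]
    apply circleAverage_congr_sphere
    intro z hz
    rw [abs_of_nonneg h0] at hz
    have hz' : ‖z‖ = ρ := by simpa using hz
    simp only [smul_eq_mul]
    rw [norm_mul, norm_pow, hz']
  -- (3)
  have s3 := mean_mono hF h0 h1
  have s4 := mean_mono hh h0 h1
  -- (4)
  have s5 : circleAverage (fun z : ℂ => ‖x * D z‖) 0 ρ ≤
      circleAverage (fun z : ℂ => ‖x * D z + z ^ q * F z‖) 0 ρ +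
        1 * circleAverage (fun z : ℂ => ‖z ^ q * F z‖) 0 ρ := by
    apply zo_tri hxD hh hG 1 h0 h1.le
    intro z hz
    rw [one_mul]
    have e2 : x * D z = (x * D z + z ^ q * F z) - z ^ q * F z := by ring
    nth_rewrite 1 [e2]
    exact norm_sub_le _ _
  have s6 : circleAverage (fun z : ℂ => ‖x * D z‖) 0 ρ =
      ‖x‖ * circleAverage (fun z : ℂ => ‖D z‖) 0 ρ := by
    rw [← smul_eq_mul, ← circleAverage_fun_smul]
    simp only [norm_mul, smul_eq_mul]
  have hρ : 0 ≤ ρ ^ q := pow_nonneg h0 q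
  have s7 : ρ ^ q * circleAverage (fun z : ℂ => ‖F z‖) 0 ρ ≤
      ρ ^ q * (circleAverage (fun z : ℂ => ‖x * D z + z ^ q * F z‖) 0 1 + ‖x‖ * 1) :=
    mul_le_mul_of_nonneg_left (s3.trans s1) hρ
  rw [s6, s2] at s5
  linarith

-- MODULE zp
private theorem zp_rr (a : ℕ → ℂ) (ha : ∀ j, ‖a j‖ < 1) (m : ℕ) : 0 ≤ rr a m := by
  apply Finset.prod_nonneg
  intro j _
  have h1 := ha j
  have h2 := norm_nonneg (a j)
  nlinarith

/-- `mean_ge` with `D z = rr a m / Φ*_m(z)²`, `F = Q D`; on the circle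
`‖x * D z + z ^ q * F z‖ = ‖2 * G z * z ^ N‖ * ‖D z‖ = 2 * |G z| * dd a z m`, and `‖D z‖ = dd a z m`
everywhere. -/
theorem trig_ge (a : ℕ → ℂ) (ha : ∀ j, ‖a j‖ < 1) (m : ℕ) (G : ℂ → ℝ) (Q : Polynomial ℂ) (x : ℂ)
    (N q : ℕ) (hG : ∀ z : ℂ, ‖z‖ = 1 → 2 * (G z : ℂ) * z ^ N = x + z ^ q * Q.eval z)
    {ρ : ℝ} (h0 : 0 ≤ ρ) (h1 : ρ < 1) :
    ‖x‖ * (circleAverage (fun z : ℂ => dd a z m) 0 ρ - ρ ^ q) ≤
      2 * (1 + ρ ^ q) * circleAverage (fun z : ℂ => |G z| * dd a z m) 0 1 := by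
  have hrr := zp_rr a ha m
  have hD : DiffContOnCl ℂ (fun z => (rr a m : ℂ) / (ph a z m).2 ^ 2) (ball 0 1) := by
    apply DifferentiableOn.diffContOnCl
    rw [closure_ball (0 : ℂ) one_ne_zero]
    intro z hz
    have hz' : ‖z‖ ≤ 1 := by simpa using hz
    apply DifferentiableAt.differentiableWithinAt
    exact (differentiableAt_const _).div ((ph_differentiable a m z).pow 2)
      (pow_ne_zero 2 (ph_ne a ha z hz' m).1)
  have hQ : DiffContOnCl ℂ (fun z => Q.eval z) (ball 0 1) := Q.differentiable.diffContOnCl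
  have hF : DiffContOnCl ℂ (fun z => Q.eval z * ((rr a m : ℂ) / (ph a z m).2 ^ 2)) (ball 0 1) := by
    simpa only [smul_eq_mul] using hQ.smul hD
  have hn : ∀ z, ‖(rr a m : ℂ) / (ph a z m).2 ^ 2‖ = dd a z m := by
    intro z
    rw [norm_div, norm_pow, Complex.norm_real, Real.norm_of_nonneg hrr]
    rfl
  have hD1 : circleAverage (fun z : ℂ => ‖(rr a m : ℂ) / (ph a z m).2 ^ 2‖) 0 1 = 1 := by
    simp only [hn]
    exact dd_average a ha m
  have key := mean_ge hD hF hD1 x q h0 h1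
  simp only [hn] at key
  have e1 : circleAverage (fun z : ℂ => ‖x * ((rr a m : ℂ) / (ph a z m).2 ^ 2) +
      z ^ q * (Q.eval z * ((rr a m : ℂ) / (ph a z m).2 ^ 2))‖) 0 1 =
      2 * circleAverage (fun z : ℂ => |G z| * dd a z m) 0 1 := by
    rw [← smul_eq_mul, ← circleAverage_fun_smul]
    apply circleAverage_congr_sphere
    intro z hz
    rw [abs_one] at hz
    have hz' : ‖z‖ = 1 := by simpa using hz
    simp only [smul_eq_mul]
    have e2 : x * ((rr a m : ℂ) / (ph a z m).2 ^ 2) +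
        z ^ q * (Q.eval z * ((rr a m : ℂ) / (ph a z m).2 ^ 2)) =
        (2 * (G z : ℂ) * z ^ N) * ((rr a m : ℂ) / (ph a z m).2 ^ 2) := by
      rw [hG z hz']; ring
    rw [e2, norm_mul, hn, norm_mul, norm_mul, norm_pow, hz', one_pow, mul_one, Complex.norm_real,
      Complex.norm_ofNat, Real.norm_eq_abs]
    ring
  rw [e1] at key
  linarith

end Pool.Agent.Hul
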