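import Pool.Agent.Hul.Bd
import Pool.Agent.Hul.Po

/-!
# MP_67b84b_gt: points of the convex hull of a trigonometric curve with gaps
-/

set_option autoImplicit false

namespace Pool.Agent.Hul

open ComplexConjugate MeasureTheory Metric Real

/-- trigonometric curve with the frequencies `fr 0, fr 1, ...` -/
noncomputable def tq (fr : ℕ → ℕ) (n : ℕ) (t : ℝ) : Fin n → ℝ := fun i =>
  if (i : ℕ) % 2 = 0 then Real.cos (fr ((i : ℕ) / 2) * t) else Real.sin (fr ((i : ℕ) / 2) * t)

/-- its convex hull -/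
def KK (fr : ℕ → ℕ) (n : ℕ) : Set (Fin n → ℝ) :=
  convexHull ℝ (tq fr n '' Set.Icc 0 (2 * Real.pi))

-- MODULE zq
private theorem zq_hull {n : ℕ} {S : Set (Fin n → ℝ)} (hS : IsCompact S) :
    IsCompact (convexHull ℝ S) := by
  rcases S.eq_empty_or_nonempty with rfl | ⟨s0, hs0⟩
  · simp
  have h : convexHull ℝ S = (fun p : (Fin (n + 1) → ℝ) × (Fin (n + 1) → (Fin n → ℝ)) =>
      ∑ i, p.1 i • p.2 i) '' (stdSimplex ℝ (Fin (n + 1)) ×ˢ Set.pi Set.univ fun _ => S) := by
    ext x
    constructor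
    · intro hx
      obtain ⟨ι, _, z, w, hz, hi, hw, hw1, hxx⟩ := eq_pos_convex_span_of_mem_convexHull hx
      have hcard : Fintype.card ι ≤ Fintype.card (Fin (n + 1)) := by
        have h1 := hi.card_le_finrank_succ
        have h2 := Submodule.finrank_le (vectorSpan ℝ (Set.range z))
        rw [Module.finrank_fin_fun] at h2
        rw [Fintype.card_fin]
        omega
      obtain ⟨e⟩ := Function.Embedding.nonempty_of_card_le hcard
      have ew : ∀ i, Function.extend e w (fun _ => (0 : ℝ)) (e i) = w i := fun i => e.injective.extend_apply w _ i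
      have ez : ∀ i, Function.extend e z (fun _ => s0) (e i) = z i := fun i =>
        e.injective.extend_apply z _ i
      have ew0 : ∀ j, j ∉ Set.range e → Function.extend e w (fun _ => (0 : ℝ)) j = 0 := fun j hj =>
        Function.extend_apply' w _ j hj
      refine ⟨(Function.extend e w (fun _ => (0 : ℝ)), Function.extend e z fun _ => s0), ⟨⟨?_, ?_⟩, ?_⟩, ?_⟩
      · intro j
        by_cases hj : j ∈ Set.range e
        · obtain ⟨i, rfl⟩ := hj
          simp only [ew]
          exact (hw i).le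
        · simp only [ew0 j hj]; exact le_rfl
      · rw [← hw1]
        exact (Fintype.sum_of_injective e e.injective _ _ ew0 fun i => (ew i).symm).symm
      · intro j _
        by_cases hj : j ∈ Set.range e
        · obtain ⟨i, rfl⟩ := hj
          simp only [ez]
          exact hz ⟨i, rfl⟩
        · simp only
          rw [Function.extend_apply' z _ j hj]
          exact hs0
      · rw [← hxx]
        refine (Fintype.sum_of_injective e e.injective _ _ ?_ ?_).symm
        · intro j hj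
          simp only [ew0 j hj, zero_smul]
        · intro i
          simp only [ew, ez]
    · rintro ⟨⟨w, z⟩, ⟨⟨hw0, hw1⟩, hz⟩, rfl⟩
      exact (convex_convexHull ℝ S).sum_mem (fun i _ => hw0 i) hw1
        fun i _ => subset_convexHull ℝ S (hz i trivial)
  rw [h]
  apply ((isCompact_stdSimplex ℝ (Fin (n + 1))).prod (isCompact_univ_pi fun _ => hS)).image
  fun_prop

theorem KK_compact (fr : ℕ → ℕ) (n : ℕ) : IsCompact (KK fr n) := by
  apply zq_hull
  apply isCompact_Icc.image
  refine continuous_pi fun i => ?_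
  unfold tq
  split_ifs <;> fun_prop

/-- `convexHull` of the image under the linear projection -/
theorem KK_lift (fr : ℕ → ℕ) {n n' : ℕ} (h : n ≤ n') (x : Fin n → ℝ) (hx : x ∈ KK fr n) :
    ∃ y ∈ KK fr n', ∀ i : Fin n, y (Fin.castLE h i) = x i := by
  let pr : (Fin n' → ℝ) →ₗ[ℝ] (Fin n → ℝ) := LinearMap.funLeft ℝ ℝ (Fin.castLE h)
  have h1 : KK fr n = pr '' KK fr n' := by
    unfold KK
    rw [LinearMap.image_convexHull, Set.image_image]
    rfl
  rw [h1] at hx
  obtain ⟨y, hy, rfl⟩ := hx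
  exact ⟨y, hy, fun i => rfl⟩

-- MODULE zr
theorem cx_tq (fr : ℕ → ℕ) (n : ℕ) (t : ℝ) (i : ℕ) (hi : 2 * i + 1 < n) :
    cx (tq fr n t) i = Complex.exp (t * Complex.I) ^ fr i := by
  have h1 : 2 * i < n := by omega
  have e1 : (2 * i) % 2 = 0 := by omega
  have e2 : ¬ (2 * i + 1) % 2 = 0 := by omega
  have e3 : 2 * i / 2 = i := by omega
  have e4 : (2 * i + 1) / 2 = i := by omega
  have e5 : Complex.exp (t * Complex.I) ^ fr i = Complex.exp (((fr i * t : ℝ) : ℂ) * Complex.I) := by
    rw [← Complex.exp_nat_mul]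
    push_cast
    ring_nf
  rw [e5]
  apply Complex.ext
  · rw [Complex.exp_ofReal_mul_I_re]
    simp only [cx, dif_pos h1, tq, e1, e3, if_true]
  · rw [Complex.exp_ofReal_mul_I_im]
    simp only [cx, dif_pos hi, tq, if_neg e2, e4]

private theorem zr_sum (f : ℕ → ℝ) (p : ℕ) :
    ∑ j ∈ Finset.range (2 * p), f j = ∑ i ∈ Finset.range p, (f (2 * i) + f (2 * i + 1)) := by
  induction p with
  | zero => simp
  | succ p ih =>
    rw [show 2 * (p + 1) = 2 * p + 1 + 1 by ring, Finset.sum_range_succ, Finset.sum_range_succ,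
      Finset.sum_range_succ, ih]
    ring

/-- `l i = L (e_{2i}) - I * L (e_{2i+1})` -/
theorem lin_form (p : ℕ) (L : (Fin (2 * p) → ℝ) →L[ℝ] ℝ) :
    ∃ l : ℕ → ℂ, ∀ x, L x = (∑ i ∈ Finset.range p, l i * cx x i).re := by
  refine ⟨fun i => ⟨if h : 2 * i < 2 * p then L (Pi.single ⟨2 * i, h⟩ 1) else 0,
    -(if h : 2 * i + 1 < 2 * p then L (Pi.single ⟨2 * i + 1, h⟩ 1) else 0)⟩, fun x => ?_⟩
  have h1 : L x = ∑ j : Fin (2 * p), x j * L (Pi.single j 1) := by
    have h2 : x = ∑ j : Fin (2 * p), x j • (Pi.single j (1 : ℝ) : Fin (2 * p) → ℝ) := by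
      ext k
      simp [Finset.sum_apply, Pi.single_apply]
    conv_lhs => rw [h2]
    rw [map_sum]
    refine Finset.sum_congr rfl fun j _ => ?_
    rw [map_smul, smul_eq_mul]
  have h3 : (∑ j : Fin (2 * p), x j * L (Pi.single j 1)) = ∑ j ∈ Finset.range (2 * p),
      (if h : j < 2 * p then x ⟨j, h⟩ * L (Pi.single ⟨j, h⟩ 1) else 0) := by
    rw [Finset.sum_range]
    refine Finset.sum_congr rfl fun j _ => ?_
    rw [dif_pos j.2]
  rw [h1, h3, zr_sum, Complex.re_sum]
  refine Finset.sum_congr rfl fun i hi => ?_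
  have hi' : i < p := Finset.mem_range.mp hi
  have a1 : 2 * i < 2 * p := by omega
  have a2 : 2 * i + 1 < 2 * p := by omega
  rw [Complex.mul_re]
  simp only [cx, dif_pos a1, dif_pos a2]
  ring

-- MODULE zs
/-- `Q = 2u X^(N-q) - ∑_{i ≤ j} l_i X^(N + fr i - q) - ∑_{i < j} conj l_i X^(N - fr i - q)`, `N = fr j` -/
theorem trig_poly (l : ℕ → ℂ) (u : ℝ) (fr : ℕ → ℕ) (j q : ℕ) (hq : ∀ i < j, fr i + q ≤ fr j)
    (hqj : q ≤ fr j) : ∃ Q : Polynomial ℂ, ∀ z : ℂ, ‖z‖ = 1 →
      2 * ((u - (∑ i ∈ Finset.range (j + 1), l i * z ^ fr i).re : ℝ) : ℂ) * z ^ fr j =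
        -conj (l j) + z ^ q * Q.eval z := by
  refine ⟨Polynomial.C (2 * (u : ℂ)) * Polynomial.X ^ (fr j - q) -
    ∑ i ∈ Finset.range (j + 1), Polynomial.C (l i) * Polynomial.X ^ (fr j + fr i - q) -
    ∑ i ∈ Finset.range j, Polynomial.C (conj (l i)) * Polynomial.X ^ (fr j - fr i - q), ?_⟩
  intro z hz
  have hzz : z * conj z = 1 := by
    rw [Complex.mul_conj, Complex.normSq_eq_norm_sq, hz]
    simp
  have hre : ∀ w : ℂ, 2 * ((w.re : ℝ) : ℂ) = w + conj w := fun w => by
    rw [Complex.add_conj]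
    push_cast
    ring
  rw [Complex.ofReal_sub, mul_sub, hre, map_sum]
  simp only [Polynomial.eval_sub, Polynomial.eval_mul, Polynomial.eval_C, Polynomial.eval_pow,
    Polynomial.eval_X, Polynomial.eval_finsetSum]
  have e1 : z ^ q * z ^ (fr j - q) = z ^ fr j := by
    rw [← pow_add]; congr 1; omega
  have e2 : ∀ i, z ^ q * z ^ (fr j + fr i - q) = z ^ fr j * z ^ fr i := fun i => by
    rw [← pow_add, ← pow_add]; congr 1; omega
  have e3 : ∀ i < j, z ^ q * z ^ (fr j - fr i - q) = conj (z ^ fr i) * z ^ fr j := fun i hi => by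
    have := hq i hi
    have e4 : z ^ fr j = z ^ fr i * (z ^ q * z ^ (fr j - fr i - q)) := by
      rw [← pow_add, ← pow_add]; congr 1; omega
    have e5 : conj (z ^ fr i) * z ^ fr i = 1 := by
      rw [map_pow, ← mul_pow, mul_comm (conj z), hzz, one_pow]
    rw [e4, ← mul_assoc, e5, one_mul]
  have e6 : conj (z ^ fr j) * z ^ fr j = 1 := by
    rw [map_pow, ← mul_pow, mul_comm (conj z), hzz, one_pow]
  rw [mul_sub, mul_sub, Finset.mul_sum, Finset.mul_sum]
  have e7 : ∑ i ∈ Finset.range (j + 1), z ^ q * (l i * z ^ (fr j + fr i - q)) =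
      (∑ i ∈ Finset.range (j + 1), l i * z ^ fr i) * z ^ fr j := by
    rw [Finset.sum_mul]
    refine Finset.sum_congr rfl fun i _ => ?_
    calc z ^ q * (l i * z ^ (fr j + fr i - q)) = l i * (z ^ q * z ^ (fr j + fr i - q)) := by ring
      _ = l i * z ^ fr i * z ^ fr j := by rw [e2]; ring
  have e8 : ∑ i ∈ Finset.range j, z ^ q * (conj (l i) * z ^ (fr j - fr i - q)) =
      (∑ i ∈ Finset.range j, conj (l i * z ^ fr i)) * z ^ fr j := by
    rw [Finset.sum_mul]
    refine Finset.sum_congr rfl fun i hi => ?_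
    calc z ^ q * (conj (l i) * z ^ (fr j - fr i - q)) =
          conj (l i) * (z ^ q * z ^ (fr j - fr i - q)) := by ring
      _ = conj (l i * z ^ fr i) * z ^ fr j := by
          rw [e3 i (Finset.mem_range.1 hi), map_mul]; ring
  have e9 : ∑ i ∈ Finset.range (j + 1), conj (l i * z ^ fr i) =
      ∑ i ∈ Finset.range j, conj (l i * z ^ fr i) + conj (l j) * conj (z ^ fr j) := by
    rw [Finset.sum_range_succ, map_mul (starRingEnd ℂ) (l j)]
  rw [e7, e8, e9]
  calc (2 * (u : ℂ) - (∑ i ∈ Finset.range (j + 1), l i * z ^ fr i +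
          (∑ i ∈ Finset.range j, conj (l i * z ^ fr i) + conj (l j) * conj (z ^ fr j)))) * z ^ fr j
      = 2 * (u : ℂ) * z ^ fr j - (∑ i ∈ Finset.range (j + 1), l i * z ^ fr i) * z ^ fr j -
        (∑ i ∈ Finset.range j, conj (l i * z ^ fr i)) * z ^ fr j -
        conj (l j) * (conj (z ^ fr j) * z ^ fr j) := by ring
    _ = -conj (l j) + (z ^ q * (2 * (u : ℂ) * z ^ (fr j - q)) -
        (∑ i ∈ Finset.range (j + 1), l i * z ^ fr i) * z ^ fr j -
        (∑ i ∈ Finset.range j, conj (l i * z ^ fr i)) * z ^ fr j) := by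
        rw [e6, show z ^ q * (2 * (u : ℂ) * z ^ (fr j - q)) = 2 * (u : ℂ) *
          (z ^ q * z ^ (fr j - q)) by ring, e1]
        ring

-- MODULE zt
private theorem zt_cont (a : ℕ → ℂ) (ha : ∀ j, ‖a j‖ < 1) (m : ℕ) :
    ContinuousOn (fun z : ℂ => dd a z m) (sphere (0 : ℂ) |1|) := by
  unfold dd
  refine ContinuousOn.div continuousOn_const ?_ ?_
  · exact ((ph_differentiable a m).continuous.norm.pow 2).continuousOn
  · intro z hz
    have hz1 : ‖z‖ ≤ 1 := by
      rw [abs_one, mem_sphere_zero_iff_norm] at hz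
      exact hz.le
    have h := (ph_ne a ha z hz1 m).1
    exact pow_ne_zero 2 (norm_ne_zero_iff.2 h)

private theorem zt_nonneg (a : ℕ → ℂ) (ha : ∀ j, ‖a j‖ < 1) (z : ℂ) (m : ℕ) : 0 ≤ dd a z m := by
  unfold dd
  refine div_nonneg ?_ (by positivity)
  unfold rr
  refine Finset.prod_nonneg fun i _ => ?_
  have := ha i
  have h2 : ‖a i‖ ^ 2 ≤ 1 := by
    have := norm_nonneg (a i)
    nlinarith
  linarith

private theorem zt_circle (z : ℂ) (hz : ‖z‖ = 1) : ∃ t ∈ Set.Icc 0 (2 * Real.pi),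
    z = Complex.exp (t * Complex.I) := by
  have h1 := Complex.norm_mul_exp_arg_mul_I z
  rw [hz, Complex.ofReal_one, one_mul] at h1
  have hp := Complex.arg_le_pi z
  have hn := Complex.neg_pi_lt_arg z
  have hpi := Real.pi_pos
  by_cases h0 : 0 ≤ Complex.arg z
  · exact ⟨Complex.arg z, ⟨h0, by linarith⟩, h1.symm⟩
  · push Not at h0
    refine ⟨Complex.arg z + 2 * Real.pi, ⟨by linarith, by linarith⟩, ?_⟩
    push_cast
    rw [add_mul, Complex.exp_add, Complex.exp_two_pi_mul_I, mul_one]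
    exact h1.symm

/-- Suppose not; the point `x` is determined by its `cx`. Strict separation of `x` from the compact
convex set gives `L`, `u` with `L y < u` on `KK`, `u < L x`, and `l` (`lin_form`). The function
`G z = u - Re ∑ l_i z^(fr i)` is positive on the circle (`cx_tq`) and its mean against the density
is `u - L x + Re (l_j ζ) < ‖l_j‖ * ‖ζ‖` (`dd_average`, definition of `mu`). Contradiction to
`trig_poly`, `trig_ge`. -/
theorem sep (a : ℕ → ℂ) (ha : ∀ j, ‖a j‖ < 1) (m : ℕ) (fr : ℕ → ℕ) (j q : ℕ)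
    (hq : ∀ i < j, fr i + q ≤ fr j) (hqj : q ≤ fr j) {ρ : ℝ} (h0 : 0 ≤ ρ) (h1 : ρ < 1) (ζ : ℂ)
    (hζ : 2 * (1 + ρ ^ q) * ‖ζ‖ ≤ circleAverage (fun z : ℂ => dd a z m) 0 ρ - ρ ^ q) :
    ∃ x ∈ KK fr (2 * (j + 1)), (∀ i < j, cx x i = mu a m (fr i)) ∧
      cx x j = mu a m (fr j) + ζ := by
  obtain ⟨c, hc⟩ : ∃ c : ℕ → ℂ, c = fun i => if i < j then mu a m (fr i) else mu a m (fr j) + ζ :=
    ⟨_, rfl⟩
  obtain ⟨x, hx⟩ : ∃ x : Fin (2 * (j + 1)) → ℝ, x = fun i : Fin (2 * (j + 1)) =>
    if (i : ℕ) % 2 = 0 then (c ((i : ℕ) / 2)).re else (c ((i : ℕ) / 2)).im := ⟨_, rfl⟩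
  have hcx : ∀ i ≤ j, cx x i = c i := by
    intro i hi
    have e1 : 2 * i < 2 * (j + 1) := by omega
    have e2 : 2 * i + 1 < 2 * (j + 1) := by omega
    apply Complex.ext
    · unfold cx
      simp only [e1, dif_pos, hx]
      rw [if_pos (by omega), show 2 * i / 2 = i by omega]
    · unfold cx
      simp only [e2, dif_pos, hx]
      rw [if_neg (by omega), show (2 * i + 1) / 2 = i by omega]
  have hcj : c j = mu a m (fr j) + ζ := by rw [hc]; simp
  have hci : ∀ i < j, c i = mu a m (fr i) := by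
    intro i hi
    rw [hc]; simp [hi]
  refine ⟨x, ?_, fun i hi => by rw [hcx i hi.le, hci i hi], by rw [hcx j le_rfl, hcj]⟩
  by_contra hK
  obtain ⟨L, u, hL1, hL2⟩ := geometric_hahn_banach_closed_point
    (show Convex ℝ (KK fr (2 * (j + 1))) from convex_convexHull ℝ _)
    (KK_compact fr (2 * (j + 1))).isClosed hK
  obtain ⟨l, hl⟩ := lin_form (j + 1) L
  obtain ⟨Q, hQ⟩ := trig_poly l u fr j q hq hqj
  obtain ⟨G, hG⟩ : ∃ G : ℂ → ℝ, G = fun z => u - (∑ i ∈ Finset.range (j + 1), l i * z ^ fr i).re :=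
    ⟨_, rfl⟩
  have hmain := trig_ge a ha m G Q (-conj (l j)) (fr j) q (fun z hz => by rw [hG]; exact hQ z hz)
    h0 h1
  rw [norm_neg, RCLike.norm_conj] at hmain
  have hpos : ∀ z : ℂ, ‖z‖ = 1 → 0 < G z := by
    intro z hz
    obtain ⟨t, ht, rfl⟩ := zt_circle z hz
    have h2 := hL1 (tq fr (2 * (j + 1)) t) (subset_convexHull ℝ _ ⟨t, ht, rfl⟩)
    rw [hl] at h2
    have e : ∑ i ∈ Finset.range (j + 1), l i * cx (tq fr (2 * (j + 1)) t) i =
        ∑ i ∈ Finset.range (j + 1), l i * Complex.exp (t * Complex.I) ^ fr i := by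
      refine Finset.sum_congr rfl fun i hi => ?_
      rw [Finset.mem_range] at hi
      rw [cx_tq fr _ t i (by omega)]
    rw [e] at h2
    rw [hG]
    show 0 < u - _
    linarith
  have hdc := zt_cont a ha m
  have hdi : CircleIntegrable (fun z : ℂ => dd a z m) 0 1 := by
    apply ContinuousOn.circleIntegrable'
    exact hdc
  have hav : circleAverage (fun z : ℂ => |G z| * dd a z m) 0 1 =
      u - L x + (l j * ζ).re := by
    have e1 : circleAverage (fun z : ℂ => |G z| * dd a z m) 0 1 =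
        circleAverage (fun z : ℂ => (((u : ℂ) * (dd a z m : ℂ) -
          ∑ i ∈ Finset.range (j + 1), l i * ((dd a z m : ℂ) * z ^ fr i))).re) 0 1 := by
      apply circleAverage_congr_sphere
      intro z hz
      rw [abs_one, mem_sphere_zero_iff_norm] at hz
      show |G z| * dd a z m = _
      rw [abs_of_pos (hpos z hz), hG]
      have e2 : ∑ i ∈ Finset.range (j + 1), l i * ((dd a z m : ℂ) * z ^ fr i) =
          (dd a z m : ℂ) * ∑ i ∈ Finset.range (j + 1), l i * z ^ fr i := by
        rw [Finset.mul_sum]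
        refine Finset.sum_congr rfl fun i _ => ?_
        ring
      show (u - (∑ i ∈ Finset.range (j + 1), l i * z ^ fr i).re) * dd a z m =
        ((u : ℂ) * (dd a z m : ℂ) -
          ∑ i ∈ Finset.range (j + 1), l i * ((dd a z m : ℂ) * z ^ fr i)).re
      rw [e2, Complex.sub_re, Complex.re_ofReal_mul, Complex.re_ofReal_mul, Complex.ofReal_re]
      ring
    have hdcc : ContinuousOn (fun z : ℂ => (dd a z m : ℂ)) (sphere (0 : ℂ) |1|) :=
      Complex.continuous_ofReal.comp_continuousOn hdc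
    have hi1 : CircleIntegrable (fun z : ℂ => (u : ℂ) * (dd a z m : ℂ)) 0 1 :=
      (continuousOn_const.mul hdcc).circleIntegrable'
    have hi2 : ∀ i ∈ Finset.range (j + 1), CircleIntegrable
        (fun z : ℂ => l i * ((dd a z m : ℂ) * z ^ fr i)) 0 1 := fun i _ =>
      (continuousOn_const.mul (hdcc.mul (by fun_prop))).circleIntegrable'
    have hi3 : CircleIntegrable (fun z : ℂ => ∑ i ∈ Finset.range (j + 1),
        l i * ((dd a z m : ℂ) * z ^ fr i)) 0 1 := by
      refine ContinuousOn.circleIntegrable' ?_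
      refine continuousOn_finsetSum _ fun i _ => ?_
      exact continuousOn_const.mul (hdcc.mul (by fun_prop))
    have e3 : circleAverage (fun z : ℂ => (((u : ℂ) * (dd a z m : ℂ) -
          ∑ i ∈ Finset.range (j + 1), l i * ((dd a z m : ℂ) * z ^ fr i))).re) 0 1 =
        (circleAverage (fun z : ℂ => ((u : ℂ) * (dd a z m : ℂ) -
          ∑ i ∈ Finset.range (j + 1), l i * ((dd a z m : ℂ) * z ^ fr i))) 0 1).re := by
      have := Complex.reCLM.circleAverage_comp_comm (c := 0) (R := 1) (f := fun z : ℂ =>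
        ((u : ℂ) * (dd a z m : ℂ) - ∑ i ∈ Finset.range (j + 1), l i * ((dd a z m : ℂ) * z ^ fr i)))
        (hi1.sub hi3)
      exact this
    rw [e1, e3, circleAverage_fun_sub hi1 hi3, circleAverage_fun_sum hi2]
    have e4 : ∀ i, circleAverage (fun z : ℂ => l i * ((dd a z m : ℂ) * z ^ fr i)) 0 1 =
        l i * mu a m (fr i) := by
      intro i
      have := circleAverage_fun_smul (a := l i) (f := fun z : ℂ => (dd a z m : ℂ) * z ^ fr i)
        (c := 0) (R := 1)
      simp only [smul_eq_mul] at this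
      rw [this]
      rfl
    have e5 : circleAverage (fun z : ℂ => (u : ℂ) * (dd a z m : ℂ)) 0 1 = u := by
      have h2 := circleAverage_fun_smul (a := (u : ℂ)) (f := fun z : ℂ => (dd a z m : ℂ))
        (c := 0) (R := 1)
      simp only [smul_eq_mul] at h2
      have h3 := Complex.ofRealCLM.circleAverage_comp_comm (c := 0) (R := 1)
        (f := fun z : ℂ => dd a z m) hdi
      have h4 : circleAverage (fun z : ℂ => (dd a z m : ℂ)) 0 1 = 1 := by
        have h5 : circleAverage (fun z : ℂ => (dd a z m : ℂ)) 0 1 =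
          ((circleAverage (fun z : ℂ => dd a z m) 0 1 : ℝ) : ℂ) := h3
        rw [h5, dd_average a ha m, Complex.ofReal_one]
      rw [h2, h4, mul_one]
    rw [e5, Finset.sum_congr rfl fun i _ => e4 i, hl x]
    have e6 : ∑ i ∈ Finset.range (j + 1), l i * cx x i =
        ∑ i ∈ Finset.range (j + 1), l i * mu a m (fr i) + l j * ζ := by
      rw [Finset.sum_range_succ, Finset.sum_range_succ, hcx j le_rfl, hcj]
      rw [Finset.sum_congr rfl fun i hi => by
        rw [hcx i (Finset.mem_range.1 hi).le, hci i (Finset.mem_range.1 hi)]]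
      ring
    rw [e6, Complex.sub_re, Complex.add_re, Complex.ofReal_re]
    ring
  rw [hav] at hmain
  have h5 : (l j * ζ).re ≤ ‖l j‖ * ‖ζ‖ := by
    rw [← norm_mul]
    exact Complex.re_le_norm _
  have hrq : 0 < 2 * (1 + ρ ^ q) := by positivity
  have h6 : 2 * (1 + ρ ^ q) * (u - L x + (l j * ζ).re) < 2 * (1 + ρ ^ q) * (‖l j‖ * ‖ζ‖) := by
    apply mul_lt_mul_of_pos_left _ hrq
    linarith
  have h7 := mul_le_mul_of_nonneg_left hζ (norm_nonneg (l j))
  nlinarith

-- MODULE zu
theorem tri_vol {n : ℕ} (hn : 1 ≤ n) (F : Set (Fin n → ℝ)) (hF : Convex ℝ F) (y : Fin n → ℝ)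
    (hy : y ∈ F) (R : ℝ) (hR : 0 ≤ R) (p : Fin n → (Fin n → ℝ)) (hp : ∀ i, p i ∈ F)
    (h1 : ∀ i, p i i = y i + R) (h2 : ∀ i l, l < i → p i l = y l) :
    ENNReal.ofReal ((R / n) ^ n) ≤ volume F := by
  have hn' : (0 : ℝ) < n := by exact_mod_cast hn
  let M : Matrix (Fin n) (Fin n) ℝ := Matrix.of fun l i => p i l - y l
  have hM : M.BlockTriangular OrderDual.toDual := by
    intro l i hli
    have hli' : l < i := hli
    simp [M, h2 i l hli']
  have hdet : M.det = R ^ n := by
    rw [Matrix.det_of_isLowerTriangular M hM]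
    simp [M, h1]
  let f : (Fin n → ℝ) →ₗ[ℝ] (Fin n → ℝ) := Matrix.toLin' M
  have hf : LinearMap.det f = R ^ n := by
    rw [show f = Matrix.toLin' M from rfl, LinearMap.det_toLin', hdet]
  let C : Set (Fin n → ℝ) := Set.Icc (fun _ => (0 : ℝ)) (fun _ => 1 / n)
  have hC : volume C = ENNReal.ofReal ((1 / n : ℝ) ^ n) := by
    rw [Real.volume_Icc_pi]
    simp only [sub_zero, Finset.prod_const, Finset.card_univ, Fintype.card_fin]
    rw [ENNReal.ofReal_pow (by positivity)]
  have hsub : (fun x => y + x) '' (f '' C) ⊆ F := by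
    rintro _ ⟨_, ⟨t, ht, rfl⟩, rfl⟩
    have ht0 : ∀ i, 0 ≤ t i := fun i => ht.1 i
    have ht1 : ∀ i, t i ≤ 1 / n := fun i => ht.2 i
    have hsum : ∑ i, t i ≤ 1 := by
      calc ∑ i, t i ≤ ∑ _i : Fin n, (1 / n : ℝ) := Finset.sum_le_sum fun i _ => ht1 i
        _ = 1 := by
          simp only [Finset.sum_const, Finset.card_univ, Fintype.card_fin, nsmul_eq_mul]
          field_simp
    have key : y + f t = (1 - ∑ i, t i) • y + ∑ i, t i • p i := by
      ext l
      simp only [f, Matrix.toLin'_apply, Matrix.mulVec, dotProduct, Pi.add_apply, M,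
        Matrix.of_apply, Pi.smul_apply, smul_eq_mul, Finset.sum_apply]
      have : ∑ i, (p i l - y l) * t i = ∑ i, t i * p i l - (∑ i, t i) * y l := by
        rw [Finset.sum_mul, ← Finset.sum_sub_distrib]
        exact Finset.sum_congr rfl fun i _ => by ring
      rw [this]
      ring
    show y + f t ∈ F
    rw [key]
    have := hF.sum_mem (t := (Finset.univ : Finset (Option (Fin n))))
      (w := fun o => o.elim (1 - ∑ i, t i) t) (z := fun o => o.elim y p)
      (by
        intro o _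
        cases o with
        | none => simpa using hsum
        | some i => exact ht0 i)
      (by
        rw [Fintype.sum_option]
        simp)
      (by
        intro o _
        cases o with
        | none => exact hy
        | some i => exact hp i)
    rw [Fintype.sum_option] at this
    simpa using this
  calc ENNReal.ofReal ((R / n) ^ n) = volume ((fun x => y + x) '' (f '' C)) := by
        rw [Set.image_add_left, measure_preimage_add, Measure.addHaar_image_linearMap, hf, hC,
          ← ENNReal.ofReal_mul (abs_nonneg _), abs_of_nonneg (pow_nonneg hR n)]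
        congr 1
        rw [← mul_pow]
        congr 1
        ring
    _ ≤ volume F := measure_mono hsub

-- MODULE zv
private theorem zv_cx_lift {n n' : ℕ} (h : n ≤ n') (x : Fin n → ℝ) (y : Fin n' → ℝ)
    (hy : ∀ i : Fin n, y (Fin.castLE h i) = x i) (i : ℕ) (hi : 2 * i + 1 < n) :
    cx y i = cx x i := by
  have e1 : 2 * i < n := by omega
  have e2 : 2 * i + 1 < n' := by omega
  have e3 : 2 * i < n' := by omega
  have a1 := hy ⟨2 * i, e1⟩
  have a2 := hy ⟨2 * i + 1, hi⟩
  simp only [Fin.castLE_mk] at a1 a2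
  simp only [cx, e1, e2, e3, hi, dif_pos, a1, a2]

/-- the point of the hull with given `cx`, as an appended vector -/
private theorem zv_pt (m k q : ℕ) (fr : ℕ → ℕ) (hfr : ∀ i < m, fr i = i + 1)
    (hq : ∀ j, m ≤ j → ∀ i < j, fr i + q ≤ fr j) (hqj : ∀ j, m ≤ j → q ≤ fr j) {ρ : ℝ}
    (h0 : 0 ≤ ρ) (h1 : ρ < 1) (y : Fin (2 * m) → ℝ) (hy : cx y ∈ SS m) (j : ℕ) (hj : j < k) (ζ : ℂ)
    (hζ : 2 * (1 + ρ ^ q) * ‖ζ‖ ≤ circleAverage (fun z : ℂ => dd (vr (cx y) m) z m) 0 ρ - ρ ^ q) :
    ∃ u : Fin (2 * k) → ℝ, Fin.append y u ∈ KK fr (2 * m + 2 * k) ∧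
      (∀ i < j, cx u i = mu (vr (cx y) m) m (fr (m + i))) ∧
      cx u j = mu (vr (cx y) m) m (fr (m + j)) + ζ := by
  have ha : ∀ i, ‖vr (cx y) m i‖ < 1 := fun i => vr_lt (cx y) m hy i
  obtain ⟨x, hx, hx1, hx2⟩ := sep (vr (cx y) m) ha m fr (m + j) q (hq (m + j) (by omega))
    (hqj (m + j) (by omega)) h0 h1 ζ hζ
  have hle : 2 * (m + j + 1) ≤ 2 * m + 2 * k := by omega
  obtain ⟨v, hv, hvx⟩ := KK_lift fr hle x hx
  have hcx : ∀ i, i < m + j + 1 → cx v i = cx x i := fun i hi =>
    zv_cx_lift hle x v hvx i (by omega)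
  refine ⟨fun i => v (Fin.natAdd (2 * m) i), ?_, ?_, ?_⟩
  · have : Fin.append y (fun i => v (Fin.natAdd (2 * m) i)) = v := by
      ext i
      refine Fin.addCases (fun i => ?_) (fun i => ?_) i
      · rw [Fin.append_left]
        have hi := i.2
        have hh : cx v (i / 2) = cx y (i / 2) := by
          rw [hcx _ (by omega), hx1 _ (by omega), hfr _ (by omega), mu_vr (cx y) m hy _ (by omega)]
        rcases Nat.even_or_odd' (i : ℕ) with ⟨c, hc | hc⟩
        · have hc2 : (i : ℕ) / 2 = c := by omega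
          rw [hc2] at hh
          have h3 := congrArg Complex.re hh
          simp only [cx] at h3
          rw [dif_pos (by omega), dif_pos (by omega)] at h3
          rw [show i = ⟨2 * c, by omega⟩ from Fin.ext hc]
          exact h3.symm
        · have hc2 : (i : ℕ) / 2 = c := by omega
          rw [hc2] at hh
          have h3 := congrArg Complex.im hh
          simp only [cx] at h3
          rw [dif_pos (by omega), dif_pos (by omega)] at h3
          rw [show i = ⟨2 * c + 1, by omega⟩ from Fin.ext hc]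
          exact h3.symm
      · rw [Fin.append_right]
    rw [this]
    exact hv
  · intro i hi
    rw [← hx1 (m + i) (by omega), ← hcx (m + i) (by omega)]
    simp only [cx]
    rw [dif_pos (by omega), dif_pos (by omega), dif_pos (by omega), dif_pos (by omega)]
    apply Complex.ext
    · show v _ = v _
      congr 1
      apply Fin.ext
      simp
      omega
    · show v _ = v _
      congr 1
      apply Fin.ext
      simp
      omega
  · rw [← hx2, ← hcx (m + j) (by omega)]
    simp only [cx]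
    rw [dif_pos (by omega), dif_pos (by omega), dif_pos (by omega), dif_pos (by omega)]
    apply Complex.ext
    · show v _ = v _
      congr 1
      apply Fin.ext
      simp
      omega
    · show v _ = v _
      congr 1
      apply Fin.ext
      simp
      omega

/-- The fibre over a point of the moment body. Use `tri_vol`: the base point is `sep` with
`j = m + k - 1`, `ζ = 0`; the point `p i` is `sep` with `j = m + i / 2`, `ζ = R` for even `i` and
`ζ = R * I` for odd `i`, lifted by `KK_lift`. The first `2 m` coordinates are those of `y` by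
`mu_vr`. -/
theorem fib_ge (m k q : ℕ) (hk : 1 ≤ k) (fr : ℕ → ℕ) (hfr : ∀ i < m, fr i = i + 1)
    (hq : ∀ j, m ≤ j → ∀ i < j, fr i + q ≤ fr j) (hqj : ∀ j, m ≤ j → q ≤ fr j) {ρ : ℝ}
    (h0 : 0 ≤ ρ) (h1 : ρ < 1) (y : Fin (2 * m) → ℝ) (hy : cx y ∈ SS m) (R : ℝ) (hR : 0 ≤ R)
    (hR2 : 2 * (1 + ρ ^ q) * R ≤ circleAverage (fun z : ℂ => dd (vr (cx y) m) z m) 0 ρ - ρ ^ q) :
    ENNReal.ofReal ((R / (2 * k)) ^ (2 * k)) ≤
      volume {u : Fin (2 * k) → ℝ | Fin.append y u ∈ KK fr (2 * m + 2 * k)} := by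
  have hcv : Convex ℝ {u : Fin (2 * k) → ℝ | Fin.append y u ∈ KK fr (2 * m + 2 * k)} := by
    intro u hu v hv s t hs ht hst
    have h := (convex_convexHull ℝ (tq fr (2 * m + 2 * k) '' Set.Icc 0 (2 * Real.pi))) hu hv hs ht hst
    show Fin.append y (s • u + t • v) ∈ KK fr (2 * m + 2 * k)
    have e : Fin.append y (s • u + t • v) = s • Fin.append y u + t • Fin.append y v := by
      ext i
      refine Fin.addCases (fun i => ?_) (fun i => ?_) i
      · simp only [Fin.append_left, Pi.add_apply, Pi.smul_apply, smul_eq_mul]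
        rw [← add_mul, hst, one_mul]
      · simp only [Fin.append_right, Pi.add_apply, Pi.smul_apply, smul_eq_mul]
    rw [e]
    exact h
  have hpos : (0 : ℝ) ≤ circleAverage (fun z : ℂ => dd (vr (cx y) m) z m) 0 ρ - ρ ^ q :=
    le_trans (by positivity) hR2
  obtain ⟨b, hb1, hb2, hb3⟩ := zv_pt m k q fr hfr hq hqj h0 h1 y hy (k - 1) (by omega) 0
    (by simpa using hpos)
  rw [add_zero] at hb3
  have hb : ∀ i < k, cx b i = mu (vr (cx y) m) m (fr (m + i)) := by
    intro i hi
    rcases Nat.lt_or_ge i (k - 1) with h | h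
    · exact hb2 i h
    · have : i = k - 1 := by omega
      rw [this]
      exact hb3
  have hp : ∀ i : Fin (2 * k), ∃ u : Fin (2 * k) → ℝ,
      Fin.append y u ∈ KK fr (2 * m + 2 * k) ∧
      (∀ l < (i : ℕ) / 2, cx u l = mu (vr (cx y) m) m (fr (m + l))) ∧
      cx u ((i : ℕ) / 2) = mu (vr (cx y) m) m (fr (m + (i : ℕ) / 2)) +
        (if (i : ℕ) % 2 = 0 then (R : ℂ) else (R : ℂ) * Complex.I) := by
    intro i
    refine zv_pt m k q fr hfr hq hqj h0 h1 y hy ((i : ℕ) / 2) (by omega) _ ?_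
    split_ifs
    · simpa [abs_of_nonneg hR] using hR2
    · simpa [abs_of_nonneg hR] using hR2
  choose p hp1 hp2 hp3 using hp
  have key := tri_vol (n := 2 * k) (by omega)
    {u : Fin (2 * k) → ℝ | Fin.append y u ∈ KK fr (2 * m + 2 * k)} hcv b hb1 R hR p hp1 ?_ ?_
  · refine le_trans (le_of_eq ?_) key
    push_cast
    rfl
  · intro i
    have h := hp3 i
    rw [← hb _ (by omega)] at h
    rcases Nat.even_or_odd' (i : ℕ) with ⟨c, hc | hc⟩
    · have hc2 : (i : ℕ) / 2 = c := by omega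
      have hc3 : (i : ℕ) % 2 = 0 := by omega
      rw [hc2, if_pos hc3] at h
      have h3 := congrArg Complex.re h
      simp only [cx, Complex.add_re, Complex.ofReal_re] at h3
      rw [dif_pos (by omega), dif_pos (by omega)] at h3
      have e : i = ⟨2 * c, by omega⟩ := Fin.ext hc
      rw [← e] at h3
      exact h3
    · have hc2 : (i : ℕ) / 2 = c := by omega
      have hc3 : ¬ (i : ℕ) % 2 = 0 := by omega
      rw [hc2, if_neg hc3] at h
      have h3 := congrArg Complex.im h
      simp only [cx, Complex.add_im, Complex.mul_im, Complex.ofReal_re, Complex.ofReal_im,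
        Complex.I_re, Complex.I_im, mul_one, mul_zero, add_zero] at h3
      rw [dif_pos (by omega), dif_pos (by omega)] at h3
      have e : i = ⟨2 * c + 1, by omega⟩ := Fin.ext hc
      rw [← e] at h3
      exact h3
  · intro i l hl
    have hl' : (l : ℕ) < i := hl
    have hi := i.2
    by_cases hcase : (l : ℕ) / 2 < (i : ℕ) / 2
    · have h := hp2 i _ hcase
      rw [← hb _ (by omega)] at h
      rcases Nat.even_or_odd' (l : ℕ) with ⟨c, hc | hc⟩
      · have hc2 : (l : ℕ) / 2 = c := by omega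
        rw [hc2] at h
        have h3 := congrArg Complex.re h
        simp only [cx] at h3
        rw [dif_pos (by omega), dif_pos (by omega)] at h3
        have e : l = ⟨2 * c, by omega⟩ := Fin.ext hc
        rw [← e] at h3
        exact h3
      · have hc2 : (l : ℕ) / 2 = c := by omega
        rw [hc2] at h
        have h3 := congrArg Complex.im h
        simp only [cx] at h3
        rw [dif_pos (by omega), dif_pos (by omega)] at h3
        have e : l = ⟨2 * c + 1, by omega⟩ := Fin.ext hc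
        rw [← e] at h3
        exact h3
    · have hli : (l : ℕ) + 1 = i ∧ (i : ℕ) % 2 = 1 := by omega
      have h := hp3 i
      rw [← hb _ (by omega), if_neg (by omega)] at h
      have h3 := congrArg Complex.re h
      have hc2 : 2 * ((i : ℕ) / 2) = l := by omega
      simp only [cx, Complex.add_re, Complex.mul_re, Complex.ofReal_re, Complex.ofReal_im,
        Complex.I_re, Complex.I_im, mul_one, mul_zero, sub_zero, add_zero] at h3
      rw [dif_pos (by omega), dif_pos (by omega)] at h3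
      have e : l = ⟨2 * ((i : ℕ) / 2), by omega⟩ := Fin.ext hc2.symm
      rw [← e] at h3
      exact h3

-- MODULE zw
private noncomputable def zw_e (p r : ℕ) : (Fin p → ℝ) × (Fin r → ℝ) ≃ᵐ (Fin (p + r) → ℝ) :=
  (MeasurableEquiv.sumPiEquivProdPi (fun _ : Fin p ⊕ Fin r => ℝ)).symm.trans
    (MeasurableEquiv.piCongrLeft (fun _ : Fin (p + r) => ℝ) finSumFinEquiv)

private theorem zw_e_apply (p r : ℕ) (x : (Fin p → ℝ) × (Fin r → ℝ)) :
    zw_e p r x = Fin.append x.1 x.2 := by
  ext i
  obtain ⟨j, rfl⟩ := finSumFinEquiv.surjective i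
  have h := MeasurableEquiv.piCongrLeft_apply_apply (finSumFinEquiv (m := p) (n := r))
    (β := fun _ => ℝ) ((MeasurableEquiv.sumPiEquivProdPi (fun _ : Fin p ⊕ Fin r => ℝ)).symm x) j
  have h' : zw_e p r x (finSumFinEquiv j) =
      (MeasurableEquiv.sumPiEquivProdPi (fun _ : Fin p ⊕ Fin r => ℝ)).symm x j := h
  rw [h']
  cases j with
  | inl j =>
    rw [finSumFinEquiv_apply_left, Fin.append_left]
    rfl
  | inr j =>
    rw [finSumFinEquiv_apply_right, Fin.append_right]
    rfl

private theorem zw_mp (p r : ℕ) :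
    MeasurePreserving (zw_e p r) ((volume : Measure (Fin p → ℝ)).prod volume) volume := by
  have h1 := volume_measurePreserving_sumPiEquivProdPi_symm (fun _ : Fin p ⊕ Fin r => ℝ)
  have h2 := volume_measurePreserving_piCongrLeft (fun _ : Fin (p + r) => ℝ)
    (finSumFinEquiv (m := p) (n := r))
  exact h2.comp h1

/-- Fubini -/
theorem vol_ge (p r : ℕ) (K : Set (Fin (p + r) → ℝ)) (hK : MeasurableSet K)
    (A : Set (Fin p → ℝ)) (g : (Fin p → ℝ) → ENNReal)
    (hg : ∀ y ∈ A, g y ≤ volume {u : Fin r → ℝ | Fin.append y u ∈ K}) (hA : MeasurableSet A) :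
    ∫⁻ y in A, g y ≤ volume K := by
  have h1 : volume K = ((volume : Measure (Fin p → ℝ)).prod volume) (zw_e p r ⁻¹' K) :=
    ((zw_mp p r).measure_preimage hK.nullMeasurableSet).symm
  rw [h1, Measure.prod_apply ((zw_e p r).measurable hK)]
  calc ∫⁻ y in A, g y ≤ ∫⁻ y in A, volume (Prod.mk y ⁻¹' (zw_e p r ⁻¹' K)) := by
        refine setLIntegral_mono' hA fun y hy => ?_
        refine (hg y hy).trans (le_of_eq ?_)
        congr 1
        ext u
        simp [zw_e_apply]
    _ ≤ ∫⁻ y, volume (Prod.mk y ⁻¹' (zw_e p r ⁻¹' K)) := setLIntegral_le_lintegral _ _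

/-- Hölder -/
theorem holder {α : Type*} [MeasurableSpace α] (μ : Measure α) (g : α → ENNReal)
    (hg : Measurable g) (n : ℕ) (hn : 1 ≤ n) :
    (∫⁻ x, g x ∂μ) ^ n ≤ (∫⁻ x, g x ^ n ∂μ) * μ Set.univ ^ (n - 1) := by
  rcases hn.eq_or_lt with rfl | hn2
  · simp
  have hn0 : (0 : ℝ) < n := by exact_mod_cast (by omega : 0 < n)
  have hn1 : (0 : ℝ) < (n : ℝ) - 1 := by
    have : (1 : ℝ) < n := by exact_mod_cast hn2
    linarith
  have hpq : (n : ℝ).HolderConjugate ((n : ℝ) / ((n : ℝ) - 1)) := by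
    refine Real.HolderConjugate.conjExponent ?_
    exact_mod_cast hn2
  have h := ENNReal.lintegral_mul_le_Lp_mul_Lq μ hpq hg.aemeasurable
    (aemeasurable_const (b := (1 : ENNReal)))
  simp only [Pi.mul_apply, mul_one, ENNReal.one_rpow, lintegral_const, one_mul] at h
  calc (∫⁻ x, g x ∂μ) ^ n ≤ ((∫⁻ x, g x ^ (n : ℝ) ∂μ) ^ (1 / (n : ℝ)) *
        μ Set.univ ^ (1 / ((n : ℝ) / ((n : ℝ) - 1)))) ^ n := by gcongr
    _ = (∫⁻ x, g x ^ n ∂μ) * μ Set.univ ^ (n - 1) := by
      rw [mul_pow, ← ENNReal.rpow_natCast, ← ENNReal.rpow_mul, ← ENNReal.rpow_natCast,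
        ← ENNReal.rpow_mul]
      congr 1
      · rw [one_div, inv_mul_cancel₀ hn0.ne', ENNReal.rpow_one]
        simp only [ENNReal.rpow_natCast]
      · rw [← ENNReal.rpow_natCast]
        congr 1
        rw [Nat.cast_sub hn]
        push_cast
        field_simp

-- MODULE zx
private theorem zx_meas2 (m : ℕ) (ρ : ℝ) : Measurable fun p : (Fin (2 * m) → ℝ) × ℝ =>
    dd (vr (cx p.1) m) (circleMap 0 ρ p.2) m := by
  have hv : Measurable ((fun c : ℕ → ℂ => vr c m) ∘ (fun x : Fin (2 * m) → ℝ => cx x)) :=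
    (vr_measurable m).comp (cx_measurable (2 * m))
  have h1 : Measurable (((fun c : ℕ → ℂ => vr c m) ∘ (fun x : Fin (2 * m) → ℝ => cx x)) ∘
      (Prod.fst : (Fin (2 * m) → ℝ) × ℝ → (Fin (2 * m) → ℝ))) := hv.comp measurable_fst
  have h3 : Measurable ((circleMap 0 ρ) ∘ (Prod.snd : (Fin (2 * m) → ℝ) × ℝ → ℝ)) :=
    (continuous_circleMap 0 ρ).measurable.comp measurable_snd
  have h2 : Measurable (fun a : (Fin (2 * m) → ℝ) × ℝ => (vr (cx a.1) m, circleMap 0 ρ a.2)) :=
    h1.prodMk h3
  have h4 := Measurable.comp (dd_measurable m) h2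
  exact h4

private theorem zx_meas (m : ℕ) (ρ : ℝ) : Measurable fun x : Fin (2 * m) → ℝ =>
    circleAverage (fun z : ℂ => dd (vr (cx x) m) z m) 0 ρ := by
  have hi : Measurable fun x : Fin (2 * m) → ℝ =>
      ∫ θ in Set.Ioc (0 : ℝ) (2 * Real.pi), dd (vr (cx x) m) (circleMap 0 ρ θ) m :=
    ((zx_meas2 m ρ).stronglyMeasurable.integral_prod_right' (ν := volume.restrict
      (Set.Ioc (0 : ℝ) (2 * Real.pi)))).measurable
  have e2 : (fun x : Fin (2 * m) → ℝ => circleAverage (fun z : ℂ => dd (vr (cx x) m) z m) 0 ρ) =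
      fun x => (2 * Real.pi)⁻¹ *
        ∫ θ in Set.Ioc (0 : ℝ) (2 * Real.pi), dd (vr (cx x) m) (circleMap 0 ρ θ) m := by
    ext x
    rw [circleAverage_def, intervalIntegral.integral_of_le (by positivity), smul_eq_mul]
  rw [e2]
  exact hi.const_mul _

/-- `fib_ge` with `R = max 0 ((sr - ρ^q) / 4)` (for `sr < ρ^q` the bound is trivial), `vol_ge`,
`holder` with the restriction of the volume to the moment body, `SS_volume`. Measurability of the
mean: `dd_measurable`, `vr_measurable`, `cx_measurable`. -/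
theorem KK_volume (m k q : ℕ) (hk : 1 ≤ k) (fr : ℕ → ℕ) (hfr : ∀ i < m, fr i = i + 1)
    (hq : ∀ j, m ≤ j → ∀ i < j, fr i + q ≤ fr j) (hqj : ∀ j, m ≤ j → q ≤ fr j) {ρ : ℝ}
    (h0 : 0 ≤ ρ) (h1 : ρ < 1) (β : ℝ) (hβ : ρ ^ q ≤ β)
    (hmean : ENNReal.ofReal ((∏ j ∈ Finset.range m, Real.pi / (2 * j + 1)) * β) ≤
      ∫⁻ x in {x : Fin (2 * m) → ℝ | cx x ∈ SS m},
        ENNReal.ofReal (circleAverage (fun z : ℂ => dd (vr (cx x) m) z m) 0 ρ)) :
    ENNReal.ofReal ((∏ j ∈ Finset.range m, Real.pi / (2 * j + 1)) *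
      ((β - ρ ^ q) / (8 * k)) ^ (2 * k)) ≤ volume (KK fr (2 * m + 2 * k)) := by
  set P : ℝ := ∏ j ∈ Finset.range m, Real.pi / (2 * j + 1) with hP
  have hP0 : 0 < P := Finset.prod_pos fun j _ => by positivity
  have hk0 : (0 : ℝ) < k := by exact_mod_cast hk
  have hρq : 0 ≤ ρ ^ q := pow_nonneg h0 q
  have hρq1 : ρ ^ q ≤ 1 := pow_le_one₀ h0 h1.le
  set A : Set (Fin (2 * m) → ℝ) := {x | cx x ∈ SS m} with hA
  have hAm : MeasurableSet A := cx_measurable (2 * m) (SS_measurable m)
  set sr : (Fin (2 * m) → ℝ) → ℝ := fun x =>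
    circleAverage (fun z : ℂ => dd (vr (cx x) m) z m) 0 ρ with hsr
  have hsrm : Measurable sr := zx_meas m ρ
  set R : (Fin (2 * m) → ℝ) → ℝ := fun x => max 0 ((sr x - ρ ^ q) / 4) with hRdef
  have hRm : Measurable R := measurable_const.max ((hsrm.sub_const _).div_const _)
  have hR0 : ∀ x, 0 ≤ R x := fun x => le_max_left _ _
  set g : (Fin (2 * m) → ℝ) → ENNReal := fun x => ENNReal.ofReal (R x / (2 * k)) with hg
  have hgm : Measurable g := (hRm.div_const _).ennreal_ofReal
  have hKm : MeasurableSet (KK fr (2 * m + 2 * k)) := (KK_compact fr _).isClosed.measurableSet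
  have hfib : ∀ y ∈ A, g y ^ (2 * k) ≤
      volume {u : Fin (2 * k) → ℝ | Fin.append y u ∈ KK fr (2 * m + 2 * k)} := by
    intro y hy
    have e : g y ^ (2 * k) = ENNReal.ofReal ((R y / (2 * k)) ^ (2 * k)) :=
      (ENNReal.ofReal_pow (div_nonneg (hR0 y) (by positivity)) _).symm
    rw [e]
    by_cases hc : ρ ^ q ≤ sr y
    · refine fib_ge m k q hk fr hfr hq hqj h0 h1 y hy (R y) (hR0 y) ?_
      have e3 : R y = (sr y - ρ ^ q) / 4 := max_eq_right (by linarith)
      rw [e3]
      show 2 * (1 + ρ ^ q) * ((sr y - ρ ^ q) / 4) ≤ sr y - ρ ^ q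
      nlinarith
    · have e3 : R y = 0 := max_eq_left (by linarith)
      rw [e3, zero_div, zero_pow (by omega), ENNReal.ofReal_zero]
      exact bot_le
  have hvol := vol_ge (2 * m) (2 * k) (KK fr (2 * m + 2 * k)) hKm A (fun y => g y ^ (2 * k))
    hfib hAm
  have hhol := holder (volume.restrict A) g hgm (2 * k) (by omega)
  have hAvol : volume.restrict A Set.univ = ENNReal.ofReal P := by
    rw [Measure.restrict_apply_univ]
    exact SS_volume m
  rw [hAvol] at hhol
  -- lower bound of the mean of `g`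
  have hlow : ENNReal.ofReal (P * ((β - ρ ^ q) / (8 * k))) ≤ ∫⁻ x in A, g x := by
    have s1 : ENNReal.ofReal (P * β) ≤
        ENNReal.ofReal (8 * k) * (∫⁻ x in A, g x) + ENNReal.ofReal (ρ ^ q) * ENNReal.ofReal P := by
      refine hmean.trans ?_
      calc ∫⁻ x in A, ENNReal.ofReal (sr x)
          ≤ ∫⁻ x in A, (ENNReal.ofReal (8 * k) * g x + ENNReal.ofReal (ρ ^ q)) := by
            refine lintegral_mono fun x => ?_
            have : sr x ≤ 8 * k * (R x / (2 * k)) + ρ ^ q := by
              have e4 : 8 * (k : ℝ) * (R x / (2 * k)) = 4 * R x := by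
                field_simp
                ring
              rw [e4]
              have := le_max_right 0 ((sr x - ρ ^ q) / 4)
              have h5 : (sr x - ρ ^ q) / 4 ≤ R x := this
              linarith
            calc ENNReal.ofReal (sr x) ≤ ENNReal.ofReal (8 * k * (R x / (2 * k)) + ρ ^ q) :=
                  ENNReal.ofReal_le_ofReal this
              _ = ENNReal.ofReal (8 * k) * g x + ENNReal.ofReal (ρ ^ q) := by
                rw [ENNReal.ofReal_add (by have := hR0 x; positivity) hρq,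
                  ENNReal.ofReal_mul (by positivity)]
        _ = ENNReal.ofReal (8 * k) * (∫⁻ x in A, g x) +
              ENNReal.ofReal (ρ ^ q) * ENNReal.ofReal P := by
            rw [lintegral_add_right _ measurable_const, lintegral_const_mul _ hgm,
              lintegral_const, hAvol]
    have s2 : ENNReal.ofReal (P * (β - ρ ^ q)) ≤ ENNReal.ofReal (8 * k) * (∫⁻ x in A, g x) := by
      have e5 : ENNReal.ofReal (P * (β - ρ ^ q)) =
          ENNReal.ofReal (P * β) - ENNReal.ofReal (ρ ^ q) * ENNReal.ofReal P := by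
        rw [← ENNReal.ofReal_mul hρq, ← ENNReal.ofReal_sub _ (by positivity)]
        congr 1
        ring
      rw [e5]
      exact tsub_le_iff_right.2 s1
    have e6 : ENNReal.ofReal (P * ((β - ρ ^ q) / (8 * k))) =
        ENNReal.ofReal (P * (β - ρ ^ q)) / ENNReal.ofReal (8 * k) := by
      rw [← ENNReal.ofReal_div_of_pos (by positivity)]
      congr 1
      ring
    rw [e6]
    exact ENNReal.div_le_of_le_mul' s2
  have hd0 : 0 ≤ (β - ρ ^ q) / (8 * k) := div_nonneg (by linarith) (by positivity)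
  have hfin : ENNReal.ofReal (P * ((β - ρ ^ q) / (8 * k)) ^ (2 * k)) *
      ENNReal.ofReal P ^ (2 * k - 1) ≤
      (∫⁻ x in A, g x ^ (2 * k)) * ENNReal.ofReal P ^ (2 * k - 1) := by
    refine le_trans ?_ hhol
    refine le_trans (le_of_eq ?_) (pow_le_pow_left' hlow (2 * k))
    rw [← ENNReal.ofReal_pow hP0.le, ← ENNReal.ofReal_mul (by positivity),
      ← ENNReal.ofReal_pow (by positivity)]
    congr 1
    obtain ⟨l, hl⟩ : ∃ l, 2 * k = l + 1 := ⟨2 * k - 1, by omega⟩
    rw [hl]
    simp only [Nat.add_sub_cancel]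
    generalize (β - ρ ^ q) / (8 * (k : ℝ)) = w
    ring
  have hPne : ENNReal.ofReal P ^ (2 * k - 1) ≠ 0 :=
    pow_ne_zero _ (by simpa using hP0)
  have hPtop : ENNReal.ofReal P ^ (2 * k - 1) ≠ ⊤ := ENNReal.pow_ne_top ENNReal.ofReal_ne_top
  exact ((ENNReal.mul_le_mul_iff_left hPne hPtop).1 hfin).trans hvol

end Pool.Agent.Hul
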