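import Pool.Agent.Hul.Upper
import Pool.Agent.Hul.Low
import Pool.Agent.Hul.Sep

/-!
# MP_67b84b_gt: the trigonometric curve with general frequencies
-/

set_option autoImplicit false

namespace Pool.Agent.Hul

open MeasureTheory Set

/-- the curve: coordinates `cos (2 π fr_j t) / fr_j`, `sin (2 π fr_j t) / fr_j` -/
noncomputable def cu (fr : ℕ → ℕ) (p : ℕ) (t : ℝ) : E (2 * p) :=
  WithLp.toLp 2 (fun i => tq fr (2 * p) (2 * Real.pi * t) i / fr ((i : ℕ) / 2))

-- MODULE xa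
private theorem xa_sum (fr : ℕ → ℕ) (x : ℝ) (j : ℕ) :
    ∑ i ∈ Finset.range (2 * j), (if i % 2 = 0
      then Real.sin (fr (i / 2) * x) ^ 2
      else Real.cos (fr (i / 2) * x) ^ 2) = j := by
  induction j with
  | zero => simp
  | succ j ih =>
    rw [show 2 * (j + 1) = 2 * j + 1 + 1 by ring, Finset.sum_range_succ, Finset.sum_range_succ,
      ih, if_pos (by omega), if_neg (by omega), show (2 * j + 1) / 2 = j by omega,
      show 2 * j / 2 = j by omega, add_assoc, Real.sin_sq_add_cos_sq]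
    push_cast
    ring

/-- the derivative of the curve -/
private noncomputable def xa_d (fr : ℕ → ℕ) (p : ℕ) (t : ℝ) : E (2 * p) :=
  WithLp.toLp 2 (fun i => (2 * Real.pi) *
    (if (i : ℕ) % 2 = 0 then -Real.sin (fr ((i : ℕ) / 2) * (2 * Real.pi * t))
      else Real.cos (fr ((i : ℕ) / 2) * (2 * Real.pi * t))))

private theorem xa_norm (fr : ℕ → ℕ) (p : ℕ) (t : ℝ) : ‖xa_d fr p t‖ ^ 2 =
    (2 * Real.pi) ^ 2 * p := by
  rw [EuclideanSpace.norm_sq_eq, ← xa_sum fr (2 * Real.pi * t) p, Finset.mul_sum,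
    ← Fin.sum_univ_eq_sum_range (fun i => (2 * Real.pi) ^ 2 *
      (if i % 2 = 0 then Real.sin (fr (i / 2) * (2 * Real.pi * t)) ^ 2
      else Real.cos (fr (i / 2) * (2 * Real.pi * t)) ^ 2))]
  refine Finset.sum_congr rfl fun i _ => ?_
  rw [Real.norm_eq_abs, sq_abs]
  show ((2 * Real.pi) * _) ^ 2 = _
  rw [mul_pow]
  split_ifs <;> ring

private theorem xa_deriv (fr : ℕ → ℕ) (hpos : ∀ j, 1 ≤ fr j) (p : ℕ) (t : ℝ) :
    HasDerivAt (cu fr p) (xa_d fr p t) t := by
  have h : HasDerivAt (fun t => fun i : Fin (2 * p) =>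
        tq fr (2 * p) (2 * Real.pi * t) i / (fr ((i : ℕ) / 2) : ℝ))
      (fun i => (2 * Real.pi) *
    (if (i : ℕ) % 2 = 0 then -Real.sin (fr ((i : ℕ) / 2) * (2 * Real.pi * t))
      else Real.cos (fr ((i : ℕ) / 2) * (2 * Real.pi * t)))) t := by
    rw [hasDerivAt_pi]
    intro i
    have hk : (fr ((i : ℕ) / 2) : ℝ) ≠ 0 := by
      have := hpos ((i : ℕ) / 2)
      positivity
    have hlin : ∀ c : ℝ, HasDerivAt (fun t : ℝ => c * (2 * Real.pi * t)) (c * (2 * Real.pi)) t := by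
      intro c
      have := ((hasDerivAt_id t).const_mul (2 * Real.pi)).const_mul c
      simpa using this
    unfold tq
    by_cases h2 : (i : ℕ) % 2 = 0
    · simp only [h2, if_true]
      have h3 := ((hlin (fr ((i : ℕ) / 2) : ℝ)).cos).div_const (fr ((i : ℕ) / 2) : ℝ)
      refine h3.congr_deriv ?_
      field_simp
    · simp only [h2, if_false]
      have h3 := ((hlin (fr ((i : ℕ) / 2) : ℝ)).sin).div_const (fr ((i : ℕ) / 2) : ℝ)
      refine h3.congr_deriv ?_
      field_simp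
  exact (PiLp.continuousLinearEquiv 2 ℝ (fun _ : Fin (2 * p) =>
    ℝ)).symm.toContinuousLinearMap.hasFDerivAt.comp_hasDerivAt t h

private theorem xa_cont (fr : ℕ → ℕ) (p : ℕ) : Continuous (xa_d fr p) := by
  unfold xa_d
  apply (PiLp.continuous_toLp 2 _).comp
  rw [continuous_pi_iff]
  intro i
  split_ifs <;> fun_prop

/-- `‖f'‖² = (2π)² p` -/
theorem cu_len (fr : ℕ → ℕ) (hpos : ∀ j, 1 ≤ fr j) (p : ℕ) :
    eVariationOn (cu fr p) (Icc 0 1) ≤ ENNReal.ofReal (2 * Real.pi * √p) := by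
  apply var_le (cu fr p) (xa_d fr p) (xa_deriv fr hpos p) (xa_cont fr p) (2 * Real.pi * √p)
    (by positivity)
  simp_rw [xa_norm]
  rw [intervalIntegral.integral_const, mul_pow (2 * Real.pi) (√p), Real.sq_sqrt (Nat.cast_nonneg p)]
  simp

-- MODULE xb
theorem cu_curve (fr : ℕ → ℕ) (h0 : fr 0 = 1) (hpos : ∀ j, 1 ≤ fr j) (p : ℕ) (hp : 1 ≤ p) :
    Curve (cu fr p) := by
  have hpi := Real.pi_pos
  have hcont : Continuous (cu fr p) := continuous_iff_continuousAt.2 fun t =>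
    (xa_deriv fr hpos p t).continuousAt
  refine ⟨hcont.continuousOn, ?_, ?_, ?_⟩
  · have h1 : tq fr (2 * p) (2 * Real.pi * 0) = tq fr (2 * p) (2 * Real.pi * 1) := by
      funext i
      unfold tq
      split_ifs
      · have h2 := Real.cos_nat_mul_two_pi (fr ((i : ℕ) / 2))
        rw [mul_zero, mul_one, mul_zero, Real.cos_zero, h2]
      · have h2 := Real.sin_nat_mul_pi ((fr ((i : ℕ) / 2)) * 2)
        rw [Nat.cast_mul, mul_assoc, Nat.cast_ofNat] at h2
        rw [mul_zero, mul_one, mul_zero, Real.sin_zero, h2]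
    unfold cu
    rw [h1]
  · intro s hs t ht hst
    have hk : ∀ j : ℕ, (fr j : ℝ) ≠ 0 := by
      intro j
      have := hpos j
      positivity
    have hco : ∀ i : Fin (2 * p), tq fr (2 * p) (2 * Real.pi * s) i =
        tq fr (2 * p) (2 * Real.pi * t) i := by
      intro i
      have h1 : tq fr (2 * p) (2 * Real.pi * s) i / (fr ((i : ℕ) / 2) : ℝ) =
          tq fr (2 * p) (2 * Real.pi * t) i / (fr ((i : ℕ) / 2) : ℝ) :=
        congrArg (fun x : E (2 * p) => x i) hst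
      exact (div_left_inj' (hk _)).1 h1
    have hc := hco ⟨0, by omega⟩
    have hs' := hco ⟨1, by omega⟩
    unfold tq at hc hs'
    simp only [if_false, if_true,
      Nat.zero_mod, h0, Nat.cast_one, one_mul,
      show (1 : ℕ) % 2 = 1 by norm_num, show (1 : ℕ) / 2 = 0 by norm_num,
      one_ne_zero] at hc hs'
    have h2 : Real.cos (2 * Real.pi * s - 2 * Real.pi * t) = 1 := by
      rw [Real.cos_sub, hc, hs', ← sq, ← sq, Real.cos_sq_add_sin_sq]
    have h3 := (Real.cos_eq_one_iff_of_lt_of_lt (x := 2 * Real.pi * s - 2 * Real.pi * t)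
      (by nlinarith [hs.1, hs.2, ht.1, ht.2]) (by nlinarith [hs.1, hs.2, ht.1, ht.2])).1 h2
    have h4 : 2 * Real.pi * (s - t) = 0 := by linarith
    have h5 := (mul_eq_zero.1 h4).resolve_left (by positivity)
    linarith
  · exact ne_top_of_le_ne_top ENNReal.ofReal_ne_top (cu_len fr hpos p)

-- MODULE xc
private theorem xc_prod (fr : ℕ → ℕ) (p : ℕ) :
    ∏ i : Fin (2 * p), (1 / (fr ((i : ℕ) / 2) : ℝ)) =
      1 / ∏ j ∈ Finset.range p, (fr j : ℝ) ^ 2 := by
  rw [Finset.prod_div_distrib, Finset.prod_const_one,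
    Fin.prod_univ_eq_prod_range (fun i => (fr (i / 2) : ℝ)) (2 * p)]
  congr 1
  induction p with
  | zero => simp
  | succ j ih =>
    rw [show 2 * (j + 1) = 2 * j + 1 + 1 by ring, Finset.prod_range_succ, Finset.prod_range_succ,
      ih, show (2 * j + 1) / 2 = j by omega, show 2 * j / 2 = j by omega,
      Finset.prod_range_succ]
    ring

/-- diagonal linear map with the entries `1 / fr (i / 2)`, compare with `cur_vol` -/
theorem cu_vol (fr : ℕ → ℕ) (hpos : ∀ j, 1 ≤ fr j) (p : ℕ) :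
    volume (KK fr (2 * p)) / ENNReal.ofReal (∏ j ∈ Finset.range p, (fr j : ℝ) ^ 2) =
      volume (convexHull ℝ (cu fr p '' Icc 0 1)) := by
  have hpi := Real.pi_pos
  have hP0 : 0 < ∏ j ∈ Finset.range p, (fr j : ℝ) ^ 2 := by
    refine Finset.prod_pos fun j _ => ?_
    have := hpos j
    positivity
  obtain ⟨D, hD⟩ : ∃ D : (Fin (2 * p) → ℝ) →ₗ[ℝ] (Fin (2 * p) → ℝ),
    D = Matrix.toLin' (Matrix.diagonal (fun i : Fin (2 * p) => 1 / (fr ((i : ℕ) / 2) : ℝ))) :=
    ⟨_, rfl⟩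
  have hDa : ∀ x i, D x i = 1 / (fr ((i : ℕ) / 2) : ℝ) * x i := by
    intro x i
    rw [hD, Matrix.toLin'_apply, Matrix.mulVec_diagonal]
  have hdet : LinearMap.det D = 1 / ∏ j ∈ Finset.range p, (fr j : ℝ) ^ 2 := by
    rw [hD, LinearMap.det_toLin', Matrix.det_diagonal, xc_prod]
  obtain ⟨L, hL⟩ : ∃ L : (Fin (2 * p) → ℝ) →ₗ[ℝ] E (2 * p),
      ∀ x, L x = WithLp.toLp 2 (D x) :=
    ⟨(WithLp.linearEquiv 2 ℝ (Fin (2 * p) → ℝ)).symm.toLinearMap.comp D, fun x => rfl⟩
  have hcu : L '' (tq fr (2 * p) '' Icc 0 (2 * Real.pi)) = cu fr p '' Icc 0 1 := by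
    have hLt : ∀ t : ℝ, L (tq fr (2 * p) (2 * Real.pi * t)) = cu fr p t := by
      intro t
      rw [hL]
      unfold cu
      congr 1
      funext i
      rw [hDa, one_div, inv_mul_eq_div]
    apply Subset.antisymm
    · rintro - ⟨-, ⟨t, ht, rfl⟩, rfl⟩
      refine ⟨t / (2 * Real.pi), ⟨by have := ht.1; positivity, ?_⟩, ?_⟩
      · rw [div_le_one (by positivity)]; exact ht.2
      · rw [← hLt]
        congr 2
        field_simp
    · rintro - ⟨t, ht, rfl⟩
      refine ⟨_, ⟨2 * Real.pi * t, ⟨by have := ht.1; positivity, ?_⟩, rfl⟩, hLt t⟩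
      have := ht.2
      nlinarith
  have hset : D '' KK fr (2 * p) = WithLp.toLp 2 ⁻¹' (convexHull ℝ (cu fr p '' Icc 0 1)) := by
    rw [← hcu, ← L.image_convexHull]
    ext x
    constructor
    · rintro ⟨y, hy, rfl⟩
      exact ⟨y, hy, hL y⟩
    · rintro ⟨y, hy, hyx⟩
      rw [hL] at hyx
      exact ⟨y, hy, WithLp.toLp_injective 2 hyx⟩
  have h3 : volume (D '' KK fr (2 * p)) = volume (KK fr (2 * p)) /
      ENNReal.ofReal (∏ j ∈ Finset.range p, (fr j : ℝ) ^ 2) := by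
    rw [Measure.addHaar_image_linearMap, hdet, abs_of_nonneg (by positivity),
      one_div, ENNReal.ofReal_inv_of_pos hP0, mul_comm, ENNReal.div_eq_inv_mul, mul_comm]
  rw [← h3, hset]
  have hm := (EuclideanSpace.volume_preserving_symm_measurableEquiv_toLp (Fin (2 * p))).symm
  exact hm.measure_preimage_equiv _

-- MODULE xd
/-- `le_gam`, `len ≤ 2π√p`, compare with `low_le` -/
theorem gam_ge (fr : ℕ → ℕ) (h0 : fr 0 = 1) (hpos : ∀ j, 1 ≤ fr j) (p : ℕ) (hp : 1 ≤ p) (B : ℝ)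
    (hB : ENNReal.ofReal B ≤ volume (KK fr (2 * p))) :
    B / ((∏ j ∈ Finset.range p, (fr j : ℝ) ^ 2) * (4 * Real.pi ^ 2 * p) ^ p) ≤ gam (2 * p) := by
  have hpi := Real.pi_pos
  have hP0 : 0 < ∏ j ∈ Finset.range p, (fr j : ℝ) ^ 2 := by
    refine Finset.prod_pos fun j _ => ?_
    have := hpos j
    positivity
  have hpp : (0 : ℝ) < p := by exact_mod_cast hp
  rcases le_or_gt B 0 with hB0 | hB0
  · exact le_trans (div_nonpos_of_nonpos_of_nonneg hB0 (by positivity)) (gam_nonneg _)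
  have hC := cu_curve fr h0 hpos p hp
  refine le_trans ?_ (le_gam (by omega) hC)
  have hlen0 := len_pos hC
  have hlen : len (cu fr p) ≤ 2 * Real.pi * √p := by
    unfold len
    exact ENNReal.toReal_le_of_le_ofReal (by positivity) (cu_len fr hpos p)
  have hvol : B / (∏ j ∈ Finset.range p, (fr j : ℝ) ^ 2) ≤ vol (cu fr p) := by
    unfold vol
    have hfin : volume (convexHull ℝ (cu fr p '' Icc 0 1)) ≠ ⊤ := by
      have hc : IsCompact (cu fr p '' Icc (0 : ℝ) 1) := isCompact_Icc.image_of_continuousOn hC.cont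
      exact ((isBounded_convexHull.2 hc.isBounded).measure_lt_top).ne
    refine (ENNReal.ofReal_le_iff_le_toReal hfin).1 ?_
    rw [← cu_vol fr hpos p, ENNReal.ofReal_div_of_pos hP0]
    gcongr
  have hpow : len (cu fr p) ^ (2 * p) ≤ (4 * Real.pi ^ 2 * p) ^ p := by
    refine le_trans (pow_le_pow_left₀ hlen0.le hlen _) (le_of_eq ?_)
    rw [pow_mul, mul_pow (2 * Real.pi) (√p), Real.sq_sqrt hpp.le, mul_pow (2 : ℝ)]
    norm_num
  rw [← div_div]
  exact div_le_div₀ ((div_pos hB0 hP0).le.trans hvol) hvol (by positivity) hpow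

end Pool.Agent.Hul
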