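import Pool.Agent.Hul.Mult

/-!
# The growth rate and the values for even `n`
-/

set_option autoImplicit false

namespace Pool.Agent.Hul

open Filter Topology

/-- The growth rate of `1 / ((π n)^(n/2) n! (n/2)!)`, `n = 2 m`. -/
theorem tendsto_even : Tendsto (fun m : ℕ => ((2 * m : ℕ) : ℝ) ^ 2 *
      (1 / ((Real.pi * ((2 * m : ℕ) : ℝ)) ^ m * ((2 * m).factorial : ℝ) * (m.factorial : ℝ))) ^
        (1 / ((2 * m : ℕ) : ℝ))) atTop (𝓝 (Real.exp (3 / 2) * √(2 / Real.pi))) := by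
  have hpi := Real.pi_pos
  have h2 : Tendsto (fun m : ℕ => 2 * m) atTop atTop :=
    tendsto_id.const_mul_atTop' (by norm_num)
  have key := (tendsto_fact.comp h2).mul (((tendsto_fact.const_mul (2 / Real.pi))).sqrt)
  have e : Real.exp 1 * √(2 / Real.pi * Real.exp 1) = Real.exp (3 / 2) * √(2 / Real.pi) := by
    rw [Real.sqrt_mul (by positivity), show (3 : ℝ) / 2 = 1 + 1 / 2 by norm_num, Real.exp_add,
      Real.exp_half]
    ring
  rw [e] at key
  refine key.congr' ?_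
  filter_upwards [eventually_ge_atTop 1] with m hm
  have hm0 : (0 : ℝ) < m := by exact_mod_cast hm
  have hn0 : (0 : ℝ) < ((2 * m : ℕ) : ℝ) := by positivity
  have hf : (0 : ℝ) < m.factorial := by positivity
  have hf2 : (0 : ℝ) < (2 * m).factorial := by positivity
  show ((2 * m : ℕ) : ℝ) / ((2 * m).factorial : ℝ) ^ (1 / ((2 * m : ℕ) : ℝ)) *
    √(2 / Real.pi * ((m : ℝ) / ((m.factorial : ℝ) ^ (1 / (m : ℝ))))) = _
  rw [Real.div_rpow (by norm_num) (by positivity), Real.one_rpow,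
    Real.mul_rpow (by positivity) hf.le, Real.mul_rpow (by positivity) hf2.le,
    ← Real.rpow_natCast _ m, ← Real.rpow_mul (by positivity)]
  have e1 : (m : ℝ) * (1 / ((2 * m : ℕ) : ℝ)) = 1 / 2 := by
    push_cast
    field_simp
  have e2 : (m.factorial : ℝ) ^ (1 / ((2 * m : ℕ) : ℝ)) = √((m.factorial : ℝ) ^ (1 / (m : ℝ))) := by
    rw [Real.sqrt_eq_rpow, ← Real.rpow_mul hf.le]
    congr 1
    push_cast
    field_simp
  rw [e1, e2, ← Real.sqrt_eq_rpow]
  have hA : 0 < ((2 * m).factorial : ℝ) ^ (1 / ((2 * m : ℕ) : ℝ)) := Real.rpow_pos_of_pos hf2 _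
  have hB : 0 < (m.factorial : ℝ) ^ (1 / (m : ℝ)) := Real.rpow_pos_of_pos hf _
  set A := ((2 * m).factorial : ℝ) ^ (1 / ((2 * m : ℕ) : ℝ)) with hAdef
  set B := (m.factorial : ℝ) ^ (1 / (m : ℝ)) with hBdef
  have e3 : 2 / Real.pi * ((m : ℝ) / B) = ((2 * m : ℕ) : ℝ) ^ 2 / (Real.pi * ((2 * m : ℕ) : ℝ) * B) := by
    push_cast
    field_simp
  rw [e3, Real.sqrt_div (by positivity), Real.sqrt_sq hn0.le, Real.sqrt_mul (by positivity)]
  have hs1 : 0 < √(Real.pi * ((2 * m : ℕ) : ℝ)) := Real.sqrt_pos.2 (by positivity)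
  have hs2 : 0 < √B := Real.sqrt_pos.2 hB
  field_simp

/-- If the growth rate `c` exists and `gam n` has the listed value for infinitely many even `n`,
then `c = e ^ (3/2) √(2/π)`. -/
theorem limit_eq {c : ℝ}
    (ht : Tendsto (fun n : ℕ => (n : ℝ) ^ 2 * gam n ^ (1 / (n : ℝ))) atTop (𝓝 c))
    (h : ∃ᶠ m : ℕ in atTop, gam (2 * m) =
      1 / ((Real.pi * ((2 * m : ℕ) : ℝ)) ^ m * ((2 * m).factorial : ℝ) * (m.factorial : ℝ))) :
    c = Real.exp (3 / 2) * √(2 / Real.pi) := by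
  have h2 : Tendsto (fun m : ℕ => 2 * m) atTop atTop :=
    tendsto_id.const_mul_atTop' (by norm_num)
  refine tendsto_nhds_unique_of_frequently_eq (ht.comp h2) tendsto_even (h.mono fun m hm => ?_)
  show ((2 * m : ℕ) : ℝ) ^ 2 * gam (2 * m) ^ (1 / ((2 * m : ℕ) : ℝ)) = _
  rw [hm]

end Pool.Agent.Hul
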