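import Pool.Agent.Hul.Join

/-!
# MP_67b84b_gt, part C: gluing two loops in orthogonal subspaces
-/

set_option autoImplicit false

namespace Pool.Agent.Hul

open MeasureTheory Set Filter Topology

/-- follow `f` on `[0, 1 - δ]`, go straight from `(f (1 - δ), 0)` to `(0, g δ)`, then follow `g`
on `[δ, 1]` -/
noncomputable def glue {p q : ℕ} (f : ℝ → E p) (g : ℝ → E q) (δ : ℝ) (t : ℝ) : E (p + q) :=
  if t ≤ 1 / 3 then J (f ((1 - δ) * (3 * t)), 0)
  else if t ≤ 2 / 3 then J ((2 - 3 * t) • f (1 - δ), (3 * t - 1) • g δ)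
  else J (0, g (δ + (1 - δ) * (3 * t - 2)))

/- MODULE f1 : continuity and end points. -/
theorem glue_cont {p q : ℕ} {f : ℝ → E p} {g : ℝ → E q} (hf : Curve f) (hg : Curve g)
    (f0 : f 0 = 0) (g0 : g 0 = 0) {δ : ℝ} (h0 : 0 < δ) (h1 : δ < 1) :
    ContinuousOn (glue f g δ) (Icc 0 1) := by
  have e : Icc (0 : ℝ) 1 = (Icc 0 (1 / 3) ∪ Icc (1 / 3) (2 / 3)) ∪ Icc (2 / 3) 1 := by
    rw [Icc_union_Icc_eq_Icc (by norm_num) (by norm_num),
      Icc_union_Icc_eq_Icc (by norm_num) (by norm_num)]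
  rw [e]
  refine ContinuousOn.union_of_isClosed (ContinuousOn.union_of_isClosed ?_ ?_ isClosed_Icc
    isClosed_Icc) ?_ (isClosed_Icc.union isClosed_Icc) isClosed_Icc
  · have c1 : ContinuousOn (fun t : ℝ => J (f ((1 - δ) * (3 * t)), (0 : E q))) (Icc 0 (1 / 3)) := by
      refine J_continuous.comp_continuousOn (ContinuousOn.prodMk ?_ continuousOn_const)
      refine hf.cont.comp (by fun_prop) fun t ht => ⟨?_, ?_⟩
      · exact mul_nonneg (by linarith) (by linarith [ht.1])
      · have := ht.2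
        nlinarith [ht.1]
    refine c1.congr fun t ht => ?_
    rw [glue, if_pos ht.2]
  · have c1 : ContinuousOn (fun t : ℝ => J ((2 - 3 * t) • f (1 - δ), (3 * t - 1) • g δ))
        (Icc (1 / 3) (2 / 3)) := by
      refine J_continuous.comp_continuousOn (ContinuousOn.prodMk ?_ ?_) <;> fun_prop
    refine c1.congr fun t ht => ?_
    rcases eq_or_lt_of_le ht.1 with h | h
    · rw [glue, if_pos h.symm.le, ← h]
      norm_num
    · rw [glue, if_neg h.not_ge, if_pos ht.2]
  · have c1 : ContinuousOn (fun t : ℝ => J ((0 : E p), g (δ + (1 - δ) * (3 * t - 2))))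
        (Icc (2 / 3) 1) := by
      refine J_continuous.comp_continuousOn (ContinuousOn.prodMk continuousOn_const ?_)
      refine hg.cont.comp (by fun_prop) fun t ht => ⟨?_, ?_⟩
      · have : 0 ≤ (1 - δ) * (3 * t - 2) := mul_nonneg (by linarith) (by linarith [ht.1])
        linarith
      · have := ht.2
        nlinarith [ht.1]
    refine c1.congr fun t ht => ?_
    have h3 : ¬ t ≤ 1 / 3 := by linarith [ht.1]
    rcases eq_or_lt_of_le ht.1 with h | h
    · rw [glue, if_neg h3, if_pos h.symm.le, ← h]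
      norm_num
    · rw [glue, if_neg h3, if_neg h.not_ge]

theorem glue_closed {p q : ℕ} {f : ℝ → E p} {g : ℝ → E q} (hf : Curve f) (hg : Curve g)
    (f0 : f 0 = 0) (g0 : g 0 = 0) {δ : ℝ} (h0 : 0 < δ) (h1 : δ < 1) :
    glue f g δ 0 = glue f g δ 1 := by
  have e1 : δ + (1 - δ) * (3 * 1 - 2) = 1 := by ring
  rw [glue, glue, if_pos (by norm_num), if_neg (by norm_num), if_neg (by norm_num), e1,
    ← hg.closed, g0, mul_zero, mul_zero, f0]
/- END f1 -/

/- MODULE f2 : the glued curve is simple.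
IDEA: `J` is injective; in the first part the second component is `0` and the first is nonzero
except at `t = 0`; inside the middle part both components are nonzero; in the last part the first
component is `0` and the second one is nonzero (parameter in `[δ, 1)`, as `g` is injective on
`[0,1)` and `g 0 = 0`). -/
private theorem f2_one {p q : ℕ} {f : ℝ → E p} {g : ℝ → E q} {δ s : ℝ} (h : s ≤ 1 / 3) :
    glue f g δ s = J (f ((1 - δ) * (3 * s)), 0) := by
  simp only [glue, if_pos h]

private theorem f2_two {p q : ℕ} {f : ℝ → E p} {g : ℝ → E q} {δ s : ℝ} (h : 1 / 3 < s)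
    (h' : s ≤ 2 / 3) :
    glue f g δ s = J ((2 - 3 * s) • f (1 - δ), (3 * s - 1) • g δ) := by
  simp only [glue, if_neg (not_le.mpr h), if_pos h']

private theorem f2_three {p q : ℕ} {f : ℝ → E p} {g : ℝ → E q} {δ s : ℝ} (h : 2 / 3 ≤ s) :
    glue f g δ s = J (0, g (δ + (1 - δ) * (3 * s - 2))) := by
  rcases h.eq_or_lt with h | h
  · rw [f2_two (by rw [← h]; norm_num) h.symm.le, ← h]
    congr 2
    · rw [show (2 - 3 * (2 / 3 : ℝ)) = 0 by norm_num, zero_smul]
    · rw [show (3 * (2 / 3 : ℝ) - 1) = 1 by norm_num, one_smul,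
        show δ + (1 - δ) * (3 * (2 / 3 : ℝ) - 2) = δ by ring]
  · have h1 : ¬ s ≤ 1 / 3 := by linarith
    have h2 : ¬ s ≤ 2 / 3 := by linarith
    simp only [glue, if_neg h1, if_neg h2]

private theorem f2_ne {n : ℕ} {f : ℝ → E n} (hf : Curve f) (f0 : f 0 = 0) {s : ℝ} (h0 : 0 < s)
    (h1 : s < 1) : f s ≠ 0 := by
  intro h
  have := hf.simple ⟨h0.le, h1⟩ ⟨le_refl 0, one_pos⟩ (by rw [h, f0])
  linarith

private theorem f2_J {p q : ℕ} {a c : E p} {b d : E q} (h : J (a, b) = J (c, d)) :
    a = c ∧ b = d := by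
  have := J_injective h
  exact ⟨congrArg Prod.fst this, congrArg Prod.snd this⟩

private theorem f2_le {p q : ℕ} {f : ℝ → E p} {g : ℝ → E q} (hf : Curve f) (hg : Curve g)
    (f0 : f 0 = 0) (g0 : g 0 = 0) {δ : ℝ} (h0 : 0 < δ) (h1 : δ < 1) {s t : ℝ}
    (hs : s ∈ Ico (0 : ℝ) 1) (ht : t ∈ Ico (0 : ℝ) 1) (hst : s ≤ t)
    (h : glue f g δ s = glue f g δ t) : s = t := by
  obtain ⟨s0, s1⟩ := hs
  obtain ⟨t0, t1⟩ := ht
  have hF : f (1 - δ) ≠ 0 := f2_ne hf f0 (by linarith) (by linarith)
  have hG : g δ ≠ 0 := f2_ne hg g0 h0 h1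
  have hd : 0 < 1 - δ := by linarith
  by_cases a : s ≤ 1 / 3
  · rw [f2_one a] at h
    by_cases b : t ≤ 1 / 3
    · rw [f2_one b] at h
      have h2 := (f2_J h).1
      have e := hf.simple (x₁ := (1 - δ) * (3 * s)) (x₂ := (1 - δ) * (3 * t))
        ⟨by positivity, by nlinarith⟩ ⟨by positivity, by nlinarith⟩ h2
      have := mul_left_cancel₀ hd.ne' e
      linarith
    · rw [not_le] at b
      by_cases c : t < 2 / 3
      · rw [f2_two b c.le] at h
        have h2 := (f2_J h).2
        exact absurd (smul_eq_zero.mp h2.symm) (by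
          rintro (h3 | h3)
          · linarith
          · exact hG h3)
      · rw [not_lt] at c
        rw [f2_three c] at h
        have h2 := (f2_J h).2
        exact absurd h2.symm (f2_ne hg g0 (by nlinarith) (by nlinarith))
  · rw [not_le] at a
    by_cases c : s < 2 / 3
    · rw [f2_two a c.le] at h
      by_cases d : t < 2 / 3
      · rw [f2_two (by linarith) d.le] at h
        have h2 := (f2_J h).1
        have h3 : 2 - 3 * s = 2 - 3 * t := smul_left_injective ℝ hF h2
        linarith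
      · rw [not_lt] at d
        rw [f2_three d] at h
        have h2 := (f2_J h).1
        exact absurd (smul_eq_zero.mp h2) (by
          rintro (h3 | h3)
          · linarith
          · exact hF h3)
    · rw [not_lt] at c
      have d : 2 / 3 ≤ t := by linarith
      rw [f2_three c, f2_three d] at h
      have h2 := (f2_J h).2
      have e := hg.simple (x₁ := δ + (1 - δ) * (3 * s - 2)) (x₂ := δ + (1 - δ) * (3 * t - 2))
        ⟨by nlinarith, by nlinarith⟩ ⟨by nlinarith, by nlinarith⟩ h2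
      have := mul_left_cancel₀ hd.ne' (add_left_cancel e)
      linarith

theorem glue_inj {p q : ℕ} {f : ℝ → E p} {g : ℝ → E q} (hf : Curve f) (hg : Curve g)
    (f0 : f 0 = 0) (g0 : g 0 = 0) {δ : ℝ} (h0 : 0 < δ) (h1 : δ < 1) :
    InjOn (glue f g δ) (Ico 0 1) := by
  intro s hs t ht h
  rcases le_total s t with hst | hst
  · exact f2_le hf hg f0 g0 h0 h1 hs ht hst h
  · exact (f2_le hf hg f0 g0 h0 h1 ht hs hst h.symm).symm
/- END f2 -/

/- MODULE f3 : the length of the glued curve.
IDEA: `eVariationOn.Icc_add_Icc` twice, `eVariationOn.comp_eq_of_monotoneOn`, `norm_J_left`,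
`norm_J_right`; the segment has length `‖J (f (1-δ), - g δ)‖ ≤ ‖f (1-δ)‖ + ‖g δ‖`, and
`‖f (1-δ)‖ = ‖f (1-δ) - f 1‖` is at most the variation of `f` on `[1-δ, 1]`. -/
private theorem f3_split {n : ℕ} (f : ℝ → E n) {a b c : ℝ} (hab : a ≤ b) (hbc : b ≤ c) :
    eVariationOn f (Icc a b) + eVariationOn f (Icc b c) = eVariationOn f (Icc a c) := by
  have := eVariationOn.Icc_add_Icc f (s := univ) hab hbc (mem_univ _)
  simpa using this

private theorem f3_left {p q : ℕ} (f : ℝ → E p) (s : Set ℝ) :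
    eVariationOn (fun x => J (f x, (0 : E q))) s ≤ eVariationOn f s := by
  have : LipschitzOnWith 1 (fun x : E p => J (x, (0 : E q))) univ := by
    refine LipschitzOnWith.of_dist_le_mul (fun x _ y _ => ?_)
    rw [dist_eq_norm, dist_eq_norm, ← map_sub, Prod.mk_sub_mk, sub_zero, norm_J_left]
    simp
  have h := this.comp_eVariationOn_le (g := f) (s := s) (mapsTo_univ _ _)
  simpa [Function.comp_def] using h

private theorem f3_right {p q : ℕ} (g : ℝ → E q) (s : Set ℝ) :
    eVariationOn (fun x => J ((0 : E p), g x)) s ≤ eVariationOn g s := by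
  have : LipschitzOnWith 1 (fun x : E q => J ((0 : E p), x)) univ := by
    refine LipschitzOnWith.of_dist_le_mul (fun x _ y _ => ?_)
    rw [dist_eq_norm, dist_eq_norm, ← map_sub, Prod.mk_sub_mk, sub_zero, norm_J_right]
    simp
  have h := this.comp_eVariationOn_le (g := g) (s := s) (mapsTo_univ _ _)
  simpa [Function.comp_def] using h

private theorem f3_mid {p q : ℕ} (F : E p) (G : E q) :
    eVariationOn (fun s : ℝ => J ((2 - 3 * s) • F, (3 * s - 1) • G)) (Icc (1 / 3) (2 / 3)) ≤
      ENNReal.ofReal ‖F‖ + ENNReal.ofReal ‖G‖ := by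
  have hL : LipschitzOnWith (‖F‖₊ + ‖G‖₊) (fun u : ℝ => J ((1 - u) • F, u • G)) univ := by
    refine LipschitzOnWith.of_dist_le_mul (fun x _ y _ => ?_)
    rw [dist_eq_norm, dist_eq_norm, ← map_sub, Prod.mk_sub_mk, ← sub_smul, ← sub_smul]
    refine (norm_J_le _ _).trans ?_
    rw [norm_smul, norm_smul, show (1 - x - (1 - y)) = -(x - y) by ring, norm_neg]
    push_cast
    nlinarith
  have hm : MonotoneOn (fun s : ℝ => 3 * s - 1) univ := fun x _ y _ h => by linarith
  have h1 := hL.comp_eVariationOn_le (g := fun s : ℝ => 3 * s - 1) (s := Icc (1 / 3) (2 / 3))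
    (mapsTo_univ _ _)
  have h2 := hm.eVariationOn_le (a := 1 / 3) (b := 2 / 3) (mem_univ _) (mem_univ _)
  rw [univ_inter] at h2
  have h3 : ((fun u : ℝ => J ((1 - u) • F, u • G)) ∘ fun s : ℝ => 3 * s - 1) =
      fun s : ℝ => J ((2 - 3 * s) • F, (3 * s - 1) • G) := by
    funext s
    simp only [Function.comp]
    rw [show 1 - (3 * s - 1) = 2 - 3 * s by ring]
  rw [h3] at h1
  refine h1.trans ((mul_le_mul_right h2 _).trans ?_)
  rw [show ENNReal.ofReal ((3 * (2 / 3) - 1) - (3 * (1 / 3) - 1)) = 1 by norm_num, mul_one]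
  push_cast
  rw [ofReal_norm_eq_enorm, ofReal_norm_eq_enorm]
  rfl

theorem glue_var {p q : ℕ} {f : ℝ → E p} {g : ℝ → E q} (hf : Curve f) (hg : Curve g)
    (f0 : f 0 = 0) (g0 : g 0 = 0) {δ : ℝ} (h0 : 0 < δ) (h1 : δ < 1) :
    eVariationOn (glue f g δ) (Icc 0 1) ≤ eVariationOn f (Icc 0 1) + eVariationOn g (Icc 0 1) := by
  have hd : 0 < 1 - δ := by linarith
  rw [← f3_split (glue f g δ) (a := 0) (b := 1 / 3) (c := 1) (by norm_num) (by norm_num),
    ← f3_split (glue f g δ) (a := 1 / 3) (b := 2 / 3) (c := 1) (by norm_num) (by norm_num),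
    ← f3_split f (a := 0) (b := 1 - δ) (c := 1) hd.le (by linarith),
    ← f3_split g (a := 0) (b := δ) (c := 1) h0.le h1.le]
  have p1 : eVariationOn (glue f g δ) (Icc 0 (1 / 3)) ≤ eVariationOn f (Icc 0 (1 - δ)) := by
    rw [eVariationOn.eq_of_eqOn (f' := (fun x => J (f x, (0 : E q))) ∘
      fun s => (1 - δ) * (3 * s)) (fun s hs => f2_one hs.2)]
    refine (eVariationOn.comp_le_of_monotoneOn _ (s := Icc 0 (1 - δ)) _ ?_ ?_).trans (f3_left f _)
    · intro x _ y _ h
      show _ ≤ _
      nlinarith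
    · intro x hx
      exact ⟨by have := hx.1; positivity, by have := hx.2; nlinarith⟩
  have p3 : eVariationOn (glue f g δ) (Icc (2 / 3) 1) ≤ eVariationOn g (Icc δ 1) := by
    rw [eVariationOn.eq_of_eqOn (f' := (fun x => J ((0 : E p), g x)) ∘
      fun s => δ + (1 - δ) * (3 * s - 2)) (fun s hs => f2_three hs.1)]
    refine (eVariationOn.comp_le_of_monotoneOn _ (s := Icc δ 1) _ ?_ ?_).trans (f3_right g _)
    · intro x _ y _ h
      show _ ≤ _
      nlinarith
    · intro x hx
      exact ⟨by have := hx.1; nlinarith, by have := hx.2; nlinarith⟩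
  have p2 : eVariationOn (glue f g δ) (Icc (1 / 3) (2 / 3)) ≤
      eVariationOn f (Icc (1 - δ) 1) + eVariationOn g (Icc 0 δ) := by
    have e : EqOn (glue f g δ) (fun s : ℝ => J ((2 - 3 * s) • f (1 - δ), (3 * s - 1) • g δ))
        (Icc (1 / 3) (2 / 3)) := by
      intro s hs
      rcases hs.1.eq_or_lt with h | h
      · rw [f2_one h.symm.le, ← h]
        simp only
        congr 2
        · rw [show (1 - δ) * (3 * (1 / 3 : ℝ)) = 1 - δ by ring,
            show (2 - 3 * (1 / 3 : ℝ)) = 1 by norm_num, one_smul]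
        · rw [show (3 * (1 / 3 : ℝ) - 1) = 0 by norm_num, zero_smul]
      · exact f2_two h hs.2
    rw [eVariationOn.eq_of_eqOn e]
    refine (f3_mid _ _).trans (add_le_add ?_ ?_)
    · have := eVariationOn.edist_le f (s := Icc (1 - δ) 1) (x := 1 - δ) (y := 1)
        ⟨le_refl _, by linarith⟩ ⟨by linarith, le_refl _⟩
      rwa [← hf.closed, f0, edist_zero_right, ← ofReal_norm_eq_enorm] at this
    · have := eVariationOn.edist_le g (s := Icc 0 δ) (x := δ) (y := 0)
        ⟨h0.le, le_refl _⟩ ⟨le_refl _, h0.le⟩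
      rwa [g0, edist_zero_right, ← ofReal_norm_eq_enorm] at this
  refine (add_le_add p1 (add_le_add p2 p3)).trans (le_of_eq ?_)
  ring
/- END f3 -/

/- MODULE f4 : the glued curve passes through the two long arcs. -/
theorem glue_left {p q : ℕ} (f : ℝ → E p) (g : ℝ → E q) {δ : ℝ} (h0 : 0 < δ) (h1 : δ < 1) :
    (fun x => J (x, (0 : E q))) '' (f '' Icc 0 (1 - δ)) ⊆ glue f g δ '' Icc 0 1 := by
  rintro _ ⟨_, ⟨u, hu, rfl⟩, rfl⟩
  have hd : 0 < 1 - δ := by linarith
  have h3 : u / (3 * (1 - δ)) ≤ 1 / 3 := by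
    rw [div_le_div_iff₀ (by positivity) (by norm_num)]
    linarith [hu.2]
  refine ⟨u / (3 * (1 - δ)), ⟨div_nonneg hu.1 (by positivity), by linarith⟩, ?_⟩
  rw [f2_one h3]
  simp only
  congr 2
  rw [show (1 - δ) * (3 * (u / (3 * (1 - δ)))) = u by field_simp]

theorem glue_right {p q : ℕ} {f : ℝ → E p} {g : ℝ → E q} {δ : ℝ} (h0 : 0 < δ) (h1 : δ < 1) :
    (fun y => J ((0 : E p), y)) '' (g '' Icc δ 1) ⊆ glue f g δ '' Icc 0 1 := by
  rintro _ ⟨_, ⟨u, hu, rfl⟩, rfl⟩
  have hd : 0 < 1 - δ := by linarith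
  have h4 : 0 ≤ (u - δ) / (3 * (1 - δ)) := div_nonneg (by linarith [hu.1]) (by positivity)
  have h3 : (u - δ) / (3 * (1 - δ)) ≤ 1 / 3 := by
    rw [div_le_div_iff₀ (by positivity) (by norm_num)]
    linarith [hu.2]
  refine ⟨2 / 3 + (u - δ) / (3 * (1 - δ)), ⟨by linarith, by linarith⟩, ?_⟩
  rw [f2_three (by linarith)]
  simp only
  congr 2
  congr 1
  field_simp
  ring

theorem glue_curve {p q : ℕ} {f : ℝ → E p} {g : ℝ → E q} (hf : Curve f) (hg : Curve g)
    (f0 : f 0 = 0) (g0 : g 0 = 0) {δ : ℝ} (h0 : 0 < δ) (h1 : δ < 1) :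
    Curve (glue f g δ) ∧ len (glue f g δ) ≤ len f + len g := by
  have hv := glue_var hf hg f0 g0 h0 h1
  have ht : eVariationOn f (Icc 0 1) + eVariationOn g (Icc 0 1) ≠ ⊤ :=
    ENNReal.add_ne_top.mpr ⟨hf.rect, hg.rect⟩
  refine ⟨⟨glue_cont hf hg f0 g0 h0 h1, glue_closed hf hg f0 g0 h0 h1,
    glue_inj hf hg f0 g0 h0 h1, ne_top_of_le_ne_top ht hv⟩, ?_⟩
  unfold len
  rw [← ENNReal.toReal_add hf.rect hg.rect]
  exact ENNReal.toReal_mono ht hv
/- END f4 -/

/- MODULE f5 : the hulls of the long arcs exhaust the hull (`f 1 = f 0`, so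
`f '' Icc 0 1 = ⋃ k, f '' Icc 0 (1 - 1/(k+2))`; hulls of a monotone union; continuity of the
measure from below, `tendsto_measure_iUnion_atTop`). -/
private theorem f5_gen {n : ℕ} {f : ℝ → E n} (s : ℕ → Set (E n)) (hs : Monotone s)
    (hU : ⋃ k, s k = f '' Icc 0 1) :
    Tendsto (fun k : ℕ => volume (convexHull ℝ (s k))) atTop
      (𝓝 (volume (convexHull ℝ (f '' Icc 0 1)))) := by
  have hm : Monotone fun k => convexHull ℝ (s k) := fun i j h => convexHull_mono (hs h)
  have h := tendsto_measure_iUnion_atTop (μ := (volume : Measure (E n))) hm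
  have e : ⋃ k, convexHull ℝ (s k) = convexHull ℝ (f '' Icc 0 1) := by
    apply Subset.antisymm
    · refine iUnion_subset fun k => convexHull_mono ?_
      rw [← hU]
      exact subset_iUnion s k
    · refine convexHull_min ?_ ?_
      · rw [← hU]
        exact iUnion_mono fun k => subset_convexHull ℝ (s k)
      · exact Directed.convex_iUnion hm.directed_le fun k => convex_convexHull ℝ (s k)
  rw [e] at h
  exact h

theorem hull_left {n : ℕ} {f : ℝ → E n} (hf : Curve f) :
    Tendsto (fun k : ℕ => volume (convexHull ℝ (f '' Icc 0 (1 - 1 / ((k : ℝ) + 2))))) atTop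
      (𝓝 (volume (convexHull ℝ (f '' Icc 0 1)))) := by
  refine f5_gen (f := f) (fun k : ℕ => f '' Icc 0 (1 - 1 / ((k : ℝ) + 2))) ?_ ?_
  · intro i j h
    refine image_mono (Icc_subset_Icc_right ?_)
    have h' : (i : ℝ) ≤ j := Nat.cast_le.mpr h
    have := one_div_le_one_div_of_le (show (0 : ℝ) < (i : ℝ) + 2 by positivity)
      (show (i : ℝ) + 2 ≤ (j : ℝ) + 2 by linarith)
    linarith
  · apply Subset.antisymm
    · refine iUnion_subset fun k => image_mono (Icc_subset_Icc_right ?_)
      have : 0 < 1 / ((k : ℝ) + 2) := by positivity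
      linarith
    · rintro _ ⟨u, hu, rfl⟩
      rw [mem_iUnion]
      rcases hu.2.eq_or_lt with h | h
      · refine ⟨0, 0, ⟨le_refl _, by norm_num⟩, ?_⟩
        rw [h, hf.closed]
      · obtain ⟨k, hk⟩ := exists_nat_one_div_lt (sub_pos.mpr h)
        refine ⟨k, u, ⟨hu.1, ?_⟩, rfl⟩
        have := one_div_le_one_div_of_le (show (0 : ℝ) < (k : ℝ) + 1 by positivity)
          (show (k : ℝ) + 1 ≤ (k : ℝ) + 2 by linarith)
        linarith

theorem hull_right {n : ℕ} {f : ℝ → E n} (hf : Curve f) :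
    Tendsto (fun k : ℕ => volume (convexHull ℝ (f '' Icc (1 / ((k : ℝ) + 2)) 1))) atTop
      (𝓝 (volume (convexHull ℝ (f '' Icc 0 1)))) := by
  refine f5_gen (f := f) (fun k : ℕ => f '' Icc (1 / ((k : ℝ) + 2)) 1) ?_ ?_
  · intro i j h
    refine image_mono (Icc_subset_Icc_left ?_)
    have h' : (i : ℝ) ≤ j := Nat.cast_le.mpr h
    exact one_div_le_one_div_of_le (show (0 : ℝ) < (i : ℝ) + 2 by positivity)
      (show (i : ℝ) + 2 ≤ (j : ℝ) + 2 by linarith)
  · apply Subset.antisymm
    · refine iUnion_subset fun k => image_mono (Icc_subset_Icc_left ?_)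
      positivity
    · rintro _ ⟨u, hu, rfl⟩
      rw [mem_iUnion]
      rcases hu.1.eq_or_lt with h | h
      · refine ⟨0, 1, ⟨by norm_num, le_refl _⟩, ?_⟩
        rw [← h, hf.closed]
      · obtain ⟨k, hk⟩ := exists_nat_one_div_lt h
        refine ⟨k, u, ⟨?_, hu.2⟩, rfl⟩
        have := one_div_le_one_div_of_le (show (0 : ℝ) < (k : ℝ) + 1 by positivity)
          (show (k : ℝ) + 1 ≤ (k : ℝ) + 2 by linarith)
        linarith
/- END f5 -/

/- MODULE f6 : `p! q!/(p+q)! vol f vol g ≤ gam (p+q) (len f + len g)^(p+q)` for loops through `0`.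
IDEA: `join` for the hulls of the long arcs, `δ = 1/(k+2)`, `le_gam` for the glued curve, limit
`k → ∞` with `hull_left`, `hull_right` (all volumes are finite: compact sets). -/
private theorem f6_comp {n : ℕ} {f : ℝ → E n} (hf : Curve f) {a b : ℝ} (ha : 0 ≤ a) (hb : b ≤ 1) :
    IsCompact (closure (convexHull ℝ (f '' Icc a b))) := by
  refine Metric.isCompact_of_isClosed_isBounded isClosed_closure (Bornology.IsBounded.closure ?_)
  rw [isBounded_convexHull]
  exact (isCompact_Icc.image_of_continuousOn (hf.cont.mono (Icc_subset_Icc ha hb))).isBounded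

private theorem f6_step {p q : ℕ} (hp : 1 ≤ p) (hq : 1 ≤ q) {f : ℝ → E p} {g : ℝ → E q}
    (hf : Curve f) (hg : Curve g) (f0 : f 0 = 0) (g0 : g 0 = 0) {δ : ℝ} (h0 : 0 < δ)
    (h1 : δ < 1) :
    ENNReal.ofReal ((p.factorial * q.factorial : ℝ) / (p + q).factorial) *
        (volume (convexHull ℝ (f '' Icc 0 (1 - δ))) * volume (convexHull ℝ (g '' Icc δ 1))) ≤
      ENNReal.ofReal (gam (p + q) * (len f + len g) ^ (p + q)) := by
  have hj := join hq (f6_comp hf (a := 0) (b := 1 - δ) le_rfl (by linarith))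
    (f6_comp hg (a := δ) (b := 1) h0.le le_rfl)
    (convex_convexHull ℝ _).closure (convex_convexHull ℝ _).closure
    (subset_closure (subset_convexHull ℝ _ ⟨0, ⟨le_refl _, by linarith⟩, f0⟩))
    (subset_closure (subset_convexHull ℝ _ ⟨1, ⟨h1.le, le_refl _⟩, by rw [← hg.closed, g0]⟩))
  refine (mul_le_mul_right (mul_le_mul' (measure_mono subset_closure)
    (measure_mono subset_closure)) _).trans (hj.trans ?_)
  obtain ⟨hc, hl⟩ := glue_curve hf hg f0 g0 h0 h1
  have hsub : convexHull ℝ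
      ((fun x => J (x, (0 : E q))) '' (closure (convexHull ℝ (f '' Icc 0 (1 - δ)))) ∪
        (fun y => J ((0 : E p), y)) '' (closure (convexHull ℝ (g '' Icc δ 1)))) ⊆
      closure (convexHull ℝ (glue f g δ '' Icc 0 1)) := by
    refine convexHull_min (union_subset ?_ ?_) (convex_convexHull ℝ _).closure
    · have hcont : Continuous (fun x : E p => J (x, (0 : E q))) :=
        J_continuous.comp (by fun_prop)
      refine (image_closure_subset_closure_image hcont).trans (closure_mono ?_)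
      have e : (fun x : E p => J (x, (0 : E q))) =
          ((J : (E p × E q) →ₗ[ℝ] E (p + q)).comp (LinearMap.inl ℝ (E p) (E q))) := by
        funext x
        simp
      rw [e, LinearMap.image_convexHull]
      refine convexHull_mono ?_
      rw [← e]
      exact glue_left f g h0 h1
    · have hcont : Continuous (fun y : E q => J ((0 : E p), y)) :=
        J_continuous.comp (by fun_prop)
      refine (image_closure_subset_closure_image hcont).trans (closure_mono ?_)
      have e : (fun y : E q => J ((0 : E p), y)) =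
          ((J : (E p × E q) →ₗ[ℝ] E (p + q)).comp (LinearMap.inr ℝ (E p) (E q))) := by
        funext x
        simp
      rw [e, LinearMap.image_convexHull]
      refine convexHull_mono ?_
      rw [← e]
      exact glue_right h0 h1
  have hfin : volume (convexHull ℝ (glue f g δ '' Icc 0 1)) ≠ ⊤ :=
    ne_top_of_le_ne_top (f6_comp hc (a := 0) (b := 1) le_rfl le_rfl).measure_lt_top.ne
      (measure_mono subset_closure)
  refine (measure_mono hsub).trans ((volume_closure_le (convex_convexHull ℝ _)).trans ?_)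
  rw [← ENNReal.ofReal_toReal hfin]
  refine ENNReal.ofReal_le_ofReal ?_
  change vol (glue f g δ) ≤ _
  have hpos := len_pos hc
  have hle := le_gam (n := p + q) (by omega) hc
  rw [div_le_iff₀ (pow_pos hpos _)] at hle
  refine hle.trans (mul_le_mul_of_nonneg_left ?_ (gam_nonneg _))
  exact pow_le_pow_left₀ hpos.le hl _

theorem glue_bound {p q : ℕ} (hp : 1 ≤ p) (hq : 1 ≤ q) {f : ℝ → E p} {g : ℝ → E q}
    (hf : Curve f) (hg : Curve g) (f0 : f 0 = 0) (g0 : g 0 = 0) :
    (p.factorial * q.factorial : ℝ) / (p + q).factorial * (vol f * vol g) ≤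
      gam (p + q) * (len f + len g) ^ (p + q) := by
  have hF : volume (convexHull ℝ (f '' Icc 0 1)) ≠ ⊤ :=
    ne_top_of_le_ne_top (f6_comp hf (a := 0) (b := 1) le_rfl le_rfl).measure_lt_top.ne
      (measure_mono subset_closure)
  have hG : volume (convexHull ℝ (g '' Icc 0 1)) ≠ ⊤ :=
    ne_top_of_le_ne_top (f6_comp hg (a := 0) (b := 1) le_rfl le_rfl).measure_lt_top.ne
      (measure_mono subset_closure)
  have hlim := ENNReal.Tendsto.const_mul
    (a := ENNReal.ofReal ((p.factorial * q.factorial : ℝ) / (p + q).factorial))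
    (ENNReal.Tendsto.mul (hull_left hf) (Or.inr hG) (hull_right hg) (Or.inr hF))
    (Or.inr ENNReal.ofReal_ne_top)
  have hle : ENNReal.ofReal ((p.factorial * q.factorial : ℝ) / (p + q).factorial) *
      (volume (convexHull ℝ (f '' Icc 0 1)) * volume (convexHull ℝ (g '' Icc 0 1))) ≤
      ENNReal.ofReal (gam (p + q) * (len f + len g) ^ (p + q)) := by
    refine le_of_tendsto' hlim fun k => ?_
    have hk : (0 : ℝ) < 1 / ((k : ℝ) + 2) := by positivity
    have hk' : 1 / ((k : ℝ) + 2) < 1 := by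
      rw [div_lt_one (by positivity)]
      have : (0 : ℝ) ≤ k := Nat.cast_nonneg k
      linarith
    exact f6_step hp hq hf hg f0 g0 hk hk'
  have hnn : 0 ≤ gam (p + q) * (len f + len g) ^ (p + q) :=
    mul_nonneg (gam_nonneg _) (pow_nonneg (add_nonneg ENNReal.toReal_nonneg
      ENNReal.toReal_nonneg) _)
  have h := ENNReal.toReal_mono ENNReal.ofReal_ne_top hle
  rwa [ENNReal.toReal_ofReal hnn, ENNReal.toReal_mul, ENNReal.toReal_mul,
    ENNReal.toReal_ofReal (by positivity)] at h
/- END f6 -/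

end Pool.Agent.Hul
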