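import Pool.Agent.Hul.Upper

/-!
# MP_67b84b_gt, part C: volume of the hull of two sets in orthogonal subspaces
-/

set_option autoImplicit false

namespace Pool.Agent.Hul

open MeasureTheory Set Filter Topology

/- MODULE e0 : a Beta integral.
IDEA: induction on `p` by parts, or `Complex.betaIntegral`/`Real.Gamma`. -/
theorem beta_int (p q : ℕ) (hq : 1 ≤ q) :
    ∫ s in (0 : ℝ)..1, (q * s ^ (q - 1)) * (1 - s) ^ p =
      (p.factorial * q.factorial : ℝ) / (p + q).factorial := by
  induction p generalizing q with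
  | zero =>
    have h1 : ∫ s in (0 : ℝ)..1, (q * s ^ (q - 1)) * (1 - s) ^ 0 = ∫ s in (0 : ℝ)..1,
        (q : ℝ) * s ^ (q - 1) := by
      refine intervalIntegral.integral_congr fun s _ => ?_
      simp only [pow_zero, mul_one]
    rw [h1, intervalIntegral.integral_const_mul, integral_pow]
    have hq0 : (q : ℝ) ≠ 0 := by
      have : q ≠ 0 := by omega
      exact_mod_cast this
    have h2 : (((q - 1 : ℕ) : ℝ) + 1) = q := by
      rw [Nat.cast_sub hq]
      push_cast
      ring
    rw [h2, one_pow, zero_pow (by omega), Nat.zero_add, Nat.factorial_zero, Nat.cast_one, one_mul,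
      sub_zero, mul_one_div_cancel hq0, div_self (by exact_mod_cast q.factorial_ne_zero)]
  | succ p ih =>
    have hu : ∀ s ∈ Set.uIcc (0 : ℝ) 1, HasDerivAt (fun s : ℝ => (1 - s) ^ (p + 1))
        (-((p + 1 : ℕ) : ℝ) * (1 - s) ^ p) s := by
      intro s _
      have h1 := ((hasDerivAt_id s).const_sub 1).pow (p + 1)
      refine h1.congr_deriv ?_
      simp only [Nat.add_sub_cancel, id]
      ring
    have hv : ∀ s ∈ Set.uIcc (0 : ℝ) 1, HasDerivAt (fun s : ℝ => s ^ q)
        (q * s ^ (q - 1)) s := fun s _ => hasDerivAt_pow q s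
    have h1 := intervalIntegral.integral_mul_deriv_eq_deriv_mul hu hv
      (by apply Continuous.intervalIntegrable; fun_prop)
      (by apply Continuous.intervalIntegrable; fun_prop)
    have h2 : ∫ s in (0 : ℝ)..1, (q * s ^ (q - 1)) * (1 - s) ^ (p + 1) =
        ∫ s in (0 : ℝ)..1, (1 - s) ^ (p + 1) * (q * s ^ (q - 1)) :=
      intervalIntegral.integral_congr fun s _ => mul_comm _ _
    have h3 : ∫ s in (0 : ℝ)..1, -((p + 1 : ℕ) : ℝ) * (1 - s) ^ p * s ^ q =
        -(((p + 1 : ℕ) : ℝ) / ((q + 1 : ℕ) : ℝ)) * ∫ s in (0 : ℝ)..1,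
          (((q + 1 : ℕ) : ℝ) * s ^ (q + 1 - 1)) * (1 - s) ^ p := by
      rw [← intervalIntegral.integral_const_mul]
      refine intervalIntegral.integral_congr fun s _ => ?_
      have hq1 : (((q + 1 : ℕ) : ℝ)) ≠ 0 := by positivity
      simp only [Nat.add_sub_cancel]
      field_simp
    rw [h2, h1, h3, ih (q + 1) (by omega)]
    have e1 : p + (q + 1) = p + 1 + q := by ring
    rw [e1, Nat.factorial_succ q, Nat.factorial_succ p]
    have hq0 : q ≠ 0 := by omega
    simp only [sub_self, one_pow, sub_zero]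
    rw [zero_pow (by omega), zero_pow hq0]
    push_cast
    have hq1 : (q : ℝ) + 1 ≠ 0 := by positivity
    field_simp
    ring
/- END e0 -/

/- MODULE e1 : volume of the hull of `A × {0} ∪ {0} × B`, `0 ∈ A`, `0 ∈ B`, at least
`p! q! / (p+q)! vol A vol B`.
IDEA: `pyr A 0 = {(s, x) : s ∈ [0,1], x ∈ (1-s) A}`.  For fixed `x` let `w` be the maximum of the
fibre `{s | (s, x) ∈ pyr A 0}` (compact): then `x = (1-w) a`, so `(x, w b) ∈ H` for `b ∈ B` and
the fibre of `H` over `x` has volume `≥ w^q vol B ≥ vol B * ∫_{fibre} q s^(q-1) ds`.  Integrate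
over `x` and exchange the integrals (Tonelli): `vol B * ∫_0^1 q s^(q-1) (1-s)^p vol A ds`,
then `beta_int`.  (The hull of two compact convex sets is compact, hence measurable; or use
a compact image.) -/
open scoped Pointwise in
private theorem e1_slice {p : ℕ} {A : Set (Fin p → ℝ)} {t : ℝ} (ht : t ∈ Icc (0 : ℝ) 1) :
    volume (Prod.mk t ⁻¹' pyr A (0 : Fin p → ℝ)) = ENNReal.ofReal ((1 - t) ^ p) * volume A := by
  have e1 : Prod.mk t ⁻¹' pyr A (0 : Fin p → ℝ) = (1 - t) • A := by
    ext y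
    constructor
    · rintro ⟨_, b, hb, h2⟩
      have h3 : y = t • (0 : Fin p → ℝ) + (1 - t) • b := h2
      rw [smul_zero, zero_add] at h3
      rw [h3]
      exact smul_mem_smul_set hb
    · rintro ⟨b, hb, rfl⟩
      refine ⟨ht, b, hb, ?_⟩
      change (1 - t) • b = t • (0 : Fin p → ℝ) + (1 - t) • b
      rw [smul_zero, zero_add]
  rw [e1, Measure.addHaar_smul, Module.finrank_fin_fun,
    abs_of_nonneg (pow_nonneg (by linarith [ht.2]) _)]

open scoped Pointwise in
theorem join_pi {p q : ℕ} (hq : 1 ≤ q) {A : Set (Fin p → ℝ)} {B : Set (Fin q → ℝ)}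
    (hA : IsCompact A) (hB : IsCompact B) (cA : Convex ℝ A) (cB : Convex ℝ B)
    (zA : (0 : Fin p → ℝ) ∈ A) (zB : (0 : Fin q → ℝ) ∈ B) :
    ENNReal.ofReal ((p.factorial * q.factorial : ℝ) / (p + q).factorial) *
        (volume A * volume B) ≤
      volume (convexHull ℝ ((fun x => (x, (0 : Fin q → ℝ))) '' A ∪
        (fun y => ((0 : Fin p → ℝ), y)) '' B)) := by
  classical
  set M : Set ((Fin p → ℝ) × (Fin q → ℝ)) :=
    (fun z : ℝ × ((Fin p → ℝ) × (Fin q → ℝ)) => ((1 - z.1) • z.2.1, z.1 • z.2.2)) ''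
      (Icc (0 : ℝ) 1 ×ˢ (A ×ˢ B)) with hM
  have hMc : IsCompact M := by
    apply (isCompact_Icc.prod (hA.prod hB)).image
    fun_prop
  have hMH : M ⊆ convexHull ℝ ((fun x => (x, (0 : Fin q → ℝ))) '' A ∪
      (fun y => ((0 : Fin p → ℝ), y)) '' B) := by
    rintro _ ⟨⟨s, a, b⟩, ⟨hs, ha, hb⟩, rfl⟩
    have h1 : ((a, (0 : Fin q → ℝ)) : (Fin p → ℝ) × (Fin q → ℝ)) ∈
        convexHull ℝ ((fun x => (x, (0 : Fin q → ℝ))) '' A ∪
          (fun y => ((0 : Fin p → ℝ), y)) '' B) :=
      subset_convexHull ℝ _ (Or.inl ⟨a, ha, rfl⟩)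
    have h2 : (((0 : Fin p → ℝ), b) : (Fin p → ℝ) × (Fin q → ℝ)) ∈
        convexHull ℝ ((fun x => (x, (0 : Fin q → ℝ))) '' A ∪
          (fun y => ((0 : Fin p → ℝ), y)) '' B) :=
      subset_convexHull ℝ _ (Or.inr ⟨b, hb, rfl⟩)
    have h3 : (((1 - s) • a, s • b) : (Fin p → ℝ) × (Fin q → ℝ)) =
        (1 - s) • (a, (0 : Fin q → ℝ)) + s • ((0 : Fin p → ℝ), b) := by
      refine Prod.ext ?_ ?_
      · simp
      · simp
    change (((1 - s) • a, s • b) : (Fin p → ℝ) × (Fin q → ℝ)) ∈ _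
    rw [h3]
    exact convex_convexHull ℝ _ h1 h2 (by linarith [hs.2]) hs.1 (by ring)
  have hP := isCompact_pyr hA (0 : Fin p → ℝ)
  have hPm : MeasurableSet (pyr A (0 : Fin p → ℝ)) := hP.isClosed.measurableSet
  have hg : Measurable fun z : ℝ × (Fin p → ℝ) => ENNReal.ofReal (q * z.1 ^ (q - 1)) := by
    fun_prop
  have hF := hg.indicator hPm
  have hBf : volume B ≠ ⊤ := hB.measure_lt_top.ne
  -- integral in the other order
  have hI1 : ∫⁻ z : ℝ × (Fin p → ℝ), (pyr A (0 : Fin p → ℝ)).indicator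
      (fun z => ENNReal.ofReal (q * z.1 ^ (q - 1))) z ∂(volume.prod volume) =
      ENNReal.ofReal ((p.factorial * q.factorial : ℝ) / (p + q).factorial) * volume A := by
    rw [lintegral_prod _ hF.aemeasurable]
    have h1 : ∀ s : ℝ, ∫⁻ x : Fin p → ℝ, (pyr A (0 : Fin p → ℝ)).indicator
        (fun z => ENNReal.ofReal (q * z.1 ^ (q - 1))) (s, x) =
        (Icc (0 : ℝ) 1).indicator
          (fun s => ENNReal.ofReal ((q * s ^ (q - 1)) * (1 - s) ^ p) * volume A) s := by
      intro s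
      have h2 : (fun x : Fin p → ℝ => (pyr A (0 : Fin p → ℝ)).indicator
          (fun z => ENNReal.ofReal (q * z.1 ^ (q - 1))) (s, x)) =
          (Prod.mk s ⁻¹' pyr A (0 : Fin p → ℝ)).indicator
            (fun _ => ENNReal.ofReal (q * s ^ (q - 1))) := rfl
      rw [h2, lintegral_indicator (measurable_prodMk_left hPm), setLIntegral_const]
      by_cases hs : s ∈ Icc (0 : ℝ) 1
      · rw [indicator_of_mem hs, e1_slice hs, ← mul_assoc, ← ENNReal.ofReal_mul]
        exact mul_nonneg (Nat.cast_nonneg q) (pow_nonneg hs.1 _)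
      · rw [indicator_of_notMem hs]
        have h3 : Prod.mk s ⁻¹' pyr A (0 : Fin p → ℝ) = ∅ := by
          ext y
          simp only [mem_preimage, mem_empty_iff_false, iff_false]
          rintro ⟨h4, _⟩
          exact hs h4
        rw [h3, measure_empty, mul_zero]
    rw [lintegral_congr h1, lintegral_indicator measurableSet_Icc,
      lintegral_mul_const _ (by fun_prop), ← ofReal_integral_eq_lintegral_ofReal]
    · rw [integral_Icc_eq_integral_Ioc, ← intervalIntegral.integral_of_le zero_le_one,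
        beta_int p q hq]
    · refine ContinuousOn.integrableOn_compact isCompact_Icc ?_
      fun_prop
    · filter_upwards [ae_restrict_mem measurableSet_Icc] with t ht
      exact mul_nonneg (mul_nonneg (Nat.cast_nonneg q) (pow_nonneg ht.1 _))
        (pow_nonneg (by linarith [ht.2]) _)
  have hI2 : ∫⁻ z : ℝ × (Fin p → ℝ), (pyr A (0 : Fin p → ℝ)).indicator
      (fun z => ENNReal.ofReal (q * z.1 ^ (q - 1))) z ∂(volume.prod volume) =
      ∫⁻ x : Fin p → ℝ, ∫⁻ s : ℝ, (pyr A (0 : Fin p → ℝ)).indicator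
        (fun z => ENNReal.ofReal (q * z.1 ^ (q - 1))) (s, x) :=
    lintegral_prod_symm' _ hF
  have key : ∀ x : Fin p → ℝ, volume B * (∫⁻ s : ℝ, (pyr A (0 : Fin p → ℝ)).indicator
      (fun z => ENNReal.ofReal (q * z.1 ^ (q - 1))) (s, x)) ≤ volume (Prod.mk x ⁻¹' M) := by
    intro x
    have hSc : IsCompact ((fun s : ℝ => (s, x)) ⁻¹' pyr A (0 : Fin p → ℝ)) := by
      have h1 : IsClosed ((fun s : ℝ => (s, x)) ⁻¹' pyr A (0 : Fin p → ℝ)) :=
        hP.isClosed.preimage (by fun_prop)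
      refine (hP.image continuous_fst).of_isClosed_subset h1 ?_
      intro t ht
      exact ⟨(t, x), ht, rfl⟩
    rcases ((fun s : ℝ => (s, x)) ⁻¹' pyr A (0 : Fin p → ℝ)).eq_empty_or_nonempty with he | hne
    · have h1 : ∀ s : ℝ, (pyr A (0 : Fin p → ℝ)).indicator
          (fun z => ENNReal.ofReal (q * z.1 ^ (q - 1))) (s, x) = 0 := by
        intro s
        refine indicator_of_notMem (fun h2 => ?_) _
        have h3 : s ∈ ((fun s : ℝ => (s, x)) ⁻¹' pyr A (0 : Fin p → ℝ)) := h2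
        rw [he] at h3
        exact h3
      rw [lintegral_congr h1, lintegral_zero, mul_zero]
      exact zero_le
    · obtain ⟨w, hw, hmax⟩ := hSc.exists_isMaxOn hne continuousOn_id
      obtain ⟨⟨hw0, hw1⟩, a, ha, hx⟩ := hw
      have hx' : x = (1 - w) • a := by
        have h1 : x = w • (0 : Fin p → ℝ) + (1 - w) • a := hx
        rw [h1, smul_zero, zero_add]
      have hI : ∫⁻ s : ℝ, (pyr A (0 : Fin p → ℝ)).indicator
          (fun z => ENNReal.ofReal (q * z.1 ^ (q - 1))) (s, x) ≤ ENNReal.ofReal (w ^ q) := by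
        have h1 : ∀ s : ℝ, (pyr A (0 : Fin p → ℝ)).indicator
            (fun z => ENNReal.ofReal (q * z.1 ^ (q - 1))) (s, x) ≤
            (Icc (0 : ℝ) w).indicator (fun s => ENNReal.ofReal (q * s ^ (q - 1))) s := by
          intro s
          by_cases hs : (s, x) ∈ pyr A (0 : Fin p → ℝ)
          · rw [indicator_of_mem hs, indicator_of_mem]
            exact ⟨hs.1.1, hmax (show s ∈ ((fun s : ℝ => (s, x)) ⁻¹' pyr A 0) from hs)⟩
          · rw [indicator_of_notMem hs]
            exact zero_le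
        refine (lintegral_mono h1).trans (le_of_eq ?_)
        rw [lintegral_indicator measurableSet_Icc, ← ofReal_integral_eq_lintegral_ofReal]
        · rw [integral_Icc_eq_integral_Ioc, ← intervalIntegral.integral_of_le hw0]
          congr 1
          rw [intervalIntegral.integral_eq_sub_of_hasDerivAt (f := fun s : ℝ => s ^ q)
            (fun s _ => hasDerivAt_pow q s) (by apply Continuous.intervalIntegrable; fun_prop),
            zero_pow (by omega), sub_zero]
        · refine ContinuousOn.integrableOn_compact isCompact_Icc ?_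
          fun_prop
        · filter_upwards [ae_restrict_mem measurableSet_Icc] with t ht
          exact mul_nonneg (Nat.cast_nonneg q) (pow_nonneg ht.1 _)
      have hsub : w • B ⊆ Prod.mk x ⁻¹' M := by
        rintro _ ⟨b, hb, rfl⟩
        refine ⟨(w, a, b), ⟨⟨hw0, hw1⟩, ha, hb⟩, ?_⟩
        rw [hx']
      have hvol : volume (w • B) = ENNReal.ofReal (w ^ q) * volume B := by
        rw [Measure.addHaar_smul, Module.finrank_fin_fun, abs_of_nonneg (pow_nonneg hw0 _)]
      calc volume B * (∫⁻ s : ℝ, (pyr A (0 : Fin p → ℝ)).indicator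
            (fun z => ENNReal.ofReal (q * z.1 ^ (q - 1))) (s, x))
          ≤ volume B * ENNReal.ofReal (w ^ q) := by gcongr
        _ = volume (w • B) := by rw [hvol, mul_comm]
        _ ≤ _ := measure_mono hsub
  calc ENNReal.ofReal ((p.factorial * q.factorial : ℝ) / (p + q).factorial) *
        (volume A * volume B)
      = volume B * ∫⁻ x : Fin p → ℝ, ∫⁻ s : ℝ, (pyr A (0 : Fin p → ℝ)).indicator
        (fun z => ENNReal.ofReal (q * z.1 ^ (q - 1))) (s, x) := by
        rw [← hI2, hI1]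
        ring
    _ = ∫⁻ x : Fin p → ℝ, volume B * ∫⁻ s : ℝ, (pyr A (0 : Fin p → ℝ)).indicator
        (fun z => ENNReal.ofReal (q * z.1 ^ (q - 1))) (s, x) :=
        (lintegral_const_mul' _ _ hBf).symm
    _ ≤ ∫⁻ x : Fin p → ℝ, volume (Prod.mk x ⁻¹' M) := lintegral_mono key
    _ = volume M := by
        rw [Measure.volume_eq_prod, Measure.prod_apply hMc.isClosed.measurableSet]
    _ ≤ _ := measure_mono hMH
/- END e1 -/

/-- the orthogonal sum `E p × E q → E (p + q)` -/
noncomputable def J {p q : ℕ} : (E p × E q) →ₗ[ℝ] E (p + q) where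
  toFun z := WithLp.toLp 2 (Fin.append (WithLp.ofLp z.1) (WithLp.ofLp z.2))
  map_add' x y := by
    ext i
    refine Fin.addCases (fun j => ?_) (fun j => ?_) i <;> simp
  map_smul' c x := by
    ext i
    refine Fin.addCases (fun j => ?_) (fun j => ?_) i <;> simp

/- MODULE e2 : norms. -/
theorem norm_J_sq {p q : ℕ} (x : E p) (y : E q) : ‖J (x, y)‖ ^ 2 = ‖x‖ ^ 2 + ‖y‖ ^ 2 := by
  rw [EuclideanSpace.real_norm_sq_eq, EuclideanSpace.real_norm_sq_eq,
    EuclideanSpace.real_norm_sq_eq, Fin.sum_univ_add]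
  simp [J]

theorem norm_J_left {p q : ℕ} (x : E p) : ‖J (x, (0 : E q))‖ = ‖x‖ := by
  have h := norm_J_sq x (0 : E q)
  rw [norm_zero, zero_pow two_ne_zero, add_zero] at h
  exact (sq_eq_sq₀ (norm_nonneg _) (norm_nonneg _)).1 h

theorem norm_J_right {p q : ℕ} (y : E q) : ‖J ((0 : E p), y)‖ = ‖y‖ := by
  have h := norm_J_sq (0 : E p) y
  rw [norm_zero, zero_pow two_ne_zero, zero_add] at h
  exact (sq_eq_sq₀ (norm_nonneg _) (norm_nonneg _)).1 h

theorem norm_J_le {p q : ℕ} (x : E p) (y : E q) : ‖J (x, y)‖ ≤ ‖x‖ + ‖y‖ := by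
  have h : J (x, y) = J (x, (0 : E q)) + J ((0 : E p), y) := by
    rw [← map_add, Prod.mk_add_mk, add_zero, zero_add]
  rw [h]
  refine (norm_add_le _ _).trans ?_
  rw [norm_J_left, norm_J_right]

theorem J_injective {p q : ℕ} : Function.Injective (J : (E p × E q) →ₗ[ℝ] E (p + q)) := by
  refine (injective_iff_map_eq_zero _).2 fun z h => ?_
  obtain ⟨x, y⟩ := z
  have h1 := norm_J_sq x y
  rw [h, norm_zero, zero_pow two_ne_zero] at h1
  have hx : ‖x‖ = 0 := by nlinarith [sq_nonneg ‖x‖, sq_nonneg ‖y‖]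
  have hy : ‖y‖ = 0 := by nlinarith [sq_nonneg ‖x‖, sq_nonneg ‖y‖]
  rw [norm_eq_zero] at hx hy
  rw [hx, hy]
  rfl

theorem J_continuous {p q : ℕ} : Continuous (J : (E p × E q) →ₗ[ℝ] E (p + q)) :=
  LinearMap.continuous_of_finiteDimensional _
/- END e2 -/

/- MODULE e3 : `join_pi` in `E (p + q)`.
IDEA: `MeasurableEquiv.sumPiEquivProdPi`, `volume_measurePreserving_piCongrLeft` with
`finSumFinEquiv`, `EuclideanSpace.volume_preserving_...`; `LinearMap.image_convexHull`. -/
theorem join {p q : ℕ} (hq : 1 ≤ q) {A : Set (E p)} {B : Set (E q)}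
    (hA : IsCompact A) (hB : IsCompact B) (cA : Convex ℝ A) (cB : Convex ℝ B)
    (zA : (0 : E p) ∈ A) (zB : (0 : E q) ∈ B) :
    ENNReal.ofReal ((p.factorial * q.factorial : ℝ) / (p + q).factorial) *
        (volume A * volume B) ≤
      volume (convexHull ℝ ((fun x => J (x, (0 : E q))) '' A ∪
        (fun y => J ((0 : E p), y)) '' B)) := by
  classical
  let e : ((Fin p → ℝ) × (Fin q → ℝ)) ≃ᵐ E (p + q) :=
    ((MeasurableEquiv.sumPiEquivProdPi (fun _ : Fin p ⊕ Fin q => ℝ)).symm.trans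
      (MeasurableEquiv.piCongrLeft (fun _ : Fin (p + q) => ℝ) finSumFinEquiv)).trans
      (MeasurableEquiv.toLp 2 (Fin (p + q) → ℝ))
  have he : MeasurePreserving e volume volume :=
    ((volume_measurePreserving_sumPiEquivProdPi_symm (fun _ : Fin p ⊕ Fin q => ℝ)).trans
      (volume_measurePreserving_piCongrLeft (fun _ : Fin (p + q) => ℝ) finSumFinEquiv)).trans
      (PiLp.volume_preserving_toLp (Fin (p + q)))
  let L : ((Fin p → ℝ) × (Fin q → ℝ)) →ₗ[ℝ] E (p + q) :=
    J ∘ₗ ((WithLp.linearEquiv 2 ℝ (Fin p → ℝ)).symm.toLinearMap.prodMap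
      (WithLp.linearEquiv 2 ℝ (Fin q → ℝ)).symm.toLinearMap)
  have hL : ∀ z, e z = L z := by
    intro z
    ext i
    refine Fin.addCases (fun j => ?_) (fun j => ?_) i
    · change (Equiv.piCongrLeft (fun _ : Fin (p + q) => ℝ) finSumFinEquiv)
        ((Equiv.sumPiEquivProdPi (fun _ : Fin p ⊕ Fin q => ℝ)).symm z) (Fin.castAdd q j) =
          Fin.append z.1 z.2 (Fin.castAdd q j)
      rw [Fin.append_left]
      exact Equiv.piCongrLeft_sumInl (fun _ : Fin (p + q) => ℝ) finSumFinEquiv z.1 z.2 j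
    · change (Equiv.piCongrLeft (fun _ : Fin (p + q) => ℝ) finSumFinEquiv)
        ((Equiv.sumPiEquivProdPi (fun _ : Fin p ⊕ Fin q => ℝ)).symm z) (Fin.natAdd p j) =
          Fin.append z.1 z.2 (Fin.natAdd p j)
      rw [Fin.append_right]
      exact Equiv.piCongrLeft_sumInr (fun _ : Fin (p + q) => ℝ) finSumFinEquiv z.1 z.2 j
  let A' : Set (Fin p → ℝ) := (WithLp.linearEquiv 2 ℝ (Fin p → ℝ)).symm ⁻¹' A
  let B' : Set (Fin q → ℝ) := (WithLp.linearEquiv 2 ℝ (Fin q → ℝ)).symm ⁻¹' B
  have hA' : IsCompact A' := by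
    have h : A' = (PiLp.homeomorph 2 (fun _ : Fin p => ℝ)) '' A := by
      rw [Homeomorph.image_eq_preimage_symm]
      rfl
    rw [h]
    exact hA.image (PiLp.homeomorph 2 (fun _ : Fin p => ℝ)).continuous
  have hB' : IsCompact B' := by
    have h : B' = (PiLp.homeomorph 2 (fun _ : Fin q => ℝ)) '' B := by
      rw [Homeomorph.image_eq_preimage_symm]
      rfl
    rw [h]
    exact hB.image (PiLp.homeomorph 2 (fun _ : Fin q => ℝ)).continuous
  have vA : volume A' = volume A :=
    (PiLp.volume_preserving_toLp (Fin p)).measure_preimage hA.measurableSet.nullMeasurableSet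
  have vB : volume B' = volume B :=
    (PiLp.volume_preserving_toLp (Fin q)).measure_preimage hB.measurableSet.nullMeasurableSet
  have h := join_pi hq hA' hB'
    (cA.linear_preimage (WithLp.linearEquiv 2 ℝ (Fin p → ℝ)).symm.toLinearMap)
    (cB.linear_preimage (WithLp.linearEquiv 2 ℝ (Fin q → ℝ)).symm.toLinearMap)
    (by change (WithLp.linearEquiv 2 ℝ (Fin p → ℝ)).symm 0 ∈ A; rwa [map_zero])
    (by change (WithLp.linearEquiv 2 ℝ (Fin q → ℝ)).symm 0 ∈ B; rwa [map_zero])
  rw [vA, vB] at h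
  refine h.trans ?_
  rw [← he.measure_preimage_equiv]
  refine measure_mono (convexHull_min ?_ ?_)
  · rintro z (⟨x, hx, rfl⟩ | ⟨y, hy, rfl⟩)
    · rw [mem_preimage, hL]
      exact subset_convexHull ℝ _ (Or.inl ⟨_, hx, rfl⟩)
    · rw [mem_preimage, hL]
      exact subset_convexHull ℝ _ (Or.inr ⟨_, hy, rfl⟩)
  · have h2 : (e ⁻¹' (convexHull ℝ ((fun x => J (x, (0 : E q))) '' A ∪
        (fun y => J ((0 : E p), y)) '' B))) = L ⁻¹' (convexHull ℝ
          ((fun x => J (x, (0 : E q))) '' A ∪ (fun y => J ((0 : E p), y)) '' B)) := by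
      ext z
      rw [mem_preimage, mem_preimage, hL]
    rw [h2]
    exact (convex_convexHull ℝ _).linear_preimage L
/- END e3 -/

end Pool.Agent.Hul
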