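import Pool.Agent.Hul.Mod

/-!
# MP_67b84b_gt: the Szegő recursion
-/

set_option autoImplicit false

namespace Pool.Agent.Hul

open ComplexConjugate

/-- the values `Φ_k(z)` and `Φ_k^*(z)` -/
noncomputable def ph (a : ℕ → ℂ) (z : ℂ) : ℕ → ℂ × ℂ
  | 0 => (1, 1)
  | k + 1 => (z * (ph a z k).1 - conj (a k) * (ph a z k).2,
      (ph a z k).2 - a k * (z * (ph a z k).1))

/-- the quotient `z Φ_k(z) / Φ_k^*(z)` -/
noncomputable def bb (a : ℕ → ℂ) (z : ℂ) (k : ℕ) : ℂ := z * (ph a z k).1 / (ph a z k).2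

/-- `rr a k / |Φ_k^*(z)|²`, on the circle the density of the Bernstein-Szegő measure -/
noncomputable def dd (a : ℕ → ℂ) (z : ℂ) (k : ℕ) : ℝ := rr a k / ‖(ph a z k).2‖ ^ 2

/-- `1 - |b|²` -/
noncomputable def ww (a : ℕ → ℂ) (z : ℂ) (k : ℕ) : ℝ := 1 - ‖bb a z k‖ ^ 2

/-- the factor of one step -/
noncomputable def AA (α b : ℂ) : ℝ := (1 - ‖α‖ ^ 2) / ‖1 - α * b‖ ^ 2

-- MODULE za
private theorem za_id (α u S : ℂ) : Complex.normSq (S - α * u) - Complex.normSq (u - conj α * S) =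
    (1 - Complex.normSq α) * (Complex.normSq S - Complex.normSq u) := by
  simp only [Complex.normSq_apply, Complex.sub_re, Complex.sub_im, Complex.mul_re, Complex.mul_im,
    Complex.conj_re, Complex.conj_im]
  ring

/-- Induction: `Φ*_{k+1} = Φ*_k (1 - a b)`, `‖b‖ ≤ ‖z‖ ≤ 1`, and
`|1 - a b|² - |b - conj a|² = (1 - |a|²) (1 - |b|²) ≥ 0`. -/
theorem ph_ne (a : ℕ → ℂ) (ha : ∀ j, ‖a j‖ < 1) (z : ℂ) (hz : ‖z‖ ≤ 1) (k : ℕ) :
    (ph a z k).2 ≠ 0 ∧ ‖(ph a z k).1‖ ≤ ‖(ph a z k).2‖ := by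
  induction k with
  | zero => exact ⟨one_ne_zero, le_rfl⟩
  | succ k ih =>
    obtain ⟨h1, h2⟩ := ih
    have hS : 0 < ‖(ph a z k).2‖ := norm_pos_iff.2 h1
    have hu : ‖z * (ph a z k).1‖ ≤ ‖(ph a z k).2‖ := by
      rw [norm_mul]
      calc ‖z‖ * ‖(ph a z k).1‖ ≤ 1 * ‖(ph a z k).1‖ := by gcongr
        _ = ‖(ph a z k).1‖ := one_mul _
        _ ≤ _ := h2
    have hlt : ‖a k * (z * (ph a z k).1)‖ < ‖(ph a z k).2‖ := by
      rw [norm_mul]
      have h3 := ha k
      have h4 := norm_nonneg (a k)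
      have h5 := norm_nonneg (z * (ph a z k).1)
      calc ‖a k‖ * ‖z * (ph a z k).1‖ ≤ ‖a k‖ * ‖(ph a z k).2‖ := by gcongr
        _ < 1 * ‖(ph a z k).2‖ := by gcongr
        _ = _ := one_mul _
    constructor
    · intro h0
      have h3 : (ph a z k).2 = a k * (z * (ph a z k).1) := by
        have h4 : (ph a z k).2 - a k * (z * (ph a z k).1) = 0 := h0
        exact sub_eq_zero.1 h4
      rw [← h3] at hlt
      exact lt_irrefl _ hlt
    · have hid := za_id (a k) (z * (ph a z k).1) (ph a z k).2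
      have h3 : 0 ≤ 1 - Complex.normSq (a k) := by
        rw [Complex.normSq_eq_norm_sq]
        have h4 := norm_nonneg (a k)
        have h5 := ha k
        have h6 : ‖a k‖ ^ 2 ≤ 1 ^ 2 := pow_le_pow_left₀ h4 h5.le 2
        linarith
      have h7 : 0 ≤ Complex.normSq (ph a z k).2 - Complex.normSq (z * (ph a z k).1) := by
        rw [Complex.normSq_eq_norm_sq, Complex.normSq_eq_norm_sq]
        have h8 := pow_le_pow_left₀ (norm_nonneg _) hu 2
        linarith
      have h9 := mul_nonneg h3 h7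
      rw [← hid, Complex.normSq_eq_norm_sq, Complex.normSq_eq_norm_sq] at h9
      exact (pow_le_pow_iff_left₀ (norm_nonneg _) (norm_nonneg _) two_ne_zero).1 (sub_nonneg.1 h9)

theorem bb_le (a : ℕ → ℂ) (ha : ∀ j, ‖a j‖ < 1) (z : ℂ) (hz : ‖z‖ ≤ 1) (k : ℕ) :
    ‖bb a z k‖ ≤ ‖z‖ := by
  obtain ⟨h1, h2⟩ := ph_ne a ha z hz k
  have hS : 0 < ‖(ph a z k).2‖ := norm_pos_iff.2 h1
  rw [bb, norm_div, norm_mul, div_le_iff₀ hS]
  gcongr

-- MODULE zb
theorem dd_succ (a : ℕ → ℂ) (ha : ∀ j, ‖a j‖ < 1) (z : ℂ) (hz : ‖z‖ ≤ 1) (k : ℕ) :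
    dd a z (k + 1) = dd a z k * AA (a k) (bb a z k) := by
  have h1 := (ph_ne a ha z hz k).1
  have h2 : (ph a z (k + 1)).2 = (ph a z k).2 * (1 - a k * bb a z k) := by
    change (ph a z k).2 - a k * (z * (ph a z k).1) = _
    rw [bb]
    field_simp
  have h3 : rr a (k + 1) = rr a k * (1 - ‖a k‖ ^ 2) := by
    rw [rr, Finset.prod_range_succ, ← rr]
  rw [dd, dd, AA, h2, h3, norm_mul, mul_pow, mul_div_mul_comm]

private theorem zb_id (α b : ℂ) : Complex.normSq (1 - α * b) - Complex.normSq (b - conj α) =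
    (1 - Complex.normSq α) * (1 - Complex.normSq b) := by
  simp only [Complex.normSq_apply, Complex.sub_re, Complex.sub_im, Complex.mul_re, Complex.mul_im,
    Complex.conj_re, Complex.conj_im, Complex.one_re, Complex.one_im]
  ring

/-- `b_{k+1} = z (b - conj a) / (1 - a b)` -/
theorem ww_succ (a : ℕ → ℂ) (ha : ∀ j, ‖a j‖ < 1) (z : ℂ) (hz : ‖z‖ ≤ 1) (k : ℕ) :
    ww a z (k + 1) = (1 - ‖z‖ ^ 2) + ‖z‖ ^ 2 * (AA (a k) (bb a z k) * ww a z k) := by
  have h1 := (ph_ne a ha z hz k).1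
  have h0 := (ph_ne a ha z hz (k + 1)).1
  have h2 : (ph a z (k + 1)).2 = (ph a z k).2 * (1 - a k * bb a z k) := by
    change (ph a z k).2 - a k * (z * (ph a z k).1) = _
    rw [bb]
    field_simp
  have h3 : (ph a z (k + 1)).1 = (ph a z k).2 * (bb a z k - conj (a k)) := by
    change z * (ph a z k).1 - conj (a k) * (ph a z k).2 = _
    rw [bb]
    field_simp
  have h4 : 1 - a k * bb a z k ≠ 0 := by
    intro h5
    rw [h5, mul_zero] at h2
    exact h0 h2
  have h5 : bb a z (k + 1) = z * ((bb a z k - conj (a k)) / (1 - a k * bb a z k)) := by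
    rw [bb, h2, h3]
    field_simp
  have hid := zb_id (a k) (bb a z k)
  rw [Complex.normSq_eq_norm_sq, Complex.normSq_eq_norm_sq, Complex.normSq_eq_norm_sq,
    Complex.normSq_eq_norm_sq] at hid
  have h6 : 0 < ‖1 - a k * bb a z k‖ := norm_pos_iff.2 h4
  rw [ww, ww, h5, norm_mul, norm_div, AA]
  have h7 : (1 - ‖a k‖ ^ 2) / ‖1 - a k * bb a z k‖ ^ 2 * (1 - ‖bb a z k‖ ^ 2) =
      1 - ‖bb a z k - conj (a k)‖ ^ 2 / ‖1 - a k * bb a z k‖ ^ 2 := by
    field_simp
    linarith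
  rw [h7, mul_pow, div_pow]
  ring

-- MODULE zc
theorem ph_congr (a b : ℕ → ℂ) (z : ℂ) (k : ℕ) (h : ∀ j < k, a j = b j) : ph a z k = ph b z k := by
  induction k with
  | zero => rfl
  | succ k ih =>
    have h1 := ih fun j hj => h j (hj.trans (Nat.lt_succ_self k))
    have h2 := h k (Nat.lt_succ_self k)
    rw [ph, ph, h1, h2]

theorem rr_congr (a b : ℕ → ℂ) (k : ℕ) (h : ∀ j < k, a j = b j) : rr a k = rr b k := by
  rw [rr, rr]
  exact Finset.prod_congr rfl fun j hj => by rw [h j (Finset.mem_range.1 hj)]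

theorem ph_continuous (k : ℕ) : Continuous (fun p : (ℕ → ℂ) × ℂ => ph p.1 p.2 k) := by
  induction k with
  | zero => exact continuous_const
  | succ k ih =>
    have h1 : Continuous (fun p : (ℕ → ℂ) × ℂ => (ph p.1 p.2 k).1) := continuous_fst.comp ih
    have h2 : Continuous (fun p : (ℕ → ℂ) × ℂ => (ph p.1 p.2 k).2) := continuous_snd.comp ih
    have h3 : Continuous (fun p : (ℕ → ℂ) × ℂ => p.1 k) := (continuous_apply k).comp continuous_fst
    have h4 : Continuous (fun p : (ℕ → ℂ) × ℂ => p.2) := continuous_snd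
    exact ((h4.mul h1).sub ((Complex.continuous_conj.comp h3).mul h2)).prodMk
      (h2.sub (h3.mul (h4.mul h1)))

theorem ph_differentiable (a : ℕ → ℂ) (k : ℕ) : Differentiable ℂ (fun z => (ph a z k).2) := by
  have h : Differentiable ℂ (fun z => (ph a z k).1) ∧ Differentiable ℂ (fun z => (ph a z k).2) := by
    induction k with
    | zero => exact ⟨differentiable_const _, differentiable_const _⟩
    | succ k ih =>
      have h1 := differentiable_id.mul ih.1
      exact ⟨h1.sub ((differentiable_const (conj (a k))).mul ih.2),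
        ih.2.sub ((differentiable_const (a k)).mul h1)⟩
  exact h.2

theorem ph_zero (a : ℕ → ℂ) (k : ℕ) : (ph a 0 k).2 = 1 := by
  induction k with
  | zero => rfl
  | succ k ih =>
    change (ph a 0 k).2 - a k * (0 * (ph a 0 k).1) = 1
    rw [ih]
    ring

theorem ph_circle (a : ℕ → ℂ) (z : ℂ) (hz : ‖z‖ = 1) (k : ℕ) :
    (ph a z k).1 = z ^ k * conj (ph a z k).2 := by
  have hzz : z * conj z = 1 := by
    rw [Complex.mul_conj, Complex.normSq_eq_norm_sq, hz]
    norm_num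
  induction k with
  | zero =>
    change (1 : ℂ) = z ^ 0 * conj 1
    simp
  | succ k ih =>
    change z * (ph a z k).1 - conj (a k) * (ph a z k).2 =
      z ^ (k + 1) * conj ((ph a z k).2 - a k * (z * (ph a z k).1))
    have h1 : conj (ph a z k).1 = conj z ^ k * (ph a z k).2 := by
      rw [ih, map_mul, map_pow, Complex.conj_conj]
    have h2 : z ^ (k + 1) * (conj z * (conj z ^ k)) = 1 := by
      rw [← pow_succ', ← mul_pow, hzz, one_pow]
    rw [map_sub, map_mul, map_mul, h1, mul_sub]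
    rw [show z ^ (k + 1) * (conj (a k) * (conj z * (conj z ^ k * (ph a z k).2))) =
      conj (a k) * (ph a z k).2 * (z ^ (k + 1) * (conj z * (conj z ^ k))) by ring, h2, mul_one]
    congr 1
    conv_lhs => rw [ih]
    ring

/-- joint measurability of the density -/
theorem dd_measurable (k : ℕ) : Measurable (fun p : (ℕ → ℂ) × ℂ => dd p.1 p.2 k) := by
  have h1 : Measurable (fun p : (ℕ → ℂ) × ℂ => ‖(ph p.1 p.2 k).2‖ ^ 2) :=
    ((continuous_snd.comp (ph_continuous k)).norm.pow 2).measurable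
  have h2 : Measurable (fun p : (ℕ → ℂ) × ℂ => rr p.1 k) := by
    have h3 : Continuous (fun p : (ℕ → ℂ) × ℂ => rr p.1 k) := by
      unfold rr
      refine continuous_finsetProd _ fun j _ => ?_
      exact continuous_const.sub (((continuous_apply j).comp continuous_fst).norm.pow 2)
    exact h3.measurable
  exact h2.div h1

end Pool.Agent.Hul
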