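import Pool.Agent.Hul.Bod
import Pool.Agent.Hul.Sz

/-!
# MP_67b84b_gt: integrals over one coefficient
-/

set_option autoImplicit false

namespace Pool.Agent.Hul

open ComplexConjugate MeasureTheory Metric Real

-- MODULE ya
private theorem ya_re {h : ℂ → ℂ} (hh : DifferentiableOn ℂ h (closedBall 0 1)) :
    circleAverage (fun w : ℂ => (h w).re) 0 1 = (h 0).re := by
  have h1 : DiffContOnCl ℂ h (ball (0 : ℂ) |1|) := by
    refine DifferentiableOn.diffContOnCl ?_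
    rw [abs_one, closure_ball (0 : ℂ) one_ne_zero]
    exact hh
  have h2 : CircleIntegrable h 0 1 := by
    refine ContinuousOn.circleIntegrable zero_le_one (hh.continuousOn.mono sphere_subset_closedBall)
  have h3 := Complex.reCLM.circleAverage_comp_comm h2
  rw [h1.circleAverage] at h3
  exact h3

private theorem ya_ne {c w : ℂ} (hc : ‖c‖ < 1) (hw : ‖w‖ ≤ 1) : 1 - c * w ≠ 0 := by
  intro h
  have h1 : c * w = 1 := (sub_eq_zero.1 h).symm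
  have h2 : ‖c * w‖ = 1 := by rw [h1, norm_one]
  rw [norm_mul] at h2
  nlinarith [norm_nonneg c, norm_nonneg w]

private theorem ya_c {α b : ℂ} (hα : ‖α‖ < 1) (hb : ‖b‖ ≤ 1) : ‖α * b‖ < 1 := by
  rw [norm_mul]
  nlinarith [norm_nonneg α, norm_nonneg b]

private theorem ya_sq (ζ : ℂ) : ‖1 - ζ‖ ^ 2 = 1 - 2 * ζ.re + ‖ζ‖ ^ 2 := by
  rw [Complex.sq_norm, Complex.sq_norm, Complex.normSq_apply, Complex.normSq_apply]
  simp only [Complex.sub_re, Complex.sub_im, Complex.one_re, Complex.one_im]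
  ring

private theorem ya_one {ζ : ℂ} (h : 1 - ζ ≠ 0) :
    (1 - ‖ζ‖ ^ 2) / ‖1 - ζ‖ ^ 2 = 2 * (1 / (1 - ζ)).re - 1 := by
  have h0 : ‖1 - ζ‖ ^ 2 ≠ 0 := pow_ne_zero _ (norm_ne_zero_iff.2 h)
  have h1 : (1 / (1 - ζ)).re = (1 - ζ.re) / ‖1 - ζ‖ ^ 2 := by
    rw [one_div, Complex.inv_re, Complex.sq_norm, Complex.sub_re, Complex.one_re]
  rw [h1, eq_sub_iff_add_eq, ← mul_div_assoc, div_add_one h0, ya_sq]
  congr 1
  ring

/-- Put `r = ‖α‖ * ‖b‖ < 1`; the mean of `1 / |1 - ζ|²` over `|ζ| = r` is `1 / (1 - r²)`: on this circle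
`2 Re (1 / (1 - ζ)) = 1 + (1 - r²) / |1 - ζ|²`, and the mean of `1 / (1 - ζ)` is 1. -/
theorem avg_one (α b : ℂ) (hα : ‖α‖ < 1) (hb : ‖b‖ ≤ 1) :
    circleAverage (fun w : ℂ => AA (w * α) b) 0 1 =
      (1 - ‖α‖ ^ 2) / (1 - ‖α‖ ^ 2 * ‖b‖ ^ 2) := by
  have hc := ya_c hα hb
  have hr : ‖α * b‖ ^ 2 = ‖α‖ ^ 2 * ‖b‖ ^ 2 := by rw [norm_mul, mul_pow]
  have h1r : 1 - ‖α * b‖ ^ 2 ≠ 0 := by
    have : ‖α * b‖ ^ 2 < 1 := by nlinarith [norm_nonneg (α * b)]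
    linarith
  have hg : DifferentiableOn ℂ (fun w : ℂ => (((1 - ‖α‖ ^ 2) / (1 - ‖α * b‖ ^ 2) : ℝ) : ℂ) *
      (2 * (1 / (1 - (α * b) * w)) - 1)) (closedBall 0 1) := by
    intro w hw
    have hw1 : ‖w‖ ≤ 1 := mem_closedBall_zero_iff.1 hw
    have hd : DifferentiableAt ℂ (fun w : ℂ => (1 : ℂ) / (1 - (α * b) * w)) w := by
      refine DifferentiableAt.div (differentiableAt_const _) ?_ (ya_ne hc hw1)
      fun_prop
    exact (((hd.const_mul 2).sub_const 1).const_mul _).differentiableWithinAt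
  have e1 : circleAverage (fun w : ℂ => AA (w * α) b) 0 1 = circleAverage (fun w : ℂ =>
      ((((1 - ‖α‖ ^ 2) / (1 - ‖α * b‖ ^ 2) : ℝ) : ℂ) *
      (2 * (1 / (1 - (α * b) * w)) - 1)).re) 0 1 := by
    refine circleAverage_congr_sphere fun w hw => ?_
    have hw1 : ‖w‖ = 1 := by
      have := mem_sphere_zero_iff_norm.1 hw
      rwa [abs_one] at this
    have hn := ya_ne hc hw1.le
    have hs : ‖(α * b) * w‖ = ‖α * b‖ := by rw [norm_mul, hw1, mul_one]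
    have h3 := ya_one hn
    rw [hs] at h3
    have e : w * α * b = (α * b) * w := by ring
    change (1 - ‖w * α‖ ^ 2) / ‖1 - w * α * b‖ ^ 2 = _
    rw [e, norm_mul w α, hw1, one_mul, Complex.re_ofReal_mul, Complex.sub_re, Complex.one_re,
      show ((2 : ℂ) * (1 / (1 - α * b * w))).re = 2 * (1 / (1 - α * b * w)).re by
        rw [show (2 : ℂ) = ((2 : ℝ) : ℂ) by norm_num, Complex.re_ofReal_mul], ← h3]
    have h4 : ‖1 - α * b * w‖ ^ 2 ≠ 0 := pow_ne_zero _ (norm_ne_zero_iff.2 hn)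
    field_simp
  rw [e1, ya_re hg, Complex.re_ofReal_mul, mul_zero, sub_zero, hr]
  norm_num

-- MODULE yb
/-- the mean of `1 / |1 - ζ|⁴` over `|ζ| = r` is `(1 + r²) / (1 - r²)³`: on this circle, with
`P = |1 - ζ|²`, `2 Re (1 / (1 - ζ)²) = (1 - r²)² / P² - 2 r² / P + 1`. -/
theorem avg_two (α b : ℂ) (hα : ‖α‖ < 1) (hb : ‖b‖ ≤ 1) :
    circleAverage (fun w : ℂ => AA (w * α) b ^ 2) 0 1 =
      (1 - ‖α‖ ^ 2) ^ 2 * (1 + ‖α‖ ^ 2 * ‖b‖ ^ 2) / (1 - ‖α‖ ^ 2 * ‖b‖ ^ 2) ^ 3 := by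
  have hc := ya_c hα hb
  have hr : ‖α * b‖ ^ 2 = ‖α‖ ^ 2 * ‖b‖ ^ 2 := by rw [norm_mul, mul_pow]
  have h1r : 1 - ‖α * b‖ ^ 2 ≠ 0 := by
    have : ‖α * b‖ ^ 2 < 1 := by nlinarith [norm_nonneg (α * b)]
    linarith
  set A : ℝ := (1 - ‖α‖ ^ 2) ^ 2 / (1 - ‖α * b‖ ^ 2) ^ 2 with hA
  set B : ℝ := ‖α * b‖ ^ 2 / (1 - ‖α * b‖ ^ 2) with hB
  have hd : ∀ w : ℂ, ‖w‖ ≤ 1 → DifferentiableAt ℂ (fun w : ℂ => (1 : ℂ) / (1 - (α * b) * w)) w := by
    intro w hw1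
    refine DifferentiableAt.div (differentiableAt_const _) ?_ (ya_ne hc hw1)
    fun_prop
  have hg : DifferentiableOn ℂ (fun w : ℂ => (A : ℂ) *
      (2 * (1 / (1 - (α * b) * w)) ^ 2 + (2 * B : ℝ) * (2 * (1 / (1 - (α * b) * w)) - 1) - 1))
      (closedBall 0 1) := by
    intro w hw
    have hw1 : ‖w‖ ≤ 1 := mem_closedBall_zero_iff.1 hw
    have h := hd w hw1
    exact (((((h.pow 2).const_mul 2).add (((h.const_mul 2).sub_const 1).const_mul _)).sub_const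
      1).const_mul _).differentiableWithinAt
  have e1 : circleAverage (fun w : ℂ => AA (w * α) b ^ 2) 0 1 = circleAverage (fun w : ℂ =>
      ((A : ℂ) * (2 * (1 / (1 - (α * b) * w)) ^ 2 +
        (2 * B : ℝ) * (2 * (1 / (1 - (α * b) * w)) - 1) - 1)).re) 0 1 := by
    refine circleAverage_congr_sphere fun w hw => ?_
    have hw1 : ‖w‖ = 1 := by
      have := mem_sphere_zero_iff_norm.1 hw
      rwa [abs_one] at this
    have hn := ya_ne hc hw1.le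
    have hs : ‖(α * b) * w‖ = ‖α * b‖ := by rw [norm_mul, hw1, mul_one]
    have h4 : ‖1 - α * b * w‖ ^ 2 ≠ 0 := pow_ne_zero _ (norm_ne_zero_iff.2 hn)
    have e : w * α * b = (α * b) * w := by ring
    change ((1 - ‖w * α‖ ^ 2) / ‖1 - w * α * b‖ ^ 2) ^ 2 = _
    rw [e, norm_mul w α, hw1, one_mul]
    set ζ : ℂ := α * b * w with hζ
    have h1 : (1 / (1 - ζ)).re = (1 - ζ.re) / ‖1 - ζ‖ ^ 2 := by
      rw [one_div, Complex.inv_re, Complex.sq_norm, Complex.sub_re, Complex.one_re]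
    have h2 : ((1 / (1 - ζ)) ^ 2).re = ((1 - ζ.re) ^ 2 - ζ.im ^ 2) / (‖1 - ζ‖ ^ 2) ^ 2 := by
      have hi : (1 / (1 - ζ)).im = ζ.im / ‖1 - ζ‖ ^ 2 := by
        rw [one_div, Complex.inv_im, Complex.sq_norm, Complex.sub_im, Complex.one_im]
        ring
      rw [sq (1 / (1 - ζ)), Complex.mul_re, h1, hi]
      ring
    have hre : ((A : ℂ) * (2 * (1 / (1 - ζ)) ^ 2 + (2 * B : ℝ) * (2 * (1 / (1 - ζ)) - 1) - 1)).re =
        A * (2 * ((1 / (1 - ζ)) ^ 2).re + (2 * B) * (2 * (1 / (1 - ζ)).re - 1) - 1) := by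
      have t2 : ∀ z : ℂ, ((2 : ℂ) * z).re = 2 * z.re := fun z => by
        rw [show (2 : ℂ) = ((2 : ℝ) : ℂ) by norm_num, Complex.re_ofReal_mul]
      rw [Complex.re_ofReal_mul, Complex.sub_re, Complex.one_re, Complex.add_re, t2,
        Complex.re_ofReal_mul, Complex.sub_re, Complex.one_re, t2]
    have hP := ya_sq ζ
    rw [hs] at hP
    have hN : ‖α * b‖ ^ 2 = ζ.re ^ 2 + ζ.im ^ 2 := by
      rw [← hs, Complex.sq_norm, Complex.normSq_apply]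
      ring
    rw [hre, h1, h2]
    generalize ‖1 - ζ‖ ^ 2 = P at *
    generalize ‖α * b‖ ^ 2 = r at *
    generalize ‖α‖ ^ 2 = q at *
    rw [hA, hB]
    have hx : ζ.re = (1 + r - P) / 2 := by linarith
    have hy : ζ.im ^ 2 = r - ((1 + r - P) / 2) ^ 2 := by rw [← hx]; linarith
    rw [hy, hx]
    field_simp
    ring
  rw [e1, ya_re hg, Complex.re_ofReal_mul, mul_zero, sub_zero, hA, hB, ← hr]
  generalize ‖α * b‖ ^ 2 = r at *
  have yb_re : ∀ t : ℝ, ((2 : ℂ) * (1 / 1) ^ 2 + ((2 * t : ℝ) : ℂ) * (2 * (1 / 1) - 1) - 1).re =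
      1 + 2 * t := by
    intro t
    rw [show ((2 : ℂ) * (1 / 1) ^ 2 + ((2 * t : ℝ) : ℂ) * (2 * (1 / 1) - 1) - 1) =
      ((1 + 2 * t : ℝ) : ℂ) by push_cast; ring, Complex.ofReal_re]
  rw [yb_re]
  field_simp
  ring

-- MODULE yc
/-- With `u = 1 - w`, `v = 1 - x u`, `y = (1 - x) / v ∈ [0, 1]` one has `1 - y = x w / v` and the left
side minus `(1 - w/6)` is `-(x w / v) (1 + (2 y² u - w (1 + y)) / 6)`; so the claim is
`w y (1 - w/6 + (2 u y² - w y) / 6) ≤ (4/5) (1 - w/6)`. The left side is increasing in `y`, and for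
`y = 1` this is `(5 w - 6) (w - 1) ≥ 0`. -/
theorem point_ineq (x w : ℝ) (hx0 : 0 ≤ x) (hx1 : x < 1) (hw0 : 0 ≤ w) (hw1 : w ≤ 1) :
    (1 - w / 6) * (1 - 4 / 5 * (x / (1 - x))) ≤
      (1 - x) / (1 - x * (1 - w)) -
        w / 6 * ((1 - x) ^ 2 * (1 + x * (1 - w)) / (1 - x * (1 - w)) ^ 3) := by
  have h1x : 0 < 1 - x := by linarith
  have hv : 0 < 1 - x * (1 - w) := by nlinarith
  have hle : 1 - x ≤ 1 - x * (1 - w) := by nlinarith
  obtain ⟨y, hy⟩ : ∃ y, y = (1 - x) / (1 - x * (1 - w)) := ⟨_, rfl⟩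
  have hy0 : 0 ≤ y := by rw [hy]; positivity
  have hy1 : y ≤ 1 := by rw [hy]; exact (div_le_one hv).2 hle
  have key : w * y * (1 - w / 6 + (2 * (1 - w) * y ^ 2 - w * y) / 6) ≤ 4 / 5 * (1 - w / 6) := by
    have e1 : w * (1 - w / 6 + (2 * (1 - w) - w) / 6) ≤ 4 / 5 * (1 - w / 6) := by
      nlinarith [mul_nonneg (by linarith : (0 : ℝ) ≤ 6 - 5 * w) (by linarith : (0 : ℝ) ≤ 1 - w)]
    have e2 : 0 ≤ (1 - w / 6) + (2 * (1 - w) * (1 + y + y ^ 2) - w * (1 + y)) / 6 := by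
      have : 0 ≤ (1 - w) * (1 + y + y ^ 2) := by
        have := sq_nonneg y
        exact mul_nonneg (by linarith) (by linarith)
      nlinarith [mul_nonneg hw0 (by linarith : (0 : ℝ) ≤ 1 - y)]
    have e3 : 0 ≤ w * (1 - y) * ((1 - w / 6) + (2 * (1 - w) * (1 + y + y ^ 2) - w * (1 + y)) / 6) :=
      mul_nonneg (mul_nonneg hw0 (by linarith)) e2
    nlinarith [e1, e3]
  have hid : (1 - x) / (1 - x * (1 - w)) -
        w / 6 * ((1 - x) ^ 2 * (1 + x * (1 - w)) / (1 - x * (1 - w)) ^ 3) -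
      (1 - w / 6) * (1 - 4 / 5 * (x / (1 - x))) =
      x / (1 - x) * (4 / 5 * (1 - w / 6) - w * y * (1 - w / 6 + (2 * (1 - w) * y ^ 2 - w * y) / 6)) := by
    rw [hy]
    have h1 : 1 - x ≠ 0 := h1x.ne'
    have h2 : 1 - x * (1 - w) ≠ 0 := hv.ne'
    field_simp
    ring
  have : 0 ≤ x / (1 - x) * (4 / 5 * (1 - w / 6) -
      w * y * (1 - w / 6 + (2 * (1 - w) * y ^ 2 - w * y) / 6)) :=
    mul_nonneg (div_nonneg hx0 h1x.le) (by linarith)
  linarith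

-- MODULE yd
/-- the disc is invariant under rotations; Tonelli -/
theorem rot_avg (F : ℂ → ℝ) (hF0 : ∀ α ∈ ball (0 : ℂ) 1, 0 ≤ F α) (hF : ContinuousOn F (ball 0 1)) :
    ∫⁻ α in ball (0 : ℂ) 1, ENNReal.ofReal (F α) =
      ∫⁻ α in ball (0 : ℂ) 1, ENNReal.ofReal (circleAverage (fun w : ℂ => F (w * α)) 0 1) := by
  classical
  set G : ℂ → ℝ := (ball (0 : ℂ) 1).piecewise F 0 with hG
  have hGm : Measurable G := hF.measurable_piecewise continuousOn_const isOpen_ball.measurableSet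
  have hGe : ∀ α ∈ ball (0 : ℂ) 1, G α = F α := fun α hα => Set.piecewise_eq_of_mem _ _ _ hα
  have hGn : ∀ α ∉ ball (0 : ℂ) 1, G α = 0 := fun α hα => Set.piecewise_eq_of_notMem _ _ _ hα
  have hG0 : ∀ α, 0 ≤ G α := by
    intro α
    by_cases h : α ∈ ball (0 : ℂ) 1
    · rw [hGe α h]
      exact hF0 α h
    · rw [hGn α h]
  have hcm : ∀ θ : ℝ, ‖circleMap 0 1 θ‖ = 1 := fun θ => by
    rw [norm_circleMap_zero, abs_one]
  have hmem : ∀ (θ : ℝ) (α : ℂ), circleMap 0 1 θ * α ∈ ball (0 : ℂ) 1 ↔ α ∈ ball (0 : ℂ) 1 := by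
    intro θ α
    rw [mem_ball_zero_iff, mem_ball_zero_iff, norm_mul, hcm, one_mul]
  have hl : ∫⁻ α in ball (0 : ℂ) 1, ENNReal.ofReal (F α) = ∫⁻ α : ℂ, ENNReal.ofReal (G α) := by
    rw [← lintegral_indicator isOpen_ball.measurableSet]
    refine lintegral_congr fun α => ?_
    by_cases h : α ∈ ball (0 : ℂ) 1
    · rw [Set.indicator_of_mem h, hGe α h]
    · rw [Set.indicator_of_notMem h, hGn α h, ENNReal.ofReal_zero]
  have hrot : ∀ θ : ℝ, ∫⁻ α : ℂ, ENNReal.ofReal (G (circleMap 0 1 θ * α)) =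
      ∫⁻ α : ℂ, ENNReal.ofReal (G α) := by
    intro θ
    have h1 := (rotation (Circle.exp θ)).measurePreserving.lintegral_comp
      (f := fun α : ℂ => ENNReal.ofReal (G α)) (ENNReal.measurable_ofReal.comp hGm)
    rw [← h1]
    refine lintegral_congr fun α => ?_
    rw [rotation_apply, Circle.coe_exp]
    simp only [circleMap, Complex.ofReal_one, one_mul, zero_add]
  have hav : ∀ α ∈ ball (0 : ℂ) 1, ENNReal.ofReal (circleAverage (fun w : ℂ => F (w * α)) 0 1) =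
      ENNReal.ofReal (2 * Real.pi)⁻¹ *
        ∫⁻ θ in Set.Ioc 0 (2 * Real.pi), ENNReal.ofReal (G (circleMap 0 1 θ * α)) := by
    intro α hα
    have hc : Continuous fun θ : ℝ => F (circleMap 0 1 θ * α) := by
      have h1 : Continuous fun θ : ℝ => circleMap 0 1 θ * α := by
        have := continuous_circleMap 0 1
        fun_prop
      exact hF.comp_continuous h1 fun θ => (hmem θ α).2 hα
    rw [circleAverage_def, smul_eq_mul, ENNReal.ofReal_mul (by positivity),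
      intervalIntegral.integral_of_le (by positivity),
      ofReal_integral_eq_lintegral_ofReal]
    · congr 1
      refine lintegral_congr fun θ => ?_
      rw [hGe _ ((hmem θ α).2 hα)]
    · exact (hc.integrableOn_Ioc)
    · exact Filter.Eventually.of_forall fun θ => hF0 _ ((hmem θ α).2 hα)
  have hr : ∫⁻ α in ball (0 : ℂ) 1, ENNReal.ofReal (circleAverage (fun w : ℂ => F (w * α)) 0 1) =
      ∫⁻ α : ℂ, ENNReal.ofReal (2 * Real.pi)⁻¹ *
        ∫⁻ θ in Set.Ioc 0 (2 * Real.pi), ENNReal.ofReal (G (circleMap 0 1 θ * α)) := by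
    rw [← lintegral_indicator isOpen_ball.measurableSet]
    refine lintegral_congr fun α => ?_
    by_cases h : α ∈ ball (0 : ℂ) 1
    · rw [Set.indicator_of_mem h, hav α h]
    · rw [Set.indicator_of_notMem h]
      have h0 : ∀ θ : ℝ, ENNReal.ofReal (G (circleMap 0 1 θ * α)) = 0 := fun θ => by
        rw [hGn _ fun h' => h ((hmem θ α).1 h'), ENNReal.ofReal_zero]
      simp only [h0, lintegral_zero, mul_zero]
  have hm2 : Measurable fun p : ℂ × ℝ => ENNReal.ofReal (G (circleMap 0 1 p.2 * p.1)) := by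
    refine ENNReal.measurable_ofReal.comp (hGm.comp ?_)
    have := (continuous_circleMap 0 1).measurable
    fun_prop
  rw [hl, hr, lintegral_const_mul _ (Measurable.lintegral_prod_right' hm2),
    lintegral_lintegral_swap hm2.aemeasurable]
  simp only [hrot, lintegral_const, Measure.restrict_apply, MeasurableSet.univ, Set.univ_inter,
    Real.volume_Ioc, sub_zero]
  rw [mul_comm _ (ENNReal.ofReal (2 * Real.pi)), ← mul_assoc, ← ENNReal.ofReal_mul (by positivity),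
    inv_mul_cancel₀ (by positivity), ENNReal.ofReal_one, one_mul]

theorem AA_continuousOn (b : ℂ) (hb : ‖b‖ ≤ 1) : ContinuousOn (fun α => AA α b) (ball 0 1) := by
  unfold AA
  refine ContinuousOn.div (by fun_prop) (by fun_prop) fun α hα => ?_
  have h1 : ‖α * b‖ < 1 := ya_c (mem_ball_zero_iff.1 hα) hb
  have h2 := ya_ne h1 (norm_one (α := ℂ)).le
  rw [mul_one] at h2
  exact pow_ne_zero _ (norm_ne_zero_iff.2 h2)

/-- `AA * (1 - |b|²) = 1 - |b - conj α|² / |1 - α b|²` -/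
theorem AA_le (α b : ℂ) (hα : ‖α‖ < 1) (hb : ‖b‖ ≤ 1) :
    0 ≤ AA α b ∧ AA α b * (1 - ‖b‖ ^ 2) ≤ 1 := by
  have h0 : 0 ≤ 1 - ‖α‖ ^ 2 := by nlinarith [norm_nonneg α]
  have h2 := ya_ne (ya_c hα hb) (norm_one (α := ℂ)).le
  rw [mul_one] at h2
  have h3 : 0 < ‖1 - α * b‖ ^ 2 := pow_pos (norm_pos_iff.2 h2) 2
  refine ⟨div_nonneg h0 h3.le, ?_⟩
  unfold AA
  rw [div_mul_eq_mul_div, div_le_one h3]
  have h4 : ‖1 - α * b‖ ^ 2 - (1 - ‖α‖ ^ 2) * (1 - ‖b‖ ^ 2) = ‖b - conj α‖ ^ 2 := by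
    simp only [Complex.sq_norm, Complex.normSq_apply, Complex.sub_re, Complex.sub_im,
      Complex.mul_re, Complex.mul_im, Complex.one_re, Complex.one_im, Complex.conj_re,
      Complex.conj_im]
    ring
  have h5 := sq_nonneg ‖b - conj α‖
  linarith

-- MODULE ye
/-- `rot_avg`, `avg_one`, `(1 - x) / (1 - x u) ≥ 1 - x`, `disc` with `s + 1` -/
theorem one_triv (b : ℂ) (hb : ‖b‖ ≤ 1) (s : ℕ) :
    ENNReal.ofReal (Real.pi / (s + 2)) ≤
      ∫⁻ α in ball (0 : ℂ) 1, ENNReal.ofReal ((1 - ‖α‖ ^ 2) ^ s * AA α b) := by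
  have h0 : ∀ α ∈ ball (0 : ℂ) 1, 0 ≤ 1 - ‖α‖ ^ 2 := fun α hα => by
    have := mem_ball_zero_iff.1 hα
    nlinarith [norm_nonneg α]
  rw [rot_avg (fun α => (1 - ‖α‖ ^ 2) ^ s * AA α b)
    (fun α hα => mul_nonneg (pow_nonneg (h0 α hα) _) (AA_le α b (mem_ball_zero_iff.1 hα) hb).1)
    ((by fun_prop : ContinuousOn (fun α : ℂ => (1 - ‖α‖ ^ 2) ^ s) (ball 0 1)).mul
      (AA_continuousOn b hb))]
  have hd := disc 1 one_pos 0 (s + 1)
  have he : Real.pi * 1 ^ (s + 1 + 2) / (((s + 1 : ℕ) : ℝ) + 1) = Real.pi / (s + 2) := by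
    push_cast
    rw [one_pow, mul_one, add_assoc]
    norm_num
  rw [he] at hd
  rw [← hd]
  refine setLIntegral_mono' isOpen_ball.measurableSet fun α hα => ENNReal.ofReal_le_ofReal ?_
  have hα1 := mem_ball_zero_iff.1 hα
  have e1 : circleAverage (fun w : ℂ => (1 - ‖w * α‖ ^ 2) ^ s * AA (w * α) b) 0 1 =
      (1 - ‖α‖ ^ 2) ^ s * circleAverage (fun w : ℂ => AA (w * α) b) 0 1 := by
    rw [← smul_eq_mul, ← circleAverage_fun_smul]
    refine circleAverage_congr_sphere fun w hw => ?_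
    have hw1 : ‖w‖ = 1 := by
      have := mem_sphere_zero_iff_norm.1 hw
      rwa [abs_one] at this
    change (1 - ‖w * α‖ ^ 2) ^ s * AA (w * α) b = (1 - ‖α‖ ^ 2) ^ s * AA (w * α) b
    rw [norm_mul, hw1, one_mul]
  change _ ≤ circleAverage (fun w : ℂ => (1 - ‖w * α‖ ^ 2) ^ s * AA (w * α) b) 0 1
  rw [e1, avg_one α b hα1 hb, sub_zero, one_pow, div_one, one_mul, pow_succ]
  refine mul_le_mul_of_nonneg_left ?_ (pow_nonneg (h0 α hα) _)
  have h3 : 0 ≤ ‖α‖ ^ 2 * ‖b‖ ^ 2 := by positivity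
  have h4 : 0 < 1 - ‖α‖ ^ 2 * ‖b‖ ^ 2 := by
    have := ya_c hα1 hb
    have h5 : ‖α * b‖ ^ 2 < 1 := by nlinarith [norm_nonneg (α * b)]
    rw [norm_mul, mul_pow] at h5
    linarith
  rw [le_div_iff₀ h4]
  nlinarith [h0 α hα]

-- MODULE yf
private theorem yf_int (s : ℕ) : IntegrableOn (fun α : ℂ => (1 - ‖α‖ ^ 2) ^ s) (ball 0 1) := by
  refine (ContinuousOn.integrableOn_compact (isCompact_closedBall (0 : ℂ) 1) ?_).mono_set
    ball_subset_closedBall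
  fun_prop

private theorem yf_I (s : ℕ) : ∫ α in ball (0 : ℂ) 1, (1 - ‖α‖ ^ 2) ^ s = Real.pi / (s + 1) := by
  have hd := disc 1 one_pos 0 s
  simp only [sub_zero, one_pow, div_one, one_mul, mul_one] at hd
  rw [integral_eq_lintegral_of_nonneg_ae, hd, ENNReal.toReal_ofReal (by positivity)]
  · refine (ae_restrict_iff' isOpen_ball.measurableSet).2 (Filter.Eventually.of_forall ?_)
    intro α hα
    have := mem_ball_zero_iff.1 hα
    exact pow_nonneg (by nlinarith [norm_nonneg α]) _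
  · exact (yf_int s).aestronglyMeasurable

private theorem yf_fun (s : ℕ) (hs : 1 ≤ s) (η : ℝ) : ∀ α ∈ ball (0 : ℂ) 1, (1 - ‖α‖ ^ 2) ^ s *
      (1 - 4 / 5 * (‖α‖ ^ 2 / (1 - ‖α‖ ^ 2)) - η / 5) =
      (1 - η / 5 + 4 / 5) * (1 - ‖α‖ ^ 2) ^ s - 4 / 5 * (1 - ‖α‖ ^ 2) ^ (s - 1) := by
  intro α hα
  have h1 := mem_ball_zero_iff.1 hα
  have h2 : 1 - ‖α‖ ^ 2 ≠ 0 := by nlinarith [norm_nonneg α]
  obtain ⟨t, rfl⟩ : ∃ t, s = t + 1 := ⟨s - 1, by omega⟩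
  rw [Nat.add_sub_cancel]
  field_simp
  ring

private theorem yf_int2 (s : ℕ) (hs : 1 ≤ s) (η : ℝ) : IntegrableOn (fun α : ℂ => (1 - ‖α‖ ^ 2) ^ s *
      (1 - 4 / 5 * (‖α‖ ^ 2 / (1 - ‖α‖ ^ 2)) - η / 5)) (ball 0 1) := by
  refine IntegrableOn.congr_fun ?_ (fun α hα => (yf_fun s hs η α hα).symm) isOpen_ball.measurableSet
  exact ((yf_int s).const_mul _).sub ((yf_int (s - 1)).const_mul _)

/-- `∫ (1 - x)^s ((1 - η/5) - (4/5) x / (1 - x)) = π / (s+1) (1 - 4 / (5 s) - η/5)` over the disc, `x = |α|²` -/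
theorem rad_int (s : ℕ) (hs : 1 ≤ s) (η : ℝ) :
    ∫ α in ball (0 : ℂ) 1, (1 - ‖α‖ ^ 2) ^ s *
      (1 - 4 / 5 * (‖α‖ ^ 2 / (1 - ‖α‖ ^ 2)) - η / 5) =
      Real.pi / (s + 1) * (1 - 4 / (5 * s) - η / 5) := by
  rw [setIntegral_congr_fun isOpen_ball.measurableSet (yf_fun s hs η),
    integral_sub ((yf_int s).const_mul _) ((yf_int (s - 1)).const_mul _), integral_const_mul,
    integral_const_mul, yf_I, yf_I]
  obtain ⟨t, rfl⟩ : ∃ t, s = t + 1 := ⟨s - 1, by omega⟩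
  rw [Nat.add_sub_cancel]
  push_cast
  have h1 : (t : ℝ) + 1 ≠ 0 := by positivity
  have h2 : (t : ℝ) + 1 + 1 ≠ 0 := by positivity
  field_simp
  ring

-- MODULE yg
private theorem yg_le {f : ℂ → ℝ} {s : Set ℂ} (hf : IntegrableOn f s) :
    ENNReal.ofReal (∫ α in s, f α) ≤ ∫⁻ α in s, ENNReal.ofReal (f α) := by
  have hfin : ∫⁻ α in s, ENNReal.ofReal (f α) ≠ ⊤ := by
    refine ne_top_of_le_ne_top hf.2.ne (lintegral_mono fun α => ?_)
    rw [← ofReal_norm_eq_enorm]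
    exact ENNReal.ofReal_le_ofReal (Real.le_norm_self _)
  rw [integral_eq_lintegral_pos_part_sub_lintegral_neg_part hf]
  refine (ENNReal.ofReal_le_ofReal (sub_le_self _ ENNReal.toReal_nonneg)).trans ?_
  rw [ENNReal.ofReal_toReal hfin]

private theorem yg_ci {α b : ℂ} (hα : ‖α‖ < 1) (hb : ‖b‖ ≤ 1) :
    ContinuousOn (fun w : ℂ => AA (w * α) b) (sphere 0 |1|) := by
  refine (AA_continuousOn b hb).comp (by fun_prop) fun w hw => ?_
  have hw1 : ‖w‖ = 1 := by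
    have := mem_sphere_zero_iff_norm.1 hw
    rwa [abs_one] at this
  rw [mem_ball_zero_iff, norm_mul, hw1, one_mul]
  exact hα

private theorem yg_avg (α b : ℂ) (hα : ‖α‖ < 1) (hb : ‖b‖ ≤ 1) (s : ℕ) (η : ℝ) :
    circleAverage (fun w : ℂ => (1 - ‖w * α‖ ^ 2) ^ s *
      (AA (w * α) b * (1 - (η + (1 - η) * (AA (w * α) b * (1 - ‖b‖ ^ 2))) / 6))) 0 1 =
    (1 - ‖α‖ ^ 2) ^ s * ((1 - η / 6) * ((1 - ‖α‖ ^ 2) / (1 - ‖α‖ ^ 2 * ‖b‖ ^ 2)) -
      (1 - η) * (1 - ‖b‖ ^ 2) / 6 * ((1 - ‖α‖ ^ 2) ^ 2 * (1 + ‖α‖ ^ 2 * ‖b‖ ^ 2) /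
        (1 - ‖α‖ ^ 2 * ‖b‖ ^ 2) ^ 3)) := by
  have hi1 : CircleIntegrable (fun w : ℂ => AA (w * α) b) 0 1 := by
    have := yg_ci hα hb
    rw [abs_one] at this
    exact this.circleIntegrable zero_le_one
  have hi2 : CircleIntegrable (fun w : ℂ => AA (w * α) b ^ 2) 0 1 := by
    have := (yg_ci hα hb).pow 2
    rw [abs_one] at this
    exact this.circleIntegrable zero_le_one
  rw [← avg_one α b hα hb, ← avg_two α b hα hb]
  have e1 : circleAverage (fun w : ℂ => (1 - ‖w * α‖ ^ 2) ^ s *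
      (AA (w * α) b * (1 - (η + (1 - η) * (AA (w * α) b * (1 - ‖b‖ ^ 2))) / 6))) 0 1 =
      circleAverage (fun w : ℂ => (1 - ‖α‖ ^ 2) ^ s • ((1 - η / 6) • AA (w * α) b -
        ((1 - η) * (1 - ‖b‖ ^ 2) / 6) • (AA (w * α) b ^ 2))) 0 1 := by
    refine circleAverage_congr_sphere fun w hw => ?_
    have hw1 : ‖w‖ = 1 := by
      have := mem_sphere_zero_iff_norm.1 hw
      rwa [abs_one] at this
    simp only [smul_eq_mul]
    rw [norm_mul, hw1, one_mul]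
    ring
  have e2 := circleAverage_fun_sub (f₁ := fun w : ℂ => (1 - η / 6) • AA (w * α) b)
    (f₂ := fun w : ℂ => ((1 - η) * (1 - ‖b‖ ^ 2) / 6) • (AA (w * α) b ^ 2))
    (hi1.const_smul) (hi2.const_smul)
  rw [e1, circleAverage_fun_smul, e2, circleAverage_fun_smul, circleAverage_fun_smul]
  simp only [smul_eq_mul]

/-- `rot_avg`; the circle average is at least
`(1 - x)^s ((1 - w/6) (1 - (4/5) x / (1 - x)) - η/6)`, `w = 1 - |b|²`, by `avg_one`, `avg_two`,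
`point_ineq` (`avg_one ≤ 1`, `1 - η ≤ 1`), and `η/6 ≤ (1 - w/6) η/5`; `rad_int`. -/
theorem one_good (b : ℂ) (hb : ‖b‖ ≤ 1) (s : ℕ) (hs : 1 ≤ s) (η : ℝ) (h0 : 0 ≤ η) (h1 : η ≤ 1) :
    ENNReal.ofReal (Real.pi / (s + 1) * (1 - 4 / (5 * s) - η / 5) * (1 - (1 - ‖b‖ ^ 2) / 6)) ≤
      ∫⁻ α in ball (0 : ℂ) 1, ENNReal.ofReal ((1 - ‖α‖ ^ 2) ^ s *
        (AA α b * (1 - (η + (1 - η) * (AA α b * (1 - ‖b‖ ^ 2))) / 6))) := by
  have hb2 : ‖b‖ ^ 2 ≤ 1 := by nlinarith [norm_nonneg b]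
  have hb0 : 0 ≤ ‖b‖ ^ 2 := sq_nonneg _
  have hpos : ∀ α ∈ ball (0 : ℂ) 1, 0 ≤ 1 - ‖α‖ ^ 2 := fun α hα => by
    have := mem_ball_zero_iff.1 hα
    nlinarith [norm_nonneg α]
  have hcont : ContinuousOn (fun α : ℂ => (1 - ‖α‖ ^ 2) ^ s *
      (AA α b * (1 - (η + (1 - η) * (AA α b * (1 - ‖b‖ ^ 2))) / 6))) (ball 0 1) := by
    have hA := AA_continuousOn b hb
    fun_prop
  have hnn : ∀ α ∈ ball (0 : ℂ) 1, 0 ≤ (1 - ‖α‖ ^ 2) ^ s *
      (AA α b * (1 - (η + (1 - η) * (AA α b * (1 - ‖b‖ ^ 2))) / 6)) := by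
    intro α hα
    obtain ⟨h3, h4⟩ := AA_le α b (mem_ball_zero_iff.1 hα) hb
    refine mul_nonneg (pow_nonneg (hpos α hα) _) (mul_nonneg h3 ?_)
    have h5 : (1 - η) * (AA α b * (1 - ‖b‖ ^ 2)) ≤ (1 - η) * 1 :=
      mul_le_mul_of_nonneg_left h4 (by linarith)
    linarith
  rw [rot_avg _ hnn hcont]
  have hi := ((yf_int2 s hs η).mul_const (1 - (1 - ‖b‖ ^ 2) / 6))
  have hI : ∫ α in ball (0 : ℂ) 1, (1 - ‖α‖ ^ 2) ^ s *
      (1 - 4 / 5 * (‖α‖ ^ 2 / (1 - ‖α‖ ^ 2)) - η / 5) * (1 - (1 - ‖b‖ ^ 2) / 6) =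
      Real.pi / (s + 1) * (1 - 4 / (5 * s) - η / 5) * (1 - (1 - ‖b‖ ^ 2) / 6) := by
    rw [integral_mul_const, rad_int s hs η]
  rw [← hI]
  refine (yg_le hi).trans ?_
  refine setLIntegral_mono' isOpen_ball.measurableSet fun α hα => ENNReal.ofReal_le_ofReal ?_
  have hα1 := mem_ball_zero_iff.1 hα
  change _ ≤ circleAverage (fun w : ℂ => (1 - ‖w * α‖ ^ 2) ^ s *
      (AA (w * α) b * (1 - (η + (1 - η) * (AA (w * α) b * (1 - ‖b‖ ^ 2))) / 6))) 0 1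
  rw [yg_avg α b hα1 hb s η]
  have hx0 : 0 ≤ ‖α‖ ^ 2 := sq_nonneg _
  have hx1 : ‖α‖ ^ 2 < 1 := by nlinarith [norm_nonneg α]
  have hpt := point_ineq (‖α‖ ^ 2) (1 - ‖b‖ ^ 2) hx0 hx1 (by linarith) (by linarith)
  rw [sub_sub_cancel] at hpt
  have hps : 0 ≤ (1 - ‖α‖ ^ 2) ^ s := pow_nonneg (hpos α hα) _
  rw [mul_assoc]
  refine mul_le_mul_of_nonneg_left ?_ hps
  generalize ‖α‖ ^ 2 = x at *
  generalize ‖b‖ ^ 2 = u at *
  have hv : 0 < 1 - x * u := by nlinarith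
  have ha1 : (1 - x) / (1 - x * u) ≤ 1 := (div_le_one hv).2 (by nlinarith)
  have ha2 : 0 ≤ (1 - x) ^ 2 * (1 + x * u) / (1 - x * u) ^ 3 := by positivity
  generalize (1 - x) / (1 - x * u) = a1 at *
  generalize (1 - x) ^ 2 * (1 + x * u) / (1 - x * u) ^ 3 = a2 at *
  have e1 : 0 ≤ η * (1 - u) / 6 * a2 :=
    mul_nonneg (div_nonneg (mul_nonneg h0 (by linarith)) (by norm_num)) ha2
  have e2 : η / 6 * a1 ≤ η / 6 := by nlinarith
  have e3 : 0 ≤ η * (1 - (1 - u)) := mul_nonneg h0 (by linarith)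
  nlinarith

end Pool.Agent.Hul
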