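import Pool.Agent.Hul.Bd
import Pool.Agent.Hul.On

/-!
# MP_67b84b_gt: the mean over the moment body of the density inside the disc
-/

set_option autoImplicit false

namespace Pool.Agent.Hul

open ComplexConjugate MeasureTheory Metric Real

/-- weighted integral of the density at `z` -/
noncomputable def I0 (z : ℂ) (m s : ℕ) : ENNReal :=
  ∫⁻ x in {x : Fin (2 * m) → ℝ | cx x ∈ SS m},
    ENNReal.ofReal (ra (cx x) m ^ s * dd (vr (cx x) m) z m)

/-- the same with the factor `1 - w / 6` -/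
noncomputable def I1 (z : ℂ) (m s : ℕ) : ENNReal :=
  ∫⁻ x in {x : Fin (2 * m) → ℝ | cx x ∈ SS m},
    ENNReal.ofReal (ra (cx x) m ^ s * dd (vr (cx x) m) z m * (1 - ww (vr (cx x) m) z m / 6))

-- MODULE yh
private theorem yh_ph (a : ℕ → ℂ) (z : ℂ) (m : ℕ) (α : ℂ) :
    ph (Function.update a m α) z m = ph a z m :=
  ph_congr _ _ z m fun _ hj => Function.update_of_ne hj.ne _ _

private theorem yh_bb (a : ℕ → ℂ) (z : ℂ) (m : ℕ) (α : ℂ) :
    bb (Function.update a m α) z m = bb a z m := by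
  unfold bb
  rw [yh_ph]

private theorem yh_dd (a : ℕ → ℂ) (z : ℂ) (m : ℕ) (α : ℂ) :
    dd (Function.update a m α) z m = dd a z m := by
  unfold dd
  rw [yh_ph, rr_congr (Function.update a m α) a m fun j hj => Function.update_of_ne hj.ne _ _]

private theorem yh_ww (a : ℕ → ℂ) (z : ℂ) (m : ℕ) (α : ℂ) :
    ww (Function.update a m α) z m = ww a z m := by
  unfold ww
  rw [yh_bb]

private theorem yh_lt (a : ℕ → ℂ) (ha : ∀ j, ‖a j‖ < 1) (m : ℕ) (α : ℂ) (hα : ‖α‖ < 1) (j : ℕ) :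
    ‖Function.update a m α j‖ < 1 := by
  by_cases h : j = m
  · subst h
    rw [Function.update_self]
    exact hα
  · rw [Function.update_of_ne h]
    exact ha j

private theorem yh_dd_up (z : ℂ) (hz : ‖z‖ ≤ 1) (c : ℕ → ℂ) (m : ℕ) (h : c ∈ SS m) (α : ℂ)
    (hα : ‖α‖ < 1) :
    dd (vr (up c m α) (m + 1)) z (m + 1) = dd (vr c m) z m * AA α (bb (vr c m) z m) := by
  rw [vr_up c m h α, dd_succ _ (yh_lt _ (vr_lt c m h) m α hα) z hz m, yh_dd, yh_bb,
    Function.update_self]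

private theorem yh_ww_up (z : ℂ) (hz : ‖z‖ ≤ 1) (c : ℕ → ℂ) (m : ℕ) (h : c ∈ SS m) (α : ℂ)
    (hα : ‖α‖ < 1) :
    ww (vr (up c m α) (m + 1)) z (m + 1) =
      (1 - ‖z‖ ^ 2) + ‖z‖ ^ 2 * (AA α (bb (vr c m) z m) * ww (vr c m) z m) := by
  rw [vr_up c m h α, ww_succ _ (yh_lt _ (vr_lt c m h) m α hα) z hz m, yh_ww, yh_bb,
    Function.update_self]

private theorem yh_dd_nonneg (a : ℕ → ℂ) (ha : ∀ j, ‖a j‖ < 1) (z : ℂ) (m : ℕ) :
    0 ≤ dd a z m := by
  unfold dd rr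
  refine div_nonneg (Finset.prod_nonneg fun j _ => ?_) (sq_nonneg _)
  nlinarith [ha j, norm_nonneg (a j)]

private theorem yh_dd_meas (z : ℂ) (m : ℕ) : Measurable fun c : ℕ → ℂ => dd (vr c m) z m := by
  have h : Measurable fun c : ℕ → ℂ => ((vr c m, z) : (ℕ → ℂ) × ℂ) :=
    (vr_measurable m).prodMk measurable_const
  have h2 := Measurable.comp (dd_measurable m) h
  simp only [Function.comp_def] at h2
  exact h2

private theorem yh_set (m : ℕ) : MeasurableSet {x : Fin (2 * m) → ℝ | cx x ∈ SS m} :=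
  cx_measurable _ (SS_measurable m)

private theorem yi_ph_meas (m : ℕ) : Measurable fun p : (ℕ → ℂ) × ℂ => ph p.1 p.2 m := by
  induction m with
  | zero => exact measurable_const
  | succ m ih =>
    have h1 : Measurable fun p : (ℕ → ℂ) × ℂ => p.1 m := (measurable_pi_apply m).comp measurable_fst
    have h2 : Measurable fun p : (ℕ → ℂ) × ℂ => conj (p.1 m) := Complex.continuous_conj.measurable.comp h1
    have h3 : Measurable fun p : (ℕ → ℂ) × ℂ => p.2 := measurable_snd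
    have h4 : Measurable fun p : (ℕ → ℂ) × ℂ => (ph p.1 p.2 m).1 := measurable_fst.comp ih
    have h5 : Measurable fun p : (ℕ → ℂ) × ℂ => (ph p.1 p.2 m).2 := measurable_snd.comp ih
    show Measurable fun p : (ℕ → ℂ) × ℂ => (p.2 * (ph p.1 p.2 m).1 - conj (p.1 m) * (ph p.1 p.2 m).2,
      (ph p.1 p.2 m).2 - p.1 m * (p.2 * (ph p.1 p.2 m).1))
    exact ((h3.mul h4).sub (h2.mul h5)).prodMk (h5.sub (h1.mul (h3.mul h4)))

private theorem yi_ww_meas (z : ℂ) (m : ℕ) : Measurable fun c : ℕ → ℂ => ww (vr c m) z m := by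
  have h : Measurable fun c : ℕ → ℂ => ((vr c m, z) : (ℕ → ℂ) × ℂ) :=
    (vr_measurable m).prodMk measurable_const
  have h2 := Measurable.comp (yi_ph_meas m) h
  simp only [Function.comp_def] at h2
  have h4 : Measurable fun c : ℕ → ℂ => (ph (vr c m) z m).1 := measurable_fst.comp h2
  have h5 : Measurable fun c : ℕ → ℂ => (ph (vr c m) z m).2 := measurable_snd.comp h2
  unfold ww bb
  exact measurable_const.sub (((measurable_const.mul h4).div h5).norm.pow_const 2)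

/-- general step -/
private theorem yh_step (m : ℕ) (G : (ℕ → ℂ) → ENNReal) (hG : Measurable G) (K : ENNReal)
    (H : (ℕ → ℂ) → ENNReal) (hH : Measurable H)
    (h : ∀ c ∈ SS m, K * H c ≤ ENNReal.ofReal (ra c m ^ 2) *
      ∫⁻ α in ball (0 : ℂ) 1, G (up c m α)) :
    K * ∫⁻ x in {x : Fin (2 * m) → ℝ | cx x ∈ SS m}, H (cx x) ≤
      ∫⁻ x in {x : Fin (2 * (m + 1)) → ℝ | cx x ∈ SS (m + 1)}, G (cx x) := by
  have hH' : Measurable fun x : Fin (2 * m) → ℝ => H (cx x) := hH.comp (cx_measurable _)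
  rw [fub m G hG, ← lintegral_const_mul K hH']
  refine setLIntegral_mono_ae' (yh_set m) ?_
  refine Filter.Eventually.of_forall fun x hx => ?_
  exact h _ hx

/-- `fub`, `vr_up`, `ra_up`, `dd_succ` for `Function.update (vr c m) m α`, `ph_congr`, `one_triv` -/
theorem I0_step (z : ℂ) (hz : ‖z‖ ≤ 1) (m s : ℕ) :
    ENNReal.ofReal (Real.pi / (s + 2)) * I0 z m (s + 2) ≤ I0 z (m + 1) s := by
  unfold I0
  refine yh_step m (fun c => ENNReal.ofReal (ra c (m + 1) ^ s * dd (vr c (m + 1)) z (m + 1)))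
    ((((ra_measurable (m + 1)).pow_const s).mul (yh_dd_meas z (m + 1))).ennreal_ofReal) _
    (fun c => ENNReal.ofReal (ra c m ^ (s + 2) * dd (vr c m) z m))
    ((((ra_measurable m).pow_const (s + 2)).mul (yh_dd_meas z m)).ennreal_ofReal) ?_
  intro c hc
  have hr := ra_pos c m hc
  have hv := vr_lt c m hc
  have hd := yh_dd_nonneg _ hv z m
  have hb := (bb_le _ hv z hz m).trans hz
  have e : ∀ α ∈ ball (0 : ℂ) 1, ENNReal.ofReal (ra (up c m α) (m + 1) ^ s *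
      dd (vr (up c m α) (m + 1)) z (m + 1)) = ENNReal.ofReal (ra c m ^ s * dd (vr c m) z m) *
        ENNReal.ofReal ((1 - ‖α‖ ^ 2) ^ s * AA α (bb (vr c m) z m)) := by
    intro α hα
    rw [mem_ball, dist_zero_right] at hα
    rw [yh_dd_up z hz c m hc α hα, ra_up c m hc α, ← ENNReal.ofReal_mul (by positivity)]
    congr 1
    rw [mul_pow]
    ring
  rw [setLIntegral_congr_fun measurableSet_ball e, lintegral_const_mul' _ _ ENNReal.ofReal_ne_top,
    ← mul_assoc, ← ENNReal.ofReal_mul (sq_nonneg _)]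
  have e2 : ra c m ^ 2 * (ra c m ^ s * dd (vr c m) z m) = ra c m ^ (s + 2) * dd (vr c m) z m := by
    ring
  rw [e2, mul_comm]
  exact mul_le_mul' le_rfl (one_triv _ hb s)

-- MODULE yi
/-- the same with `ww_succ` and `one_good`, `η = 1 - ‖z‖²` -/
theorem I1_step (z : ℂ) (hz : ‖z‖ ≤ 1) (m s : ℕ) (hs : 1 ≤ s) :
    ENNReal.ofReal (Real.pi / (s + 1) * (1 - 4 / (5 * s) - (1 - ‖z‖ ^ 2) / 5)) * I1 z m (s + 2) ≤
      I1 z (m + 1) s := by
  have hw : ∀ m : ℕ, Measurable fun c : ℕ → ℂ => ww (vr c m) z m := yi_ww_meas z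
  unfold I1
  refine yh_step m (fun c => ENNReal.ofReal (ra c (m + 1) ^ s * dd (vr c (m + 1)) z (m + 1) *
      (1 - ww (vr c (m + 1)) z (m + 1) / 6)))
    ((((ra_measurable (m + 1)).pow_const s).mul (yh_dd_meas z (m + 1))).mul
      (measurable_const.sub ((hw (m + 1)).div_const 6))).ennreal_ofReal _
    (fun c => ENNReal.ofReal (ra c m ^ (s + 2) * dd (vr c m) z m * (1 - ww (vr c m) z m / 6)))
    ((((ra_measurable m).pow_const (s + 2)).mul (yh_dd_meas z m)).mul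
      (measurable_const.sub ((hw m).div_const 6))).ennreal_ofReal ?_
  intro c hc
  have hr := ra_pos c m hc
  have hv := vr_lt c m hc
  have hd := yh_dd_nonneg _ hv z m
  have hb := (bb_le _ hv z hz m).trans hz
  have hz2 : ‖z‖ ^ 2 ≤ 1 := pow_le_one₀ (norm_nonneg _) hz
  have e : ∀ α ∈ ball (0 : ℂ) 1, ENNReal.ofReal (ra (up c m α) (m + 1) ^ s *
      dd (vr (up c m α) (m + 1)) z (m + 1) * (1 - ww (vr (up c m α) (m + 1)) z (m + 1) / 6)) =
      ENNReal.ofReal (ra c m ^ s * dd (vr c m) z m) *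
        ENNReal.ofReal ((1 - ‖α‖ ^ 2) ^ s * (AA α (bb (vr c m) z m) *
          (1 - ((1 - ‖z‖ ^ 2) + (1 - (1 - ‖z‖ ^ 2)) * (AA α (bb (vr c m) z m) *
            (1 - ‖bb (vr c m) z m‖ ^ 2))) / 6))) := by
    intro α hα
    rw [mem_ball, dist_zero_right] at hα
    rw [yh_dd_up z hz c m hc α hα, yh_ww_up z hz c m hc α hα, ra_up c m hc α,
      ← ENNReal.ofReal_mul (by positivity)]
    congr 1
    unfold ww
    rw [mul_pow]
    ring
  rw [setLIntegral_congr_fun measurableSet_ball e, lintegral_const_mul' _ _ ENNReal.ofReal_ne_top,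
    ← mul_assoc, ← ENNReal.ofReal_mul (sq_nonneg _)]
  have e2 : ra c m ^ 2 * (ra c m ^ s * dd (vr c m) z m) = ra c m ^ (s + 2) * dd (vr c m) z m := by
    ring
  have hW : (0 : ℝ) ≤ 1 - ww (vr c m) z m / 6 := by
    unfold ww
    nlinarith [sq_nonneg ‖bb (vr c m) z m‖]
  have e3 := one_good _ hb s hs (1 - ‖z‖ ^ 2) (by linarith) (by nlinarith [sq_nonneg ‖z‖])
  have e4 : ENNReal.ofReal (Real.pi / (s + 1) * (1 - 4 / (5 * s) - (1 - ‖z‖ ^ 2) / 5)) *
      ENNReal.ofReal (ra c m ^ (s + 2) * dd (vr c m) z m * (1 - ww (vr c m) z m / 6)) =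
      ENNReal.ofReal (ra c m ^ (s + 2) * dd (vr c m) z m) *
      ENNReal.ofReal (Real.pi / (s + 1) * (1 - 4 / (5 * s) - (1 - ‖z‖ ^ 2) / 5) *
        (1 - (1 - ‖bb (vr c m) z m‖ ^ 2) / 6)) := by
    have e5 : (1 - (1 - ‖bb (vr c m) z m‖ ^ 2) / 6) = 1 - ww (vr c m) z m / 6 := rfl
    rw [e5, ENNReal.ofReal_mul' hW, ENNReal.ofReal_mul' hW]
    ring
  rw [e2]
  refine (le_of_eq e4).trans (mul_le_mul' le_rfl e3)

-- MODULE yj
private theorem yj_meas (m : ℕ) : MeasurableSet {x : Fin (2 * m) → ℝ | cx x ∈ SS m} :=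
  (cx_measurable (2 * m)) (SS_measurable m)

private theorem yj_ww (c : ℕ → ℂ) (m : ℕ) (h : c ∈ SS m) (z : ℂ) (hz : ‖z‖ ≤ 1) :
    0 ≤ ww (vr c m) z m ∧ ww (vr c m) z m ≤ 1 := by
  have h1 := bb_le (vr c m) (vr_lt c m h) z hz m
  have h2 := norm_nonneg (bb (vr c m) z m)
  have h3 := norm_nonneg z
  unfold ww
  constructor
  · nlinarith
  · nlinarith [sq_nonneg ‖bb (vr c m) z m‖]

private theorem yj_dd (c : ℕ → ℂ) (m : ℕ) (h : c ∈ SS m) (z : ℂ) (s : ℕ) :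
    0 ≤ ra c m ^ s * dd (vr c m) z m := by
  have h1 := ra_pos c m h
  have h2 : 0 ≤ dd (vr c m) z m := div_nonneg h1.le (by positivity)
  positivity

theorem I0_zero (z : ℂ) (s : ℕ) : I0 z 0 s = 1 := by
  have hv : (volume : Measure (Fin (2 * 0) → ℝ)) Set.univ = 1 := by
    rw [volume_pi, Measure.pi_univ]
    exact Finset.prod_empty
  have hS : {x : Fin (2 * 0) → ℝ | cx x ∈ SS 0} = Set.univ := by
    apply Set.eq_univ_of_forall
    intro x k hk
    exact absurd hk (Nat.not_lt_zero k)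
  have hi : ∀ x : Fin (2 * 0) → ℝ,
      ENNReal.ofReal (ra (cx x) 0 ^ s * dd (vr (cx x) 0) z 0) = 1 := by
    intro x
    simp [ra, dd, rr, ph]
  rw [I0, hS, Measure.restrict_univ]
  simp_rw [hi]
  rw [lintegral_one, hv]

theorem I1_le (z : ℂ) (hz : ‖z‖ ≤ 1) (m s : ℕ) : I1 z m s ≤ I0 z m s := by
  refine setLIntegral_mono' (yj_meas m) fun x hx => ENNReal.ofReal_le_ofReal ?_
  have h1 := yj_ww (cx x) m hx z hz
  have h2 := yj_dd (cx x) m hx z s
  have h3 : 1 - ww (vr (cx x) m) z m / 6 ≤ 1 := by linarith [h1.1]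
  calc ra (cx x) m ^ s * dd (vr (cx x) m) z m * (1 - ww (vr (cx x) m) z m / 6)
      ≤ ra (cx x) m ^ s * dd (vr (cx x) m) z m * 1 := mul_le_mul_of_nonneg_left h3 h2
    _ = _ := mul_one _

theorem le_I1 (z : ℂ) (hz : ‖z‖ ≤ 1) (m s : ℕ) : ENNReal.ofReal (5 / 6) * I0 z m s ≤ I1 z m s := by
  rw [I0, ← lintegral_const_mul' _ _ ENNReal.ofReal_ne_top]
  refine setLIntegral_mono' (yj_meas m) fun x hx => ?_
  have h1 := yj_ww (cx x) m hx z hz
  have h2 := yj_dd (cx x) m hx z s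
  have h3 : 5 / 6 ≤ 1 - ww (vr (cx x) m) z m / 6 := by linarith [h1.2]
  rw [← ENNReal.ofReal_mul (by norm_num)]
  refine ENNReal.ofReal_le_ofReal ?_
  rw [mul_comm (5 / 6 : ℝ)]
  exact mul_le_mul_of_nonneg_left h3 h2

-- MODULE yk
/-- `t` steps -/
theorem I0_steps (z : ℂ) (hz : ‖z‖ ≤ 1) (m s : ℕ) : ∀ t : ℕ,
    ENNReal.ofReal (∏ i ∈ Finset.range t, Real.pi / (s + 2 * i + 2)) * I0 z m (s + 2 * t) ≤
      I0 z (m + t) s := by
  intro t
  induction t generalizing m with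
  | zero => simp
  | succ t ih =>
    have h1 := I0_step z hz m (s + 2 * t)
    have h2 := ih (m + 1)
    have h0 : (0 : ℝ) ≤ ∏ i ∈ Finset.range t, Real.pi / (s + 2 * i + 2) :=
      Finset.prod_nonneg fun i _ => by positivity
    rw [Finset.prod_range_succ, ENNReal.ofReal_mul h0, mul_assoc]
    have e1 : s + 2 * (t + 1) = s + 2 * t + 2 := by ring
    have e2 : m + (t + 1) = m + 1 + t := by ring
    rw [e1, e2]
    refine le_trans (mul_le_mul_right ?_ _) h2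
    push_cast at h1
    exact h1

theorem I1_steps (z : ℂ) (hz : ‖z‖ ≤ 1) (m s : ℕ) (hs : 2 ≤ s) : ∀ t : ℕ,
    ENNReal.ofReal (∏ i ∈ Finset.range t, (Real.pi / (s + 2 * i + 1) *
      (1 - 4 / (5 * (s + 2 * i)) - (1 - ‖z‖ ^ 2) / 5))) * I1 z m (s + 2 * t) ≤ I1 z (m + t) s := by
  intro t
  induction t generalizing m with
  | zero => simp
  | succ t ih =>
    have h1 := I1_step z hz m (s + 2 * t) (by omega)
    have h2 := ih (m + 1)
    have hz2 : 0 ≤ ‖z‖ ^ 2 := by positivity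
    have hs' : (2 : ℝ) ≤ s := by exact_mod_cast hs
    have h0 : (0 : ℝ) ≤ ∏ i ∈ Finset.range t, (Real.pi / (s + 2 * i + 1) *
        (1 - 4 / (5 * (s + 2 * i)) - (1 - ‖z‖ ^ 2) / 5)) := by
      refine Finset.prod_nonneg fun i _ => mul_nonneg (by positivity) ?_
      have h3 : (4 : ℝ) / (5 * (s + 2 * i)) ≤ 2 / 5 := by
        rw [div_le_div_iff₀ (by positivity) (by norm_num)]
        have : (0 : ℝ) ≤ i := by positivity
        nlinarith
      linarith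
    rw [Finset.prod_range_succ, ENNReal.ofReal_mul h0, mul_assoc]
    have e1 : s + 2 * (t + 1) = s + 2 * t + 2 := by ring
    have e2 : m + (t + 1) = m + 1 + t := by ring
    rw [e1, e2]
    refine le_trans (mul_le_mul_right ?_ _) h2
    push_cast at h1
    exact h1

-- MODULE yl
/-- `((2i+1)/(2i+2))² ≥ i/(i+1)` -/
theorem prod_tail (M N : ℕ) (hM : 1 ≤ M) (hN : M ≤ N) :
    √((M : ℝ) / N) ≤ ∏ i ∈ Finset.Ico M N, ((2 * i + 1 : ℝ) / (2 * i + 2)) := by
  induction N, hN using Nat.le_induction with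
  | base =>
    have : (M : ℝ) ≠ 0 := by
      have : (0 : ℝ) < M := by exact_mod_cast hM
      exact this.ne'
    rw [div_self this]
    simp
  | succ N hN ih =>
    rw [Finset.prod_Ico_succ_top hN]
    have hN1 : (0 : ℝ) < N := by exact_mod_cast (by omega : 0 < N)
    have h1 : √((M : ℝ) / ((N + 1 : ℕ) : ℝ)) = √((M : ℝ) / N) * √((N : ℝ) / (N + 1)) := by
      rw [← Real.sqrt_mul (by positivity)]
      congr 1
      push_cast
      field_simp
    have h2 : √((N : ℝ) / (N + 1)) ≤ (2 * N + 1 : ℝ) / (2 * N + 2) := by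
      rw [Real.sqrt_le_left (by positivity), div_pow, div_le_div_iff₀ (by positivity) (by positivity)]
      nlinarith [sq_nonneg (N : ℝ)]
    rw [h1]
    exact mul_le_mul ih h2 (Real.sqrt_nonneg _) (le_trans (Real.sqrt_nonneg _) ih)

private theorem yl_aux (N : ℕ) (hN : 1 ≤ N) :
    (3 : ℝ) / 5 * (N : ℝ) ^ (-(2 / 5) : ℝ) ≤ ∏ i ∈ Finset.Ico 1 (N + 1), (1 - 2 / (5 * i) : ℝ) := by
  induction N, hN using Nat.le_induction with
  | base =>
    simp
    norm_num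
  | succ N hN ih =>
    rw [Finset.prod_Ico_succ_top (by omega)]
    have hN0 : (0 : ℝ) < N := by exact_mod_cast (by omega : 0 < N)
    have h1 : (1 + -(1 / ((N : ℝ) + 1)) : ℝ) ^ (2 / 5 : ℝ) ≤ 1 + 2 / 5 * -(1 / ((N : ℝ) + 1)) := by
      refine _root_.rpow_one_add_le_one_add_mul_self ?_ (by norm_num) (by norm_num)
      have : 1 / ((N : ℝ) + 1) ≤ 1 := by
        rw [div_le_one (by positivity)]
        linarith
      linarith
    have h2 : (1 + -(1 / ((N : ℝ) + 1))) = (N : ℝ) / (N + 1) := by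
      field_simp
      ring
    rw [h2] at h1
    have h3 : (3 : ℝ) / 5 * ((N + 1 : ℕ) : ℝ) ^ (-(2 / 5) : ℝ) =
        (3 / 5 * (N : ℝ) ^ (-(2 / 5) : ℝ)) * ((N : ℝ) / (N + 1)) ^ (2 / 5 : ℝ) := by
      rw [Real.div_rpow hN0.le (by positivity), Real.rpow_neg (by positivity), Real.rpow_neg hN0.le]
      have h4 : (N : ℝ) ^ (2 / 5 : ℝ) ≠ 0 := (Real.rpow_pos_of_pos hN0 _).ne'
      push_cast
      field_simp
    rw [h3]
    have h5 : (1 - 2 / (5 * ((N + 1 : ℕ) : ℝ)) : ℝ) = 1 + 2 / 5 * -(1 / ((N : ℝ) + 1)) := by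
      push_cast
      field_simp
      ring
    rw [h5]
    have h6 : (0 : ℝ) ≤ ((N : ℝ) / (N + 1)) ^ (2 / 5 : ℝ) := by positivity
    exact mul_le_mul ih h1 h6 (le_trans (by positivity) ih)

/-- `1 - 2/(5i) - η/5 ≥ (1 - 2/(5i)) (1 - η/3)`, `(1 - 1/(3M))^M ≥ 2/3`, `1 - 2/(5i) ≥ ((i-1)/i)^(2/5)` for
`i ≥ 2`, and `3/5` for `i = 1` -/
theorem prod_good (M : ℕ) (hM : 1 ≤ M) :
    2 / 5 * (M : ℝ) ^ (-(2 / 5) : ℝ) ≤
      ∏ i ∈ Finset.Ico 1 M, (1 - 2 / (5 * i) - (1 / M) / 5 : ℝ) := by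
  have hM0 : (0 : ℝ) < M := by exact_mod_cast (by omega : 0 < M)
  have hM1 : (1 : ℝ) ≤ M := by exact_mod_cast hM
  have hη : (1 / (M : ℝ)) ≤ 1 := by
    rw [div_le_one hM0]
    exact hM1
  have hη0 : 0 < (1 / (M : ℝ)) := by positivity
  have h1 : ∏ i ∈ Finset.Ico 1 M, ((1 - 2 / (5 * i)) * (1 - (1 / M) / 3) : ℝ) ≤
      ∏ i ∈ Finset.Ico 1 M, (1 - 2 / (5 * i) - (1 / M) / 5 : ℝ) := by
    refine Finset.prod_le_prod (fun i hi => ?_) fun i hi => ?_
    · have hi1 : (1 : ℝ) ≤ i := by exact_mod_cast (Finset.mem_Ico.mp hi).1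
      have h2 : (2 : ℝ) / (5 * i) ≤ 2 / 5 := by
        rw [div_le_div_iff₀ (by positivity) (by norm_num)]
        nlinarith
      exact mul_nonneg (by linarith) (by linarith)
    · have hi1 : (1 : ℝ) ≤ i := by exact_mod_cast (Finset.mem_Ico.mp hi).1
      have h2 : (2 : ℝ) / (5 * i) ≤ 2 / 5 := by
        rw [div_le_div_iff₀ (by positivity) (by norm_num)]
        nlinarith
      nlinarith
  refine le_trans ?_ h1
  rw [Finset.prod_mul_distrib, Finset.prod_const, Nat.card_Ico]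
  have h3 : (2 : ℝ) / 3 ≤ (1 - (1 / M) / 3 : ℝ) ^ (M - 1) := by
    have h4 := one_add_mul_le_pow (a := -((1 / M) / 3 : ℝ)) (by linarith) (M - 1)
    have h5 : ((M - 1 : ℕ) : ℝ) = M - 1 := by
      push_cast [Nat.cast_sub hM]
      ring
    rw [h5] at h4
    have h6 : (1 : ℝ) + (M - 1) * (-((1 / M) / 3)) = 2 / 3 + (1 / M) / 3 := by
      field_simp
      ring
    rw [h6] at h4
    have h7 : (1 : ℝ) + -((1 / M) / 3) = 1 - (1 / M) / 3 := by ring
    rw [h7] at h4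
    linarith
  have h8 : (3 : ℝ) / 5 * (M : ℝ) ^ (-(2 / 5) : ℝ) ≤ ∏ i ∈ Finset.Ico 1 M, (1 - 2 / (5 * i) : ℝ) := by
    rcases Nat.lt_or_ge M 2 with h | h
    · have e : M = 1 := by omega
      subst e
      simp
      norm_num
    · obtain ⟨N, rfl⟩ : ∃ N, M = N + 1 := ⟨M - 1, by omega⟩
      have hN : 1 ≤ N := by omega
      refine le_trans ?_ (yl_aux N hN)
      have hN0 : (0 : ℝ) < N := by exact_mod_cast (by omega : 0 < N)
      refine mul_le_mul_of_nonneg_left ?_ (by norm_num)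
      refine Real.rpow_le_rpow_of_nonpos hN0 ?_ (by norm_num)
      push_cast
      linarith
  calc 2 / 5 * (M : ℝ) ^ (-(2 / 5) : ℝ) = (3 / 5 * (M : ℝ) ^ (-(2 / 5) : ℝ)) * (2 / 3) := by ring
    _ ≤ _ := mul_le_mul h8 h3 (by norm_num) (le_trans (by positivity) h8)

-- MODULE ym
private theorem ym_real (M : ℕ) (hM : 2 ≤ M) (η : ℝ) (hη : η = 1 / M) :
    (∏ j ∈ Finset.range (M ^ 2), Real.pi / (2 * j + 1)) * (1 / 6 * (M : ℝ) ^ (-(9 / 10) : ℝ)) ≤
      Real.pi / 2 * ((∏ i ∈ Finset.range (M - 1), (Real.pi / (2 + 2 * i + 1) *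
      (1 - 4 / (5 * (2 + 2 * i)) - η / 5))) * (5 / 6 *
      ∏ i ∈ Finset.range (M ^ 2 - M), Real.pi / (2 * M + 2 * i + 2))) := by
  have hM0 : (0 : ℝ) < M := by exact_mod_cast (by omega : 0 < M)
  have hMN : M ≤ M ^ 2 := Nat.le_self_pow (by norm_num) M
  have hpi := Real.pi_pos
  -- splitting
  have h1 : ∏ j ∈ Finset.range (M ^ 2), Real.pi / (2 * (j : ℝ) + 1) =
      (Real.pi * ∏ i ∈ Finset.range (M - 1), Real.pi / (2 + 2 * (i : ℝ) + 1)) *
        ∏ j ∈ Finset.Ico M (M ^ 2), Real.pi / (2 * (j : ℝ) + 1) := by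
    rw [← Finset.prod_range_mul_prod_Ico _ hMN]
    congr 1
    obtain ⟨K, rfl⟩ : ∃ K, M = K + 1 := ⟨M - 1, by omega⟩
    rw [Finset.prod_range_succ', Nat.add_sub_cancel, mul_comm]
    congr 1
    · simp
    · refine Finset.prod_congr rfl fun i _ => ?_
      push_cast
      ring
  have h2 : ∏ i ∈ Finset.range (M ^ 2 - M), Real.pi / (2 * (M : ℝ) + 2 * i + 2) =
      (∏ j ∈ Finset.Ico M (M ^ 2), Real.pi / (2 * (j : ℝ) + 1)) *
        ∏ j ∈ Finset.Ico M (M ^ 2), ((2 * j + 1 : ℝ) / (2 * j + 2)) := by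
    rw [← Finset.prod_mul_distrib, Finset.prod_Ico_eq_prod_range]
    refine Finset.prod_congr rfl fun i _ => ?_
    push_cast
    have e1 : (2 * ((M : ℝ) + i) + 1) ≠ 0 := by positivity
    have e2 : (2 * ((M : ℝ) + i) + 2) ≠ 0 := by positivity
    have e3 : (2 * (M : ℝ) + 2 * i + 2) ≠ 0 := by positivity
    field_simp
  have h3 : ∏ i ∈ Finset.range (M - 1), (Real.pi / (2 + 2 * (i : ℝ) + 1) *
      (1 - 4 / (5 * (2 + 2 * i)) - η / 5)) =
      (∏ i ∈ Finset.range (M - 1), Real.pi / (2 + 2 * (i : ℝ) + 1)) *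
        ∏ i ∈ Finset.Ico 1 M, (1 - 2 / (5 * i) - (1 / M) / 5 : ℝ) := by
    rw [Finset.prod_mul_distrib, Finset.prod_Ico_eq_prod_range]
    congr 1
    refine Finset.prod_congr rfl fun i _ => ?_
    rw [hη]
    push_cast
    have e1 : (1 + (i : ℝ)) ≠ 0 := by positivity
    congr 2
    rw [div_eq_div_iff (by positivity) (by positivity)]
    ring
  have h4 := prod_tail M (M ^ 2) (by omega) hMN
  have h5 := prod_good M (by omega)
  have h6 : √((M : ℝ) / (M ^ 2 : ℕ)) = (M : ℝ) ^ (-(1 / 2) : ℝ) := by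
    rw [Real.sqrt_eq_rpow, Nat.cast_pow]
    have : (M : ℝ) / (M : ℝ) ^ 2 = (M : ℝ)⁻¹ := by
      field_simp
    rw [this, Real.inv_rpow hM0.le, Real.rpow_neg hM0.le]
  have h7 : (M : ℝ) ^ (-(9 / 10) : ℝ) = (M : ℝ) ^ (-(1 / 2) : ℝ) * (M : ℝ) ^ (-(2 / 5) : ℝ) := by
    rw [← Real.rpow_add hM0]
    norm_num
  rw [h6] at h4
  rw [h1, h2, h3, h7]
  set P1 := ∏ i ∈ Finset.range (M - 1), Real.pi / (2 + 2 * (i : ℝ) + 1) with hP1
  set P2 := ∏ j ∈ Finset.Ico M (M ^ 2), Real.pi / (2 * (j : ℝ) + 1) with hP2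
  set Q1 := ∏ i ∈ Finset.Ico 1 M, (1 - 2 / (5 * i) - (1 / M) / 5 : ℝ) with hQ1
  set Q2 := ∏ j ∈ Finset.Ico M (M ^ 2), ((2 * j + 1 : ℝ) / (2 * j + 2)) with hQ2
  have p1 : 0 ≤ P1 := Finset.prod_nonneg fun i _ => by positivity
  have p2 : 0 ≤ P2 := Finset.prod_nonneg fun i _ => by positivity
  have q1 : 0 ≤ (M : ℝ) ^ (-(1 / 2) : ℝ) := by positivity
  have q2 : 0 ≤ (M : ℝ) ^ (-(2 / 5) : ℝ) := by positivity
  have h8 : 2 / 5 * (M : ℝ) ^ (-(2 / 5) : ℝ) * (M : ℝ) ^ (-(1 / 2) : ℝ) ≤ Q1 * Q2 :=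
    mul_le_mul h5 h4 q1 (le_trans (by positivity) h5)
  have h9 : 0 ≤ Real.pi * P1 * P2 * (5 / 12) := by positivity
  have h10 := mul_le_mul_of_nonneg_left h8 h9
  refine le_trans (le_of_eq ?_) (le_trans h10 (le_of_eq ?_))
  · ring
  · ring

/-- `I0 z m 0 ≥ (π/2) I0 z (m-1) 2 ≥ (π/2) I1 z (m-1) 2`, then `M - 1` steps of `I1_steps` (`s = 2`),
`le_I1`, and `I0_steps` down to `I0 z 0 _ = 1`; `m = M²`; `prod_tail`, `prod_good`:
`(1/2) (2/5) M^(-2/5) (5/6) M^(-1/2) = (1/6) M^(-9/10)`. -/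
theorem I0_ge (M : ℕ) (hM : 2 ≤ M) (z : ℂ) (hz : ‖z‖ ^ 2 = 1 - 1 / M) :
    ENNReal.ofReal ((∏ j ∈ Finset.range (M ^ 2), Real.pi / (2 * j + 1)) *
      (1 / 6 * (M : ℝ) ^ (-(9 / 10) : ℝ))) ≤ I0 z (M ^ 2) 0 := by
  have hM0 : (0 : ℝ) < M := by exact_mod_cast (by omega : 0 < M)
  have hMN : M ≤ M ^ 2 := Nat.le_self_pow (by norm_num) M
  have hpi := Real.pi_pos
  have hz1 : ‖z‖ ≤ 1 := by
    have : ‖z‖ ^ 2 ≤ 1 := by
      rw [hz]
      have : (0 : ℝ) ≤ 1 / M := by positivity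
      linarith
    exact (pow_le_one_iff_of_nonneg (norm_nonneg _) (by norm_num)).1 this
  have hη : 1 - ‖z‖ ^ 2 = 1 / M := by rw [hz]; ring
  have hη1 : 1 - ‖z‖ ^ 2 ≤ 1 := by
    have := sq_nonneg ‖z‖
    linarith
  -- steps
  have s1 := I0_steps z hz1 0 (2 * M) (M ^ 2 - M)
  rw [I0_zero, mul_one, zero_add] at s1
  have s2 := le_I1 z hz1 (M ^ 2 - M) (2 * M)
  have s3 := I1_steps z hz1 (M ^ 2 - M) 2 le_rfl (M - 1)
  have e1 : 2 + 2 * (M - 1) = 2 * M := by omega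
  rw [e1] at s3
  have s4 := I1_le z hz1 (M ^ 2 - M + (M - 1)) 2
  have s5 := I0_step z hz1 (M ^ 2 - M + (M - 1)) 0
  have e2 : M ^ 2 - M + (M - 1) + 1 = M ^ 2 := by omega
  rw [e2, zero_add] at s5
  refine (ENNReal.ofReal_le_ofReal (ym_real M hM (1 - ‖z‖ ^ 2) hη)).trans ?_
  have n1 : 0 ≤ ∏ i ∈ Finset.range (M - 1), (Real.pi / (2 + 2 * (i : ℝ) + 1) *
      (1 - 4 / (5 * (2 + 2 * i)) - (1 - ‖z‖ ^ 2) / 5)) := by
    refine Finset.prod_nonneg fun i _ => mul_nonneg (by positivity) ?_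
    have : 4 / (5 * (2 + 2 * (i : ℝ))) ≤ 4 / 5 := by
      apply div_le_div_of_nonneg_left (by norm_num) (by norm_num)
      have : (0 : ℝ) ≤ i := by positivity
      linarith
    linarith
  rw [ENNReal.ofReal_mul (by positivity), ENNReal.ofReal_mul n1, ENNReal.ofReal_mul (by norm_num)]
  refine le_trans ?_ s5
  have e3 : ENNReal.ofReal (Real.pi / ((0 : ℕ) + 2)) = ENNReal.ofReal (Real.pi / 2) := by
    norm_num
  rw [e3]
  refine mul_le_mul' le_rfl (le_trans ?_ s4)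
  refine le_trans ?_ s3
  refine mul_le_mul' (le_of_eq ?_) (le_trans (mul_le_mul' le_rfl ?_) s2)
  · congr 1
  · refine le_trans (le_of_eq ?_) s1
    congr 1
    push_cast
    rfl

-- MODULE yn
private theorem yn_dd_nonneg (a : ℕ → ℂ) (ha : ∀ j, ‖a j‖ < 1) (z : ℂ) (m : ℕ) :
    0 ≤ dd a z m := by
  unfold dd rr
  refine div_nonneg (Finset.prod_nonneg fun j _ => ?_) (sq_nonneg _)
  nlinarith [ha j, norm_nonneg (a j)]

private theorem yn_cont (a : ℕ → ℂ) (ha : ∀ j, ‖a j‖ < 1) (m : ℕ) {ρ : ℝ} (h0 : 0 ≤ ρ) (h1 : ρ < 1) :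
    Continuous fun θ : ℝ => dd a (circleMap 0 ρ θ) m := by
  have h2 : Continuous fun θ : ℝ => (ph a (circleMap 0 ρ θ) m).2 :=
    (ph_differentiable a m).continuous.comp (continuous_circleMap 0 ρ)
  unfold dd
  refine continuous_const.div (h2.norm.pow 2) fun θ => ?_
  have h3 : ‖circleMap 0 ρ θ‖ ≤ 1 := by
    rw [norm_circleMap_zero, abs_of_nonneg h0]
    exact h1.le
  exact pow_ne_zero 2 (norm_ne_zero_iff.2 (ph_ne a ha _ h3 m).1)

private theorem yn_avg (a : ℕ → ℂ) (ha : ∀ j, ‖a j‖ < 1) (m : ℕ) {ρ : ℝ} (h0 : 0 ≤ ρ) (h1 : ρ < 1) :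
    ENNReal.ofReal (circleAverage (fun z : ℂ => dd a z m) 0 ρ) =
      ENNReal.ofReal ((2 * Real.pi)⁻¹) *
        ∫⁻ θ in Set.Ioc 0 (2 * Real.pi), ENNReal.ofReal (dd a (circleMap 0 ρ θ) m) := by
  have hpi := Real.pi_pos
  have hc := yn_cont a ha m h0 h1
  unfold circleAverage
  rw [smul_eq_mul, ENNReal.ofReal_mul (by positivity),
    intervalIntegral.integral_of_le (by positivity)]
  congr 1
  refine ofReal_integral_eq_lintegral_ofReal ?_ ?_
  · exact (hc.intervalIntegrable 0 (2 * Real.pi)).1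
  · exact Filter.Eventually.of_forall fun θ => yn_dd_nonneg a ha _ m

/-- Tonelli; for a point of the moment body the density is continuous in `z`, `‖z‖ ≤ 1` -/
theorem mean_swap (m : ℕ) {ρ : ℝ} (h0 : 0 ≤ ρ) (h1 : ρ < 1) (B : ℝ)
    (hB : ∀ z : ℂ, ‖z‖ = ρ → ENNReal.ofReal B ≤ I0 z m 0) :
    ENNReal.ofReal B ≤ ∫⁻ x in {x : Fin (2 * m) → ℝ | cx x ∈ SS m},
      ENNReal.ofReal (circleAverage (fun z : ℂ => dd (vr (cx x) m) z m) 0 ρ) := by
  have hpi := Real.pi_pos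
  have hS : MeasurableSet {x : Fin (2 * m) → ℝ | cx x ∈ SS m} :=
    cx_measurable _ (SS_measurable m)
  have hm : Measurable fun p : (Fin (2 * m) → ℝ) × ℝ =>
      ENNReal.ofReal (dd (vr (cx p.1) m) (circleMap 0 ρ p.2) m) := by
    have h2 : Measurable fun p : (Fin (2 * m) → ℝ) × ℝ =>
        ((vr (cx p.1) m, circleMap 0 ρ p.2) : (ℕ → ℂ) × ℂ) :=
      ((vr_measurable m).comp ((cx_measurable _).comp measurable_fst)).prodMk
        ((continuous_circleMap 0 ρ).measurable.comp measurable_snd)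
    have h3 := Measurable.comp (dd_measurable m) h2
    simp only [Function.comp_def] at h3
    exact h3.ennreal_ofReal
  rw [setLIntegral_congr_fun hS fun x hx => yn_avg (vr (cx x) m) (vr_lt _ m hx) m h0 h1]
  rw [lintegral_const_mul' _ _ ENNReal.ofReal_ne_top]
  rw [lintegral_lintegral_swap (f := fun (x : Fin (2 * m) → ℝ) (θ : ℝ) =>
    ENNReal.ofReal (dd (vr (cx x) m) (circleMap 0 ρ θ) m)) hm.aemeasurable]
  have h4 : ENNReal.ofReal B * ENNReal.ofReal (2 * Real.pi) ≤ ∫⁻ θ in Set.Ioc 0 (2 * Real.pi),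
      ∫⁻ x in {x : Fin (2 * m) → ℝ | cx x ∈ SS m},
        ENNReal.ofReal (dd (vr (cx x) m) (circleMap 0 ρ θ) m) := by
    have h5 : ENNReal.ofReal B * ENNReal.ofReal (2 * Real.pi) =
        ∫⁻ _ in Set.Ioc 0 (2 * Real.pi), ENNReal.ofReal B := by
      rw [setLIntegral_const, Real.volume_Ioc, sub_zero]
    rw [h5]
    refine lintegral_mono fun θ => ?_
    have h6 := hB (circleMap 0 ρ θ) (by rw [norm_circleMap_zero, abs_of_nonneg h0])
    unfold I0 at h6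
    simpa using h6
  calc ENNReal.ofReal B = ENNReal.ofReal ((2 * Real.pi)⁻¹) *
        (ENNReal.ofReal B * ENNReal.ofReal (2 * Real.pi)) := by
        rw [mul_comm (ENNReal.ofReal B), ← mul_assoc, ← ENNReal.ofReal_mul (by positivity),
          inv_mul_cancel₀ (by positivity), ENNReal.ofReal_one, one_mul]
    _ ≤ _ := mul_le_mul' le_rfl h4

end Pool.Agent.Hul
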