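import Pool.Agent.Hul.Spec

/-!
# MP_67b84b_gt: a unitary operator with prescribed Verblunsky coefficients

`U a m = G (a 0) 0 ∘ ... ∘ G (a (m-1)) (m-1)` acts on the coordinates `0, ..., m`; all sequences are
indexed by `ℕ`. `mom a k` is the `k`-th moment `⟪δ₀, U^k δ₀⟫`, it depends on `a j`, `j < k` only.
-/

set_option autoImplicit false

namespace Pool.Agent.Hul

open ComplexConjugate

/-- unit vector -/
def dl (k : ℕ) : ℕ → ℂ := fun i => if i = k then 1 else 0

/-- complementary parameter -/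
noncomputable def rho (a : ℂ) : ℝ := √(1 - ‖a‖ ^ 2)

/-- the reflection in the coordinates `j`, `j + 1` -/
noncomputable def G (a : ℂ) (j : ℕ) (x : ℕ → ℂ) : ℕ → ℂ := fun i =>
  if i = j then conj a * x j + rho a * x (j + 1)
  else if i = j + 1 then rho a * x j - a * x (j + 1)
  else x i

/-- product of the first `m` reflections -/
noncomputable def U (a : ℕ → ℂ) : ℕ → (ℕ → ℂ) → (ℕ → ℂ)
  | 0 => id
  | m + 1 => fun x => U a m (G (a m) m x)

/-- the vector `U^k δ₀` -/
noncomputable def yy (a : ℕ → ℂ) : ℕ → (ℕ → ℂ)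
  | 0 => dl 0
  | k + 1 => U a (k + 1) (yy a k)

/-- moments -/
noncomputable def mom (a : ℕ → ℂ) (k : ℕ) : ℂ := yy a k 0

/-- radius -/
noncomputable def rr (a : ℕ → ℂ) (k : ℕ) : ℝ := ∏ j ∈ Finset.range k, (1 - ‖a j‖ ^ 2)

-- MODULE ma
private theorem ma_U_congr (a b : ℕ → ℂ) (m : ℕ) : (∀ j < m, a j = b j) → U a m = U b m := by
  induction m with
  | zero => intro _; rfl
  | succ m ih =>
    intro h
    funext x
    show U a m (G (a m) m x) = U b m (G (b m) m x)
    rw [ih (fun j hj => h j (by omega)), h m (by omega)]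

private theorem ma_yy_congr (a b : ℕ → ℂ) (k : ℕ) : (∀ j < k, a j = b j) → yy a k = yy b k := by
  induction k with
  | zero => intro _; rfl
  | succ k ih =>
    intro h
    show U a (k + 1) (yy a k) = U b (k + 1) (yy b k)
    rw [ih (fun j hj => h j (by omega)), ma_U_congr a b (k + 1) h]

private theorem ma_rho : Continuous rho := by
  unfold rho; fun_prop

private theorem ma_U_cont (m : ℕ) : ∀ f : (ℕ → ℂ) → (ℕ → ℂ), Continuous f →
    Continuous (fun a : ℕ → ℂ => U a m (f a)) := by
  induction m with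
  | zero => intro f hf; exact hf
  | succ m ih =>
    intro f hf
    show Continuous (fun a : ℕ → ℂ => U a m (G (a m) m (f a)))
    apply ih
    have hr : Continuous (fun a : ℕ → ℂ => (rho (a m) : ℂ)) :=
      Complex.continuous_ofReal.comp (ma_rho.comp (continuous_apply m))
    have hf' : ∀ i, Continuous (fun a : ℕ → ℂ => f a i) := fun i => (continuous_apply i).comp hf
    have ham : Continuous (fun a : ℕ → ℂ => a m) := continuous_apply m
    apply continuous_pi
    intro i
    unfold G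
    split_ifs
    · exact ((Complex.continuous_conj.comp ham).mul (hf' m)).add (hr.mul (hf' (m + 1)))
    · exact (hr.mul (hf' m)).sub (ham.mul (hf' (m + 1)))
    · exact hf' i

private theorem ma_yy_cont (k : ℕ) : Continuous (fun a : ℕ → ℂ => yy a k) := by
  induction k with
  | zero => exact continuous_const
  | succ k ih => exact ma_U_cont (k + 1) (fun a => yy a k) ih

/-- the moment depends on the first `k` coefficients only -/
theorem mom_congr (a b : ℕ → ℂ) (k : ℕ) (h : ∀ j < k, a j = b j) : mom a k = mom b k := by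
  unfold mom
  rw [ma_yy_congr a b k h]

/-- continuity in the coefficients -/
theorem mom_continuous (k : ℕ) : Continuous (fun a : ℕ → ℂ => mom a k) :=
  (continuous_apply 0).comp (ma_yy_cont k)

-- MODULE mb
private theorem mb_G_lin (a : ℂ) (j : ℕ) (x y : ℕ → ℂ) (c : ℂ) :
    G a j (fun i => x i + c * y i) = fun i => G a j x i + c * G a j y i := by
  funext i
  unfold G
  split_ifs <;> ring

private theorem mb_U_lin (a : ℕ → ℂ) (m : ℕ) : ∀ (x y : ℕ → ℂ) (c : ℂ),
    U a m (fun i => x i + c * y i) = fun i => U a m x i + c * U a m y i := by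
  induction m with
  | zero => intro x y c; rfl
  | succ m ih =>
    intro x y c
    show U a m (G (a m) m (fun i => x i + c * y i)) = _
    rw [mb_G_lin, ih]
    rfl

private theorem mb_U_fix (a : ℕ → ℂ) (m : ℕ) : ∀ x : ℕ → ℂ, (∀ i ≤ m, x i = 0) → U a m x = x := by
  induction m with
  | zero => intro x _; rfl
  | succ m ih =>
    intro x hx
    show U a m (G (a m) m x) = x
    have h : G (a m) m x = x := by
      funext i
      unfold G
      split_ifs with h1 h2
      · rw [hx m (by omega), hx (m + 1) le_rfl, h1, hx m (by omega)]; ring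
      · rw [hx m (by omega), hx (m + 1) le_rfl, h2, hx (m + 1) le_rfl]; ring
      · rfl
    rw [h]
    exact ih x (fun i hi => hx i (by omega))

private theorem mb_U_high (a : ℕ → ℂ) (m : ℕ) : ∀ (x : ℕ → ℂ) (i : ℕ), m < i → U a m x i = x i := by
  induction m with
  | zero => intro x i _; rfl
  | succ m ih =>
    intro x i hi
    show U a m (G (a m) m x) i = x i
    rw [ih _ i (by omega)]
    unfold G
    rw [if_neg (by omega), if_neg (by omega)]

private theorem mb_U_congr (a b : ℕ → ℂ) (m : ℕ) : (∀ j < m, a j = b j) → U a m = U b m := by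
  induction m with
  | zero => intro _; rfl
  | succ m ih =>
    intro h
    funext x
    show U a m (G (a m) m x) = U b m (G (b m) m x)
    rw [ih (fun j hj => h j (by omega)), h m (by omega)]

private theorem mb_yy_congr (a b : ℕ → ℂ) (k : ℕ) : (∀ j < k, a j = b j) → yy a k = yy b k := by
  induction k with
  | zero => intro _; rfl
  | succ k ih =>
    intro h
    show U a (k + 1) (yy a k) = U b (k + 1) (yy b k)
    rw [ih (fun j hj => h j (by omega)), mb_U_congr a b (k + 1) h]

private theorem mb_yy_supp (a : ℕ → ℂ) (k : ℕ) : ∀ i, k < i → yy a k i = 0 := by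
  induction k with
  | zero => intro i hi; show dl 0 i = 0; unfold dl; rw [if_neg (by omega)]
  | succ k ih =>
    intro i hi
    show U a (k + 1) (yy a k) i = 0
    rw [mb_U_high a (k + 1) _ i hi]
    exact ih i (by omega)

private theorem mb_yy_diag (a : ℕ → ℂ) (k : ℕ) :
    yy a k k = ((∏ j ∈ Finset.range k, rho (a j) : ℝ) : ℂ) := by
  induction k with
  | zero => show dl 0 0 = _; simp [dl]
  | succ k ih =>
    show U a k (G (a k) k (yy a k)) (k + 1) = _
    rw [mb_U_high a k _ (k + 1) (by omega), Finset.prod_range_succ]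
    unfold G
    rw [if_neg (by omega), if_pos rfl, ih, mb_yy_supp a k (k + 1) (by omega)]
    push_cast
    ring

private theorem mb_U_dl (a : ℕ → ℂ) (k : ℕ) :
    U a k (dl k) 0 = ((∏ j ∈ Finset.range k, rho (a j) : ℝ) : ℂ) := by
  induction k with
  | zero => show dl 0 0 = _; simp [dl]
  | succ k ih =>
    show U a k (G (a k) k (dl (k + 1))) 0 = _
    have h : G (a k) k (dl (k + 1)) = fun i => (rho (a k) : ℂ) * dl k i + (-(a k)) * dl (k + 1) i := by
      funext i
      unfold G dl
      by_cases h1 : i = k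
      · subst h1; simp
      · by_cases h2 : i = k + 1
        · subst h2; simp
        · simp [h1, h2]
    have h2 : (fun i => (rho (a k) : ℂ) * dl k i) = fun i => (0 : ℕ → ℂ) i + (rho (a k) : ℂ) * dl k i := by
      funext i; simp
    have h3 : U a k (0 : ℕ → ℂ) = 0 := mb_U_fix a k 0 (fun i _ => rfl)
    rw [h, mb_U_lin a k (fun i => (rho (a k) : ℂ) * dl k i) (dl (k + 1)), h2, mb_U_lin a k, h3,
      mb_U_fix a k (dl (k + 1)) (fun i hi => by unfold dl; rw [if_neg (by omega)])]
    show (0 : ℂ) + (rho (a k) : ℂ) * U a k (dl k) 0 + (-(a k)) * dl (k + 1) 0 = _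
    rw [ih, Finset.prod_range_succ]
    have h4 : dl (k + 1) 0 = 0 := by unfold dl; rw [if_neg (by omega)]
    rw [h4]
    push_cast
    ring

/-- Proof. `yy a k` vanishes in the coordinates `> k`, `yy a k k = ∏_{j<k} rho (a j)`,
`U a k (dl k) 0 = ∏_{j<k} rho (a j)`, `U a k` fixes the vectors which vanish in the coordinates
`≤ k`, and `G (a k) k x = x - x_k dl k + conj (a k) x_k dl k + rho (a k) x_k dl (k+1)` if
`x (k+1) = 0`; all maps are linear. -/
theorem mom_succ (a : ℕ → ℂ) (k : ℕ) (h : ∀ j < k, ‖a j‖ ≤ 1) :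
    mom a (k + 1) = mom (Function.update a k 0) (k + 1) + rr a k * conj (a k) := by
  set b := Function.update a k 0 with hb
  have hab : ∀ j < k, a j = b j := by
    intro j hj
    rw [hb, Function.update_of_ne (by omega)]
  have hbk : b k = 0 := by rw [hb, Function.update_self]
  have hy : yy b k = yy a k := (mb_yy_congr a b k hab).symm
  have hU : U b k = U a k := (mb_U_congr a b k hab).symm
  have e1 : mom a (k + 1) = U a k (G (a k) k (yy a k)) 0 := rfl
  have e2 : mom b (k + 1) = U a k (G 0 k (yy a k)) 0 := by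
    show U b k (G (b k) k (yy b k)) 0 = _
    rw [hU, hbk, hy]
  have e3 : G (a k) k (yy a k) = fun i => (fun i => G 0 k (yy a k) i +
      (conj (a k) * yy a k k) * dl k i) i + ((rho (a k) - rho 0) * yy a k k) * dl (k + 1) i := by
    funext i
    have h0 := mb_yy_supp a k (k + 1) (by omega)
    unfold G dl
    by_cases h1 : i = k
    · subst h1; simp [h0]
    · by_cases h2 : i = k + 1
      · subst h2; simp [h0]; ring
      · simp [h1, h2]
  rw [e1, e2, e3, mb_U_lin a k, mb_U_lin a k,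
    mb_U_fix a k (dl (k + 1)) (fun i hi => by unfold dl; rw [if_neg (by omega)])]
  have h4 : dl (k + 1) 0 = 0 := by unfold dl; rw [if_neg (by omega)]
  have h5 : ((∏ j ∈ Finset.range k, rho (a j) : ℝ) : ℂ) * ((∏ j ∈ Finset.range k, rho (a j) : ℝ) : ℂ)
      = rr a k := by
    rw [← Complex.ofReal_mul, ← Finset.prod_mul_distrib]
    unfold rr
    congr 1
    apply Finset.prod_congr rfl
    intro j hj
    unfold rho
    have := h j (Finset.mem_range.1 hj)
    exact Real.mul_self_sqrt (by nlinarith [norm_nonneg (a j)])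
  show U a k (G 0 k (yy a k)) 0 + (conj (a k) * yy a k k) * U a k (dl k) 0 +
    ((rho (a k) - rho 0) * yy a k k) * dl (k + 1) 0 = _
  rw [h4, mb_U_dl, mb_yy_diag, ← h5]
  ring

-- MODULE mc
private theorem mc_G_supp (c : ℂ) (j M : ℕ) (hj : j + 1 ≤ M) (x : ℕ → ℂ) (hx : ∀ i, M < i → x i = 0) :
    ∀ i, M < i → G c j x i = 0 := by
  intro i hi
  unfold G
  rw [if_neg (by omega), if_neg (by omega)]
  exact hx i hi

private theorem mc_U_supp (a : ℕ → ℂ) (M : ℕ) : ∀ (n : ℕ), n ≤ M → ∀ (x : ℕ → ℂ),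
    (∀ i, M < i → x i = 0) → ∀ i, M < i → U a n x i = 0 := by
  intro n
  induction n with
  | zero => intro _ x hx i hi; exact hx i hi
  | succ n ih =>
    intro hn x hx
    exact ih (by omega) _ (mc_G_supp (a n) n M hn x hx)

private theorem mc_rho_sq (c : ℂ) (hc : ‖c‖ ≤ 1) : rho c ^ 2 = 1 - ‖c‖ ^ 2 := by
  unfold rho
  rw [Real.sq_sqrt]
  have : ‖c‖ ^ 2 ≤ 1 := by
    have := norm_nonneg c
    nlinarith
  linarith

private theorem mc_alg (c x y : ℂ) (r : ℝ) (h : r ^ 2 = 1 - ‖c‖ ^ 2) :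
    ‖conj c * x + r * y‖ ^ 2 + ‖r * x - c * y‖ ^ 2 = ‖x‖ ^ 2 + ‖y‖ ^ 2 := by
  rw [← Complex.normSq_eq_norm_sq] at h
  rw [← Complex.normSq_eq_norm_sq, ← Complex.normSq_eq_norm_sq, ← Complex.normSq_eq_norm_sq,
    ← Complex.normSq_eq_norm_sq]
  simp only [Complex.normSq_apply, Complex.add_re, Complex.add_im, Complex.sub_re, Complex.sub_im,
    Complex.mul_re, Complex.mul_im, Complex.conj_re, Complex.conj_im, Complex.ofReal_re,
    Complex.ofReal_im] at h ⊢
  linear_combination (x.re * x.re + x.im * x.im + y.re * y.re + y.im * y.im) * h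

private theorem mc_G_norm (c : ℂ) (hc : ‖c‖ ≤ 1) (j M : ℕ) (hj : j + 1 ≤ M) (x : ℕ → ℂ) :
    ∑ i ∈ Finset.range (M + 1), ‖G c j x i‖ ^ 2 = ∑ i ∈ Finset.range (M + 1), ‖x i‖ ^ 2 := by
  rw [← sub_eq_zero, ← Finset.sum_sub_distrib]
  have hsub : ({j, j + 1} : Finset ℕ) ⊆ Finset.range (M + 1) := by
    intro i hi
    simp only [Finset.mem_insert, Finset.mem_singleton] at hi
    rw [Finset.mem_range]
    omega
  rw [← Finset.sum_subset hsub, Finset.sum_pair (by omega)]
  · have h1 : G c j x j = conj c * x j + rho c * x (j + 1) := by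
      unfold G; rw [if_pos rfl]
    have h2 : G c j x (j + 1) = rho c * x j - c * x (j + 1) := by
      unfold G; rw [if_neg (by omega), if_pos rfl]
    rw [h1, h2]
    have := mc_alg c (x j) (x (j + 1)) (rho c) (mc_rho_sq c hc)
    linarith
  · intro i _ hi
    simp only [Finset.mem_insert, Finset.mem_singleton, not_or] at hi
    unfold G
    rw [if_neg hi.1, if_neg hi.2, sub_self]

private theorem mc_U_norm (a : ℕ → ℂ) (M : ℕ) : ∀ (n : ℕ), n ≤ M → (∀ j < n, ‖a j‖ ≤ 1) →
    ∀ (x : ℕ → ℂ),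
    ∑ i ∈ Finset.range (M + 1), ‖U a n x i‖ ^ 2 = ∑ i ∈ Finset.range (M + 1), ‖x i‖ ^ 2 := by
  intro n
  induction n with
  | zero => intro _ _ x; rfl
  | succ n ih =>
    intro hn ha x
    have h1 := ih (by omega) (fun j hj => ha j (by omega)) (G (a n) n x)
    rw [mc_G_norm (a n) (ha n (by omega)) n M hn x] at h1
    exact h1

private theorem mc_G_add (c : ℂ) (j : ℕ) (x y : ℕ → ℂ) : G c j (x + y) = G c j x + G c j y := by
  funext i
  simp only [G, Pi.add_apply]
  split_ifs <;> ring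

private theorem mc_G_smul (c : ℂ) (j : ℕ) (s : ℂ) (x : ℕ → ℂ) : G c j (s • x) = s • G c j x := by
  funext i
  simp only [G, Pi.smul_apply, smul_eq_mul]
  split_ifs <;> ring

private theorem mc_U_add (a : ℕ → ℂ) : ∀ (n : ℕ) (x y : ℕ → ℂ),
    U a n (x + y) = U a n x + U a n y := by
  intro n
  induction n with
  | zero => intro x y; rfl
  | succ n ih =>
    intro x y
    show U a n (G (a n) n (x + y)) = U a n (G (a n) n x) + U a n (G (a n) n y)
    rw [mc_G_add, ih]

private theorem mc_U_smul (a : ℕ → ℂ) : ∀ (n : ℕ) (s : ℂ) (x : ℕ → ℂ),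
    U a n (s • x) = s • U a n x := by
  intro n
  induction n with
  | zero => intro s x; rfl
  | succ n ih =>
    intro s x
    show U a n (G (a n) n (s • x)) = s • U a n (G (a n) n x)
    rw [mc_G_smul, ih]

private theorem mc_G_fix (c : ℂ) (j : ℕ) (x : ℕ → ℂ) (h0 : x j = 0) (h1 : x (j + 1) = 0) :
    G c j x = x := by
  funext i
  unfold G
  split_ifs with h h'
  · rw [h, h0, h1]; ring
  · rw [h', h0, h1]; ring
  · rfl

private theorem mc_U_stab (a : ℕ → ℂ) (k : ℕ) (x : ℕ → ℂ) (hx : ∀ i, k < i → x i = 0) :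
    ∀ m : ℕ, k + 1 ≤ m → U a m x = U a (k + 1) x := by
  intro m hm
  induction m, hm using Nat.le_induction with
  | base => rfl
  | succ m hm ih =>
    show U a m (G (a m) m x) = U a (k + 1) x
    rw [mc_G_fix (a m) m x (hx m (by omega)) (hx (m + 1) (by omega)), ih]

private theorem mc_yy_supp (a : ℕ → ℂ) : ∀ k : ℕ, ∀ i, k < i → yy a k i = 0 := by
  intro k
  induction k with
  | zero => intro i hi; show dl 0 i = 0; unfold dl; rw [if_neg (by omega)]
  | succ k ih =>
    exact mc_U_supp a (k + 1) (k + 1) le_rfl (yy a k) (fun i hi => ih i (by omega))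

private theorem mc_iter (a : ℕ → ℂ) (m : ℕ) : ∀ k ≤ m, (U a m)^[k] (dl 0) = yy a k := by
  intro k
  induction k with
  | zero => intro _; rfl
  | succ k ih =>
    intro hk
    rw [Function.iterate_succ_apply', ih (by omega), mc_U_stab a k (yy a k) (mc_yy_supp a k) m hk]
    rfl

/-- extension by zero -/
private noncomputable def mc_ext (m : ℕ) (x : EuclideanSpace ℂ (Fin (m + 1))) : ℕ → ℂ :=
  fun i => if h : i < m + 1 then x ⟨i, h⟩ else 0

private theorem mc_ext_add (m : ℕ) (x y : EuclideanSpace ℂ (Fin (m + 1))) :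
    mc_ext m (x + y) = mc_ext m x + mc_ext m y := by
  funext i
  simp only [mc_ext, Pi.add_apply]
  split_ifs
  · rfl
  · ring

private theorem mc_ext_smul (m : ℕ) (s : ℂ) (x : EuclideanSpace ℂ (Fin (m + 1))) :
    mc_ext m (s • x) = s • mc_ext m x := by
  funext i
  simp only [mc_ext, Pi.smul_apply, smul_eq_mul]
  split_ifs
  · rfl
  · ring

private theorem mc_ext_supp (m : ℕ) (x : EuclideanSpace ℂ (Fin (m + 1))) :
    ∀ i, m < i → mc_ext m x i = 0 := by
  intro i hi
  unfold mc_ext
  rw [dif_neg (by omega)]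

private theorem mc_norm (m : ℕ) (x : EuclideanSpace ℂ (Fin (m + 1))) :
    ‖x‖ ^ 2 = ∑ i ∈ Finset.range (m + 1), ‖mc_ext m x i‖ ^ 2 := by
  rw [EuclideanSpace.norm_sq_eq, ← Fin.sum_univ_eq_sum_range (fun i => ‖mc_ext m x i‖ ^ 2) (m + 1)]
  refine Finset.sum_congr rfl fun i _ => ?_
  unfold mc_ext
  rw [dif_pos i.2]

/-- the operator -/
private noncomputable def mc_op (a : ℕ → ℂ) (m : ℕ) (h : ∀ j < m, ‖a j‖ ≤ 1) :
    EuclideanSpace ℂ (Fin (m + 1)) →ₗᵢ[ℂ] EuclideanSpace ℂ (Fin (m + 1)) where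
  toFun x := WithLp.toLp 2 (fun i : Fin (m + 1) => U a m (mc_ext m x) i)
  map_add' x y := by
    ext i
    simp [mc_ext_add, mc_U_add]
  map_smul' s x := by
    ext i
    simp [mc_ext_smul, mc_U_smul]
  norm_map' x := by
    have h1 : ‖(WithLp.toLp 2 (fun i : Fin (m + 1) => U a m (mc_ext m x) i) :
        EuclideanSpace ℂ (Fin (m + 1)))‖ ^ 2 = ‖x‖ ^ 2 := by
      rw [EuclideanSpace.norm_sq_eq, mc_norm m x, ← mc_U_norm a m m le_rfl h (mc_ext m x),
        ← Fin.sum_univ_eq_sum_range (fun i => ‖U a m (mc_ext m x) i‖ ^ 2) (m + 1)]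
    exact (sq_eq_sq₀ (norm_nonneg _) (norm_nonneg _)).mp h1

private theorem mc_ext_op (a : ℕ → ℂ) (m : ℕ) (h : ∀ j < m, ‖a j‖ ≤ 1)
    (x : EuclideanSpace ℂ (Fin (m + 1))) :
    mc_ext m (mc_op a m h x) = U a m (mc_ext m x) := by
  funext i
  by_cases hi : i < m + 1
  · unfold mc_ext
    rw [dif_pos hi]
    rfl
  · rw [mc_ext_supp m _ i (by omega), mc_U_supp a m m le_rfl _ (mc_ext_supp m x) i (by omega)]

private theorem mc_ext_iter (a : ℕ → ℂ) (m : ℕ) (h : ∀ j < m, ‖a j‖ ≤ 1)
    (x : EuclideanSpace ℂ (Fin (m + 1))) : ∀ k : ℕ,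
    mc_ext m ((mc_op a m h)^[k] x) = (U a m)^[k] (mc_ext m x) := by
  intro k
  induction k with
  | zero => rfl
  | succ k ih => rw [Function.iterate_succ_apply', Function.iterate_succ_apply', mc_ext_op, ih]

/-- Proof. The space is `EuclideanSpace ℂ (Fin (m + 1))`, the operator is `U a m` (extend by 0,
apply `U a m`, restrict; `G` is isometric because `‖a‖^2 + rho a^2 = 1`); for `k ≤ m` one has
`(U a m)^[k] (dl 0) = yy a k` because `U a m x = U a (k+1) x` for `x` vanishing in the coordinates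
`> k`, `k < m`. Then use `spec`; `∑ w = 1` is the case `k = 0`. -/
theorem rep (a : ℕ → ℂ) (m : ℕ) (h : ∀ j < m, ‖a j‖ ≤ 1) :
    ∃ (w : Fin (m + 1) → ℝ) (z : Fin (m + 1) → ℂ), (∀ i, 0 ≤ w i) ∧ (∀ i, ‖z i‖ = 1) ∧
      (∑ i, w i = 1) ∧ ∀ k ≤ m, mom a k = ∑ i, (w i : ℂ) * z i ^ k := by
  obtain ⟨w, z, hw, hz, hk⟩ := spec (m + 1) (EuclideanSpace ℂ (Fin (m + 1))) (by simp)
    (mc_op a m h) (EuclideanSpace.single (0 : Fin (m + 1)) (1 : ℂ))
  have hext : mc_ext m (EuclideanSpace.single (0 : Fin (m + 1)) (1 : ℂ)) = dl 0 := by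
    funext i
    unfold mc_ext dl
    by_cases hi : i < m + 1
    · rw [dif_pos hi]
      by_cases h0 : i = 0
      · subst h0
        simp
      · rw [if_neg h0, PiLp.single_apply, if_neg]
        intro h1
        exact h0 (congrArg Fin.val h1)
    · rw [dif_neg hi, if_neg (by omega)]
  have key : ∀ k ≤ m, mom a k = ∑ i, (w i : ℂ) * z i ^ k := by
    intro k hkm
    rw [← hk k, EuclideanSpace.inner_single_left, map_one, one_mul]
    have h1 := mc_ext_iter a m h (EuclideanSpace.single (0 : Fin (m + 1)) (1 : ℂ)) k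
    rw [hext, mc_iter a m k hkm] at h1
    have h2 := congrFun h1 0
    unfold mc_ext at h2
    rw [dif_pos (by omega)] at h2
    exact h2.symm
  refine ⟨w, z, hw, hz, ?_, key⟩
  have h0 := key 0 (Nat.zero_le m)
  have h1 : mom a 0 = 1 := by
    show dl 0 0 = 1
    unfold dl
    rw [if_pos rfl]
  rw [h1] at h0
  simp only [pow_zero, mul_one] at h0
  have h2 : ((1 : ℝ) : ℂ) = ((∑ i, w i : ℝ) : ℂ) := by
    rw [Complex.ofReal_sum, ← h0, Complex.ofReal_one]
  exact (Complex.ofReal_injective h2).symm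

end Pool.Agent.Hul
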