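import Pool.Agent.Hul.Glue

/-!
# MP_67b84b_gt, part C: supermultiplicativity and the limit
-/

set_option autoImplicit false

namespace Pool.Agent.Hul

open MeasureTheory Set Filter Topology

/- MODULE g1 : translation and scaling. -/
open scoped Pointwise in
private theorem g1_vol {n : ℕ} (f : ℝ → E n) (x : E n) : vol (fun t => f t - x) = vol f := by
  unfold vol
  have e : (fun t => f t - x) '' Icc 0 1 = (-x) +ᵥ (f '' Icc 0 1) := by
    ext y
    constructor
    · rintro ⟨t, ht, rfl⟩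
      exact ⟨f t, ⟨t, ht, rfl⟩, by simp [sub_eq_neg_add]⟩
    · rintro ⟨_, ⟨t, ht, rfl⟩, rfl⟩
      exact ⟨t, ht, by simp [sub_eq_neg_add]⟩
  rw [e, convexHull_vadd, measure_vadd]

theorem curve_translate {n : ℕ} {f : ℝ → E n} (hf : Curve f) (x : E n) :
    Curve (fun t => f t - x) ∧ len (fun t => f t - x) = len f ∧ vol (fun t => f t - x) = vol f := by
  have hv : eVariationOn (fun t => f t - x) (Icc 0 1) = eVariationOn f (Icc 0 1) := by
    unfold eVariationOn
    simp only [edist_sub_right]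
  refine ⟨⟨hf.cont.sub continuousOn_const, ?_, ?_, ?_⟩, ?_, ?_⟩
  · show f 0 - x = f 1 - x
    rw [hf.closed]
  · intro s hs t ht hst
    exact hf.simple hs ht (sub_left_injective hst)
  · rw [hv]; exact hf.rect
  · unfold len; rw [hv]
  · exact g1_vol f x

open scoped Pointwise in
private theorem g1_vol2 {n : ℕ} (f : ℝ → E n) {c : ℝ} (hc : 0 < c) :
    vol (fun t => c • f t) = c ^ n * vol f := by
  unfold vol
  have e : (fun t => c • f t) '' Icc 0 1 = c • (f '' Icc 0 1) := by
    ext y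
    constructor
    · rintro ⟨t, ht, rfl⟩
      exact ⟨f t, ⟨t, ht, rfl⟩, rfl⟩
    · rintro ⟨_, ⟨t, ht, rfl⟩, rfl⟩
      exact ⟨t, ht, rfl⟩
  rw [e, convexHull_smul, Measure.addHaar_smul, finrank_euclideanSpace_fin, ENNReal.toReal_mul,
    ENNReal.toReal_ofReal (abs_nonneg _), abs_of_pos (pow_pos hc n)]

theorem curve_smul {n : ℕ} {f : ℝ → E n} (hf : Curve f) {c : ℝ} (hc : 0 < c) :
    Curve (fun t => c • f t) ∧ len (fun t => c • f t) = c * len f ∧
      vol (fun t => c • f t) = c ^ n * vol f := by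
  have hv : eVariationOn (fun t => c • f t) (Icc 0 1) =
      ENNReal.ofReal c * eVariationOn f (Icc 0 1) := by
    unfold eVariationOn
    have h1 : (‖c‖₊ : ENNReal) = ENNReal.ofReal c := by
      rw [← enorm_eq_nnnorm, Real.enorm_of_nonneg hc.le]
    simp only [edist_smul₀, ENNReal.smul_def, smul_eq_mul, ← Finset.mul_sum, h1,
      ENNReal.mul_iSup]
  refine ⟨⟨hf.cont.const_smul c, ?_, ?_, ?_⟩, ?_, ?_⟩
  · show c • f 0 = c • f 1
    rw [hf.closed]
  · intro s hs t ht hst
    exact hf.simple hs ht (smul_right_injective (E n) hc.ne' hst)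
  · rw [hv]; exact ENNReal.mul_ne_top ENNReal.ofReal_ne_top hf.rect
  · unfold len; rw [hv, ENNReal.toReal_mul, ENNReal.toReal_ofReal hc.le]
  · exact g1_vol2 f hc
/- END g1 -/

/-- the normalised constants -/
noncomputable def a (n : ℕ) : ℝ := n.factorial * (n : ℝ) ^ n * gam n

/- MODULE g2 : supermultiplicativity.
IDEA: translate (`curve_translate`), scale `f` to length `p` and `g` to length `q`
(`curve_smul`, `len_pos`), apply `glue_bound`; then take suprema over the ratios (if `ratios p`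
or `ratios q` is empty, `gam = 0` and the claim is `gam_nonneg`). -/
theorem supermul {p q : ℕ} (hp : 1 ≤ p) (hq : 1 ≤ q) : a p * a q ≤ a (p + q) := by
  have hpq : 1 ≤ p + q := by omega
  have hA : 0 ≤ a (p + q) := by
    unfold a
    have := gam_nonneg (p + q)
    positivity
  have h1 : ∀ r ∈ ratios p, ∀ s ∈ ratios q,
      ((p.factorial : ℝ) * (p : ℝ) ^ p * r) * ((q.factorial : ℝ) * (q : ℝ) ^ q * s) ≤
        a (p + q) := by
    rintro r ⟨f, hf, rfl⟩ s ⟨g, hg, rfl⟩
    have lf := len_pos hf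
    have lg := len_pos hg
    have hp0 : (0 : ℝ) < p := by exact_mod_cast hp
    have hq0 : (0 : ℝ) < q := by exact_mod_cast hq
    obtain ⟨f1, f2, f3⟩ := curve_translate hf (f 0)
    obtain ⟨g1, g2, g3⟩ := curve_translate hg (g 0)
    obtain ⟨f4, f5, f6⟩ := curve_smul f1 (div_pos hp0 lf)
    obtain ⟨g4, g5, g6⟩ := curve_smul g1 (div_pos hq0 lg)
    have h2 := glue_bound hp hq f4 g4 (by simp) (by simp)
    rw [f5, g5, f6, g6, f2, g2, f3, g3, div_mul_cancel₀ _ lf.ne', div_mul_cancel₀ _ lg.ne'] at h2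
    unfold a
    have hfac : (0 : ℝ) < (p + q).factorial := by positivity
    rw [div_mul_eq_mul_div, div_le_iff₀ hfac] at h2
    rw [div_pow, div_pow] at h2
    push_cast
    calc _ = (p.factorial * q.factorial : ℝ) * ((p : ℝ) ^ p / len f ^ p * vol f *
          ((q : ℝ) ^ q / len g ^ q * vol g)) := by ring
      _ ≤ _ := h2
      _ = _ := by ring
  rcases (ratios p).eq_empty_or_nonempty with he | hne
  · have : a p = 0 := by unfold a gam; rw [he, Real.sSup_empty, mul_zero]
    rw [this, zero_mul]; exact hA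
  rcases (ratios q).eq_empty_or_nonempty with he | hne'
  · have : a q = 0 := by unfold a gam; rw [he, Real.sSup_empty, mul_zero]
    rw [this, mul_zero]; exact hA
  have hX : (0 : ℝ) < (p.factorial : ℝ) * (p : ℝ) ^ p := by positivity
  have hY : (0 : ℝ) < (q.factorial : ℝ) * (q : ℝ) ^ q := by positivity
  have hs0 : ∀ s ∈ ratios q, 0 ≤ s := by
    rintro s ⟨g, hg, rfl⟩
    exact div_nonneg ENNReal.toReal_nonneg (pow_nonneg (len_pos hg).le _)
  have h3 : ∀ s ∈ ratios q, a p * ((q.factorial : ℝ) * (q : ℝ) ^ q * s) ≤ a (p + q) := by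
    intro s hs
    rcases (hs0 s hs).eq_or_lt with h0 | hpos
    · rw [← h0, mul_zero, mul_zero]; exact hA
    · have h4 : 0 < (q.factorial : ℝ) * (q : ℝ) ^ q * s := mul_pos hY hpos
      rw [← le_div_iff₀ h4]
      unfold a
      rw [mul_comm, ← le_div_iff₀ hX]
      apply csSup_le hne
      intro r hr
      rw [le_div_iff₀ hX, le_div_iff₀ h4]
      have := h1 r hr s hs
      calc _ = ((p.factorial : ℝ) * (p : ℝ) ^ p * r) * ((q.factorial : ℝ) * (q : ℝ) ^ q * s) := by
            ring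
        _ ≤ a (p + q) := this
  have hap : 0 ≤ a p := by
    unfold a
    have := gam_nonneg p
    positivity
  rcases hap.eq_or_lt with h0 | hpos
  · rw [← h0, zero_mul]; exact hA
  · have h5 : a p * a q = (a p * ((q.factorial : ℝ) * (q : ℝ) ^ q)) * gam q := by
      unfold a; ring
    have h6 : 0 < a p * ((q.factorial : ℝ) * (q : ℝ) ^ q) := mul_pos hpos hY
    rw [h5, mul_comm, ← le_div_iff₀ h6]
    apply csSup_le hne'
    intro s hs
    rw [le_div_iff₀ h6]
    have := h3 s hs
    calc _ = a p * ((q.factorial : ℝ) * (q : ℝ) ^ q * s) := by ring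
      _ ≤ a (p + q) := this
/- END g2 -/

/- MODULE g3 : `gam 2 > 0` (the unit circle: `t ↦ (cos 2πt, sin 2πt)`; its hull contains the
three points `(1,0), (0,1), (-1,0)`, so its interior is nonempty; or a triangle). -/
/-- the unit circle -/
private noncomputable def g3_c (t : ℝ) : E 2 :=
  WithLp.toLp 2 ![Real.cos (2 * Real.pi * t), Real.sin (2 * Real.pi * t)]

private theorem g3_lip : LipschitzWith (4 * Real.toNNReal (Real.pi)) g3_c := by
  have hpi := Real.pi_pos
  apply LipschitzWith.of_dist_le_mul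
  intro s t
  rw [EuclideanSpace.dist_eq, Fin.sum_univ_two]
  have hcos : |Real.cos (2 * Real.pi * s) - Real.cos (2 * Real.pi * t)| ≤
      2 * Real.pi * |s - t| := by
    refine (Real.abs_cos_sub_cos_le _ _).trans (le_of_eq ?_)
    rw [← mul_sub, abs_mul, abs_of_pos (by positivity)]
  have hsin : |Real.sin (2 * Real.pi * s) - Real.sin (2 * Real.pi * t)| ≤
      2 * Real.pi * |s - t| := by
    refine (Real.abs_sin_sub_sin_le _ _).trans (le_of_eq ?_)
    rw [← mul_sub, abs_mul, abs_of_pos (by positivity)]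
  have e1 : dist ((g3_c s).ofLp 0) ((g3_c t).ofLp 0) =
      |Real.cos (2 * Real.pi * s) - Real.cos (2 * Real.pi * t)| := by
    rw [Real.dist_eq]; rfl
  have e2 : dist ((g3_c s).ofLp 1) ((g3_c t).ofLp 1) =
      |Real.sin (2 * Real.pi * s) - Real.sin (2 * Real.pi * t)| := by
    rw [Real.dist_eq]; rfl
  rw [e1, e2]
  apply Real.sqrt_le_iff.2
  constructor
  · positivity
  · have e3 : ((4 * Real.toNNReal Real.pi : NNReal) : ℝ) = 4 * Real.pi := by
      push_cast
      rw [Real.coe_toNNReal _ hpi.le]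
    rw [e3, Real.dist_eq]
    have h1 := pow_le_pow_left₀ (abs_nonneg _) hcos 2
    have h2 := pow_le_pow_left₀ (abs_nonneg _) hsin 2
    nlinarith [mul_nonneg (sq_nonneg Real.pi) (sq_nonneg |s - t|)]

private theorem g3_curve : Curve g3_c ∧ Metric.sphere (0 : E 2) 1 ⊆ g3_c '' Icc 0 1 := by
  have hpi := Real.pi_pos
  refine ⟨⟨g3_lip.continuous.continuousOn, ?_, ?_, ?_⟩, ?_⟩
  · unfold g3_c
    rw [mul_zero, mul_one, Real.cos_zero, Real.sin_zero, Real.cos_two_pi, Real.sin_two_pi]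
  · intro s hs t ht hst
    have hc : Real.cos (2 * Real.pi * s) = Real.cos (2 * Real.pi * t) :=
      congrArg (fun x : E 2 => x 0) hst
    have hs' : Real.sin (2 * Real.pi * s) = Real.sin (2 * Real.pi * t) :=
      congrArg (fun x : E 2 => x 1) hst
    have h2 : Real.cos (2 * Real.pi * s - 2 * Real.pi * t) = 1 := by
      rw [Real.cos_sub, hc, hs', ← sq, ← sq, Real.cos_sq_add_sin_sq]
    have h3 := (Real.cos_eq_one_iff_of_lt_of_lt (x := 2 * Real.pi * s - 2 * Real.pi * t)
      (by nlinarith [hs.1, hs.2, ht.1, ht.2]) (by nlinarith [hs.1, hs.2, ht.1, ht.2])).1 h2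
    have h4 : 2 * Real.pi * (s - t) = 0 := by linarith
    have h5 := (mul_eq_zero.1 h4).resolve_left (by positivity)
    linarith
  · have h := (g3_lip.lipschitzOnWith (s := Icc (0 : ℝ) 1)).locallyBoundedVariationOn
    have h2 := h 0 1 (by simp) (by simp)
    rw [inter_self] at h2
    exact h2
  · intro x hx
    have hn : ‖x‖ = 1 := by simpa using hx
    have hx2 : x 0 ^ 2 + x 1 ^ 2 = 1 := by
      have h1 := EuclideanSpace.norm_sq_eq x
      rw [hn, Fin.sum_univ_two, Real.norm_eq_abs, Real.norm_eq_abs, sq_abs, sq_abs] at h1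
      linarith
    obtain ⟨z, hz⟩ : ∃ z : ℂ, z = ⟨x 0, x 1⟩ := ⟨_, rfl⟩
    have hzn : ‖z‖ = 1 := by
      rw [Complex.norm_def, Complex.normSq_apply, hz]
      rw [Real.sqrt_eq_one]
      simp only
      linarith
    have hz0 : z ≠ 0 := by
      intro h0; rw [h0, norm_zero] at hzn; norm_num at hzn
    have hcos : Real.cos z.arg = x 0 := by
      rw [Complex.cos_arg hz0, hzn, div_one, hz]
    have hsin : Real.sin z.arg = x 1 := by
      rw [Complex.sin_arg, hzn, div_one, hz]
    have key : ∀ θ : ℝ, θ ∈ Icc 0 (2 * Real.pi) → Real.cos θ = x 0 → Real.sin θ = x 1 →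
        x ∈ g3_c '' Icc 0 1 := by
      intro θ hθ hc hs
      refine ⟨θ / (2 * Real.pi), ⟨div_nonneg hθ.1 (by positivity), ?_⟩, ?_⟩
      · rw [div_le_one (by positivity)]; exact hθ.2
      · unfold g3_c
        rw [mul_div_cancel₀ _ (by positivity), hc, hs]
        ext i
        fin_cases i <;> rfl
    rcases le_or_gt 0 z.arg with h0 | h0
    · exact key z.arg ⟨h0, by linarith [Complex.arg_le_pi z]⟩ hcos hsin
    · exact key (z.arg + 2 * Real.pi) ⟨by linarith [Complex.neg_pi_lt_arg z], by linarith⟩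
        (by rw [Real.cos_add_two_pi, hcos]) (by rw [Real.sin_add_two_pi, hsin])

theorem gam_two_pos : 0 < gam 2 := by
  have hpi := Real.pi_pos
  obtain ⟨hC, hS⟩ := g3_curve
  have h1 := le_gam (n := 2) (by norm_num) hC
  refine lt_of_lt_of_le ?_ h1
  apply div_pos _ (pow_pos (len_pos hC) _)
  unfold vol
  rw [ENNReal.toReal_pos_iff]
  constructor
  · have h2 : Metric.ball (0 : E 2) 1 ⊆ convexHull ℝ (g3_c '' Icc 0 1) := by
      refine Metric.ball_subset_closedBall.trans ?_
      rw [← convexHull_sphere_eq_closedBall (0 : E 2) zero_le_one]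
      exact convexHull_mono hS
    exact lt_of_lt_of_le (Metric.measure_ball_pos volume _ one_pos) (measure_mono h2)
  · have hc : IsCompact (g3_c '' Icc (0 : ℝ) 1) := isCompact_Icc.image_of_continuousOn hC.cont
    exact (isBounded_convexHull.2 hc.isBounded).measure_lt_top
/- END g3 -/

/- MODULE g4 : Fekete's lemma for all `n` (with `u 2 > 0`, `u 3 > 0` only).
IDEA: `u n > 0` for `n ≥ 2`; `L = sup_{n ≥ 2} u n ^ (1/n)`, finite; for `m ≥ 2` and
`n = k m + r`, `2 ≤ r < m + 2`: `u n ≥ u m ^ k * min_r u r`. -/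
theorem fekete {u : ℕ → ℝ} (h0 : ∀ n, 0 ≤ u n) (h2 : 0 < u 2) (h3 : 0 < u 3)
    (hm : ∀ p q, 1 ≤ p → 1 ≤ q → u p * u q ≤ u (p + q)) {K : ℝ}
    (hK : ∀ n, 1 ≤ n → u n ≤ K ^ n) :
    ∃ L : ℝ, 0 < L ∧ Tendsto (fun n : ℕ => u n ^ (1 / (n : ℝ))) atTop (𝓝 L) := by
  have hpos : ∀ n, 2 ≤ n → 0 < u n := by
    intro n
    induction n using Nat.strong_induction_on with
    | _ n ih =>
      intro hn
      rcases (by omega : n = 2 ∨ n = 3 ∨ 4 ≤ n) with rfl | rfl | h4
      · exact h2
      · exact h3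
      · have h5 := ih (n - 2) (by omega) (by omega)
        have h6 := hm 2 (n - 2) (by norm_num) (by omega)
        rw [show 2 + (n - 2) = n by omega] at h6
        exact lt_of_lt_of_le (mul_pos h2 h5) h6
  have hK0 : 0 < K := by
    have h5 := lt_of_lt_of_le h3 (hK 3 (by norm_num))
    by_contra hc
    rw [not_lt] at hc
    have : K ^ 3 ≤ 0 := by nlinarith [sq_nonneg K]
    linarith
  have hit : ∀ m, 2 ≤ m → ∀ k r, 1 ≤ r → u m ^ k * u r ≤ u (k * m + r) := by
    intro m hm2 k r hr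
    induction k with
    | zero => simp
    | succ k ih =>
      calc u m ^ (k + 1) * u r = u m * (u m ^ k * u r) := by ring
        _ ≤ u m * u (k * m + r) := mul_le_mul_of_nonneg_left ih (h0 m)
        _ ≤ u (m + (k * m + r)) := hm _ _ (by omega) (by omega)
        _ = _ := by congr 1; ring
  obtain ⟨x, hx⟩ : ∃ x : ℕ → ℝ, x = fun n => Real.log (u n) / n := ⟨_, rfl⟩
  have hxb : ∀ n, 2 ≤ n → x n ≤ Real.log K := by
    intro n hn
    have hn0 : (0 : ℝ) < n := by exact_mod_cast (by omega : 0 < n)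
    rw [hx]
    simp only
    rw [div_le_iff₀ hn0]
    have h5 := Real.log_le_log (hpos n hn) (hK n (by omega))
    rw [Real.log_pow] at h5
    linarith
  obtain ⟨l, hl⟩ : ∃ l, l = sSup (x '' Ici 2) := ⟨_, rfl⟩
  have hbdd : BddAbove (x '' Ici 2) := ⟨Real.log K, by
    rintro - ⟨n, hn, rfl⟩
    exact hxb n hn⟩
  have hxl : ∀ n, 2 ≤ n → x n ≤ l := by
    intro n hn
    rw [hl]
    exact le_csSup hbdd ⟨n, hn, rfl⟩
  have htend : Tendsto x atTop (𝓝 l) := by
    rw [tendsto_order]
    constructor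
    · intro b hb
      rw [hl] at hb
      obtain ⟨-, ⟨m, hm2, rfl⟩, hbm⟩ := exists_lt_of_lt_csSup
        (show (x '' Ici 2).Nonempty from ⟨x 2, 2, by simp, rfl⟩) hb
      rw [mem_Ici] at hm2
      have hm0 : (0 : ℝ) < m := by exact_mod_cast (by omega : 0 < m)
      obtain ⟨C, hC⟩ : ∃ C, C = ∑ r ∈ Finset.range (m + 2), |Real.log (u r)| := ⟨_, rfl⟩
      have hlow : ∀ n, m + 2 ≤ n → x m - ((m + 2) * |x m| + C) / n ≤ x n := by
        intro n hn
        have hn0 : (0 : ℝ) < n := by exact_mod_cast (by omega : 0 < n)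
        obtain ⟨k, hk⟩ : ∃ k, k = (n - 2) / m := ⟨_, rfl⟩
        obtain ⟨r, hr⟩ : ∃ r, r = (n - 2) % m + 2 := ⟨_, rfl⟩
        have hrm : r < m + 2 := by rw [hr]; have := Nat.mod_lt (n - 2) (by omega : m > 0); omega
        have hnk : n = k * m + r := by
          have := Nat.div_add_mod (n - 2) m
          rw [hk, hr, mul_comm ((n - 2) / m) m]
          omega
        have h5 := hit m hm2 k r (by omega)
        rw [← hnk] at h5
        have hur : 0 < u r := hpos r (by omega)
        have hum : 0 < u m := hpos m hm2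
        have h6 := Real.log_le_log (by positivity) h5
        rw [Real.log_mul (by positivity) hur.ne', Real.log_pow] at h6
        have hCr : |Real.log (u r)| ≤ C := by
          rw [hC]
          exact Finset.single_le_sum (f := fun r => |Real.log (u r)|)
            (fun i _ => abs_nonneg _) (Finset.mem_range.2 hrm)
        have h7 : -C ≤ Real.log (u r) := by
          have := neg_abs_le (Real.log (u r)); linarith
        have hum' : Real.log (u m) = x m * m := by
          rw [hx]; simp only; field_simp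
        have hkm : (k : ℝ) * m = n - r := by
          rw [hnk]; push_cast; ring
        have h8 : (k : ℝ) * Real.log (u m) = (n - r) * x m := by
          rw [hum', ← hkm]; ring
        have h9 : (r : ℝ) * x m ≤ (m + 2) * |x m| := by
          have h10 : (r : ℝ) ≤ m + 2 := by exact_mod_cast hrm.le
          calc (r : ℝ) * x m ≤ r * |x m| :=
                mul_le_mul_of_nonneg_left (le_abs_self _) (by positivity)
            _ ≤ _ := mul_le_mul_of_nonneg_right h10 (abs_nonneg _)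
        have h11 : x n * n = Real.log (u n) := by
          rw [hx]; simp only; field_simp
        have h12 : (x m - ((m + 2) * |x m| + C) / n) * n = x m * n - ((m + 2) * |x m| + C) := by
          field_simp
        have h13 : (x m - ((m + 2) * |x m| + C) / n) * n ≤ x n * n := by
          rw [h12, h11]; linarith
        exact le_of_mul_le_mul_right h13 hn0
      have hlim : Tendsto (fun n : ℕ => x m - ((m + 2) * |x m| + C) / n) atTop (𝓝 (x m - 0)) :=
        tendsto_const_nhds.sub (tendsto_const_div_atTop_nhds_zero_nat _)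
      rw [sub_zero] at hlim
      filter_upwards [hlim.eventually (lt_mem_nhds hbm), eventually_ge_atTop (m + 2)] with n h5 h6
      exact lt_of_lt_of_le h5 (hlow n h6)
    · intro b hb
      filter_upwards [eventually_ge_atTop 2] with n hn
      exact lt_of_le_of_lt (hxl n hn) hb
  refine ⟨Real.exp l, Real.exp_pos _, ?_⟩
  refine ((Real.continuous_exp.tendsto l).comp htend).congr' ?_
  filter_upwards [eventually_ge_atTop 2] with n hn
  show Real.exp (x n) = _
  rw [Real.rpow_def_of_pos (hpos n hn), hx]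
  simp only
  congr 1
  ring
/- END g4 -/

/- MODULE g5 : Stirling: `n / (n!)^(1/n) → e`, and the upper bound `a n ≤ n^(n/2)/√((n+1)!)`,
whose `n`-th root tends to `√e`; a bound `a n ≤ K^n`. -/
private theorem g5_ln : Tendsto (fun n : ℕ => Real.log n / n) atTop (𝓝 0) := by
  have h := (Real.tendsto_pow_log_div_mul_add_atTop 1 0 1 one_ne_zero).comp
    (tendsto_natCast_atTop_atTop (R := ℝ))
  refine h.congr fun n => ?_
  simp

private theorem g5_log : Tendsto (fun n : ℕ => Real.log n - Real.log n.factorial / n) atTop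
    (𝓝 1) := by
  have h1 : Tendsto (fun n : ℕ => Real.log (Stirling.stirlingSeq n) / n) atTop (𝓝 0) := by
    have h2 : Tendsto (fun n : ℕ => Real.log (Stirling.stirlingSeq n)) atTop
        (𝓝 (Real.log √Real.pi)) :=
      (Real.continuousAt_log (by positivity)).tendsto.comp Stirling.tendsto_stirlingSeq_sqrt_pi
    exact h2.div_atTop tendsto_natCast_atTop_atTop
  have h3 : Tendsto (fun n : ℕ => Real.log 2 / n) atTop (𝓝 0) :=
    tendsto_const_div_atTop_nhds_zero_nat _
  have h4 : Tendsto (fun n : ℕ => 1 - Real.log (Stirling.stirlingSeq n) / n -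
      1 / 2 * (Real.log 2 / n + Real.log n / n)) atTop (𝓝 (1 - 0 - 1 / 2 * (0 + 0))) :=
    (tendsto_const_nhds.sub h1).sub ((h3.add g5_ln).const_mul _)
  rw [show (1 : ℝ) - 0 - 1 / 2 * (0 + 0) = 1 by norm_num] at h4
  refine h4.congr' ?_
  filter_upwards [eventually_ge_atTop 1] with n hn
  have hn0 : (0 : ℝ) < n := by exact_mod_cast hn
  rw [Stirling.log_stirlingSeq_formula, Real.log_div hn0.ne' (Real.exp_pos 1).ne', Real.log_exp,
    Real.log_mul two_ne_zero hn0.ne']
  field_simp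
  ring

theorem tendsto_fact : Tendsto (fun n : ℕ => (n : ℝ) / ((n.factorial : ℝ) ^ (1 / (n : ℝ)))) atTop
    (𝓝 (Real.exp 1)) := by
  refine ((Real.continuous_exp.tendsto 1).comp g5_log).congr' ?_
  filter_upwards [eventually_ge_atTop 1] with n hn
  have hn0 : (0 : ℝ) < n := by exact_mod_cast hn
  have hf : (0 : ℝ) < n.factorial := by positivity
  show Real.exp (Real.log n - Real.log n.factorial / n) = _
  rw [Real.exp_sub, Real.exp_log hn0, Real.rpow_def_of_pos hf]
  congr 2
  ring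

theorem a_le {n : ℕ} (hn : 1 ≤ n) : a n ≤ (n : ℝ) ^ ((n : ℝ) / 2) / √((n + 1).factorial : ℝ) := by
  have hn0 : (0 : ℝ) < n := by exact_mod_cast hn
  have h1 : a n ≤ n.factorial * (n : ℝ) ^ n * upp n := by
    unfold a
    exact mul_le_mul_of_nonneg_left (gam_le hn) (by positivity)
  refine h1.trans (le_of_eq ?_)
  unfold upp
  have h2 : (n : ℝ) ^ n = (n : ℝ) ^ ((n : ℝ) / 2) * (n : ℝ) ^ ((n : ℝ) / 2) := by
    rw [← Real.rpow_add hn0, add_halves, Real.rpow_natCast]
  have h3 : 0 < (n : ℝ) ^ ((n : ℝ) / 2) := Real.rpow_pos_of_pos hn0 _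
  have h4 : (0 : ℝ) < √((n + 1).factorial : ℝ) := Real.sqrt_pos.2 (by positivity)
  rw [h2]
  field_simp

theorem tendsto_upper : Tendsto (fun n : ℕ =>
    ((n : ℝ) ^ ((n : ℝ) / 2) / √((n + 1).factorial : ℝ)) ^ (1 / (n : ℝ))) atTop
    (𝓝 (Real.exp (1 / 2))) := by
  have h1 : Tendsto (fun n : ℕ => Real.log ((n : ℝ) + 1) / n) atTop (𝓝 0) := by
    have h := (Real.tendsto_pow_log_div_mul_add_atTop 1 (-1) 1 one_ne_zero).comp
      (tendsto_natCast_atTop_atTop (R := ℝ).atTop_add (tendsto_const_nhds (x := (1 : ℝ))))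
    refine h.congr fun n => ?_
    simp
  have h2 : Tendsto (fun n : ℕ => 1 / 2 * ((Real.log n - Real.log n.factorial / n) -
      Real.log ((n : ℝ) + 1) / n)) atTop (𝓝 (1 / 2 * (1 - 0))) := (g5_log.sub h1).const_mul _
  rw [show (1 / 2 * (1 - 0) : ℝ) = 1 / 2 by norm_num] at h2
  refine ((Real.continuous_exp.tendsto _).comp h2).congr' ?_
  filter_upwards [eventually_ge_atTop 1] with n hn
  have hn0 : (0 : ℝ) < n := by exact_mod_cast hn
  have hf : (0 : ℝ) < n.factorial := by positivity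
  have h3 : 0 < (n : ℝ) ^ ((n : ℝ) / 2) := Real.rpow_pos_of_pos hn0 _
  have h4 : (0 : ℝ) < √((n + 1).factorial : ℝ) := Real.sqrt_pos.2 (by positivity)
  rw [Real.rpow_def_of_pos (div_pos h3 h4), Real.log_div h3.ne' h4.ne', Real.log_rpow hn0,
    Real.log_sqrt (by positivity), Nat.factorial_succ]
  push_cast
  rw [Real.log_mul (by positivity) hf.ne']
  show Real.exp _ = _
  congr 1
  field_simp
  ring

theorem a_le_pow : ∃ K : ℝ, ∀ n : ℕ, 1 ≤ n → a n ≤ K ^ n := by
  obtain ⟨K, hK⟩ := tendsto_upper.bddAbove_range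
  refine ⟨K, fun n hn => (a_le hn).trans ?_⟩
  have hn0 : (0 : ℝ) < n := by exact_mod_cast hn
  have h1 := hK ⟨n, rfl⟩
  have h5 : (0 : ℝ) ≤ (n : ℝ) ^ ((n : ℝ) / 2) / √((n + 1).factorial : ℝ) := by positivity
  have h2 : ((n : ℝ) ^ ((n : ℝ) / 2) / √((n + 1).factorial : ℝ)) =
      (((n : ℝ) ^ ((n : ℝ) / 2) / √((n + 1).factorial : ℝ)) ^ (1 / (n : ℝ))) ^ n := by
    rw [← Real.rpow_natCast, ← Real.rpow_mul h5, one_div, inv_mul_cancel₀ hn0.ne', Real.rpow_one]
  rw [h2]
  exact pow_le_pow_left₀ (Real.rpow_nonneg h5 _) h1 n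
/- END g5 -/

/- MODULE g6 : the limit, given `gam 3 > 0`. -/
theorem exists_limit (h3 : 0 < gam 3) :
    ∃ c : ℝ, 0 < c ∧ c ≤ Real.exp (3 / 2) ∧
      Tendsto (fun n : ℕ => (n : ℝ) ^ 2 * gam n ^ (1 / (n : ℝ))) atTop (𝓝 c) := by
  have hg2 := gam_two_pos
  obtain ⟨K, hK⟩ := a_le_pow
  have ha0 : ∀ n, 0 ≤ a n := by
    intro n
    unfold a
    have := gam_nonneg n
    positivity
  obtain ⟨L, hL0, hL⟩ := fekete (u := a) ha0 (by unfold a; positivity) (by unfold a; positivity)
    (fun p q hp hq => supermul hp hq) hK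
  have hLe : L ≤ Real.exp (1 / 2) := by
    refine le_of_tendsto_of_tendsto hL tendsto_upper ?_
    filter_upwards [eventually_ge_atTop 1] with n hn
    exact Real.rpow_le_rpow (ha0 n) (a_le hn) (by positivity)
  refine ⟨L * Real.exp 1, by positivity, ?_, ?_⟩
  · calc L * Real.exp 1 ≤ Real.exp (1 / 2) * Real.exp 1 :=
          mul_le_mul_of_nonneg_right hLe (Real.exp_pos 1).le
      _ = Real.exp (3 / 2) := by rw [← Real.exp_add]; norm_num
  · refine (hL.mul tendsto_fact).congr' ?_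
    filter_upwards [eventually_ge_atTop 1] with n hn
    have hn0 : (0 : ℝ) < n := by exact_mod_cast hn
    have hf : (0 : ℝ) < n.factorial := by positivity
    have h1 : a n ^ (1 / (n : ℝ)) = (n.factorial : ℝ) ^ (1 / (n : ℝ)) * n *
        gam n ^ (1 / (n : ℝ)) := by
      unfold a
      rw [Real.mul_rpow (by positivity) (gam_nonneg n), Real.mul_rpow hf.le (by positivity)]
      congr 2
      rw [← Real.rpow_natCast, ← Real.rpow_mul hn0.le, mul_one_div_cancel hn0.ne', Real.rpow_one]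
    have h2 : 0 < (n.factorial : ℝ) ^ (1 / (n : ℝ)) := Real.rpow_pos_of_pos hf _
    rw [h1]
    field_simp
/- END g6 -/

/- MODULE g7 : the lower bound for the limit, given the lower bound of part B.
IDEA: `((2m+1)^2) (low m)^(1/(2m+1)) → e^(3/2) √(2/π)` by Stirling (`tendsto_fact`). -/
theorem tendsto_low : Tendsto (fun m : ℕ =>
    ((2 * m + 1 : ℕ) : ℝ) ^ 2 * low m ^ (1 / ((2 * m + 1 : ℕ) : ℝ))) atTop
    (𝓝 (Real.exp (3 / 2) * √(2 / Real.pi))) := by
  have hpi := Real.pi_pos
  have hN : Tendsto (fun m : ℕ => ((2 * m + 1 : ℕ) : ℝ)) atTop atTop :=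
    tendsto_natCast_atTop_atTop.comp (tendsto_atTop_mono (fun m => by simp only [id]; omega) tendsto_id)
  -- m / n
  have hinv : Tendsto (fun m : ℕ => (1 : ℝ) / ((2 * m + 1 : ℕ) : ℝ)) atTop (𝓝 0) :=
    tendsto_const_nhds.div_atTop hN
  have hmn : Tendsto (fun m : ℕ => (m : ℝ) / ((2 * m + 1 : ℕ) : ℝ)) atTop (𝓝 (1 / 2)) := by
    have h1 : Tendsto (fun m : ℕ => 1 / 2 * (1 - 1 / ((2 * m + 1 : ℕ) : ℝ))) atTop
        (𝓝 (1 / 2 * (1 - 0))) := (tendsto_const_nhds.sub hinv).const_mul _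
    rw [show (1 / 2 * (1 - 0) : ℝ) = 1 / 2 by norm_num] at h1
    refine h1.congr fun m => ?_
    push_cast
    field_simp
    ring
  have hlm : Tendsto (fun m : ℕ => Real.log m / ((2 * m + 1 : ℕ) : ℝ)) atTop (𝓝 0) := by
    have h1 := g5_ln.mul hmn
    rw [zero_mul] at h1
    refine h1.congr' ?_
    filter_upwards [eventually_ge_atTop 1] with m hm
    have hm0 : (0 : ℝ) < m := by exact_mod_cast hm
    field_simp
  have hlm1 : Tendsto (fun m : ℕ => Real.log ((m : ℝ) + 1) / ((2 * m + 1 : ℕ) : ℝ)) atTop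
      (𝓝 0) := by
    have h1 : Tendsto (fun m : ℕ => Real.log ((m : ℝ) + 1) / m) atTop (𝓝 0) := by
      have h := (Real.tendsto_pow_log_div_mul_add_atTop 1 (-1) 1 one_ne_zero).comp
        (tendsto_natCast_atTop_atTop (R := ℝ).atTop_add (tendsto_const_nhds (x := (1 : ℝ))))
      refine h.congr fun n => ?_
      simp
    have h2 := h1.mul hmn
    rw [zero_mul] at h2
    refine h2.congr' ?_
    filter_upwards [eventually_ge_atTop 1] with m hm
    have hm0 : (0 : ℝ) < m := by exact_mod_cast hm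
    field_simp
  have hnm : Tendsto (fun m : ℕ => Real.log ((2 * m + 1 : ℕ) : ℝ) - Real.log m) atTop
      (𝓝 (Real.log 2)) := by
    have h1 : Tendsto (fun m : ℕ => (2 : ℝ) + 1 / m) atTop (𝓝 (2 + 0)) :=
      tendsto_const_nhds.add tendsto_one_div_atTop_nhds_zero_nat
    rw [add_zero] at h1
    have h2 := (Real.continuousAt_log (two_ne_zero (α := ℝ))).tendsto.comp h1
    refine h2.congr' ?_
    filter_upwards [eventually_ge_atTop 1] with m hm
    have hm0 : (0 : ℝ) < m := by exact_mod_cast hm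
    show Real.log (2 + 1 / m) = _
    rw [← Real.log_div (by positivity) hm0.ne']
    congr 1
    push_cast
    field_simp
  have hA := hmn.mul g5_log
  have key : Tendsto (fun m : ℕ => 1 / ((2 * m + 1 : ℕ) : ℝ) * (1 / 2 * Real.log 2)
      - (m : ℝ) / ((2 * m + 1 : ℕ) : ℝ) * Real.log 4
      - ((m : ℝ) / ((2 * m + 1 : ℕ) : ℝ) + 1 / ((2 * m + 1 : ℕ) : ℝ)) * Real.log Real.pi
      - Real.log ((m : ℝ) + 1) / ((2 * m + 1 : ℕ) : ℝ)
      + 3 * ((m : ℝ) / ((2 * m + 1 : ℕ) : ℝ) * (Real.log m - Real.log m.factorial / m))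
      + (3 / 2 * (Real.log ((2 * m + 1 : ℕ) : ℝ) - Real.log m) +
        3 / 2 * (Real.log m / ((2 * m + 1 : ℕ) : ℝ)))) atTop
      (𝓝 (0 * (1 / 2 * Real.log 2) - 1 / 2 * Real.log 4 - (1 / 2 + 0) * Real.log Real.pi - 0
        + 3 * (1 / 2 * 1) + (3 / 2 * Real.log 2 + 3 / 2 * 0))) :=
    (((((hinv.mul_const _).sub (hmn.mul_const _)).sub ((hmn.add hinv).mul_const _)).sub hlm1).add
      (hA.const_mul 3)).add ((hnm.const_mul _).add (hlm.const_mul _))
  have h4 : Real.log 4 = 2 * Real.log 2 := by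
    rw [show (4 : ℝ) = 2 ^ 2 by norm_num, Real.log_pow]; norm_num
  have e1 : (0 * (1 / 2 * Real.log 2) - 1 / 2 * Real.log 4 - (1 / 2 + 0) * Real.log Real.pi - 0
        + 3 * (1 / 2 * 1) + (3 / 2 * Real.log 2 + 3 / 2 * 0)) =
      3 / 2 + 1 / 2 * (Real.log 2 - Real.log Real.pi) := by rw [h4]; ring
  rw [e1] at key
  have e2 : Real.exp (3 / 2) * √(2 / Real.pi) =
      Real.exp (3 / 2 + 1 / 2 * (Real.log 2 - Real.log Real.pi)) := by
    rw [Real.exp_add, Real.sqrt_eq_rpow, Real.rpow_def_of_pos (by positivity),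
      Real.log_div two_ne_zero hpi.ne', mul_comm (1 / 2 : ℝ)]
  rw [e2]
  refine ((Real.continuous_exp.tendsto _).comp key).congr' ?_
  filter_upwards [eventually_ge_atTop 1] with m hm
  have hm0 : (0 : ℝ) < m := by exact_mod_cast hm
  have hn0 : (0 : ℝ) < ((2 * m + 1 : ℕ) : ℝ) := by positivity
  have hf : (0 : ℝ) < m.factorial := by positivity
  have hlow : 0 < low m := by unfold low; positivity
  have hloglow : Real.log (low m) = 1 / 2 * Real.log 2 - (m * Real.log 4 +
      (2 * m + 1) / 2 * Real.log ((2 * m + 1 : ℕ) : ℝ) + (m + 1) * Real.log Real.pi +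
      Real.log ((m : ℝ) + 1) + 3 * Real.log m.factorial) := by
    unfold low
    have p1 : (4 : ℝ) ^ m ≠ 0 := by positivity
    have p2 : ((2 * m + 1 : ℕ) : ℝ) ^ ((2 * m + 1 : ℝ) / 2) ≠ 0 := (Real.rpow_pos_of_pos hn0 _).ne'
    have p3 : Real.pi ^ (m + 1) ≠ 0 := by positivity
    have p4 : (m : ℝ) + 1 ≠ 0 := by positivity
    have p5 : (m.factorial : ℝ) ^ 3 ≠ 0 := by positivity
    rw [Real.log_div (by positivity) (mul_ne_zero (mul_ne_zero (mul_ne_zero (mul_ne_zero p1 p2) p3)
      p4) p5), Real.log_mul (mul_ne_zero (mul_ne_zero (mul_ne_zero p1 p2) p3) p4) p5,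
      Real.log_mul (mul_ne_zero (mul_ne_zero p1 p2) p3) p4,
      Real.log_mul (mul_ne_zero p1 p2) p3, Real.log_mul p1 p2, Real.log_pow, Real.log_rpow hn0,
      Real.log_pow, Real.log_pow, Real.log_sqrt (by norm_num)]
    push_cast
    ring
  show Real.exp _ = _
  rw [Real.rpow_def_of_pos hlow, hloglow]
  have e3 : ((2 * m + 1 : ℕ) : ℝ) ^ 2 = Real.exp (2 * Real.log ((2 * m + 1 : ℕ) : ℝ)) := by
    rw [← Real.exp_log hn0, ← Real.exp_nat_mul, Real.exp_log hn0]
    norm_num
  rw [e3, ← Real.exp_add]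
  congr 1
  push_cast
  field_simp
  ring

theorem limit_ge {c : ℝ}
    (hc : Tendsto (fun n : ℕ => (n : ℝ) ^ 2 * gam n ^ (1 / (n : ℝ))) atTop (𝓝 c))
    (hl : ∀ m : ℕ, 1 ≤ m → low m ≤ gam (2 * m + 1)) :
    Real.exp (3 / 2) * √(2 / Real.pi) ≤ c := by
  have hsub : Tendsto (fun m : ℕ => ((2 * m + 1 : ℕ) : ℝ) ^ 2 *
      gam (2 * m + 1) ^ (1 / ((2 * m + 1 : ℕ) : ℝ))) atTop (𝓝 c) := by
    have h1 : Tendsto (fun m : ℕ => 2 * m + 1) atTop atTop :=
      tendsto_atTop_mono (fun m => by simp only [id]; omega) tendsto_id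
    exact hc.comp h1
  refine le_of_tendsto_of_tendsto tendsto_low hsub ?_
  filter_upwards [eventually_ge_atTop 1] with m hm
  apply mul_le_mul_of_nonneg_left _ (by positivity)
  apply Real.rpow_le_rpow _ (hl m hm) (by positivity)
  unfold low
  positivity
/- END g7 -/

end Pool.Agent.Hul
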