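import Pool.Agent.Hul.Pyr

/-!
# MP_67b84b_gt, part A: the path bound

The volume of the hull of a path `v 0, …, v N` in `ℝ^D` is at most
`(1/(D!)^2) ∑_{φ : Fin D → Fin N} |det (e (φ j))_j|`, `e i = v (i+1) - v i`.
-/

set_option autoImplicit false

namespace Pool.Agent.Hul

open MeasureTheory Set

/-- `∑_φ |det (e (φ j))_j|` over all functions `φ : Fin D → Fin N` -/
noncomputable def detsum {D N : ℕ} (e : Fin N → Fin D → ℝ) : ℝ :=
  ∑ φ : Fin D → Fin N, |(Matrix.of fun j => e (φ j)).det|

/-- the edges of a path -/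
def edges {D N : ℕ} (v : Fin (N + 1) → Fin D → ℝ) (i : Fin N) : Fin D → ℝ :=
  v i.succ - v i.castSucc

theorem detsum_nonneg {D N : ℕ} (e : Fin N → Fin D → ℝ) : 0 ≤ detsum e :=
  Finset.sum_nonneg fun _ _ => abs_nonneg _

/- MODULE b1 : splitting of the determinant sum.
IDEA: the functions `φ : Fin (D+1) → Fin (N+1)` which avoid `0` are `Fin.succ ∘ φ'`; those which
take the value `0` exactly once are `Fin.insertNth j 0 (Fin.succ ∘ ψ)`; moving row `j` to the top
changes the sign only (`Matrix.det_permute'`/cyclic permutation, or by the Laplace expansion). -/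
/-- the injection behind `detsum_split` -/
private def b1_F {D N : ℕ} :
    (Fin (D + 1) → Fin N) ⊕ (Fin (D + 1) × (Fin D → Fin N)) → (Fin (D + 1) → Fin (N + 1))
  | Sum.inl φ => fun j => (φ j).succ
  | Sum.inr p => p.1.insertNth 0 (fun i => (p.2 i).succ)

private theorem b1_inj {D N : ℕ} : Function.Injective (b1_F (D := D) (N := N)) := by
  rintro (φ | ⟨j, ψ⟩) (φ' | ⟨j', ψ'⟩) h
  · congr 1
    funext i
    have := congrFun h i
    exact Fin.succ_injective _ this
  · exfalso
    have := congrFun h j'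
    simp only [b1_F, Fin.insertNth_apply_same] at this
    exact Fin.succ_ne_zero _ this
  · exfalso
    have := congrFun h j
    simp only [b1_F, Fin.insertNth_apply_same] at this
    exact Fin.succ_ne_zero _ this.symm
  · have hj : j = j' := by
      by_contra hne
      obtain ⟨k, hk⟩ := Fin.exists_succAbove_eq (x := j) (y := j') hne
      have h1 := congrFun h j
      simp only [b1_F, Fin.insertNth_apply_same] at h1
      rw [← hk, Fin.insertNth_apply_succAbove] at h1
      exact Fin.succ_ne_zero _ h1.symm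
    subst hj
    congr 2
    funext i
    have h1 := congrFun h (j.succAbove i)
    simp only [b1_F, Fin.insertNth_apply_succAbove] at h1
    exact Fin.succ_injective _ h1

private theorem b1_det {D : ℕ} (j : Fin (D + 1)) (a : Fin (D + 1) → ℝ)
    (r : Fin D → Fin (D + 1) → ℝ) (R : Fin (D + 1) → Fin (D + 1) → ℝ) (h0 : R j = a)
    (h1 : ∀ i, R (j.succAbove i) = r i) :
    |(Matrix.of R).det| = |(Matrix.of (Fin.cons a r : Fin (D + 1) → Fin (D + 1) → ℝ)).det| := by
  have hR : Matrix.of R = (Matrix.of (Fin.cons a r : Fin (D + 1) → Fin (D + 1) → ℝ)).submatrix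
      (Fin.cycleRange j) id := by
    ext i k
    rw [Matrix.submatrix_apply, Matrix.of_apply, Matrix.of_apply, id_eq]
    rcases Fin.eq_self_or_eq_succAbove j i with rfl | ⟨l, rfl⟩
    · rw [Fin.cycleRange_self, Fin.cons_zero, h0]
    · rw [Fin.cycleRange_succAbove, Fin.cons_succ, h1]
  rw [hR, Matrix.det_permute, abs_mul]
  have : |((Equiv.Perm.sign (Fin.cycleRange j) : ℤˣ) : ℝ)| = 1 := by
    rcases Int.units_eq_one_or (Equiv.Perm.sign (Fin.cycleRange j)) with h | h <;> rw [h] <;> simp
  rw [this, one_mul]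

theorem detsum_split {D N : ℕ} (e : Fin (N + 1) → Fin (D + 1) → ℝ) :
    detsum (fun i : Fin N => e i.succ) +
      (D + 1) * ∑ ψ : Fin D → Fin N,
        |(Matrix.of (Fin.cons (e 0) (fun j => e (ψ j).succ) : Fin (D + 1) → Fin (D + 1) → ℝ)).det| ≤
      detsum e := by
  have key : ∑ x : (Fin (D + 1) → Fin N) ⊕ (Fin (D + 1) × (Fin D → Fin N)),
      |(Matrix.of fun j => e (b1_F x j)).det| ≤ detsum e := by
    have h1 := Finset.sum_map Finset.univ (⟨b1_F, b1_inj⟩ :
      ((Fin (D + 1) → Fin N) ⊕ (Fin (D + 1) × (Fin D → Fin N))) ↪ (Fin (D + 1) → Fin (N + 1)))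
      (fun φ : Fin (D + 1) → Fin (N + 1) => |(Matrix.of fun j => e (φ j)).det|)
    refine le_trans (le_of_eq h1.symm) ?_
    exact Finset.sum_le_univ_sum_of_nonneg fun _ => abs_nonneg _
  refine le_trans (le_of_eq ?_) key
  rw [Fintype.sum_sum_type, Fintype.sum_prod_type]
  congr 1
  have hin : ∀ j : Fin (D + 1), ∑ ψ : Fin D → Fin N,
      |(Matrix.of fun i => e (b1_F (Sum.inr (j, ψ)) i)).det| = ∑ ψ : Fin D → Fin N,
        |(Matrix.of (Fin.cons (e 0) (fun j => e (ψ j).succ) :
          Fin (D + 1) → Fin (D + 1) → ℝ)).det| := by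
    intro j
    refine Finset.sum_congr rfl fun ψ _ => ?_
    refine b1_det j (e 0) (fun j => e (ψ j).succ) _ ?_ ?_
    · simp only [b1_F, Fin.insertNth_apply_same]
    · intro i
      simp only [b1_F, Fin.insertNth_apply_succAbove]
  rw [Finset.sum_congr rfl fun j _ => hin j, Finset.sum_const, Finset.card_univ, Fintype.card_fin,
    nsmul_eq_mul]
  push_cast
  rfl
/- END b1 -/

/- MODULE b2 : if the first row is `Pi.single 0 1`, the determinant is that of the minor (drop
column `0`). -/
theorem det_single {D : ℕ} (r : Fin D → Fin (D + 1) → ℝ) :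
    (Matrix.of (Fin.cons (Pi.single 0 1) r : Fin (D + 1) → Fin (D + 1) → ℝ)).det =
      (Matrix.of fun j => Fin.tail (r j)).det := by
  rw [Matrix.det_succ_row_zero, Finset.sum_eq_single 0]
  · have h1 : (Matrix.of (Fin.cons (Pi.single 0 1) r : Fin (D + 1) → Fin (D + 1) → ℝ)) 0 0 = 1 := by
      change (Fin.cons (Pi.single 0 1) r : Fin (D + 1) → Fin (D + 1) → ℝ) 0 0 = 1
      rw [Fin.cons_zero, Pi.single_eq_same]
    rw [h1, Fin.val_zero, pow_zero, one_mul, one_mul]
    rfl
  · intro j _ hj
    have h1 : (Matrix.of (Fin.cons (Pi.single 0 1) r : Fin (D + 1) → Fin (D + 1) → ℝ)) 0 j = 0 := by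
      change (Fin.cons (Pi.single 0 1) r : Fin (D + 1) → Fin (D + 1) → ℝ) 0 j = 0
      rw [Fin.cons_zero, Pi.single_eq_of_ne hj]
    rw [h1, mul_zero, zero_mul]
  · intro h
    exact absurd (Finset.mem_univ _) h
/- END b2 -/

/- MODULE b3 : linear invariance.
IDEA: `MeasureTheory.Measure.addHaar_image_linearMap`, `LinearMap.image_convexHull`; rows
`A (e i)` = `e * Aᵀ`, so `det = det e * det A` (`LinearMap.det_toMatrix'`). -/
theorem detsum_map {D N : ℕ} (A : (Fin D → ℝ) →ₗ[ℝ] (Fin D → ℝ)) (e : Fin N → Fin D → ℝ) :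
    detsum (fun i => A (e i)) = |LinearMap.det A| * detsum e := by
  unfold detsum
  rw [Finset.mul_sum]
  refine Finset.sum_congr rfl fun φ _ => ?_
  have h : (Matrix.of fun j => A (e (φ j))) =
      (Matrix.of fun j => e (φ j)) * (LinearMap.toMatrix' A).transpose := by
    ext j k
    rw [Matrix.mul_apply, Matrix.of_apply]
    have h1 := congrFun (LinearMap.toMatrix'_mulVec A (e (φ j))) k
    rw [← h1, Matrix.mulVec, dotProduct]
    refine Finset.sum_congr rfl fun l _ => ?_
    rw [Matrix.transpose_apply, Matrix.of_apply, mul_comm]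
  rw [h, Matrix.det_mul, Matrix.det_transpose, LinearMap.det_toMatrix', abs_mul, mul_comm]

theorem volume_map {D N : ℕ} (A : (Fin D → ℝ) →ₗ[ℝ] (Fin D → ℝ)) (v : Fin N → Fin D → ℝ) :
    volume (convexHull ℝ (range fun i => A (v i))) =
      ENNReal.ofReal |LinearMap.det A| * volume (convexHull ℝ (range v)) := by
  have h : (range fun i => A (v i)) = A '' range v := by
    rw [← range_comp]; rfl
  rw [h, ← LinearMap.image_convexHull, Measure.addHaar_image_linearMap]

theorem exists_to_single {D : ℕ} {x : Fin (D + 1) → ℝ} (hx : x ≠ 0) :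
    ∃ A : (Fin (D + 1) → ℝ) ≃ₗ[ℝ] (Fin (D + 1) → ℝ), A x = Pi.single 0 1 := by
  obtain ⟨A, hA⟩ := SeparatingDual.exists_continuousLinearEquiv_apply_eq (R := ℝ) hx
    (y := (Pi.single 0 1 : Fin (D + 1) → ℝ)) (by
      intro h
      have := congrFun h 0
      simp at this)
  exact ⟨A.toLinearEquiv, hA⟩
/- END b3 -/

/- MODULE b4 : one step with the first edge equal to `Pi.single 0 1`: `v 1 = v 0 + (1, 0, …, 0)`.
IDEA: transport `vol_insert_le` through `MeasurableEquiv.piFinSuccAbove (fun _ => ℝ) 0`
(`volume_preserving_piFinSuccAbove`), a linear bijection `(Fin (D+1) → ℝ) → ℝ × (Fin D → ℝ)`,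
with `K = convexHull (range fun i => v i.succ)` (compact: hull of a finite set). -/
private theorem b4_lin {D : ℕ} :
    IsLinearMap ℝ (MeasurableEquiv.piFinSuccAbove (fun _ : Fin (D + 1) => ℝ) 0) :=
  ⟨fun _ _ => rfl, fun _ _ => rfl⟩

private theorem b4_hull {D N : ℕ} (v : Fin N → Fin (D + 1) → ℝ) :
    volume (convexHull ℝ (range v)) =
      volume (convexHull ℝ (range fun i => (v i 0, Fin.tail (v i)))) := by
  have h1 : (range fun i => (v i 0, Fin.tail (v i))) =
      MeasurableEquiv.piFinSuccAbove (fun _ : Fin (D + 1) => ℝ) 0 '' range v := by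
    rw [← range_comp]
    rfl
  rw [h1, ← b4_lin.image_convexHull, MeasurableEquiv.image_eq_preimage_symm]
  exact ((volume_preserving_piFinSuccAbove (fun _ : Fin (D + 1) => ℝ) 0).symm
    _).measure_preimage_equiv _ |>.symm

theorem step_single {D N : ℕ} (v : Fin (N + 2) → Fin (D + 1) → ℝ)
    (hv : v 1 = v 0 + Pi.single 0 1) :
    volume (convexHull ℝ (range v)) ≤
      volume (convexHull ℝ (range fun i : Fin (N + 1) => v i.succ)) +
        volume (convexHull ℝ (range fun i : Fin (N + 1) => Fin.tail (v i.succ))) / (D + 1) := by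
  rw [b4_hull v, b4_hull (fun i : Fin (N + 1) => v i.succ)]
  set K := convexHull ℝ (range fun i : Fin (N + 1) => (v i.succ 0, Fin.tail (v i.succ))) with hK
  have hKc : IsCompact K := (Set.finite_range _).isCompact_convexHull ℝ
  have hKx : Convex ℝ K := convex_convexHull ℝ _
  have hvK : ((v 1 0, Fin.tail (v 1)) : ℝ × (Fin D → ℝ)) ∈ K := by
    refine subset_convexHull ℝ _ ⟨0, ?_⟩
    simp
  have h := vol_insert_le hKc hKx hvK
  have hv0 : ((v 1 0, Fin.tail (v 1)) : ℝ × (Fin D → ℝ)) - ((1 : ℝ), 0) =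
      (v 0 0, Fin.tail (v 0)) := by
    rw [hv]
    refine Prod.ext ?_ ?_
    · simp
    · funext i
      simp [Fin.tail]
  rw [hv0] at h
  have hsnd : Prod.snd '' K = convexHull ℝ (range fun i : Fin (N + 1) => Fin.tail (v i.succ)) := by
    rw [hK, (IsLinearMap.mk (fun _ _ => rfl) (fun _ _ => rfl) :
      IsLinearMap ℝ (Prod.snd : ℝ × (Fin D → ℝ) → (Fin D → ℝ))).image_convexHull, ← range_comp]
    rfl
  rw [hsnd] at h
  refine le_trans (measure_mono (convexHull_mono ?_ |>.trans subset_rfl)) h
  rintro _ ⟨i, rfl⟩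
  refine Fin.cases ?_ (fun j => ?_) i
  · exact Or.inl rfl
  · exact Or.inr (subset_convexHull ℝ _ ⟨j, rfl⟩)
/- END b4 -/

/- MODULE b5 : the path bound.  Induction on `N` for all `D`; `D = 0`: both sides are `1`;
`N = 0`, `D > 0`: the hull is a point; step: if `v 1 = v 0` drop `v 0`; else apply a linear map
(`exists_to_single`, `detsum_map`, `volume_map`) and then `step_single`, `detsum_split`,
`det_single` and the induction hypothesis for `(D + 1, N)` and `(D, N)`. -/
private theorem b5_zero {N : ℕ} (v : Fin (N + 1) → Fin 0 → ℝ) :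
    volume (convexHull ℝ (range v)) ≤
      ENNReal.ofReal (1 / (((0 : ℕ).factorial : ℝ) ^ 2) * detsum (edges v)) := by
  have h1 : detsum (edges v) = 1 := by
    unfold detsum
    simp
  rw [h1]
  have h2 : volume (convexHull ℝ (range v)) ≤ 1 := by
    refine le_trans (measure_mono (subset_univ _)) ?_
    rw [volume_pi, Measure.pi_of_empty (fun _ : Fin 0 => (volume : Measure ℝ))]
    simp
  simpa using h2

private theorem b5_edges {N D : ℕ} (v : Fin (N + 2) → Fin D → ℝ) :
    edges (fun i : Fin (N + 1) => v i.succ) = fun i : Fin N => edges v i.succ := by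
  funext i
  rfl

private theorem b5_step {N D : ℕ} (w : Fin (N + 2) → Fin (D + 1) → ℝ)
    (ih1 : volume (convexHull ℝ (range fun i : Fin (N + 1) => w i.succ)) ≤
      ENNReal.ofReal (1 / (((D + 1).factorial : ℝ) ^ 2) *
        detsum (edges fun i : Fin (N + 1) => w i.succ)))
    (ih2 : volume (convexHull ℝ (range fun i : Fin (N + 1) => Fin.tail (w i.succ))) ≤
      ENNReal.ofReal (1 / ((D.factorial : ℝ) ^ 2) *
        detsum (edges fun i : Fin (N + 1) => Fin.tail (w i.succ))))
    (hw : w 1 = w 0 + Pi.single 0 1) :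
    volume (convexHull ℝ (range w)) ≤
      ENNReal.ofReal (1 / (((D + 1).factorial : ℝ) ^ 2) * detsum (edges w)) := by
  have he0 : edges w 0 = Pi.single 0 1 := by
    have h1 : edges w 0 = w 1 - w 0 := rfl
    rw [h1, hw, add_sub_cancel_left]
  have hsp := detsum_split (edges w)
  rw [he0] at hsp
  have hS : (∑ ψ : Fin D → Fin N, |(Matrix.of (Fin.cons (Pi.single 0 1)
      (fun j => edges w (ψ j).succ) : Fin (D + 1) → Fin (D + 1) → ℝ)).det|) =
      detsum (edges fun i : Fin (N + 1) => Fin.tail (w i.succ)) := by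
    unfold detsum
    refine Finset.sum_congr rfl fun ψ _ => ?_
    rw [det_single]
    rfl
  rw [hS] at hsp
  have hstep := step_single w hw
  refine le_trans hstep (le_trans (add_le_add ih1 (ENNReal.div_le_div_right ih2 _)) ?_)
  have hD : (0 : ℝ) < (D : ℝ) + 1 := by positivity
  have hDe : ((D : ENNReal) + 1) = ENNReal.ofReal ((D : ℝ) + 1) := by
    rw [ENNReal.ofReal_add (by positivity) (by norm_num), ENNReal.ofReal_natCast,
      ENNReal.ofReal_one]
  rw [hDe, ← ENNReal.ofReal_div_of_pos hD, ← ENNReal.ofReal_add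
    (mul_nonneg (by positivity) (detsum_nonneg _))
    (div_nonneg (mul_nonneg (by positivity) (detsum_nonneg _)) hD.le)]
  refine ENNReal.ofReal_le_ofReal ?_
  have hf : (0 : ℝ) < (D.factorial : ℝ) := by exact_mod_cast Nat.factorial_pos D
  have hfs : ((D + 1).factorial : ℝ) = ((D : ℝ) + 1) * (D.factorial : ℝ) := by
    rw [Nat.factorial_succ]; push_cast; ring
  rw [b5_edges w, hfs]
  have e1 : 1 / (((D : ℝ) + 1) * (D.factorial : ℝ)) ^ 2 * detsum (fun i : Fin N =>
      edges w i.succ) + 1 / (D.factorial : ℝ) ^ 2 *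
        detsum (edges fun i : Fin (N + 1) => Fin.tail (w i.succ)) / ((D : ℝ) + 1) =
      1 / (((D : ℝ) + 1) * (D.factorial : ℝ)) ^ 2 * (detsum (fun i : Fin N => edges w i.succ) +
        ((D : ℝ) + 1) * detsum (edges fun i : Fin (N + 1) => Fin.tail (w i.succ))) := by
    field_simp
  rw [e1]
  exact mul_le_mul_of_nonneg_left hsp (by positivity)

theorem path_bound {N : ℕ} : ∀ {D : ℕ} (v : Fin (N + 1) → Fin D → ℝ),
    volume (convexHull ℝ (range v)) ≤
      ENNReal.ofReal (1 / ((D.factorial : ℝ) ^ 2) * detsum (edges v)) := by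
  induction N with
  | zero =>
    intro D v
    rcases D with _ | D
    · exact b5_zero v
    · have h1 : range v = {v 0} := by
        ext x
        constructor
        · rintro ⟨i, rfl⟩
          have hi : i = 0 := Fin.eq_zero i
          rw [hi]
          exact rfl
        · rintro rfl
          exact ⟨0, rfl⟩
      rw [h1, convexHull_singleton, measure_singleton]
      exact zero_le
  | succ N ih =>
    intro D v
    rcases D with _ | D
    · exact b5_zero v
    · by_cases he : v 1 - v 0 = 0
      · have h1 : range v ⊆ range fun i : Fin (N + 1) => v i.succ := by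
          rintro _ ⟨i, rfl⟩
          refine Fin.cases ?_ (fun j => ?_) i
          · refine ⟨0, ?_⟩
            exact sub_eq_zero.mp he
          · exact ⟨j, rfl⟩
        refine le_trans (measure_mono (convexHull_mono h1)) (le_trans (ih _) ?_)
        refine ENNReal.ofReal_le_ofReal (mul_le_mul_of_nonneg_left ?_ (by positivity))
        rw [b5_edges v]
        refine le_trans ?_ (detsum_split (edges v))
        refine le_add_of_nonneg_right (mul_nonneg (by positivity)
          (Finset.sum_nonneg fun _ _ => abs_nonneg _))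
      · obtain ⟨A, hA⟩ := exists_to_single he
        have hdet : 0 < |LinearMap.det (A : (Fin (D + 1) → ℝ) →ₗ[ℝ] (Fin (D + 1) → ℝ))| :=
          abs_pos.mpr (LinearEquiv.isUnit_det' A).ne_zero
        have hw : (fun i => A (v i)) 1 = (fun i => A (v i)) 0 + Pi.single 0 1 := by
          show A (v 1) = A (v 0) + Pi.single 0 1
          rw [← hA, ← map_add]
          congr 1
          abel
        have h := b5_step (fun i => A (v i)) (ih _) (ih _) hw
        have hv := volume_map (A : (Fin (D + 1) → ℝ) →ₗ[ℝ] (Fin (D + 1) → ℝ)) v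
        have hd := detsum_map (A : (Fin (D + 1) → ℝ) →ₗ[ℝ] (Fin (D + 1) → ℝ)) (edges v)
        have hed : edges (fun i => A (v i)) = fun i => A (edges v i) := by
          funext i
          exact (map_sub A _ _).symm
        rw [hed] at h
        simp only [LinearEquiv.coe_coe] at hv hd
        rw [hv, hd, mul_left_comm, ENNReal.ofReal_mul hdet.le] at h
        exact (ENNReal.mul_le_mul_iff_right (ENNReal.ofReal_pos.mpr hdet).ne'
          ENNReal.ofReal_ne_top).mp h
/- END b5 -/

end Pool.Agent.Hul
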