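import Mathlib

/-!
# MP_67b84b_gt, part A: pyramids and fibres

`pyr B p` is the pyramid over `B` (height `1`) with apex over `p`, in `ℝ × V`, first
coordinate = height.  No file of the library imports the definitions of the problem here.
-/

set_option autoImplicit false

namespace Pool.Agent.Hul

open MeasureTheory Set

/-- the pyramid over `B` with apex over the point `p` -/
def pyr {D : ℕ} (B : Set (Fin D → ℝ)) (p : Fin D → ℝ) : Set (ℝ × (Fin D → ℝ)) :=
  {z | z.1 ∈ Icc (0 : ℝ) 1 ∧ ∃ b ∈ B, z.2 = z.1 • p + (1 - z.1) • b}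

/- MODULE a1 : compactness and volume of the pyramid (no convexity needed).
IDEA: compact = image of `Icc 0 1 ×ˢ B` under `(s, b) ↦ (s, s • p + (1 - s) • b)`.
volume: `Measure.prod_apply` (slices over the height): for `s ∈ [0, 1)` the slice is
`s • p +ᵥ (1 - s) • B`, of volume `(1 - s)^D * volume B` (`Measure.addHaar_smul`), then
`∫_0^1 (1 - s)^D = 1 / (D + 1)` (`integral_pow`, `ofReal_integral_eq_lintegral_ofReal`). -/
theorem isCompact_pyr {D : ℕ} {B : Set (Fin D → ℝ)} (hB : IsCompact B) (p : Fin D → ℝ) :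
    IsCompact (pyr B p) := by
  have h : pyr B p = (fun z : ℝ × (Fin D → ℝ) => (z.1, z.1 • p + (1 - z.1) • z.2)) ''
      (Icc (0 : ℝ) 1 ×ˢ B) := by
    ext z
    constructor
    · rintro ⟨h1, b, hb, h2⟩
      exact ⟨(z.1, b), ⟨h1, hb⟩, Prod.ext rfl h2.symm⟩
    · rintro ⟨⟨t, b⟩, ⟨h1, hb⟩, rfl⟩
      exact ⟨h1, b, hb, rfl⟩
  rw [h]
  apply (isCompact_Icc.prod hB).image
  fun_prop

open scoped Pointwise in
private theorem a1_slice {D : ℕ} {B : Set (Fin D → ℝ)} (p : Fin D → ℝ) {t : ℝ}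
    (ht : t ∈ Icc (0 : ℝ) 1) :
    volume (Prod.mk t ⁻¹' pyr B p) = ENNReal.ofReal ((1 - t) ^ D) * volume B := by
  have e1 : Prod.mk t ⁻¹' pyr B p = (fun y => t • p + y) '' ((1 - t) • B) := by
    ext y
    constructor
    · rintro ⟨_, b, hb, h2⟩
      exact ⟨(1 - t) • b, smul_mem_smul_set hb, h2.symm⟩
    · rintro ⟨_, ⟨b, hb, rfl⟩, rfl⟩
      exact ⟨ht, b, hb, rfl⟩
  rw [e1, image_add_left, measure_preimage_add, Measure.addHaar_smul,
    Module.finrank_fin_fun, abs_of_nonneg (pow_nonneg (by linarith [ht.2]) _)]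

theorem volume_pyr {D : ℕ} {B : Set (Fin D → ℝ)} (hB : IsCompact B) (p : Fin D → ℝ) :
    volume (pyr B p) = volume B / (D + 1) := by
  classical
  have hm : MeasurableSet (pyr B p) := (isCompact_pyr hB p).isClosed.measurableSet
  rw [Measure.volume_eq_prod, Measure.prod_apply hm]
  have hsl : ∀ t : ℝ, volume (Prod.mk t ⁻¹' pyr B p) =
      (Icc (0 : ℝ) 1).indicator (fun t => ENNReal.ofReal ((1 - t) ^ D) * volume B) t := by
    intro t
    by_cases ht : t ∈ Icc (0 : ℝ) 1
    · rw [indicator_of_mem ht]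
      exact a1_slice p ht
    · rw [indicator_of_notMem ht]
      have e1 : Prod.mk t ⁻¹' pyr B p = ∅ := by
        ext y
        simp only [mem_preimage, mem_empty_iff_false, iff_false]
        rintro ⟨h1, _⟩
        exact ht h1
      rw [e1, measure_empty]
  simp_rw [hsl]
  rw [lintegral_indicator measurableSet_Icc, lintegral_mul_const _ (by fun_prop)]
  have hI : ∫⁻ t in Icc (0 : ℝ) 1, ENNReal.ofReal ((1 - t) ^ D) = ENNReal.ofReal (1 / (D + 1)) := by
    rw [← ofReal_integral_eq_lintegral_ofReal]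
    · congr 1
      rw [integral_Icc_eq_integral_Ioc, ← intervalIntegral.integral_of_le zero_le_one,
        intervalIntegral.integral_comp_sub_left (fun x => x ^ D) 1, integral_pow]
      simp
    · exact ((continuous_const.sub continuous_id).pow D).continuousOn.integrableOn_compact
        isCompact_Icc
    · filter_upwards [ae_restrict_mem measurableSet_Icc] with t ht
      exact pow_nonneg (by linarith [ht.2]) _
  rw [hI, mul_comm, ENNReal.div_eq_inv_mul, mul_comm, one_div, ENNReal.ofReal_inv_of_pos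
    (by positivity)]
  congr 2
  rw [ENNReal.ofReal_add (by positivity) zero_le_one, ENNReal.ofReal_natCast, ENNReal.ofReal_one]
/- END a1 -/

/- MODULE a2 : adding the vertex `v - (1, 0)` lengthens the fibre over `y` by at most the fibre
of the pyramid over the projection of `K`.
IDEA: if `(s, y) ∈ convexHull (insert (v - (1,0)) K)` then `(s, y) = λ (v - (1, 0)) + (1 - λ) k`
(`convexHull_insert`, `mem_convexJoin`, segments), so `λ` is in the fibre of the pyramid and
`s + λ` in the fibre of `K`.  Both fibres are nonempty compact convex subsets of `ℝ` (the fibre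
of the pyramid is convex as `Prod.snd '' K` is convex), so `Icc a b` and `Icc c d`, and the new
fibre is contained in `Icc (a - d) (b - c)`. -/
open scoped Pointwise in
private theorem a2_fib {D : ℕ} {B : Set (Fin D → ℝ)} (hB : Convex ℝ B) (p y : Fin D → ℝ) :
    Convex ℝ ((fun s : ℝ => (s, y)) ⁻¹' (pyr B p)) := by
  have hmem : ∀ t : ℝ, t ∈ ((fun s : ℝ => (s, y)) ⁻¹' (pyr B p)) ↔
      t ∈ Icc (0 : ℝ) 1 ∧ y - t • p ∈ (1 - t) • B := by
    intro t
    constructor
    · rintro ⟨h1, b, hb, h2⟩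
      refine ⟨h1, b, hb, ?_⟩
      have h3 : y = t • p + (1 - t) • b := h2
      show (1 - t) • b = y - t • p
      rw [h3]; abel
    · rintro ⟨h1, b, hb, h2⟩
      refine ⟨h1, b, hb, ?_⟩
      have h3 : (1 - t) • b = y - t • p := h2
      show y = t • p + (1 - t) • b
      rw [h3]; abel
  intro t1 h1 t2 h2 a b ha hb hab
  rw [hmem] at h1 h2 ⊢
  obtain ⟨⟨l1, u1⟩, m1⟩ := h1
  obtain ⟨⟨l2, u2⟩, m2⟩ := h2
  refine ⟨⟨by simp only [smul_eq_mul]; positivity, ?_⟩, ?_⟩
  · simp only [smul_eq_mul]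
    nlinarith
  · have e1 : (1 - (a • t1 + b • t2) : ℝ) = a * (1 - t1) + b * (1 - t2) := by
      simp only [smul_eq_mul]
      linear_combination -hab
    have e2 : y - (a • t1 + b • t2) • p = a • (y - t1 • p) + b • (y - t2 • p) := by
      have : y = (a + b) • y := by rw [hab, one_smul]
      conv_lhs => rw [this]
      simp only [smul_eq_mul, add_smul, smul_sub, mul_smul]
      abel
    rw [e1, hB.add_smul (mul_nonneg ha (by linarith)) (mul_nonneg hb (by linarith)), e2]
    refine add_mem_add ?_ ?_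
    · rw [mul_smul]; exact smul_mem_smul_set m1
    · rw [mul_smul]; exact smul_mem_smul_set m2

private theorem a2_int {A : Set ℝ} (hA : IsCompact A) (hc : Convex ℝ A) (hn : A.Nonempty) :
    ∃ a b : ℝ, a ≤ b ∧ A = Icc a b := by
  have h := eq_Icc_of_connected_compact ⟨hn, hc.isPreconnected⟩ hA
  refine ⟨sInf A, sSup A, ?_, h⟩
  rw [h] at hn
  exact nonempty_Icc.1 hn

private theorem a2_cpt {D : ℕ} {K : Set (ℝ × (Fin D → ℝ))} (hK : IsCompact K) (y : Fin D → ℝ) :
    IsCompact ((fun s : ℝ => (s, y)) ⁻¹' K) := by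
  have h1 : IsClosed ((fun s : ℝ => (s, y)) ⁻¹' K) := hK.isClosed.preimage (by fun_prop)
  refine (hK.image continuous_fst).of_isClosed_subset h1 ?_
  intro t ht
  exact ⟨(t, y), ht, rfl⟩

private theorem a2_hull {D : ℕ} {K : Set (ℝ × (Fin D → ℝ))} (hc : Convex ℝ K) (hn : K.Nonempty)
    (w : ℝ × (Fin D → ℝ)) : convexHull ℝ (insert w K) =
      (fun z : ℝ × (ℝ × (Fin D → ℝ)) => z.1 • w + (1 - z.1) • z.2) '' (Icc (0 : ℝ) 1 ×ˢ K) := by
  rw [convexHull_insert hn, hc.convexHull_eq]
  ext z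
  simp only [mem_convexJoin, mem_singleton_iff, exists_eq_left]
  constructor
  · rintro ⟨k, hk, a, b, ha, hb, hab, rfl⟩
    refine ⟨(a, k), ⟨⟨ha, by linarith⟩, hk⟩, ?_⟩
    simp only
    rw [show (1 : ℝ) - a = b by linarith]
  · rintro ⟨⟨a, k⟩, ⟨⟨ha0, ha1⟩, hk⟩, rfl⟩
    exact ⟨k, hk, a, 1 - a, ha0, by linarith, by ring, rfl⟩

theorem fib_le {D : ℕ} {K : Set (ℝ × (Fin D → ℝ))} (hK : IsCompact K) (hc : Convex ℝ K)
    {v : ℝ × (Fin D → ℝ)} (hv : v ∈ K) (y : Fin D → ℝ) :
    volume ((fun s : ℝ => (s, y)) ⁻¹' (convexHull ℝ (insert (v - ((1 : ℝ), 0)) K))) ≤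
      volume ((fun s : ℝ => (s, y)) ⁻¹' K) +
        volume ((fun s : ℝ => (s, y)) ⁻¹' (pyr (Prod.snd '' K) v.2)) := by
  set A := (fun s : ℝ => (s, y)) ⁻¹' K with hA
  set L := (fun s : ℝ => (s, y)) ⁻¹' (pyr (Prod.snd '' K) v.2) with hL
  have hn : K.Nonempty := ⟨v, hv⟩
  have hB : IsCompact (Prod.snd '' K) := hK.image continuous_snd
  have hBc : Convex ℝ (Prod.snd '' K) := hc.linear_image (LinearMap.snd ℝ ℝ (Fin D → ℝ))
  have hmem : ∀ t ∈ ((fun s : ℝ => (s, y)) ⁻¹' (convexHull ℝ (insert (v - ((1 : ℝ), 0)) K))),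
      ∃ l ∈ L, t + l ∈ A := by
    intro t ht
    have h1 : (t, y) ∈ convexHull ℝ (insert (v - ((1 : ℝ), 0)) K) := ht
    rw [a2_hull hc hn] at h1
    obtain ⟨⟨l, k⟩, ⟨hl, hk⟩, h2⟩ := h1
    have h3 : l • v.2 + (1 - l) • k.2 = y := by
      have := congrArg Prod.snd h2
      simpa using this
    have h4 : l * (v.1 - 1) + (1 - l) * k.1 = t := by
      have := congrArg Prod.fst h2
      simpa using this
    refine ⟨l, ⟨hl, k.2, ⟨k, hk, rfl⟩, h3.symm⟩, ?_⟩
    show (t + l, y) ∈ K
    have h5 : (t + l, y) = l • v + (1 - l) • k := by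
      refine Prod.ext ?_ ?_
      · simp only [Prod.fst_add, Prod.smul_fst, smul_eq_mul]
        linarith
      · simp only [Prod.snd_add, Prod.smul_snd]
        exact h3.symm
    rw [h5]
    exact hc hv hk hl.1 (by linarith [hl.2]) (by ring)
  by_cases hne : A.Nonempty ∧ L.Nonempty
  · obtain ⟨a, b, hab, hAe⟩ := a2_int (a2_cpt hK y)
      (by
        intro t1 h1 t2 h2 α β hα hβ hαβ
        have h3 : (α • t1 + β • t2, y) = α • (t1, y) + β • (t2, y) := by
          refine Prod.ext rfl ?_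
          simp only [Prod.snd_add, Prod.smul_snd]
          rw [← add_smul, hαβ, one_smul]
        show (α • t1 + β • t2, y) ∈ K
        rw [h3]
        exact hc h1 h2 hα hβ hαβ) hne.1
    obtain ⟨c, d, hcd, hLe⟩ := a2_int (a2_cpt (isCompact_pyr hB v.2) y) (a2_fib hBc v.2 y) hne.2
    have hsub : ((fun s : ℝ => (s, y)) ⁻¹' (convexHull ℝ (insert (v - ((1 : ℝ), 0)) K))) ⊆
        Icc (a - d) (b - c) := by
      intro t ht
      obtain ⟨l, hl, htl⟩ := hmem t ht
      rw [hL, hLe] at hl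
      rw [hA, hAe] at htl
      exact ⟨by linarith [htl.1, hl.2], by linarith [htl.2, hl.1]⟩
    refine (measure_mono hsub).trans ?_
    rw [hA, hL, hAe, hLe, Real.volume_Icc, Real.volume_Icc, Real.volume_Icc,
      ← ENNReal.ofReal_add (by linarith) (by linarith)]
    apply ENNReal.ofReal_le_ofReal
    linarith
  · have : ((fun s : ℝ => (s, y)) ⁻¹' (convexHull ℝ (insert (v - ((1 : ℝ), 0)) K))) = ∅ := by
      rw [eq_empty_iff_forall_notMem]
      intro t ht
      obtain ⟨l, hl, htl⟩ := hmem t ht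
      exact hne ⟨⟨_, htl⟩, ⟨_, hl⟩⟩
    rw [this, measure_empty]
    exact zero_le
/- END a2 -/

/- MODULE a3 : integration of `fib_le` (`Measure.prod_apply_symm`, `measurable_measure_prodMk_right`,
`lintegral_add_left`; the hull of a point and a compact convex set is compact:
`IsCompact.convexHull_insert` or image of `[0,1] × K`). -/
theorem vol_insert_le {D : ℕ} {K : Set (ℝ × (Fin D → ℝ))} (hK : IsCompact K) (hc : Convex ℝ K)
    {v : ℝ × (Fin D → ℝ)} (hv : v ∈ K) :
    volume (convexHull ℝ (insert (v - ((1 : ℝ), 0)) K)) ≤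
      volume K + volume (Prod.snd '' K) / (D + 1) := by
  have hB : IsCompact (Prod.snd '' K) := hK.image continuous_snd
  have hP := isCompact_pyr hB v.2
  have hH : IsCompact (convexHull ℝ (insert (v - ((1 : ℝ), 0)) K)) := by
    rw [a2_hull hc ⟨v, hv⟩]
    apply (isCompact_Icc.prod hK).image
    fun_prop
  rw [← volume_pyr hB v.2, Measure.volume_eq_prod,
    Measure.prod_apply_symm hH.isClosed.measurableSet,
    Measure.prod_apply_symm hK.isClosed.measurableSet,
    Measure.prod_apply_symm hP.isClosed.measurableSet,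
    ← lintegral_add_left (measurable_measure_prodMk_right hK.isClosed.measurableSet)]
  exact lintegral_mono fun y => fib_le hK hc hv y
/- END a3 -/

/- MODULE a4 : a convex compact set in `ℝ × V` containing `(0, p)` and `(1, p)` has volume at
least `volume (Prod.snd '' H) / (D + 1)`.
IDEA: fibre over `y` of `pyr (Prod.snd '' H) p` is `⊆ Icc 0 w` with `w` its maximum (compact; if
empty trivial), and `w ∈` fibre gives `h` with `y = w p + (1 - w) h.2`, so the fibre of `H` over
`y` contains `Icc ((1-w) h.1) (w + (1-w) h.1)`; integrate and use `volume_pyr`. -/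
theorem vol_lift {D : ℕ} {H : Set (ℝ × (Fin D → ℝ))} (hH : IsCompact H) (hc : Convex ℝ H)
    {p : Fin D → ℝ} (h0 : ((0 : ℝ), p) ∈ H) (h1 : ((1 : ℝ), p) ∈ H) :
    volume (Prod.snd '' H) / (D + 1) ≤ volume H := by
  have hB : IsCompact (Prod.snd '' H) := hH.image continuous_snd
  have hP := isCompact_pyr hB p
  rw [← volume_pyr hB p, Measure.volume_eq_prod,
    Measure.prod_apply_symm hH.isClosed.measurableSet,
    Measure.prod_apply_symm hP.isClosed.measurableSet]
  refine lintegral_mono fun y => ?_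
  show volume ((fun s : ℝ => (s, y)) ⁻¹' (pyr (Prod.snd '' H) p)) ≤
    volume ((fun s : ℝ => (s, y)) ⁻¹' H)
  rcases ((fun s : ℝ => (s, y)) ⁻¹' (pyr (Prod.snd '' H) p)).eq_empty_or_nonempty with he | hne
  · rw [he, measure_empty]; exact zero_le
  obtain ⟨w, hw, hmax⟩ := (a2_cpt hP y).exists_isMaxOn hne continuousOn_id
  obtain ⟨⟨hw0, hw1⟩, b, ⟨h, hh, rfl⟩, hy⟩ := hw
  have hy' : y = w • p + (1 - w) • h.2 := hy
  have hsub : ((fun s : ℝ => (s, y)) ⁻¹' (pyr (Prod.snd '' H) p)) ⊆ Icc 0 w := by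
    intro t ht
    exact ⟨ht.1.1, hmax ht⟩
  have hsub2 : Icc ((1 - w) * h.1) (w + (1 - w) * h.1) ⊆ ((fun s : ℝ => (s, y)) ⁻¹' H) := by
    intro t ht
    have e : ∀ c : ℝ, ((c, p) : ℝ × (Fin D → ℝ)) ∈ H →
        (w * c + (1 - w) * h.1, y) ∈ H := by
      intro c hcm
      have h3 : (w * c + (1 - w) * h.1, y) = w • (c, p) + (1 - w) • h := by
        refine Prod.ext ?_ ?_
        · simp only [Prod.fst_add, Prod.smul_fst, smul_eq_mul]
        · simp only [Prod.snd_add, Prod.smul_snd]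
          exact hy'
      rw [h3]
      exact hc hcm hh hw0 (by linarith) (by ring)
    -- the point with first coordinate `c ∈ [0, 1]`
    have hseg : ∀ c ∈ Icc (0 : ℝ) 1, ((c, p) : ℝ × (Fin D → ℝ)) ∈ H := by
      intro c hcc
      have h3 : ((c, p) : ℝ × (Fin D → ℝ)) = (1 - c) • ((0 : ℝ), p) + c • ((1 : ℝ), p) := by
        refine Prod.ext ?_ ?_
        · simp
        · simp only [Prod.snd_add, Prod.smul_snd]
          rw [← add_smul]; simp
      rw [h3]
      exact hc h0 h1 (by linarith [hcc.2]) hcc.1 (by ring)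
    rcases hw0.eq_or_lt with hz | hpos
    · have h4 := e 0 h0
      have h5 : t = w * 0 + (1 - w) * h.1 := by
        subst hz
        have h6 := ht.1
        have h7 := ht.2
        linarith
      show (t, y) ∈ H
      rw [h5]; exact h4
    · have h4 := e ((t - (1 - w) * h.1) / w) (hseg _ ⟨div_nonneg (by linarith [ht.1]) hpos.le, by
        rw [div_le_one hpos]; linarith [ht.2]⟩)
      have h5 : w * ((t - (1 - w) * h.1) / w) + (1 - w) * h.1 = t := by field_simp; ring
      rw [h5] at h4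
      exact h4
  calc volume ((fun s : ℝ => (s, y)) ⁻¹' (pyr (Prod.snd '' H) p)) ≤ volume (Icc 0 w) :=
        measure_mono hsub
    _ = volume (Icc ((1 - w) * h.1) (w + (1 - w) * h.1)) := by
        rw [Real.volume_Icc, Real.volume_Icc]; congr 1; ring
    _ ≤ _ := measure_mono hsub2
/- END a4 -/

end Pool.Agent.Hul
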