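import Pool.Agent.Hul.Mult

/-!
# MP_67b84b_gt: comparison with Schoenberg's value
-/

set_option autoImplicit false

namespace Pool.Agent.Hul

open MeasureTheory Filter Topology

/-- `Γ(x + 1) ≥ ∫_x^∞ t^x e^(-t) dt ≥ x^x e^(-x)` -/
theorem Gamma_ge (x : ℝ) (hx : 0 ≤ x) : (x / Real.exp 1) ^ x ≤ Real.Gamma (x + 1) := by
  rw [Real.Gamma_eq_integral (by linarith)]
  have hint : IntegrableOn (fun t : ℝ => Real.exp (-t) * t ^ (x + 1 - 1)) (Set.Ioi 0) :=
    Real.GammaIntegral_convergent (by linarith)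
  have h1 : ∫ t in Set.Ioi x, Real.exp (-t) * t ^ (x + 1 - 1) ≤
      ∫ t in Set.Ioi 0, Real.exp (-t) * t ^ (x + 1 - 1) := by
    refine setIntegral_mono_set hint ?_ (Set.Ioi_subset_Ioi hx).eventuallyLE
    filter_upwards [ae_restrict_mem measurableSet_Ioi] with t ht
    have : (0 : ℝ) < t := ht
    show 0 ≤ Real.exp (-t) * t ^ (x + 1 - 1)
    positivity
  have h2 : ∫ t in Set.Ioi x, Real.exp (-t) * x ^ x ≤
      ∫ t in Set.Ioi x, Real.exp (-t) * t ^ (x + 1 - 1) := by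
    refine setIntegral_mono_on ?_ (hint.mono_set (Set.Ioi_subset_Ioi hx)) measurableSet_Ioi ?_
    · exact (integrableOn_exp_neg_Ioi x).mul_const _
    · intro t ht
      have ht' : x < t := ht
      rw [show x + 1 - 1 = x by ring]
      exact mul_le_mul_of_nonneg_left (Real.rpow_le_rpow hx ht'.le hx) (Real.exp_pos _).le
  refine le_trans (le_of_eq ?_) (h2.trans h1)
  rw [integral_mul_const, integral_exp_neg_Ioi, Real.div_rpow hx (Real.exp_pos 1).le,
    ← Real.exp_mul, one_mul, Real.exp_neg]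
  field_simp

/-- the value of Schoenberg's formula is at most `(e^(3/2) √(2/π) / n²)^n` -/
theorem schoenberg_le (n : ℕ) (hn : 1 ≤ n) :
    1 / ((Real.pi * n) ^ ((n : ℝ) / 2) * (n.factorial : ℝ) * Real.Gamma ((n : ℝ) / 2 + 1)) ≤
      (Real.exp (3 / 2) * √(2 / Real.pi) / (n : ℝ) ^ 2) ^ n := by
  have hpi := Real.pi_pos
  have hn0 : (0 : ℝ) < n := by exact_mod_cast hn
  have h1 := Gamma_ge ((n : ℝ) / 2) (by positivity)
  have h2 : ((n : ℝ) / Real.exp 1) ^ n ≤ n.factorial := by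
    have h3 := Gamma_ge (n : ℝ) hn0.le
    rw [Real.Gamma_nat_eq_factorial, Real.rpow_natCast] at h3
    exact h3
  have h4 : (Real.pi * n) ^ ((n : ℝ) / 2) = (√(Real.pi * n)) ^ n := by
    rw [Real.sqrt_eq_rpow, ← Real.rpow_natCast, ← Real.rpow_mul (by positivity)]
    congr 1
    ring
  have h5 : ((n : ℝ) / 2 / Real.exp 1) ^ ((n : ℝ) / 2) = (√((n : ℝ) / 2 / Real.exp 1)) ^ n := by
    rw [Real.sqrt_eq_rpow, ← Real.rpow_natCast, ← Real.rpow_mul (by positivity)]
    congr 1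
    ring
  rw [h5] at h1
  rw [h4]
  have hp1 : 0 < √(Real.pi * n) := Real.sqrt_pos.2 (by positivity)
  have hp2 : 0 < √((n : ℝ) / 2 / Real.exp 1) := Real.sqrt_pos.2 (by positivity)
  have h6 : (√(Real.pi * n) * (n / Real.exp 1) * √((n : ℝ) / 2 / Real.exp 1)) ^ n ≤
      (√(Real.pi * n)) ^ n * (n.factorial : ℝ) * Real.Gamma ((n : ℝ) / 2 + 1) := by
    rw [mul_pow, mul_pow]
    gcongr
  have h7 : Real.exp (3 / 2) * √(2 / Real.pi) / (n : ℝ) ^ 2 =
      1 / (√(Real.pi * n) * (n / Real.exp 1) * √((n : ℝ) / 2 / Real.exp 1)) := by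
    rw [div_eq_div_iff (by positivity) (by positivity)]
    have e1 : √(2 / Real.pi) * (√(Real.pi * n) * √((n : ℝ) / 2 / Real.exp 1)) =
        n / √(Real.exp 1) := by
      rw [← Real.sqrt_mul (by positivity), ← Real.sqrt_mul (by positivity)]
      have : 2 / Real.pi * (Real.pi * (n : ℝ) * ((n : ℝ) / 2 / Real.exp 1)) =
          (n : ℝ) ^ 2 / Real.exp 1 := by
        field_simp
      rw [this, Real.sqrt_div (by positivity), Real.sqrt_sq hn0.le]
    have e2 : Real.exp (3 / 2) = Real.exp 1 * √(Real.exp 1) := by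
      rw [show (3 : ℝ) / 2 = 1 + 1 / 2 by norm_num, Real.exp_add, Real.exp_half]
    have hs : 0 < √(Real.exp 1) := Real.sqrt_pos.2 (Real.exp_pos 1)
    calc Real.exp (3 / 2) * √(2 / Real.pi) * (√(Real.pi * n) * (n / Real.exp 1) *
          √((n : ℝ) / 2 / Real.exp 1))
        = Real.exp (3 / 2) * (n / Real.exp 1) * (√(2 / Real.pi) * (√(Real.pi * n) *
          √((n : ℝ) / 2 / Real.exp 1))) := by ring
      _ = 1 * (n : ℝ) ^ 2 := by
          rw [e1, e2]
          field_simp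
  rw [h7, div_pow, one_pow]
  apply one_div_le_one_div_of_le _ h6
  positivity

/-- Schoenberg's value fails by an exponential factor for all large `n`, even or odd. -/
theorem all_gt {c : ℝ}
    (hc : Tendsto (fun n : ℕ => (n : ℝ) ^ 2 * gam n ^ (1 / (n : ℝ))) atTop (𝓝 c))
    (h : Real.exp (3 / 2) * √(2 / Real.pi) < c) :
    ∃ q : ℝ, 1 < q ∧ ∀ᶠ n : ℕ in atTop, q ^ n *
      (1 / ((Real.pi * n) ^ ((n : ℝ) / 2) * (n.factorial : ℝ) * Real.Gamma ((n : ℝ) / 2 + 1))) ≤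
        gam n := by
  obtain ⟨d, hd⟩ : ∃ d : ℝ, d = Real.exp (3 / 2) * √(2 / Real.pi) := ⟨_, rfl⟩
  have hd0 : 0 < d := by rw [hd]; positivity
  rw [← hd] at h
  obtain ⟨b, hb1, hb2⟩ := exists_between h
  refine ⟨b / d, (one_lt_div hd0).2 hb1, ?_⟩
  filter_upwards [hc.eventually (lt_mem_nhds hb2), eventually_ge_atTop 1] with n hn hn1
  have hn0 : (0 : ℝ) < n := by exact_mod_cast hn1
  have h1 := schoenberg_le n hn1
  rw [← hd] at h1
  have h2 : (b / d) ^ n * (d / (n : ℝ) ^ 2) ^ n = (b / (n : ℝ) ^ 2) ^ n := by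
    rw [← mul_pow]
    congr 1
    field_simp
  have hb0 : 0 < b := hd0.trans hb1
  have h3 : b / (n : ℝ) ^ 2 ≤ gam n ^ (1 / (n : ℝ)) := by
    rw [div_le_iff₀ (by positivity), mul_comm]
    exact hn.le
  have h4 : (b / (n : ℝ) ^ 2) ^ n ≤ gam n := by
    have h5 := pow_le_pow_left₀ (by positivity) h3 n
    rwa [← Real.rpow_natCast (gam n ^ (1 / (n : ℝ))), ← Real.rpow_mul (gam_nonneg n),
      one_div_mul_cancel hn0.ne', Real.rpow_one] at h5
  calc _ ≤ (b / d) ^ n * (d / (n : ℝ) ^ 2) ^ n := by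
        apply mul_le_mul_of_nonneg_left h1
        positivity
    _ = (b / (n : ℝ) ^ 2) ^ n := h2
    _ ≤ gam n := h4

end Pool.Agent.Hul
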