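import Mathlib

/-!
# MP_67b84b_gt: moments of an isometry of a finite dimensional complex Hilbert space
-/

set_option autoImplicit false

namespace Pool.Agent.Hul

-- MODULE sp
private theorem sp_step (H : Type) [NormedAddCommGroup H] [InnerProductSpace ℂ H]
    (U : H →ₗᵢ[ℂ] H) (v : H) (z : ℂ) (hz : ‖z‖ = 1) (hU : U v = z • v) :
    ∀ x ∈ (Submodule.span ℂ {v})ᗮ, U x ∈ (Submodule.span ℂ {v})ᗮ := by
  intro x hx
  rw [Submodule.mem_orthogonal_singleton_iff_inner_right] at hx ⊢
  have h1 : inner ℂ (U v) (U x) = inner ℂ v x := U.inner_map_map v x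
  rw [hx, hU, inner_smul_left] at h1
  have hz0 : z ≠ 0 := by
    intro h
    rw [h, norm_zero] at hz
    exact zero_ne_one hz
  rcases mul_eq_zero.mp h1 with h | h
  · exact absurd ((map_eq_zero _).mp h) hz0
  · exact h

/-- Proof by induction on `d`: for `d > 0` the isometry `U` has an eigenvector `v`, `‖v‖ = 1`, with
eigenvalue `z`, `‖z‖ = 1`; the orthogonal complement of `v` is invariant (`⟪v, x⟫ = ⟪U v, U x⟫ =
conj z * ⟪v, U x⟫`), of dimension `d - 1`; write `u = ⟪v, u⟫ v + u'`. -/
theorem spec : ∀ (d : ℕ) (H : Type) [NormedAddCommGroup H] [InnerProductSpace ℂ H]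
    [FiniteDimensional ℂ H], Module.finrank ℂ H = d → ∀ (U : H →ₗᵢ[ℂ] H) (u : H),
    ∃ (w : Fin d → ℝ) (z : Fin d → ℂ), (∀ i, 0 ≤ w i) ∧ (∀ i, ‖z i‖ = 1) ∧
      ∀ k : ℕ, inner ℂ u (U^[k] u) = ∑ i, (w i : ℂ) * z i ^ k := by
  intro d
  induction d with
  | zero =>
    intro H _ _ _ hd U u
    refine ⟨fun _ => 0, fun _ => 1, fun _ => le_rfl, fun _ => norm_one, fun k => ?_⟩
    have hs : Subsingleton H := Module.finrank_zero_iff.mp hd
    have hu : u = 0 := Subsingleton.elim _ _
    rw [hu, inner_zero_left]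
    simp
  | succ d ih =>
    intro H _ _ _ hd U u
    have hnt : Nontrivial H := Module.nontrivial_of_finrank_pos (R := ℂ) (by omega)
    obtain ⟨z, hzv⟩ := Module.End.exists_eigenvalue (K := ℂ) (V := H) U.toLinearMap
    obtain ⟨v₀, hv₀⟩ := hzv.exists_hasEigenvector
    have hv₀0 : v₀ ≠ 0 := hv₀.2
    have hUv₀ : U v₀ = z • v₀ := hv₀.apply_eq_smul
    have hn0 : ‖v₀‖ ≠ 0 := norm_ne_zero_iff.mpr hv₀0
    obtain ⟨v, hv1, hUv⟩ : ∃ v : H, ‖v‖ = 1 ∧ U v = z • v := by
      refine ⟨((‖v₀‖⁻¹ : ℝ) : ℂ) • v₀, ?_, ?_⟩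
      · rw [norm_smul, Complex.norm_real, norm_inv, norm_norm, inv_mul_cancel₀ hn0]
      · rw [map_smul, hUv₀, smul_comm]
    have hz1 : ‖z‖ = 1 := by
      have h1 : ‖U v‖ = ‖v‖ := U.norm_map v
      rw [hUv, norm_smul, hv1, mul_one] at h1
      exact h1
    have hK := sp_step H U v z hz1 hUv
    have hv0 : v ≠ 0 := by
      intro h
      rw [h, norm_zero] at hv1
      exact zero_ne_one hv1
    have hfin : Module.finrank ℂ ((Submodule.span ℂ {v})ᗮ : Submodule ℂ H) = d := by
      have : Fact (Module.finrank ℂ H = d + 1) := ⟨hd⟩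
      exact Submodule.finrank_orthogonal_span_singleton hv0
    let U' : ((Submodule.span ℂ {v})ᗮ : Submodule ℂ H) →ₗᵢ[ℂ]
        ((Submodule.span ℂ {v})ᗮ : Submodule ℂ H) :=
      { toLinearMap := U.toLinearMap.restrict hK
        norm_map' := fun x => by
          have : ‖U (x : H)‖ = ‖(x : H)‖ := U.norm_map _
          simpa using this }
    have hU' : ∀ x : ((Submodule.span ℂ {v})ᗮ : Submodule ℂ H), ((U' x : _) : H) = U (x : H) :=
      fun x => rfl
    have hU'k : ∀ (k : ℕ) (x : ((Submodule.span ℂ {v})ᗮ : Submodule ℂ H)),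
        ((U'^[k] x : _) : H) = U^[k] (x : H) := by
      intro k
      induction k with
      | zero => intro x; rfl
      | succ k ihk =>
        intro x
        rw [Function.iterate_succ_apply, Function.iterate_succ_apply, ihk, hU']
    have hu' : u - (inner ℂ v u : ℂ) • v ∈ ((Submodule.span ℂ {v})ᗮ : Submodule ℂ H) := by
      rw [Submodule.mem_orthogonal_singleton_iff_inner_right, inner_sub_right, inner_smul_right,
        inner_self_eq_norm_sq_to_K, hv1]
      simp
    obtain ⟨w, zz, hw, hzz, hk⟩ := ih _ hfin U' ⟨u - (inner ℂ v u : ℂ) • v, hu'⟩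
    refine ⟨Fin.cons (‖(inner ℂ v u : ℂ)‖ ^ 2) w, Fin.cons z zz, ?_, ?_, ?_⟩
    · intro i
      refine Fin.cases ?_ ?_ i
      · simp only [Fin.cons_zero]; positivity
      · intro j; simpa using hw j
    · intro i
      refine Fin.cases ?_ ?_ i
      · simpa using hz1
      · intro j; simpa using hzz j
    · intro k
      have h2 := hk k
      rw [Submodule.coe_inner, hU'k] at h2
      simp only at h2
      have hUkv : ∀ k : ℕ, U^[k] v = z ^ k • v := by
        intro k
        induction k with
        | zero => simp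
        | succ k ihk =>
          rw [Function.iterate_succ_apply', ihk, map_smul, hUv, smul_smul, pow_succ]
      have hUkadd : ∀ (k : ℕ) (x y : H), U^[k] (x + y) = U^[k] x + U^[k] y := by
        intro k
        induction k with
        | zero => intro x y; rfl
        | succ k ihk =>
          intro x y
          rw [Function.iterate_succ_apply, map_add, ihk, Function.iterate_succ_apply,
            Function.iterate_succ_apply]
      have hUksmul : ∀ (k : ℕ) (c : ℂ) (x : H), U^[k] (c • x) = c • U^[k] x := by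
        intro k
        induction k with
        | zero => intro c x; rfl
        | succ k ihk =>
          intro c x
          rw [Function.iterate_succ_apply, map_smul, ihk, Function.iterate_succ_apply]
      set y : H := u - (inner ℂ v u : ℂ) • v with hy
      have hyK : inner ℂ v y = 0 := (Submodule.mem_orthogonal_singleton_iff_inner_right).mp hu'
      have hUy : inner ℂ v (U^[k] y) = 0 := by
        have h3 := (U'^[k] ⟨y, hu'⟩).2
        rw [Submodule.mem_orthogonal_singleton_iff_inner_right, hU'k] at h3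
        exact h3
      have hyv : inner ℂ y v = 0 := by
        rw [← inner_conj_symm, hyK, map_zero]
      have hudec : u = (inner ℂ v u : ℂ) • v + y := by
        rw [hy]; abel
      have h4 : inner ℂ u (U^[k] u) = inner ℂ ((inner ℂ v u : ℂ) • v + y)
          (U^[k] ((inner ℂ v u : ℂ) • v + y)) := by
        rw [← hudec]
      clear_value y
      generalize (inner ℂ v u : ℂ) = c at *
      rw [h4, hUkadd, hUksmul, hUkv, inner_add_left, inner_add_right, inner_add_right, h2,
        inner_smul_left, inner_smul_left, hUy, inner_smul_right, inner_smul_right,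
        inner_smul_right, inner_smul_right, hyv, inner_self_eq_norm_sq_to_K, hv1, Fin.sum_univ_succ]
      simp only [Fin.cons_zero, Fin.cons_succ]
      have h5 : (starRingEnd ℂ) c * c = ((‖c‖ ^ 2 : ℝ) : ℂ) := by
        rw [mul_comm, Complex.mul_conj, Complex.normSq_eq_norm_sq]
      rw [← h5]
      push_cast
      ring

end Pool.Agent.Hul
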