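import Pool.Agent.Hul.Mult
import Pool.Agent.Hul.Low
import Pool.Agent.Hul.Even
import Pool.Agent.Hul.Cu
import Pool.Agent.Hul.Me

/-!
# MP_67b84b_gt: strict lower bound for the growth rate
-/

set_option autoImplicit false

namespace Pool.Agent.Hul

open MeasureTheory Filter Topology

/-- frequencies `1, ..., m, 2m, 3m, ...` -/
def frm (m j : ℕ) : ℕ := if j < m then j + 1 else (j - m + 2) * m

-- MODULE xe
theorem frm_facts (m : ℕ) (hm : 1 ≤ m) : frm m 0 = 1 ∧ (∀ j, 1 ≤ frm m j) ∧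
    (∀ i < m, frm m i = i + 1) ∧ (∀ j, m ≤ j → ∀ i < j, frm m i + m ≤ frm m j) ∧
    ∀ j, m ≤ j → m ≤ frm m j := by
  refine ⟨?_, ?_, ?_, ?_, ?_⟩
  · unfold frm; rw [if_pos (by omega)]
  · intro j
    unfold frm
    split_ifs with h
    · omega
    · exact Nat.one_le_iff_ne_zero.2 (Nat.mul_ne_zero (by omega) (by omega))
  · intro i hi
    unfold frm; rw [if_pos hi]
  · intro j hj i hi
    unfold frm
    rw [if_neg (not_lt.2 hj)]
    split_ifs with h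
    · have : 2 * m ≤ (j - m + 2) * m := Nat.mul_le_mul_right m (by omega)
      omega
    · have : (i - m + 3) * m ≤ (j - m + 2) * m := Nat.mul_le_mul_right m (by omega)
      have e : (i - m + 3) * m = (i - m + 2) * m + m := by ring
      omega
  · intro j hj
    unfold frm
    rw [if_neg (not_lt.2 hj)]
    exact Nat.le_mul_of_pos_left m (by omega)

theorem frm_prod (m : ℕ) : ∏ j ∈ Finset.range (m + 10), (frm m j : ℝ) ^ 2 =
    (m.factorial : ℝ) ^ 2 * (m : ℝ) ^ 20 * ((11).factorial : ℝ) ^ 2 := by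
  rw [Finset.prod_range_add]
  have h1 : ∏ j ∈ Finset.range m, (frm m j : ℝ) ^ 2 = (m.factorial : ℝ) ^ 2 := by
    rw [Finset.prod_pow, ← Finset.prod_range_add_one_eq_factorial]
    push_cast
    congr 1
    refine Finset.prod_congr rfl fun j hj => ?_
    rw [Finset.mem_range] at hj
    unfold frm
    rw [if_pos hj]
    push_cast; ring
  have h2 : ∏ j ∈ Finset.range 10, (frm m (m + j) : ℝ) ^ 2 =
      (m : ℝ) ^ 20 * ((11).factorial : ℝ) ^ 2 := by
    have h3 : ∀ j : ℕ, (frm m (m + j) : ℝ) = ((j : ℝ) + 2) * m := by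
      intro j
      unfold frm
      rw [if_neg (by omega), Nat.add_sub_cancel_left]
      push_cast; ring
    simp only [h3, Finset.prod_range_succ, Finset.prod_range_zero, Nat.factorial]
    push_cast
    ring
  rw [h1, h2]; ring

theorem vol_prod (m : ℕ) : ∏ j ∈ Finset.range m, Real.pi / (2 * j + 1) =
    Real.pi ^ m * 2 ^ m * m.factorial / (2 * m).factorial := by
  induction m with
  | zero => simp
  | succ m ih =>
    rw [Finset.prod_range_succ, ih]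
    have e : 2 * (m + 1) = 2 * m + 1 + 1 := by ring
    rw [e, Nat.factorial_succ, Nat.factorial_succ, Nat.factorial_succ]
    have h0 : ((2 * m).factorial : ℝ) ≠ 0 := by positivity
    have h1 : ((m : ℝ) + 1) ≠ 0 := by positivity
    have h2 : (2 * (m : ℝ) + 1) ≠ 0 := by positivity
    have h3 : (2 * (m : ℝ) + 1 + 1) ≠ 0 := by positivity
    push_cast
    field_simp
    ring

-- MODULE xf
/-- Stirling, `Stirling.stirlingSeq'_antitone`, `Stirling.stirlingSeq_one` -/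
theorem fact_le (m : ℕ) (hm : 1 ≤ m) :
    (m.factorial : ℝ) ≤ Real.exp 1 * √m * (m / Real.exp 1) ^ m := by
  have h := Stirling.stirlingSeq'_antitone (Nat.zero_le (m - 1))
  simp only [Function.comp_apply, Nat.succ_eq_add_one] at h
  rw [Nat.sub_add_cancel hm, zero_add, Stirling.stirlingSeq_one, Stirling.stirlingSeq] at h
  have hm' : (0 : ℝ) < m := by exact_mod_cast hm
  have hpos : (0 : ℝ) < √(2 * (m : ℝ)) * ((m : ℝ) / Real.exp 1) ^ m := by positivity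
  rw [div_le_iff₀ hpos] at h
  refine h.trans (le_of_eq ?_)
  rw [Real.sqrt_mul (by norm_num)]
  have h2 : √(2 : ℝ) ≠ 0 := by positivity
  field_simp

-- MODULE xg
/-- With `p = m + 10` the right side is `(2p)! p^p π^m 2^m m! X^20 / ((2m)! (m!)² m^20 (11!)² π^(2p))`,
`(2p)!/(2m)! ≥ (2m)^20`, `fact_le`, `p^p ≥ m^m m^10`. -/
theorem num (m : ℕ) (hm : 1 ≤ m) (X : ℝ) (hX : 0 ≤ X) :
    (2 * Real.exp 1 / Real.pi) ^ (m + 10) *
      (2 ^ 10 * ((m : ℝ) ^ 10 / √m) * X ^ 20 /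
        (Real.exp 11 * ((11).factorial : ℝ) ^ 2 * Real.pi ^ 10)) ≤
    ((2 * (m + 10)).factorial : ℝ) * ((2 * (m + 10) : ℕ) : ℝ) ^ (2 * (m + 10)) *
      (((∏ j ∈ Finset.range m, Real.pi / (2 * j + 1)) * X ^ 20) /
        ((∏ j ∈ Finset.range (m + 10), (frm m j : ℝ) ^ 2) *
          (4 * Real.pi ^ 2 * ((m + 10 : ℕ) : ℝ)) ^ (m + 10))) := by
  have hm0 : (0 : ℝ) < m := by exact_mod_cast hm
  have hpi := Real.pi_pos
  have hE : 0 < Real.exp 1 := Real.exp_pos 1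
  have hF : (0 : ℝ) < ((2 * m).factorial : ℝ) := by positivity
  have hf : (0 : ℝ) < (m.factorial : ℝ) := by positivity
  have hN : (0 : ℝ) < ((11).factorial : ℝ) := by positivity
  have hs : 0 < √(m : ℝ) := Real.sqrt_pos.2 hm0
  rw [vol_prod, frm_prod]
  -- the three estimates
  have c2 : ((2 * m).factorial : ℝ) * (2 * m : ℝ) ^ 20 ≤ ((2 * (m + 10)).factorial : ℝ) := by
    have h1 : (2 * m).factorial * (2 * m + 1) ^ 20 ≤ (2 * m + 20).factorial :=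
      Nat.factorial_mul_pow_le_factorial
    have h2 : (((2 * m).factorial * (2 * m + 1) ^ 20 : ℕ) : ℝ) ≤ ((2 * m + 20).factorial : ℝ) := by
      exact_mod_cast h1
    push_cast at h2
    have h3 : 2 * (m + 10) = 2 * m + 20 := by ring
    rw [h3]
    refine le_trans ?_ h2
    gcongr
    linarith
  have c3 := fact_le m hm
  have c4 : (m : ℝ) ^ m * (m : ℝ) ^ 10 ≤ ((m : ℝ) + 10) ^ (m + 10) := by
    rw [← pow_add]
    gcongr
    linarith
  -- the identity for the powers of `2 p`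
  have c1 : ((2 * (m + 10) : ℕ) : ℝ) ^ (2 * (m + 10)) * Real.pi ^ (2 * (m + 10)) =
      ((m : ℝ) + 10) ^ (m + 10) * (4 * Real.pi ^ 2 * ((m + 10 : ℕ) : ℝ)) ^ (m + 10) := by
    rw [← mul_pow, pow_mul, ← mul_pow]
    congr 1
    push_cast
    ring
  have hq : (0 : ℝ) < (4 * Real.pi ^ 2 * ((m + 10 : ℕ) : ℝ)) ^ (m + 10) := by positivity
  have c1' : ((2 * (m + 10) : ℕ) : ℝ) ^ (2 * (m + 10)) / (4 * Real.pi ^ 2 * ((m + 10 : ℕ) : ℝ)) ^ (m + 10) =
      ((m : ℝ) + 10) ^ (m + 10) / Real.pi ^ (2 * (m + 10)) := by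
    rw [div_eq_div_iff hq.ne' (by positivity), c1]
  calc (2 * Real.exp 1 / Real.pi) ^ (m + 10) *
      (2 ^ 10 * ((m : ℝ) ^ 10 / √m) * X ^ 20 /
        (Real.exp 11 * ((11).factorial : ℝ) ^ 2 * Real.pi ^ 10))
      = ((2 * m).factorial : ℝ) * (2 * m : ℝ) ^ 20 * ((m : ℝ) ^ m * (m : ℝ) ^ 10) *
          (Real.pi ^ m * 2 ^ m * X ^ 20) /
          (((2 * m).factorial : ℝ) * (Real.exp 1 * √m * (m / Real.exp 1) ^ m) * (m : ℝ) ^ 20 *
            ((11).factorial : ℝ) ^ 2 * Real.pi ^ (2 * (m + 10))) := by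
        rw [show (11 : ℝ) = ((11 : ℕ) : ℝ) * 1 by norm_num, Real.exp_nat_mul,
          show 2 * (m + 10) = m + m + 20 by ring, div_pow, div_pow]
        simp only [pow_add, mul_pow]
        field_simp
    _ ≤ ((2 * (m + 10)).factorial : ℝ) * ((m : ℝ) + 10) ^ (m + 10) *
          (Real.pi ^ m * 2 ^ m * X ^ 20) /
          (((2 * m).factorial : ℝ) * (m.factorial : ℝ) * (m : ℝ) ^ 20 *
            ((11).factorial : ℝ) ^ 2 * Real.pi ^ (2 * (m + 10))) := by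
        gcongr
    _ = ((2 * (m + 10)).factorial : ℝ) *
          (((m : ℝ) + 10) ^ (m + 10) / Real.pi ^ (2 * (m + 10))) *
          ((Real.pi ^ m * 2 ^ m * m.factorial / (2 * m).factorial * X ^ 20) /
            ((m.factorial : ℝ) ^ 2 * (m : ℝ) ^ 20 * ((11).factorial : ℝ) ^ 2)) := by
        field_simp
    _ = _ := by
        rw [← c1']
        field_simp

-- MODULE xh
/-- `ρ² = 1 - 1/M`, `ρ^(M²) ≤ exp (-M/2)` -/
theorem small : ∀ᶠ M : ℕ in atTop,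
    √(1 - 1 / (M : ℝ)) ^ (M ^ 2) ≤ 1 / 12 * (M : ℝ) ^ (-(9 / 10) : ℝ) := by
  have h1 := tendsto_rpow_mul_exp_neg_mul_atTop_nhds_zero (9 / 10) (1 / 2) (by norm_num)
  have h2 : ∀ᶠ x : ℝ in atTop, x ^ (9 / 10 : ℝ) * Real.exp (-(1 / 2) * x) < 1 / 12 :=
    h1.eventually (gt_mem_nhds (by norm_num))
  have h3 := tendsto_natCast_atTop_atTop (R := ℝ) |>.eventually h2
  filter_upwards [h3, eventually_ge_atTop 1] with M hM hM1
  have hM0 : (0 : ℝ) < M := by exact_mod_cast hM1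
  have h4 : √(1 - 1 / (M : ℝ)) ≤ Real.exp (-(1 / (2 * M))) := by
    rw [Real.sqrt_le_left (Real.exp_pos _).le, ← Real.exp_nat_mul]
    have h5 := Real.add_one_le_exp (-(1 / (M : ℝ)))
    have h6 : ((2 : ℕ) : ℝ) * -(1 / (2 * (M : ℝ))) = -(1 / (M : ℝ)) := by
      push_cast
      field_simp
    rw [h6]
    linarith
  have h7 : √(1 - 1 / (M : ℝ)) ^ (M ^ 2) ≤ Real.exp (-(1 / 2) * M) := by
    calc √(1 - 1 / (M : ℝ)) ^ (M ^ 2) ≤ Real.exp (-(1 / (2 * M))) ^ (M ^ 2) := by gcongr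
      _ = Real.exp (-(1 / 2) * M) := by
        rw [← Real.exp_nat_mul]
        congr 1
        push_cast
        field_simp
  refine h7.trans ?_
  have h8 : 0 < (M : ℝ) ^ (9 / 10 : ℝ) := Real.rpow_pos_of_pos hM0 _
  rw [Real.rpow_neg hM0.le, ← div_eq_mul_inv, le_div_iff₀ h8]
  rw [mul_comm] at hM
  exact hM.le

/-- `m = M²`, `X = M^(-9/10) / 960` : the factor is `C M` -/
theorem big (C : ℝ) (hC : 0 < C) : ∀ᶠ M : ℕ in atTop,
    1 < C * ((((M ^ 2 : ℕ) : ℝ) ^ 10 / √((M ^ 2 : ℕ) : ℝ)) *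
      (1 / 960 * (M : ℝ) ^ (-(9 / 10) : ℝ)) ^ 20) := by
  have h1 : Tendsto (fun M : ℕ => C * (1 / 960) ^ 20 * (M : ℝ)) atTop atTop :=
    tendsto_natCast_atTop_atTop.const_mul_atTop (by positivity)
  filter_upwards [h1.eventually_gt_atTop 1, eventually_ge_atTop 1] with M hM hM1
  have hM0 : (0 : ℝ) < M := by exact_mod_cast hM1
  have h2 : √((M ^ 2 : ℕ) : ℝ) = M := by
    push_cast
    exact Real.sqrt_sq hM0.le
  have h3 : ((M : ℝ) ^ (-(9 / 10) : ℝ)) ^ 20 = ((M : ℝ) ^ 18)⁻¹ := by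
    rw [← Real.rpow_natCast, ← Real.rpow_mul hM0.le, ← Real.rpow_natCast, ← Real.rpow_neg hM0.le]
    congr 1
    norm_num
  rw [h2, mul_pow, h3]
  refine hM.trans_eq ?_
  push_cast
  field_simp

-- MODULE xi
/-- `I0_ge`, `mean_swap`, `KK_volume` (`k = 10`, `q = m = M²`, `ρ = √(1 - 1/M)`,
`β = (1/6) M^(-9/10)`), `small`, `gam_ge`, `num`, `big` -/
theorem exists_large : ∃ n : ℕ, 1 ≤ n ∧ (2 * Real.exp 1 / Real.pi) ^ n < a (2 * n) := by
  set C : ℝ := 2 ^ 10 / (Real.exp 11 * ((11).factorial : ℝ) ^ 2 * Real.pi ^ 10) with hC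
  have hpi := Real.pi_pos
  have hC0 : 0 < C := by positivity
  obtain ⟨M, hsm, hbig, hM⟩ := (small.and ((big C hC0).and (eventually_ge_atTop 2))).exists
  have hM0 : (0 : ℝ) < M := by
    have : 0 < M := by omega
    exact_mod_cast this
  have hM1 : (1 : ℝ) ≤ M := by
    have : 1 ≤ M := by omega
    exact_mod_cast this
  have hm : 1 ≤ M ^ 2 := Nat.one_le_pow _ _ (by omega)
  set m := M ^ 2 with hmdef
  obtain ⟨f1, f2, f3, f4, f5⟩ := frm_facts m hm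
  have hinv : 1 / (M : ℝ) ≤ 1 := by
    rw [div_le_one hM0]
    exact hM1
  have hinv0 : 0 < 1 / (M : ℝ) := by positivity
  have hρ0 : 0 ≤ √(1 - 1 / (M : ℝ)) := Real.sqrt_nonneg _
  have hρ2 : √(1 - 1 / (M : ℝ)) ^ 2 = 1 - 1 / M := Real.sq_sqrt (by linarith)
  have hρ1 : √(1 - 1 / (M : ℝ)) < 1 := by
    rw [Real.sqrt_lt' one_pos]
    linarith
  set R := (M : ℝ) ^ (-(9 / 10) : ℝ) with hR
  have hR0 : 0 < R := Real.rpow_pos_of_pos hM0 _
  have hmean := mean_swap m hρ0 hρ1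
    ((∏ j ∈ Finset.range m, Real.pi / (2 * j + 1)) * (1 / 6 * R)) (fun z hz => by
      have h := I0_ge M hM z (by rw [hz, hρ2])
      exact h)
  have hβ : √(1 - 1 / (M : ℝ)) ^ m ≤ 1 / 6 * R := by
    refine hsm.trans ?_
    nlinarith
  have hvol := KK_volume m 10 m (by norm_num) (frm m) f3 f4 f5 hρ0 hρ1 (1 / 6 * R) hβ hmean
  have hP : 0 ≤ ∏ j ∈ Finset.range m, Real.pi / (2 * (j : ℝ) + 1) := by positivity
  set X := 1 / 960 * R with hX
  have hX0 : 0 ≤ X := by positivity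
  have hB : ENNReal.ofReal ((∏ j ∈ Finset.range m, Real.pi / (2 * (j : ℝ) + 1)) * X ^ 20) ≤
      MeasureTheory.volume (KK (frm m) (2 * (m + 10))) := by
    have e1 : 2 * (m + 10) = 2 * m + 2 * 10 := by ring
    rw [e1]
    refine le_trans (ENNReal.ofReal_le_ofReal ?_) hvol
    have h1 : X ≤ (1 / 6 * R - √(1 - 1 / (M : ℝ)) ^ m) / (8 * ((10 : ℕ) : ℝ)) := by
      rw [hX, le_div_iff₀ (by norm_num)]
      push_cast
      linarith
    have h2 : X ^ 20 ≤ ((1 / 6 * R - √(1 - 1 / (M : ℝ)) ^ m) / (8 * ((10 : ℕ) : ℝ))) ^ (2 * 10) :=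
      pow_le_pow_left₀ hX0 h1 20
    exact mul_le_mul_of_nonneg_left h2 hP
  have hg := gam_ge (frm m) f1 f2 (m + 10) (by omega) _ hB
  have hn := num m hm X hX0
  refine ⟨m + 10, by omega, ?_⟩
  rw [a]
  have hbig' : 1 < 2 ^ 10 * ((m : ℝ) ^ 10 / √m) * X ^ 20 /
        (Real.exp 11 * ((11).factorial : ℝ) ^ 2 * Real.pi ^ 10) := by
    refine hbig.trans_eq ?_
    rw [hC]
    ring
  have hpos : 0 < (2 * Real.exp 1 / Real.pi) ^ (m + 10) := by positivity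
  calc (2 * Real.exp 1 / Real.pi) ^ (m + 10)
      = (2 * Real.exp 1 / Real.pi) ^ (m + 10) * 1 := (mul_one _).symm
    _ < (2 * Real.exp 1 / Real.pi) ^ (m + 10) * (2 ^ 10 * ((m : ℝ) ^ 10 / √m) * X ^ 20 /
        (Real.exp 11 * ((11).factorial : ℝ) ^ 2 * Real.pi ^ 10)) := by gcongr
    _ ≤ _ := hn
    _ ≤ _ := by gcongr

-- MODULE xj
private theorem xj_pow (n : ℕ) (hn : 1 ≤ n) (ha : 0 ≤ a n) : ∀ j : ℕ, 1 ≤ j → a n ^ j ≤ a (j * n) := by
  intro j hj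
  induction j, hj using Nat.le_induction with
  | base => rw [pow_one, one_mul]
  | succ j hj ih =>
    have h1 : 1 ≤ j * n := Nat.one_le_iff_ne_zero.2 (Nat.mul_ne_zero (by omega) (by omega))
    rw [pow_succ, add_mul, one_mul]
    exact (mul_le_mul_of_nonneg_right ih ha).trans (supermul h1 hn)

/-- `a (j n) ≥ (a n)^j` (`supermul`), `n² (gam n)^(1/n) = n / (n!)^(1/n) (a n)^(1/n)`, `tendsto_fact` -/
theorem limit_ge_pow {c : ℝ}
    (hc : Tendsto (fun n : ℕ => (n : ℝ) ^ 2 * gam n ^ (1 / (n : ℝ))) atTop (𝓝 c)) (n : ℕ)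
    (hn : 1 ≤ n) (ha : 0 < a n) : Real.exp 1 * a n ^ (1 / (n : ℝ)) ≤ c := by
  have hn0 : (0 : ℝ) < n := by exact_mod_cast hn
  have ht : Tendsto (fun j : ℕ => j * n) atTop atTop :=
    tendsto_id.atTop_mul_const' hn
  have h1 := hc.comp ht
  have h2 := (tendsto_fact.comp ht).mul_const (a n ^ (1 / (n : ℝ)))
  refine le_of_tendsto_of_tendsto h2 h1 ?_
  filter_upwards [eventually_ge_atTop 1] with j hj
  have hj0 : (0 : ℝ) < j := by exact_mod_cast hj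
  change ((j * n : ℕ) : ℝ) / ((j * n).factorial : ℝ) ^ (1 / ((j * n : ℕ) : ℝ)) * a n ^ (1 / (n : ℝ)) ≤
    ((j * n : ℕ) : ℝ) ^ 2 * gam (j * n) ^ (1 / ((j * n : ℕ) : ℝ))
  have hN : 1 ≤ j * n := Nat.one_le_iff_ne_zero.2 (Nat.mul_ne_zero (by omega) (by omega))
  have hN0 : (0 : ℝ) < ((j * n : ℕ) : ℝ) := by exact_mod_cast hN
  have hpow : a n ^ j ≤ a (j * n) := xj_pow n hn ha.le j hj
  have hfac : (0 : ℝ) < ((j * n).factorial : ℝ) := by positivity
  have hA : a n ^ (1 / (n : ℝ)) ≤ a (j * n) ^ (1 / ((j * n : ℕ) : ℝ)) := by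
    have e1 : a n ^ (1 / (n : ℝ)) = (a n ^ j) ^ (1 / ((j * n : ℕ) : ℝ)) := by
      rw [← Real.rpow_natCast, ← Real.rpow_mul ha.le]
      congr 1
      push_cast
      field_simp
    rw [e1]
    exact Real.rpow_le_rpow (by positivity) hpow (by positivity)
  have hB : a (j * n) ^ (1 / ((j * n : ℕ) : ℝ)) = ((j * n).factorial : ℝ) ^ (1 / ((j * n : ℕ) : ℝ)) *
      ((j * n : ℕ) : ℝ) * gam (j * n) ^ (1 / ((j * n : ℕ) : ℝ)) := by
    rw [a, Real.mul_rpow (by positivity) (gam_nonneg _), Real.mul_rpow hfac.le (by positivity)]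
    congr 2
    rw [← Real.rpow_natCast, ← Real.rpow_mul hN0.le, mul_one_div_cancel hN0.ne', Real.rpow_one]
  have hf1 : 0 < ((j * n).factorial : ℝ) ^ (1 / ((j * n : ℕ) : ℝ)) := Real.rpow_pos_of_pos hfac _
  calc ((j * n : ℕ) : ℝ) / ((j * n).factorial : ℝ) ^ (1 / ((j * n : ℕ) : ℝ)) * a n ^ (1 / (n : ℝ))
      ≤ ((j * n : ℕ) : ℝ) / ((j * n).factorial : ℝ) ^ (1 / ((j * n : ℕ) : ℝ)) *
        a (j * n) ^ (1 / ((j * n : ℕ) : ℝ)) := by gcongr
    _ = _ := by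
      rw [hB]
      field_simp

-- MODULE xk
theorem limit_gt {c : ℝ}
    (hc : Tendsto (fun n : ℕ => (n : ℝ) ^ 2 * gam n ^ (1 / (n : ℝ))) atTop (𝓝 c)) :
    Real.exp (3 / 2) * √(2 / Real.pi) < c := by
  obtain ⟨n, hn, h⟩ := exists_large
  have hpi := Real.pi_pos
  have hn0 : (0 : ℝ) < n := by exact_mod_cast hn
  have hpos : 0 < (2 * Real.exp 1 / Real.pi) ^ n := by positivity
  have ha : 0 < a (2 * n) := hpos.trans h
  have h1 := limit_ge_pow hc (2 * n) (by omega) ha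
  refine lt_of_lt_of_le ?_ h1
  have h2 : √(2 * Real.exp 1 / Real.pi) = ((2 * Real.exp 1 / Real.pi) ^ n) ^ (1 / ((2 * n : ℕ) : ℝ)) := by
    rw [← Real.rpow_natCast, ← Real.rpow_mul (by positivity), Real.sqrt_eq_rpow]
    congr 1
    push_cast
    field_simp
  have h3 : Real.exp (3 / 2) * √(2 / Real.pi) = Real.exp 1 * √(2 * Real.exp 1 / Real.pi) := by
    rw [show 2 * Real.exp 1 / Real.pi = 2 / Real.pi * Real.exp 1 by ring, Real.sqrt_mul (by positivity),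
      show (3 : ℝ) / 2 = 1 + 1 / 2 by norm_num, Real.exp_add, Real.exp_half]
    ring
  rw [h3, h2]
  have h4 : ((2 * Real.exp 1 / Real.pi) ^ n) ^ (1 / ((2 * n : ℕ) : ℝ)) <
      a (2 * n) ^ (1 / ((2 * n : ℕ) : ℝ)) := by
    apply Real.rpow_lt_rpow hpos.le h
    push_cast
    positivity
  exact mul_lt_mul_of_pos_left h4 (Real.exp_pos 1)

/-- `tendsto_even` -/
theorem even_gt {c : ℝ}
    (hc : Tendsto (fun n : ℕ => (n : ℝ) ^ 2 * gam n ^ (1 / (n : ℝ))) atTop (𝓝 c))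
    (h : Real.exp (3 / 2) * √(2 / Real.pi) < c) :
    ∃ q : ℝ, 1 < q ∧ ∀ᶠ m : ℕ in atTop, q ^ m *
      (1 / ((Real.pi * ((2 * m : ℕ) : ℝ)) ^ m * ((2 * m).factorial : ℝ) * (m.factorial : ℝ))) ≤
        gam (2 * m) := by
  have hpi := Real.pi_pos
  set L := Real.exp (3 / 2) * √(2 / Real.pi) with hL
  have hL0 : 0 < L := by positivity
  have h2 : Tendsto (fun m : ℕ => 2 * m) atTop atTop :=
    tendsto_id.const_mul_atTop' (by norm_num)
  have hc2 := hc.comp h2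
  -- a number between `1` and `c / L`
  obtain ⟨r, hr1, hr2⟩ := exists_between ((one_lt_div hL0).2 h)
  have hr0 : 0 < r := one_pos.trans hr1
  have hrL : r * L < c := (lt_div_iff₀ hL0).1 hr2
  have hev := (tendsto_even.const_mul r).eventually_lt hc2 hrL
  refine ⟨r ^ 2, one_lt_pow₀ hr1 two_ne_zero, ?_⟩
  filter_upwards [hev, eventually_ge_atTop 1] with m hm hm1
  have hm0 : (0 : ℝ) < m := by exact_mod_cast hm1
  change r * (((2 * m : ℕ) : ℝ) ^ 2 * _) < ((2 * m : ℕ) : ℝ) ^ 2 * gam (2 * m) ^ (1 / ((2 * m : ℕ) : ℝ)) at hm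
  set v := 1 / ((Real.pi * ((2 * m : ℕ) : ℝ)) ^ m * ((2 * m).factorial : ℝ) * (m.factorial : ℝ)) with hv
  have hv0 : 0 < v := by positivity
  have hN0 : (0 : ℝ) < ((2 * m : ℕ) : ℝ) := by positivity
  have h3 : r * v ^ (1 / ((2 * m : ℕ) : ℝ)) < gam (2 * m) ^ (1 / ((2 * m : ℕ) : ℝ)) := by
    have h4 : ((2 * m : ℕ) : ℝ) ^ 2 * (r * v ^ (1 / ((2 * m : ℕ) : ℝ))) <
        ((2 * m : ℕ) : ℝ) ^ 2 * gam (2 * m) ^ (1 / ((2 * m : ℕ) : ℝ)) := by
      refine lt_of_eq_of_lt ?_ hm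
      ring
    exact lt_of_mul_lt_mul_left h4 (by positivity)
  have hv1 : 0 < v ^ (1 / ((2 * m : ℕ) : ℝ)) := Real.rpow_pos_of_pos hv0 _
  have h5 := pow_le_pow_left₀ (by positivity) h3.le (2 * m)
  have h6 : (gam (2 * m) ^ (1 / ((2 * m : ℕ) : ℝ))) ^ (2 * m) = gam (2 * m) := by
    rw [← Real.rpow_natCast, ← Real.rpow_mul (gam_nonneg _), one_div_mul_cancel hN0.ne', Real.rpow_one]
  have h7 : (v ^ (1 / ((2 * m : ℕ) : ℝ))) ^ (2 * m) = v := by
    rw [← Real.rpow_natCast, ← Real.rpow_mul hv0.le, one_div_mul_cancel hN0.ne', Real.rpow_one]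
  rw [mul_pow, h6, h7, pow_mul] at h5
  exact h5

end Pool.Agent.Hul
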