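import Pool.Agent.Hul.Cs

/-!
# MP_67b84b_gt, part A: rectifiable curves
-/

set_option autoImplicit false

namespace Pool.Agent.Hul

open MeasureTheory Set Filter Topology

/- MODULE d1 : if `C` is convex and dense in the compact convex set `K`, and `C ⊆ K`, then
`volume K ≤ volume C`.
IDEA: `volume K = volume (interior K)` (`Convex.addHaar_frontier`); if `interior K` is empty,
trivial; else `affineSpan C` is closed, hence everything, so `interior C` is nonempty and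
`interior K = interior (closure C) = interior C`
(`Convex.interior_closure_eq_interior_of_nonempty_interior`). -/
theorem volume_closure_le {n : ℕ} {C : Set (E n)} (hc : Convex ℝ C) :
    volume (closure C) ≤ volume C := by
  rw [closure_eq_interior_union_frontier]
  refine (measure_union_le _ _).trans ?_
  rw [hc.addHaar_frontier volume, add_zero]
  exact measure_mono interior_subset
/- END d1 -/

/- MODULE d2 : the hull of a curve is approximated by the hulls of the dyadic polygons. -/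
theorem volume_hull_le {n : ℕ} {f : ℝ → E n} (hf : ContinuousOn f (Icc 0 1)) (c : ENNReal)
    (h : ∀ N : ℕ, volume (convexHull ℝ (range fun i : Fin (2 ^ N + 1) =>
      f ((i : ℝ) / 2 ^ N))) ≤ c) :
    volume (convexHull ℝ (f '' Icc 0 1)) ≤ c := by
  let P : ℕ → Set (E n) := fun N => range fun i : Fin (2 ^ N + 1) => f ((i : ℝ) / 2 ^ N)
  have hP : ∀ N, P N ⊆ P (N + 1) := by
    rintro N _ ⟨i, rfl⟩
    refine ⟨⟨2 * i, by have := i.2; rw [pow_succ]; omega⟩, ?_⟩
    change f (((2 * (i : ℕ) : ℕ) : ℝ) / 2 ^ (N + 1)) = f (((i : ℕ) : ℝ) / 2 ^ N)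
    congr 1
    push_cast
    rw [pow_succ]
    field_simp
  have hmono : Monotone fun N => convexHull ℝ (P N) :=
    monotone_nat_of_le_succ fun N => convexHull_mono (hP N)
  have hconv : Convex ℝ (⋃ N, convexHull ℝ (P N)) :=
    hmono.directed_le.convex_iUnion fun N => convex_convexHull ℝ _
  have hmem : ∀ t ∈ Icc (0 : ℝ) 1, ∀ N : ℕ, ∃ i : Fin (2 ^ N + 1), (i : ℕ) = ⌊t * 2 ^ N⌋₊ := by
    intro t ht N
    have h1 : ⌊t * 2 ^ N⌋₊ ≤ 2 ^ N := by
      refine Nat.floor_le_of_le ?_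
      push_cast
      nlinarith [ht.2, pow_pos (two_pos : (0 : ℝ) < 2) N]
    exact ⟨⟨⌊t * 2 ^ N⌋₊, by omega⟩, rfl⟩
  have hsub : f '' Icc 0 1 ⊆ closure (⋃ N, convexHull ℝ (P N)) := by
    rintro _ ⟨t, ht, rfl⟩
    have hlim : Tendsto (fun N : ℕ => (⌊t * 2 ^ N⌋₊ : ℝ) / 2 ^ N) atTop (𝓝 t) :=
      (tendsto_nat_floor_mul_div_atTop ht.1).comp
        (tendsto_pow_atTop_atTop_of_one_lt (one_lt_two : (1 : ℝ) < 2))
    have hin : ∀ N : ℕ, (⌊t * 2 ^ N⌋₊ : ℝ) / 2 ^ N ∈ Icc (0 : ℝ) 1 := by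
      intro N
      obtain ⟨i, hi⟩ := hmem t ht N
      have h2 : (i : ℕ) ≤ 2 ^ N := by have := i.2; omega
      rw [← hi]
      refine ⟨by positivity, ?_⟩
      rw [div_le_one (by positivity)]
      exact_mod_cast h2
    have hf2 : Tendsto (fun N : ℕ => f ((⌊t * 2 ^ N⌋₊ : ℝ) / 2 ^ N)) atTop (𝓝 (f t)) :=
      (hf t ht).tendsto.comp (tendsto_nhdsWithin_iff.2 ⟨hlim, Eventually.of_forall hin⟩)
    refine mem_closure_of_tendsto hf2 (Eventually.of_forall fun N => ?_)
    obtain ⟨i, hi⟩ := hmem t ht N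
    refine mem_iUnion.2 ⟨N, subset_convexHull ℝ _ ⟨i, ?_⟩⟩
    change f (((i : ℕ) : ℝ) / 2 ^ N) = _
    rw [hi]
  have h1 : convexHull ℝ (f '' Icc 0 1) ⊆ closure (⋃ N, convexHull ℝ (P N)) :=
    convexHull_min hsub hconv.closure
  refine (measure_mono h1).trans ((volume_closure_le hconv).trans ?_)
  rw [hmono.measure_iUnion]
  exact iSup_le fun N => h N
/- END d2 -/

/- MODULE d3 : the length of an inscribed polygon (`eVariationOn.sum_le`). -/
theorem sum_norm_le {n : ℕ} {f : ℝ → E n} (hf : eVariationOn f (Icc 0 1) ≠ ⊤) (N : ℕ) :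
    ∑ i : Fin (2 ^ N), ‖f ((i.succ : ℝ) / 2 ^ N) - f ((i.castSucc : ℝ) / 2 ^ N)‖ ≤ len f := by
  have h1 : (∑ i ∈ Finset.range (2 ^ N), edist (f (((i + 1 : ℕ) : ℝ) / 2 ^ N))
      (f ((i : ℝ) / 2 ^ N))) ≤ eVariationOn f (Icc 0 1) := by
    refine eVariationOn.sum_le_of_monotoneOn_Iic (u := fun i : ℕ => (i : ℝ) / 2 ^ N) ?_ ?_
    · intro i _ j _ hij
      have : (i : ℝ) ≤ j := by exact_mod_cast hij
      exact div_le_div_of_nonneg_right this (by positivity)
    · intro i hi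
      refine ⟨by positivity, ?_⟩
      rw [div_le_one (by positivity)]
      exact_mod_cast hi
  have h2 := ENNReal.toReal_mono hf h1
  refine le_trans (le_of_eq ?_) h2
  rw [ENNReal.toReal_sum fun i _ => edist_ne_top _ _, Finset.sum_range]
  refine Finset.sum_congr rfl fun i _ => ?_
  rw [← dist_edist, dist_eq_norm]
  simp
/- END d3 -/

/- MODULE d4 : the upper bound for curves. -/
theorem upper_enn {n : ℕ} (hn : 1 ≤ n) {f : ℝ → E n} (hf : Curve f) :
    volume (convexHull ℝ (f '' Icc 0 1)) ≤ ENNReal.ofReal (upp n * len f ^ n) := by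
  refine volume_hull_le hf.cont _ fun N => ?_
  have h0 : f (((0 : Fin (2 ^ N + 1)) : ℝ) / 2 ^ N) =
      f (((Fin.last (2 ^ N) : Fin (2 ^ N + 1)) : ℝ) / 2 ^ N) := by
    rw [Fin.val_last, Fin.val_zero]
    push_cast
    rw [zero_div, div_self (by positivity)]
    exact hf.closed
  refine (polygon hn (fun i : Fin (2 ^ N + 1) => f ((i : ℝ) / 2 ^ N)) h0).trans ?_
  refine ENNReal.ofReal_le_ofReal (mul_le_mul_of_nonneg_left ?_ ?_)
  · exact pow_le_pow_left₀ (Finset.sum_nonneg fun _ _ => norm_nonneg _)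
      (sum_norm_le hf.rect N) n
  · unfold upp
    positivity

theorem upper {n : ℕ} (hn : 1 ≤ n) {f : ℝ → E n} (hf : Curve f) :
    vol f ≤ upp n * len f ^ n := by
  refine ENNReal.toReal_le_of_le_ofReal ?_ (upper_enn hn hf)
  have : 0 ≤ len f := ENNReal.toReal_nonneg
  unfold upp
  positivity

theorem upp_pos {n : ℕ} (hn : 1 ≤ n) : 0 < upp n := by
  have : (0 : ℝ) < n := by exact_mod_cast hn
  unfold upp
  positivity

theorem len_pos {n : ℕ} {f : ℝ → E n} (hf : Curve f) : 0 < len f := by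
  have h0 : (0 : ℝ) ∈ Icc (0 : ℝ) 1 := ⟨le_rfl, zero_le_one⟩
  have h1 : (1 / 2 : ℝ) ∈ Icc (0 : ℝ) 1 := ⟨by norm_num, by norm_num⟩
  have hne : f 0 ≠ f (1 / 2) := fun h => by
    have := hf.simple ⟨le_rfl, zero_lt_one⟩ ⟨by norm_num, by norm_num⟩ h
    norm_num at this
  have h2 := eVariationOn.edist_le f h0 h1
  have h3 : 0 < edist (f 0) (f (1 / 2)) := edist_pos.2 hne
  exact ENNReal.toReal_pos (h3.trans_le h2).ne' hf.rect

theorem ratios_le {n : ℕ} (hn : 1 ≤ n) : ∀ q ∈ ratios n, q ≤ upp n := by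
  rintro q ⟨f, hf, rfl⟩
  rw [div_le_iff₀ (pow_pos (len_pos hf) n)]
  exact upper hn hf

theorem gam_le {n : ℕ} (hn : 1 ≤ n) : gam n ≤ upp n := by
  exact Real.sSup_le (ratios_le hn) (upp_pos hn).le

theorem le_gam {n : ℕ} (hn : 1 ≤ n) {f : ℝ → E n} (hf : Curve f) :
    vol f / len f ^ n ≤ gam n := by
  exact le_csSup ⟨upp n, fun q hq => ratios_le hn q hq⟩ ⟨f, hf, rfl⟩

theorem gam_nonneg (n : ℕ) : 0 ≤ gam n := by
  refine Real.sSup_nonneg ?_
  rintro q ⟨f, hf, rfl⟩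
  exact div_nonneg ENNReal.toReal_nonneg (pow_nonneg ENNReal.toReal_nonneg _)
/- END d4 -/

end Pool.Agent.Hul
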